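import Pool.Agent.Lib.MP_95bb8c_al.Defs

set_option autoImplicit false
set_option linter.unusedSectionVars false

/-!
# The Cheeger inequality for a multigraph whose cuts are large
-/

namespace Pool.Agent.Lib.MP_95bb8c_al.PX

open Finset

variable {V E : Type} [Fintype V] [DecidableEq V] [Fintype E] [DecidableEq E]

/-- Coarea: the total variation of a nonnegative function with small support. -/
theorem y1_coarea (s t : E → V) (k : ℚ)
    (hk : ∀ T : Finset V, 2 * T.card ≤ Fintype.card V → k * T.card ≤ (cut s t T).card)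
    (w : V → ℚ) (hw : ∀ v, 0 ≤ w v)
    (hs : 2 * (univ.filter fun v => w v ≠ 0).card ≤ Fintype.card V) :
    k * ∑ v, w v ≤ ∑ e, |w (s e) - w (t e)| := by
  obtain ⟨m, hm⟩ : ∃ m, m = (univ.filter fun v => w v ≠ 0).card := ⟨_, rfl⟩
  induction m using Nat.strong_induction_on generalizing w with
  | _ m ih =>
    subst hm
    by_cases h0 : (univ.filter fun v => w v ≠ 0) = ∅
    · have h1 : ∀ v, w v = 0 := by
        intro v
        by_contra h
        exact Finset.notMem_empty v (h0 ▸ Finset.mem_filter.2 ⟨mem_univ _, h⟩)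
      simp [h1]
    · set T := univ.filter fun v => w v ≠ 0 with hT
      have hTn : T.Nonempty := Finset.nonempty_iff_ne_empty.2 h0
      obtain ⟨v₀, hv₀, hmin⟩ := T.exists_min_image w hTn
      have hμ : 0 < w v₀ := lt_of_le_of_ne (hw v₀) (Ne.symm (Finset.mem_filter.1 hv₀).2)
      set w' : V → ℚ := fun v => if v ∈ T then w v - w v₀ else 0 with hw'
      have hwT : ∀ v, v ∉ T → w v = 0 := by
        intro v hv
        by_contra h
        exact hv (Finset.mem_filter.2 ⟨mem_univ _, h⟩)
      have hw'0 : ∀ v, 0 ≤ w' v := by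
        intro v
        simp only [hw']
        split_ifs with h
        · exact sub_nonneg.2 (hmin v h)
        · exact le_rfl
      have hlt : (univ.filter fun v => w' v ≠ 0).card < T.card := by
        refine Finset.card_lt_card (Finset.ssubset_iff_subset_ne.2 ⟨?_, ?_⟩)
        · intro v hv
          by_contra h
          refine (Finset.mem_filter.1 hv).2 ?_
          simp only [hw', if_neg h]
        · intro h
          have h1 : v₀ ∈ univ.filter fun v => w' v ≠ 0 := by rw [h]; exact hv₀
          refine (Finset.mem_filter.1 h1).2 ?_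
          simp only [hw', if_pos hv₀, sub_self]
      have h2 := ih _ hlt w' hw'0 (by omega) rfl
      have h3 : ∑ v, w v = ∑ v, w' v + w v₀ * T.card := by
        have h4 : ∀ v, w v = w' v + if v ∈ T then w v₀ else 0 := by
          intro v
          simp only [hw']
          split_ifs with h
          · ring
          · rw [hwT v h]; ring
        have h4' : (∑ v : V, if v ∈ T then w v₀ else 0) = w v₀ * T.card := by
          rw [Finset.sum_ite_mem, Finset.univ_inter, Finset.sum_const, nsmul_eq_mul, mul_comm]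
        rw [Finset.sum_congr rfl fun v _ => h4 v, Finset.sum_add_distrib, h4']
      have h5 : ∑ e, |w (s e) - w (t e)| =
          ∑ e, |w' (s e) - w' (t e)| + w v₀ * (cut s t T).card := by
        have h6 : ∀ e, |w (s e) - w (t e)| = |w' (s e) - w' (t e)| +
            if e ∈ cut s t T then w v₀ else 0 := by
          intro e
          simp only [hw', cut, Finset.mem_filter, Finset.mem_univ, true_and]
          by_cases h7 : s e ∈ T <;> by_cases h8 : t e ∈ T
          · simp only [h7, h8, if_true, not_true_eq_false, if_false, add_zero]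
            congr 1; ring
          · simp only [h7, h8, if_true, if_false, iff_false, not_true_eq_false, not_false_eq_true,
              sub_zero]
            rw [hwT _ h8, sub_zero, abs_of_nonneg (hw _),
              abs_of_nonneg (sub_nonneg.2 (hmin _ h7))]
            ring
          · simp only [h7, h8, if_true, if_false, iff_true, not_false_eq_true, zero_sub, abs_neg]
            rw [hwT _ h7, zero_sub, abs_neg, abs_of_nonneg (hw _),
              abs_of_nonneg (sub_nonneg.2 (hmin _ h8))]
            ring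
          · simp only [h7, h8, if_false, not_true_eq_false, add_zero, sub_self, abs_zero]
            rw [hwT _ h7, hwT _ h8, sub_self, abs_zero]
        rw [Finset.sum_congr rfl fun e _ => h6 e, Finset.sum_add_distrib, Finset.sum_ite_mem,
          Finset.univ_inter, Finset.sum_const, nsmul_eq_mul]
        ring
      have h6 := mul_le_mul_of_nonneg_left (hk T hs) hμ.le
      rw [h3, h5, mul_add]
      nlinarith

/-- A median. -/
theorem y1_median [Nonempty V] (x : V → ℚ) :
    ∃ m, 2 * (univ.filter fun v => m < x v).card ≤ Fintype.card V ∧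
      2 * (univ.filter fun v => x v < m).card ≤ Fintype.card V := by
  classical
  set A : Finset ℚ := (univ.image x).filter fun m =>
    2 * (univ.filter fun v => m < x v).card ≤ Fintype.card V with hA
  have hAn : A.Nonempty := by
    obtain ⟨v₀, -, hv₀⟩ := (univ : Finset V).exists_max_image x univ_nonempty
    refine ⟨x v₀, Finset.mem_filter.2 ⟨Finset.mem_image_of_mem _ (mem_univ _), ?_⟩⟩
    rw [Finset.filter_false_of_mem]
    · simp
    · intro v _
      exact not_lt.2 (hv₀ v (mem_univ _))
  obtain ⟨m, hm, hmin⟩ := A.exists_min_image id hAn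
  refine ⟨m, (Finset.mem_filter.1 hm).2, ?_⟩
  by_contra hcon
  push Not at hcon
  have hne : (univ.filter fun v => x v < m).Nonempty := by
    rw [← Finset.card_pos]; omega
  obtain ⟨v₁, hv₁, hmax⟩ := (univ.filter fun v => x v < m).exists_max_image x hne
  have hv₁m := (Finset.mem_filter.1 hv₁).2
  have h1 : x v₁ ∈ A := by
    refine Finset.mem_filter.2 ⟨Finset.mem_image_of_mem _ (mem_univ _), ?_⟩
    have h2 : (univ.filter fun v => x v₁ < x v) ⊆ univ.filter fun v => ¬ x v < m := by
      intro v hv
      refine Finset.mem_filter.2 ⟨mem_univ _, fun h => ?_⟩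
      exact absurd (hmax v (Finset.mem_filter.2 ⟨mem_univ _, h⟩)) (not_le.2
        (Finset.mem_filter.1 hv).2)
    have h3 := Finset.card_le_card h2
    have h4 := Finset.card_filter_add_card_filter_not (s := (univ : Finset V))
      (p := fun v => x v < m)
    rw [Finset.card_univ] at h4
    omega
  exact absurd (hmin _ h1) (not_le.2 hv₁m)

/-- The one-sided form of Cheeger's inequality. -/
theorem y1_onesided (s t : E → V) (hl : ∀ e, s e ≠ t e) (c D : ℚ) (hc : 0 ≤ c) (hD : 0 < D)
    (hdeg : ∀ v, ((cut s t {v}).card : ℚ) ≤ D)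
    (hk : ∀ T : Finset V, 2 * T.card ≤ Fintype.card V → c * D * T.card ≤ (cut s t T).card)
    (y : V → ℚ) (hy : ∀ v, 0 ≤ y v)
    (hs : 2 * (univ.filter fun v => y v ≠ 0).card ≤ Fintype.card V) :
    c ^ 2 / 2 * D * ∑ v, y v ^ 2 ≤ ∑ e, (y (s e) - y (t e)) ^ 2 := by
  have h1 := y1_coarea s t (c * D) hk (fun v => y v ^ 2) (fun v => sq_nonneg _) (by
    have : (univ.filter fun v => y v ^ 2 ≠ 0) = univ.filter fun v => y v ≠ 0 := by
      ext v; simp
    rw [this]; exact hs)
  -- sum over the edges of y^2 at the ends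
  have h2 : ∑ e, (y (s e) ^ 2 + y (t e) ^ 2) ≤ D * ∑ v, y v ^ 2 := by
    have h3 : ∑ e, (y (s e) ^ 2 + y (t e) ^ 2) = ∑ v, ((cut s t {v}).card : ℚ) * y v ^ 2 := by
      have h4 : ∀ e, y (s e) ^ 2 + y (t e) ^ 2 =
          ∑ v, if e ∈ cut s t {v} then y v ^ 2 else 0 := by
        intro e
        have h5 : ∀ v, (if e ∈ cut s t {v} then y v ^ 2 else 0) =
            (if v = s e then y v ^ 2 else 0) + (if v = t e then y v ^ 2 else 0) := by
          intro v
          simp only [cut, Finset.mem_filter, Finset.mem_univ, true_and, Finset.mem_singleton]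
          have hle := hl e
          by_cases h6 : s e = v
          · have h7 : t e ≠ v := fun h => hle (h6.trans h.symm)
            simp [h6, h7, Ne.symm h7]
          · by_cases h7 : t e = v
            · simp [h6, h7, Ne.symm h6]
            · simp [h6, h7, Ne.symm h6, Ne.symm h7]
        rw [Finset.sum_congr rfl fun v _ => h5 v, Finset.sum_add_distrib, Finset.sum_ite_eq',
          Finset.sum_ite_eq']
        simp
      rw [Finset.sum_congr rfl fun e _ => h4 e, Finset.sum_comm]
      refine Finset.sum_congr rfl fun v _ => ?_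
      rw [Finset.sum_ite_mem, Finset.univ_inter, Finset.sum_const, nsmul_eq_mul]
    rw [h3, Finset.mul_sum]
    exact Finset.sum_le_sum fun v _ => mul_le_mul_of_nonneg_right (hdeg v) (sq_nonneg _)
  set X := ∑ v, y v ^ 2 with hX
  set Y := ∑ e, (y (s e) - y (t e)) ^ 2 with hY
  have hX0 : 0 ≤ X := Finset.sum_nonneg fun v _ => sq_nonneg _
  have hY0 : 0 ≤ Y := Finset.sum_nonneg fun v _ => sq_nonneg _
  -- Cauchy-Schwarz
  have h3 : (∑ e, |y (s e) ^ 2 - y (t e) ^ 2|) ^ 2 ≤ Y * (2 * (D * X)) := by
    have h4 : ∀ e, |y (s e) ^ 2 - y (t e) ^ 2| = |y (s e) - y (t e)| * (y (s e) + y (t e)) := by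
      intro e
      have : y (s e) ^ 2 - y (t e) ^ 2 = (y (s e) - y (t e)) * (y (s e) + y (t e)) := by ring
      rw [this, abs_mul, abs_of_nonneg (add_nonneg (hy _) (hy _))]
    rw [Finset.sum_congr rfl fun e _ => h4 e]
    refine (Finset.sum_mul_sq_le_sq_mul_sq _ _ _).trans ?_
    simp only [sq_abs]
    refine mul_le_mul_of_nonneg_left ?_ hY0
    refine le_trans ?_ (mul_le_mul_of_nonneg_left h2 (by norm_num))
    rw [Finset.mul_sum]
    refine Finset.sum_le_sum fun e _ => ?_
    nlinarith [sq_nonneg (y (s e) - y (t e))]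
  have h5 : (c * D * X) ^ 2 ≤ Y * (2 * (D * X)) :=
    (pow_le_pow_left₀ (mul_nonneg (mul_nonneg hc hD.le) hX0) h1 2).trans h3
  rcases hX0.eq_or_lt with h6 | h6
  · rw [← h6, mul_zero]; exact hY0
  · have h7 : D * X * (c ^ 2 * D * X) ≤ D * X * (2 * Y) := by nlinarith
    have h8 := le_of_mul_le_mul_left h7 (mul_pos hD h6)
    nlinarith

/-- Cheeger's inequality with the median. -/
theorem y1_cheeger [Nonempty V] (s t : E → V) (hl : ∀ e, s e ≠ t e) (c D : ℚ) (hc : 0 ≤ c)
    (hD : 0 < D) (hdeg : ∀ v, ((cut s t {v}).card : ℚ) ≤ D)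
    (hk : ∀ T : Finset V, 2 * T.card ≤ Fintype.card V → c * D * T.card ≤ (cut s t T).card)
    (x : V → ℚ) :
    ∃ m, c ^ 2 / 2 * D * ∑ v, (x v - m) ^ 2 ≤ ∑ e, (x (s e) - x (t e)) ^ 2 := by
  obtain ⟨m, hm1, hm2⟩ := y1_median x
  refine ⟨m, ?_⟩
  have h1 := y1_onesided s t hl c D hc hD hdeg hk (fun v => max (x v - m) 0)
    (fun v => le_max_right _ _) (by
      refine le_trans (Nat.mul_le_mul_left 2 (Finset.card_le_card ?_)) hm1
      intro v hv
      refine Finset.mem_filter.2 ⟨mem_univ _, ?_⟩
      by_contra h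
      exact (Finset.mem_filter.1 hv).2 (max_eq_right (by linarith [not_lt.1 h])))
  have h2 := y1_onesided s t hl c D hc hD hdeg hk (fun v => max (m - x v) 0)
    (fun v => le_max_right _ _) (by
      refine le_trans (Nat.mul_le_mul_left 2 (Finset.card_le_card ?_)) hm2
      intro v hv
      refine Finset.mem_filter.2 ⟨mem_univ _, ?_⟩
      by_contra h
      exact (Finset.mem_filter.1 hv).2 (max_eq_right (by linarith [not_lt.1 h])))
  have h3 : ∑ v, (x v - m) ^ 2 = ∑ v, max (x v - m) 0 ^ 2 + ∑ v, max (m - x v) 0 ^ 2 := by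
    rw [← Finset.sum_add_distrib]
    refine Finset.sum_congr rfl fun v _ => ?_
    rcases le_total (x v) m with h | h
    · rw [max_eq_right (by linarith), max_eq_left (by linarith)]; ring
    · rw [max_eq_left (by linarith), max_eq_right (by linarith)]; ring
  have h4 : ∑ e, (max (x (s e) - m) 0 - max (x (t e) - m) 0) ^ 2 +
      ∑ e, (max (m - x (s e)) 0 - max (m - x (t e)) 0) ^ 2 ≤ ∑ e, (x (s e) - x (t e)) ^ 2 := by
    rw [← Finset.sum_add_distrib]
    refine Finset.sum_le_sum fun e _ => ?_
    rcases le_total (x (s e)) m with h | h <;> rcases le_total (x (t e)) m with h' | h'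
    · rw [max_eq_right (by linarith : x (s e) - m ≤ 0), max_eq_right (by linarith : x (t e) - m ≤ 0),
        max_eq_left (by linarith : 0 ≤ m - x (s e)), max_eq_left (by linarith : 0 ≤ m - x (t e))]
      nlinarith
    · rw [max_eq_right (by linarith : x (s e) - m ≤ 0), max_eq_left (by linarith : 0 ≤ x (t e) - m),
        max_eq_left (by linarith : 0 ≤ m - x (s e)), max_eq_right (by linarith : m - x (t e) ≤ 0)]
      nlinarith [mul_nonneg (sub_nonneg.2 h) (sub_nonneg.2 h')]
    · rw [max_eq_left (by linarith : 0 ≤ x (s e) - m), max_eq_right (by linarith : x (t e) - m ≤ 0),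
        max_eq_right (by linarith : m - x (s e) ≤ 0), max_eq_left (by linarith : 0 ≤ m - x (t e))]
      nlinarith [mul_nonneg (sub_nonneg.2 h) (sub_nonneg.2 h')]
    · rw [max_eq_left (by linarith : 0 ≤ x (s e) - m), max_eq_left (by linarith : 0 ≤ x (t e) - m),
        max_eq_right (by linarith : m - x (s e) ≤ 0), max_eq_right (by linarith : m - x (t e) ≤ 0)]
      nlinarith
  rw [h3, mul_add]
  exact (add_le_add h1 h2).trans h4

/-- Cheeger's inequality: large cuts give a Poincare inequality on the vertices. -/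
theorem cheeger {s t : E → V} (hl : ∀ e, s e ≠ t e) (D c : ℚ) (hD : 0 < D) (hc : 0 ≤ c)
    (hdeg : ∀ v, ((cut s t {v}).card : ℚ) ≤ D)
    (hcut : ∀ T : Finset V, 2 * T.card ≤ Fintype.card V → c * D * T.card ≤ ((cut s t T).card : ℚ))
    (g : V → ℚ) :
    ∃ r : ℚ, c ^ 2 * D * ∑ v, (g v - r) ^ 2 ≤ 2 * ∑ e, (g (s e) - g (t e)) ^ 2 := by
  rcases isEmpty_or_nonempty V with hV | hV
  · refine ⟨0, ?_⟩
    rw [Finset.univ_eq_empty, Finset.sum_empty, mul_zero]
    exact mul_nonneg (by norm_num) (Finset.sum_nonneg fun e _ => sq_nonneg _)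
  · obtain ⟨r, hr⟩ := y1_cheeger s t hl c D hc hD hdeg hcut g
    exact ⟨r, by linarith⟩

end Pool.Agent.Lib.MP_95bb8c_al.PX
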