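import Pool.Agent.Lib.MP_95bb8c_al.PX.UDefs

set_option autoImplicit false
set_option linter.unusedSectionVars false

/-!
# The Cheeger inequality for a multigraph of given conductance
-/

namespace Pool.Agent.Lib.MP_95bb8c_al.PX

open Finset

variable {V E : Type} [Fintype V] [DecidableEq V] [Fintype E] [DecidableEq E]

/-- Coarea: the total variation of a nonnegative function with support of small volume. -/
theorem u1_coarea (s t : E → V) (d : V → ℚ) (hd : ∀ v, 0 ≤ d v) (k : ℚ)
    (hk : ∀ T : Finset V, 2 * ∑ v ∈ T, d v ≤ ∑ v, d v → k * ∑ v ∈ T, d v ≤ (cut s t T).card)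
    (w : V → ℚ) (hw : ∀ v, 0 ≤ w v)
    (hs : 2 * ∑ v ∈ univ.filter (fun v => w v ≠ 0), d v ≤ ∑ v, d v) :
    k * ∑ v, d v * w v ≤ ∑ e, |w (s e) - w (t e)| := by
  obtain ⟨m, hm⟩ : ∃ m, m = (univ.filter fun v => w v ≠ 0).card := ⟨_, rfl⟩
  induction m using Nat.strong_induction_on generalizing w with
  | _ m ih =>
    subst hm
    by_cases h0 : (univ.filter fun v => w v ≠ 0) = ∅
    · have h1 : ∀ v, w v = 0 := by
        intro v
        by_contra h
        exact Finset.notMem_empty v (h0 ▸ Finset.mem_filter.2 ⟨mem_univ _, h⟩)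
      simp [h1]
    · set T := univ.filter fun v => w v ≠ 0 with hT
      have hTn : T.Nonempty := Finset.nonempty_iff_ne_empty.2 h0
      obtain ⟨v₀, hv₀, hmin⟩ := T.exists_min_image w hTn
      have hμ : 0 < w v₀ := lt_of_le_of_ne (hw v₀) (Ne.symm (Finset.mem_filter.1 hv₀).2)
      set w' : V → ℚ := fun v => if v ∈ T then w v - w v₀ else 0 with hw'
      have hwT : ∀ v, v ∉ T → w v = 0 := by
        intro v hv
        by_contra h
        exact hv (Finset.mem_filter.2 ⟨mem_univ _, h⟩)
      have hw'0 : ∀ v, 0 ≤ w' v := by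
        intro v
        simp only [hw']
        split_ifs with h
        · exact sub_nonneg.2 (hmin v h)
        · exact le_rfl
      have hsub : (univ.filter fun v => w' v ≠ 0) ⊆ T := by
        intro v hv
        by_contra h
        refine (Finset.mem_filter.1 hv).2 ?_
        simp only [hw', if_neg h]
      have hlt : (univ.filter fun v => w' v ≠ 0).card < T.card := by
        refine Finset.card_lt_card (Finset.ssubset_iff_subset_ne.2 ⟨hsub, ?_⟩)
        intro h
        have h1 : v₀ ∈ univ.filter fun v => w' v ≠ 0 := by rw [h]; exact hv₀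
        refine (Finset.mem_filter.1 h1).2 ?_
        simp only [hw', if_pos hv₀, sub_self]
      have hvol : 2 * ∑ v ∈ univ.filter (fun v => w' v ≠ 0), d v ≤ ∑ v, d v := by
        refine le_trans ?_ hs
        exact mul_le_mul_of_nonneg_left
          (Finset.sum_le_sum_of_subset_of_nonneg hsub fun v _ _ => hd v) (by norm_num)
      have h2 := ih _ hlt w' hw'0 hvol rfl
      have h3 : ∑ v, d v * w v = ∑ v, d v * w' v + w v₀ * ∑ v ∈ T, d v := by
        have h4 : ∀ v, d v * w v = d v * w' v + if v ∈ T then w v₀ * d v else 0 := by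
          intro v
          simp only [hw']
          split_ifs with h
          · ring
          · rw [hwT v h]; ring
        have h4' : (∑ v : V, if v ∈ T then w v₀ * d v else 0) = w v₀ * ∑ v ∈ T, d v := by
          rw [Finset.sum_ite_mem, Finset.univ_inter, Finset.mul_sum]
        rw [Finset.sum_congr rfl fun v _ => h4 v, Finset.sum_add_distrib, h4']
      have h5 : ∑ e, |w (s e) - w (t e)| =
          ∑ e, |w' (s e) - w' (t e)| + w v₀ * (cut s t T).card := by
        have h6 : ∀ e, |w (s e) - w (t e)| = |w' (s e) - w' (t e)| +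
            if e ∈ cut s t T then w v₀ else 0 := by
          intro e
          simp only [hw', cut, Finset.mem_filter, Finset.mem_univ, true_and]
          by_cases h7 : s e ∈ T <;> by_cases h8 : t e ∈ T
          · simp only [h7, h8, if_true, not_true_eq_false, if_false, add_zero]
            congr 1; ring
          · simp only [h7, h8, if_true, if_false, iff_false, not_true_eq_false, not_false_eq_true,
              sub_zero]
            rw [hwT _ h8, sub_zero, abs_of_nonneg (hw _),
              abs_of_nonneg (sub_nonneg.2 (hmin _ h7))]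
            ring
          · simp only [h7, h8, if_true, if_false, iff_true, not_false_eq_true, zero_sub, abs_neg]
            rw [hwT _ h7, zero_sub, abs_neg, abs_of_nonneg (hw _),
              abs_of_nonneg (sub_nonneg.2 (hmin _ h8))]
            ring
          · simp only [h7, h8, if_false, not_true_eq_false, add_zero, sub_self, abs_zero]
            rw [hwT _ h7, hwT _ h8, sub_self, abs_zero]
        rw [Finset.sum_congr rfl fun e _ => h6 e, Finset.sum_add_distrib, Finset.sum_ite_mem,
          Finset.univ_inter, Finset.sum_const, nsmul_eq_mul]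
        ring
      have h6 := mul_le_mul_of_nonneg_left (hk T hs) hμ.le
      rw [h3, h5, mul_add]
      have h7 : k * (w v₀ * ∑ v ∈ T, d v) = w v₀ * (k * ∑ v ∈ T, d v) := by ring
      rw [h7]
      exact add_le_add h2 h6

/-- A median by volume. -/
theorem u1_median [Nonempty V] (d : V → ℚ) (hd : ∀ v, 0 ≤ d v) (x : V → ℚ) :
    ∃ m, 2 * ∑ v ∈ univ.filter (fun v => m < x v), d v ≤ ∑ v, d v ∧
      2 * ∑ v ∈ univ.filter (fun v => x v < m), d v ≤ ∑ v, d v := by
  classical
  set A : Finset ℚ := (univ.image x).filter fun m =>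
    2 * ∑ v ∈ univ.filter (fun v => m < x v), d v ≤ ∑ v, d v with hA
  have htot : 0 ≤ ∑ v, d v := Finset.sum_nonneg fun v _ => hd v
  have hAn : A.Nonempty := by
    obtain ⟨v₀, -, hv₀⟩ := (univ : Finset V).exists_max_image x univ_nonempty
    refine ⟨x v₀, Finset.mem_filter.2 ⟨Finset.mem_image_of_mem _ (mem_univ _), ?_⟩⟩
    rw [Finset.filter_false_of_mem]
    · simpa using htot
    · intro v _
      exact not_lt.2 (hv₀ v (mem_univ _))
  obtain ⟨m, hm, hmin⟩ := A.exists_min_image id hAn
  refine ⟨m, (Finset.mem_filter.1 hm).2, ?_⟩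
  by_contra hcon
  rw [not_le] at hcon
  have hne : (univ.filter fun v => x v < m).Nonempty := by
    by_contra h
    rw [Finset.not_nonempty_iff_eq_empty] at h
    rw [h, Finset.sum_empty, mul_zero] at hcon
    exact absurd hcon (not_lt.2 htot)
  obtain ⟨v₁, hv₁, hmax⟩ := (univ.filter fun v => x v < m).exists_max_image x hne
  have hv₁m := (Finset.mem_filter.1 hv₁).2
  have h1 : x v₁ ∈ A := by
    refine Finset.mem_filter.2 ⟨Finset.mem_image_of_mem _ (mem_univ _), ?_⟩
    have h2 : (univ.filter fun v => x v₁ < x v) ⊆ univ.filter fun v => ¬ x v < m := by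
      intro v hv
      refine Finset.mem_filter.2 ⟨mem_univ _, fun h => ?_⟩
      exact absurd (hmax v (Finset.mem_filter.2 ⟨mem_univ _, h⟩)) (not_le.2
        (Finset.mem_filter.1 hv).2)
    have h3 := Finset.sum_le_sum_of_subset_of_nonneg (f := d) h2 fun v _ _ => hd v
    have h4 := Finset.sum_filter_add_sum_filter_not (univ : Finset V) (fun v => x v < m) d
    linarith
  exact absurd (hmin _ h1) (not_le.2 hv₁m)

/-- The sum over the edges of a function at the ends. -/
theorem u1_ends (s t : E → V) (hl : ∀ e, s e ≠ t e) (y : V → ℚ) :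
    ∑ e, (y (s e) + y (t e)) = ∑ v, ((cut s t {v}).card : ℚ) * y v := by
  have h4 : ∀ e, y (s e) + y (t e) = ∑ v, if e ∈ cut s t {v} then y v else 0 := by
    intro e
    have h5 : ∀ v, (if e ∈ cut s t {v} then y v else 0) =
        (if v = s e then y v else 0) + (if v = t e then y v else 0) := by
      intro v
      simp only [cut, Finset.mem_filter, Finset.mem_univ, true_and, Finset.mem_singleton]
      have hle := hl e
      by_cases h6 : s e = v
      · have h7 : t e ≠ v := fun h => hle (h6.trans h.symm)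
        simp [h6, h7, Ne.symm h7]
      · by_cases h7 : t e = v
        · simp [h6, h7, Ne.symm h6]
        · simp [h6, h7, Ne.symm h6, Ne.symm h7]
    rw [Finset.sum_congr rfl fun v _ => h5 v, Finset.sum_add_distrib, Finset.sum_ite_eq',
      Finset.sum_ite_eq']
    simp
  rw [Finset.sum_congr rfl fun e _ => h4 e, Finset.sum_comm]
  refine Finset.sum_congr rfl fun v _ => ?_
  rw [Finset.sum_ite_mem, Finset.univ_inter, Finset.sum_const, nsmul_eq_mul]

/-- The one-sided form of Cheeger's inequality. -/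
theorem u1_onesided (s t : E → V) (hl : ∀ e, s e ≠ t e) (c : ℚ) (hc : 0 ≤ c)
    (hk : ∀ T : Finset V, 2 * ∑ v ∈ T, ((cut s t {v}).card : ℚ) ≤ ∑ v, ((cut s t {v}).card : ℚ) →
      c * ∑ v ∈ T, ((cut s t {v}).card : ℚ) ≤ (cut s t T).card)
    (y : V → ℚ) (hy : ∀ v, 0 ≤ y v)
    (hs : 2 * ∑ v ∈ univ.filter (fun v => y v ≠ 0), ((cut s t {v}).card : ℚ) ≤
      ∑ v, ((cut s t {v}).card : ℚ)) :
    c ^ 2 * ∑ v, ((cut s t {v}).card : ℚ) * y v ^ 2 ≤ 2 * ∑ e, (y (s e) - y (t e)) ^ 2 := by
  have h1 := u1_coarea s t (fun v => ((cut s t {v}).card : ℚ)) (fun v => Nat.cast_nonneg _) c hk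
    (fun v => y v ^ 2) (fun v => sq_nonneg _) (by
    have : (univ.filter fun v => y v ^ 2 ≠ 0) = univ.filter fun v => y v ≠ 0 := by
      ext v; simp
    rw [this]; exact hs)
  -- sum over the edges of y^2 at the ends
  have h2 := u1_ends s t hl (fun v => y v ^ 2)
  set X := ∑ v, ((cut s t {v}).card : ℚ) * y v ^ 2 with hX
  set Y := ∑ e, (y (s e) - y (t e)) ^ 2 with hY
  have hX0 : 0 ≤ X := Finset.sum_nonneg fun v _ => mul_nonneg (Nat.cast_nonneg _) (sq_nonneg _)
  have hY0 : 0 ≤ Y := Finset.sum_nonneg fun v _ => sq_nonneg _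
  -- Cauchy-Schwarz
  have h3 : (∑ e, |y (s e) ^ 2 - y (t e) ^ 2|) ^ 2 ≤ Y * (2 * X) := by
    have h4 : ∀ e, |y (s e) ^ 2 - y (t e) ^ 2| = |y (s e) - y (t e)| * (y (s e) + y (t e)) := by
      intro e
      have : y (s e) ^ 2 - y (t e) ^ 2 = (y (s e) - y (t e)) * (y (s e) + y (t e)) := by ring
      rw [this, abs_mul, abs_of_nonneg (add_nonneg (hy _) (hy _))]
    rw [Finset.sum_congr rfl fun e _ => h4 e]
    refine (Finset.sum_mul_sq_le_sq_mul_sq _ _ _).trans ?_
    simp only [sq_abs]
    refine mul_le_mul_of_nonneg_left ?_ hY0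
    rw [← h2, Finset.mul_sum]
    refine Finset.sum_le_sum fun e _ => ?_
    nlinarith [sq_nonneg (y (s e) - y (t e))]
  have h5 : (c * X) ^ 2 ≤ Y * (2 * X) :=
    (pow_le_pow_left₀ (mul_nonneg hc hX0) h1 2).trans h3
  rcases hX0.eq_or_lt with h6 | h6
  · rw [← h6, mul_zero]; exact mul_nonneg (by norm_num) hY0
  · have h7 : X * (c ^ 2 * X) ≤ X * (2 * Y) := by nlinarith
    exact le_of_mul_le_mul_left h7 h6

/-- Cheeger's inequality with the median by volume. -/
theorem u1_cheeger [Nonempty V] (s t : E → V) (hl : ∀ e, s e ≠ t e) (c : ℚ) (hc : 0 ≤ c)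
    (hk : ∀ T : Finset V, 2 * ∑ v ∈ T, ((cut s t {v}).card : ℚ) ≤ ∑ v, ((cut s t {v}).card : ℚ) →
      c * ∑ v ∈ T, ((cut s t {v}).card : ℚ) ≤ (cut s t T).card)
    (x : V → ℚ) :
    ∃ m, c ^ 2 * ∑ v, ((cut s t {v}).card : ℚ) * (x v - m) ^ 2 ≤
      2 * ∑ e, (x (s e) - x (t e)) ^ 2 := by
  set d : V → ℚ := fun v => ((cut s t {v}).card : ℚ) with hdd
  have hd : ∀ v, 0 ≤ d v := fun v => Nat.cast_nonneg _
  obtain ⟨m, hm1, hm2⟩ := u1_median d hd x
  refine ⟨m, ?_⟩
  have h1 := u1_onesided s t hl c hc hk (fun v => max (x v - m) 0)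
    (fun v => le_max_right _ _) (by
      refine le_trans (mul_le_mul_of_nonneg_left
        (Finset.sum_le_sum_of_subset_of_nonneg ?_ fun v _ _ => hd v) (by norm_num)) hm1
      intro v hv
      refine Finset.mem_filter.2 ⟨mem_univ _, ?_⟩
      by_contra h
      exact (Finset.mem_filter.1 hv).2 (max_eq_right (by linarith [not_lt.1 h])))
  have h2 := u1_onesided s t hl c hc hk (fun v => max (m - x v) 0)
    (fun v => le_max_right _ _) (by
      refine le_trans (mul_le_mul_of_nonneg_left
        (Finset.sum_le_sum_of_subset_of_nonneg ?_ fun v _ _ => hd v) (by norm_num)) hm2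
      intro v hv
      refine Finset.mem_filter.2 ⟨mem_univ _, ?_⟩
      by_contra h
      exact (Finset.mem_filter.1 hv).2 (max_eq_right (by linarith [not_lt.1 h])))
  have h3 : ∑ v, d v * (x v - m) ^ 2 = ∑ v, d v * max (x v - m) 0 ^ 2 +
      ∑ v, d v * max (m - x v) 0 ^ 2 := by
    rw [← Finset.sum_add_distrib]
    refine Finset.sum_congr rfl fun v _ => ?_
    rcases le_total (x v) m with h | h
    · rw [max_eq_right (by linarith), max_eq_left (by linarith)]; ring
    · rw [max_eq_left (by linarith), max_eq_right (by linarith)]; ring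
  have h4 : ∑ e, (max (x (s e) - m) 0 - max (x (t e) - m) 0) ^ 2 +
      ∑ e, (max (m - x (s e)) 0 - max (m - x (t e)) 0) ^ 2 ≤ ∑ e, (x (s e) - x (t e)) ^ 2 := by
    rw [← Finset.sum_add_distrib]
    refine Finset.sum_le_sum fun e _ => ?_
    rcases le_total (x (s e)) m with h | h <;> rcases le_total (x (t e)) m with h' | h'
    · rw [max_eq_right (by linarith : x (s e) - m ≤ 0), max_eq_right (by linarith : x (t e) - m ≤ 0),
        max_eq_left (by linarith : 0 ≤ m - x (s e)), max_eq_left (by linarith : 0 ≤ m - x (t e))]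
      nlinarith
    · rw [max_eq_right (by linarith : x (s e) - m ≤ 0), max_eq_left (by linarith : 0 ≤ x (t e) - m),
        max_eq_left (by linarith : 0 ≤ m - x (s e)), max_eq_right (by linarith : m - x (t e) ≤ 0)]
      nlinarith [mul_nonneg (sub_nonneg.2 h) (sub_nonneg.2 h')]
    · rw [max_eq_left (by linarith : 0 ≤ x (s e) - m), max_eq_right (by linarith : x (t e) - m ≤ 0),
        max_eq_right (by linarith : m - x (s e) ≤ 0), max_eq_left (by linarith : 0 ≤ m - x (t e))]
      nlinarith [mul_nonneg (sub_nonneg.2 h) (sub_nonneg.2 h')]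
    · rw [max_eq_left (by linarith : 0 ≤ x (s e) - m), max_eq_left (by linarith : 0 ≤ x (t e) - m),
        max_eq_right (by linarith : m - x (s e) ≤ 0), max_eq_right (by linarith : m - x (t e) ≤ 0)]
      nlinarith
  calc c ^ 2 * ∑ v, d v * (x v - m) ^ 2 = c ^ 2 * ∑ v, d v * max (x v - m) 0 ^ 2 +
        c ^ 2 * ∑ v, d v * max (m - x v) 0 ^ 2 := by rw [h3, mul_add]
    _ ≤ 2 * ∑ e, (max (x (s e) - m) 0 - max (x (t e) - m) 0) ^ 2 +
        2 * ∑ e, (max (m - x (s e)) 0 - max (m - x (t e)) 0) ^ 2 := add_le_add h1 h2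
    _ ≤ 2 * ∑ e, (x (s e) - x (t e)) ^ 2 := by linarith

/-- Cheeger's inequality for a multigraph of conductance `c`, with volumes. -/
theorem cheeger_vol {s t : E → V} (hl : ∀ e, s e ≠ t e) (c : ℚ) (hc : 0 ≤ c)
    (hcut : ∀ T : Finset V,
      c * min (∑ v ∈ T, (dg s t v : ℚ)) (∑ v ∈ Tᶜ, (dg s t v : ℚ)) ≤ ((cut s t T).card : ℚ))
    (g : V → ℚ) :
    ∃ r : ℚ, c ^ 2 * ∑ v, (dg s t v : ℚ) * (g v - r) ^ 2 ≤
      2 * ∑ e, (g (s e) - g (t e)) ^ 2 := by
  rcases isEmpty_or_nonempty V with hV | hV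
  · refine ⟨0, ?_⟩
    rw [Finset.univ_eq_empty, Finset.sum_empty, mul_zero]
    exact mul_nonneg (by norm_num) (Finset.sum_nonneg fun e _ => sq_nonneg _)
  · refine u1_cheeger s t hl c hc ?_ g
    intro T hT
    have h1 := hcut T
    have h2 := Finset.sum_add_sum_compl T (fun v => (dg s t v : ℚ))
    have h3 : min (∑ v ∈ T, (dg s t v : ℚ)) (∑ v ∈ Tᶜ, (dg s t v : ℚ)) =
        ∑ v ∈ T, (dg s t v : ℚ) := by
      apply min_eq_left
      have h4 : 2 * ∑ v ∈ T, (dg s t v : ℚ) ≤ ∑ v, (dg s t v : ℚ) := hT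
      linarith
    rw [h3] at h1
    exact h1

end Pool.Agent.Lib.MP_95bb8c_al.PX
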