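import Pool.Agent.Lib.MP_95bb8c_al.PX.Defs

set_option autoImplicit false
set_option linter.unusedSectionVars false

/-!
# Omitting the places at which a closed sequence stays
-/

namespace Pool.Agent.Lib.MP_95bb8c_al.PX

open Finset Matrix PS

variable {S V : Type} [Fintype S] [DecidableEq S] [Fintype V] [DecidableEq V]

/-- The number of steps from `g` to `h`. -/
private def cl_cnt {n : ℕ} (a : Fin (n + 1) → S) (g h : S) : ℕ :=
  ∑ i, (if a i = g ∧ a (i + 1) = h then (1 : ℕ) else 0)

private theorem cl_rot {n : ℕ} (a : Fin (n + 1) → S) (j : Fin (n + 1)) (g h : S) :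
    cl_cnt (fun i => a (i + j)) g h = cl_cnt a g h := by
  unfold cl_cnt
  have h1 := Equiv.sum_comp (Equiv.addRight j)
    (fun i => if a i = g ∧ a (i + 1) = h then (1 : ℕ) else 0)
  rw [← h1]
  refine Finset.sum_congr rfl fun i _ => ?_
  refine if_congr ?_ rfl rfl
  simp only [Equiv.coe_addRight]
  rw [add_right_comm i 1 j]

private theorem cl_drop {n : ℕ} (a : Fin (n + 2) → S) (h0 : a (Fin.last (n + 1)) = a 0)
    {g h : S} (hgh : g ≠ h) :
    cl_cnt (fun i : Fin (n + 1) => a i.castSucc) g h = cl_cnt a g h := by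
  unfold cl_cnt
  rw [Fin.sum_univ_castSucc (n := n + 1)]
  have h1 : (if a (Fin.last (n + 1)) = g ∧ a (Fin.last (n + 1) + 1) = h then (1 : ℕ) else 0)
      = 0 := by
    rw [if_neg]
    rintro ⟨h2, h3⟩
    rw [Fin.last_add_one] at h3
    exact hgh (by rw [← h2, ← h3, h0])
  rw [h1, add_zero]
  refine Finset.sum_congr rfl fun i _ => ?_
  have h2 : a (i + 1).castSucc = a (i.castSucc + 1) := by
    by_cases hi : i = Fin.last n
    · subst hi
      have h3 : (Fin.last n).castSucc + 1 = Fin.last (n + 1) := by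
        apply Fin.ext
        rw [Fin.val_add_one_of_lt (Fin.castSucc_lt_last _)]
        rfl
      rw [Fin.last_add_one, h3, h0]
      rfl
    · congr 1
      apply Fin.ext
      have hlt : i < Fin.last n := Fin.lt_last_iff_ne_last.mpr hi
      rw [Fin.val_add_one_of_lt (Fin.castSucc_lt_last _), Fin.val_castSucc,
        Fin.val_add_one_of_lt hlt, Fin.val_castSucc]
  simp only [h2]

theorem collapse {n : ℕ} (a : Fin (n + 1) → S) (h : ∃ i, a i ≠ a (i + 1)) :
    ∃ (m : ℕ) (b : Fin (m + 1) → S), (∀ i, b i ≠ b (i + 1)) ∧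
      ∀ g h, g ≠ h → ∑ i, (if b i = g ∧ b (i + 1) = h then (1 : ℕ) else 0) =
        ∑ i, (if a i = g ∧ a (i + 1) = h then (1 : ℕ) else 0) := by
  induction n with
  | zero =>
    obtain ⟨i, hi⟩ := h
    have h1 : i = i + 1 := Subsingleton.elim (α := Fin 1) _ _
    exact absurd (congrArg a h1) hi
  | succ n ih =>
    by_cases hall : ∀ i, a i ≠ a (i + 1)
    · exact ⟨n + 1, a, hall, fun _ _ _ => rfl⟩
    · push Not at hall
      obtain ⟨j, hj⟩ := hall
      -- rotate: the sequence stays at the last place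
      set a' : Fin (n + 2) → S := fun i => a (i + (j + 1)) with ha'
      have h0 : a' (Fin.last (n + 1)) = a' 0 := by
        simp only [ha']
        rw [zero_add, ← hj]
        congr 1
        have h1 : Fin.last (n + 1) + (j + 1) = (Fin.last (n + 1) + 1) + j := by
          rw [add_comm j 1]
          exact (add_assoc _ _ _).symm
        rw [h1, Fin.last_add_one, zero_add]
      have hcnt : ∀ g h, g ≠ h → cl_cnt (fun i : Fin (n + 1) => a' i.castSucc) g h =
          cl_cnt a g h := by
        intro g h hgh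
        rw [cl_drop a' h0 hgh, ha', cl_rot]
      have hmv : ∃ i : Fin (n + 1), (fun i : Fin (n + 1) => a' i.castSucc) i ≠
          (fun i : Fin (n + 1) => a' i.castSucc) (i + 1) := by
        by_contra hcon
        push Not at hcon
        obtain ⟨i, hi⟩ := h
        have h1 := hcnt (a i) (a (i + 1)) hi
        have h2 : cl_cnt (fun i : Fin (n + 1) => a' i.castSucc) (a i) (a (i + 1)) = 0 := by
          unfold cl_cnt
          refine Finset.sum_eq_zero fun k _ => ?_
          rw [if_neg]
          rintro ⟨h3, h4⟩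
          exact hi (h3.symm.trans ((hcon k).trans h4))
        have h3 : 0 < cl_cnt a (a i) (a (i + 1)) := by
          unfold cl_cnt
          refine Finset.sum_pos' (fun _ _ => Nat.zero_le _) ⟨i, Finset.mem_univ i, ?_⟩
          rw [if_pos ⟨rfl, rfl⟩]
          exact one_pos
        omega
      obtain ⟨m, b, hb, hbc⟩ := ih (fun i : Fin (n + 1) => a' i.castSucc) hmv
      exact ⟨m, b, hb, fun g h hgh => (hbc g h hgh).trans (hcnt g h hgh)⟩

private theorem cl_exists {n : ℕ} (a : Fin (n + 1) → S) {g h : S}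
    (hc : 0 < ∑ i, (if a i = g ∧ a (i + 1) = h then (1 : ℕ) else 0)) :
    ∃ i, a i = g ∧ a (i + 1) = h := by
  by_contra hcon
  push Not at hcon
  rw [Finset.sum_eq_zero] at hc
  · exact lt_irrefl _ hc
  · intro i _
    rw [if_neg]
    rintro ⟨h1, h2⟩
    exact hcon i h1 h2

/-- the form used for the graph -/
theorem collapse_chain (C : Chain S V) {n : ℕ} (a : Fin (n + 1) → S) (hs : Simple C a)
    (h : ∃ i, a i ≠ a (i + 1)) (hstep : ∀ i, a i = a (i + 1) ∨ C.Q (a i) (a (i + 1)) ≠ 0) :
    ∃ (m : ℕ) (b : Fin (m + 1) → S), 2 ≤ m ∧ Function.Injective (fun i => C.tl (b i)) ∧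
      (∀ i, C.Q (b i) (b (i + 1)) ≠ 0) ∧
      ∀ g h, g ≠ h → cnt C b g h = cnt C a g h := by
  obtain ⟨m, b, hb, hc⟩ := collapse a h
  -- every step of `b` is a step of `a`
  have hex : ∀ i, ∃ j, a j = b i ∧ a (j + 1) = b (i + 1) := by
    intro i
    apply cl_exists
    rw [← hc _ _ (hb i)]
    refine Finset.sum_pos' (fun _ _ => Nat.zero_le _) ⟨i, Finset.mem_univ i, ?_⟩
    rw [if_pos ⟨rfl, rfl⟩]
    exact one_pos
  have hQ : ∀ i, C.Q (b i) (b (i + 1)) ≠ 0 := by
    intro i
    obtain ⟨j, h1, h2⟩ := hex i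
    rcases hstep j with h3 | h3
    · exact absurd (by rw [← h1, ← h2, h3]) (hb i)
    · rw [h1, h2] at h3
      exact h3
  have hinj : Function.Injective (fun i => C.tl (b i)) := by
    intro i i' hii
    simp only at hii
    obtain ⟨j, h1, h2⟩ := hex i
    obtain ⟨j', h1', h2'⟩ := hex i'
    have hm : a j ≠ a (j + 1) := by rw [h1, h2]; exact hb i
    have hm' : a j' ≠ a (j' + 1) := by rw [h1', h2']; exact hb i'
    have hjj : j = j' := hs j j' hm hm' (by rw [h1, h1', hii])
    subst hjj
    have e1 : b i = b i' := by rw [← h1, h1']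
    have e2 : b (i + 1) = b (i' + 1) := by rw [← h2, h2']
    by_contra hne
    -- the step occurs twice in `b` and once in `a`
    have hge : 2 ≤ ∑ k, (if b k = b i ∧ b (k + 1) = b (i + 1) then (1 : ℕ) else 0) := by
      rw [← Finset.card_filter]
      have h3 : ({i, i'} : Finset (Fin (m + 1))) ⊆
          Finset.univ.filter fun k => b k = b i ∧ b (k + 1) = b (i + 1) := by
        intro k hk
        rw [Finset.mem_insert, Finset.mem_singleton] at hk
        rw [Finset.mem_filter]
        rcases hk with rfl | rfl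
        · exact ⟨Finset.mem_univ _, rfl, rfl⟩
        · exact ⟨Finset.mem_univ _, e1.symm, e2.symm⟩
      calc 2 = ({i, i'} : Finset (Fin (m + 1))).card := (Finset.card_pair hne).symm
        _ ≤ _ := Finset.card_le_card h3
    rw [hc _ _ (hb i), ← Finset.card_filter] at hge
    obtain ⟨k, hk, k', hk', hkk⟩ := Finset.one_lt_card.mp hge
    rw [Finset.mem_filter] at hk hk'
    apply hkk
    refine hs k k' ?_ ?_ ?_
    · rw [hk.2.1, hk.2.2]; exact hb i
    · rw [hk'.2.1, hk'.2.2]; exact hb i
    · rw [hk.2.1, hk'.2.1]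
  have hm2 : 2 ≤ m := by
    rcases m with _ | _ | m
    · have h1 : (0 : Fin (0 + 1)) = 0 + 1 := Subsingleton.elim (α := Fin 1) _ _
      exact absurd (congrArg b h1) (hb 0)
    · exfalso
      have h1 := (C.Q_ne _ _).mp (hQ 0)
      have h2 := (C.Q_ne _ _).mp (hQ 1)
      have h3 : (1 : Fin (0 + 1 + 1)) + 1 = 0 := rfl
      rw [h3] at h2
      rw [zero_add] at h1
      exact h1.2 h2.1.symm
    · omega
  refine ⟨m, b, hm2, hinj, hQ, fun g h hgh => ?_⟩
  have hrv : C.rv h ≠ C.rv g := by
    intro h1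
    apply hgh
    rw [← C.rv_rv g, ← C.rv_rv h, h1]
  have h1 := hc g h hgh
  have h2 := hc (C.rv h) (C.rv g) hrv
  unfold cnt
  rw [Finset.sum_add_distrib, Finset.sum_add_distrib]
  have h3 : (∑ i, (if b i = g ∧ b (i + 1) = h then (1 : ℚ) else 0)) =
      ∑ i, (if a i = g ∧ a (i + 1) = h then (1 : ℚ) else 0) := by
    exact_mod_cast h1
  have h4 : (∑ i, (if b i = C.rv h ∧ b (i + 1) = C.rv g then (1 : ℚ) else 0)) =
      ∑ i, (if a i = C.rv h ∧ a (i + 1) = C.rv g then (1 : ℚ) else 0) := by
    exact_mod_cast h2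
  rw [h3, h4]

end Pool.Agent.Lib.MP_95bb8c_al.PX
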