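import Pool.Agent.Lib.MP_95bb8c_al.PS.Basic

set_option autoImplicit false
set_option linter.unusedSectionVars false

/-!
# The lazy chain on the darts contracts the functions of mean zero

The Dirichlet form of one step controls the distance of a function from the functions of the tail;
the spectral gap of the graph controls these.
-/

namespace Pool.Agent.Lib.MP_95bb8c_al.PX

open Finset PS

variable {S V : Type} [Fintype S] [DecidableEq S] [DecidableEq V]

section Basics

variable (C : Chain S V)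

/-- stationarity -/
theorem y2_st (F : S → ℚ) : ∑ a, C.pi a * ∑ b, C.P a b * F b = ∑ b, C.pi b * F b := by
  simp only [mul_sum]
  rw [sum_comm]
  refine sum_congr rfl fun b _ => ?_
  rw [← C.pi_P b, sum_mul]
  exact sum_congr rfl fun a _ => by ring

/-- the variance of one step -/
theorem y2_var (a : S) (f : S → ℚ) :
    ∑ b, C.P a b * f b ^ 2 - (∑ b, C.P a b * f b) ^ 2 =
      1 / 2 * ∑ b, ∑ c, C.P a b * C.P a c * (f b - f c) ^ 2 := by
  have h1 : ∑ b, ∑ c, C.P a b * C.P a c * (f b - f c) ^ 2 =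
      ∑ b, ((C.P a b * f b ^ 2) * ∑ c, C.P a c) - 2 * ∑ b, ((C.P a b * f b) * ∑ c, C.P a c * f c)
        + ∑ b, (C.P a b * ∑ c, C.P a c * f c ^ 2) := by
    rw [mul_sum, ← sum_sub_distrib, ← sum_add_distrib]
    refine sum_congr rfl fun b _ => ?_
    rw [mul_sum, mul_sum, mul_sum, mul_sum, ← sum_sub_distrib, ← sum_add_distrib]
    exact sum_congr rfl fun c _ => by ring
  rw [h1]
  simp only [C.P_row, mul_one]
  rw [← sum_mul, ← sum_mul, C.P_row]
  ring

/-- Jensen -/
theorem y2_jensen (a : S) (f : S → ℚ) :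
    (∑ b, C.P a b * f b) ^ 2 ≤ ∑ b, C.P a b * f b ^ 2 := by
  have h := y2_var C a f
  have h1 : 0 ≤ ∑ b, ∑ c, C.P a b * C.P a c * (f b - f c) ^ 2 :=
    sum_nonneg fun b _ => sum_nonneg fun c _ =>
      mul_nonneg (mul_nonneg (C.P_nonneg a b) (C.P_nonneg a c)) (sq_nonneg _)
  linarith

/-- the Dirichlet form -/
theorem y2_dir (f : S → ℚ) :
    ∑ a, C.pi a * ∑ b, C.P a b * (f a - f b) ^ 2 =
      2 * (∑ a, C.pi a * f a ^ 2 - ∑ a, C.pi a * (f a * ∑ b, C.P a b * f b)) := by
  have h1 : ∀ a, ∑ b, C.P a b * (f a - f b) ^ 2 =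
      f a ^ 2 - 2 * (f a * ∑ b, C.P a b * f b) + ∑ b, C.P a b * f b ^ 2 := by
    intro a
    have h2 : f a ^ 2 = ∑ b, C.P a b * f a ^ 2 := by rw [← sum_mul, C.P_row, one_mul]
    rw [h2, mul_sum, mul_sum, ← sum_sub_distrib, ← sum_add_distrib]
    exact sum_congr rfl fun b _ => by ring
  simp only [h1, mul_add, mul_sub]
  rw [sum_add_distrib, sum_sub_distrib, y2_st C fun b => f b ^ 2]
  have h3 : ∑ a, C.pi a * (2 * (f a * ∑ b, C.P a b * f b)) =
      2 * ∑ a, C.pi a * (f a * ∑ b, C.P a b * f b) := by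
    rw [mul_sum]
    exact sum_congr rfl fun a _ => by ring
  rw [h3]
  ring

/-- the weight of the darts leaving a vertex -/
def piV (v : V) : ℚ := ∑ a, if C.tl a = v then C.pi a else 0

/-- the mean over the darts leaving a vertex -/
def av (f : S → ℚ) (v : V) : ℚ := (∑ a, if C.tl a = v then C.pi a * f a else 0) / piV C v

theorem piV_pos (a : S) : 0 < piV C (C.tl a) := by
  unfold piV
  refine sum_pos' (fun b _ => ?_) ⟨a, mem_univ a, ?_⟩
  · split_ifs
    · exact (C.pi_pos b).le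
    · exact le_rfl
  · rw [if_pos rfl]
    exact C.pi_pos a

/-- the mean is the adjoint of the pull back -/
theorem y2_av (f : S → ℚ) (ψ : V → ℚ) :
    ∑ b, C.pi b * (av C f (C.tl b) * ψ (C.tl b)) = ∑ b, C.pi b * (f b * ψ (C.tl b)) := by
  have h1 : ∀ b, C.pi b * (av C f (C.tl b) * ψ (C.tl b)) =
      ∑ c, if C.tl c = C.tl b then C.pi b * (C.pi c * f c * ψ (C.tl c) / piV C (C.tl c)) else 0 := by
    intro b
    unfold av
    rw [div_mul_eq_mul_div, sum_mul, sum_div, mul_sum]
    refine sum_congr rfl fun c _ => ?_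
    split_ifs with h
    · rw [h]
    · simp
  simp only [h1]
  rw [sum_comm]
  refine sum_congr rfl fun c _ => ?_
  have h2 : ∀ b, (if C.tl c = C.tl b then C.pi b * (C.pi c * f c * ψ (C.tl c) / piV C (C.tl c))
      else 0) = (if C.tl b = C.tl c then C.pi b else 0) *
        (C.pi c * f c * ψ (C.tl c) / piV C (C.tl c)) := by
    intro b
    by_cases h : C.tl c = C.tl b
    · rw [if_pos h, if_pos h.symm]
    · rw [if_neg h, if_neg (fun h' => h h'.symm), zero_mul]
  simp only [h2]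
  rw [← sum_mul]
  show piV C (C.tl c) * _ = _
  have h3 := (piV_pos C c).ne'
  field_simp

/-- the part of `f` which is not a function of the tail -/
def fl (f : S → ℚ) (a : S) : ℚ := f a - av C f (C.tl a)

theorem y2_split (f : S → ℚ) :
    ∑ a, C.pi a * f a ^ 2 = ∑ a, C.pi a * fl C f a ^ 2 + ∑ a, C.pi a * av C f (C.tl a) ^ 2 := by
  have h1 := y2_av C f (av C f)
  have h2 : ∑ a, C.pi a * fl C f a ^ 2 + ∑ a, C.pi a * av C f (C.tl a) ^ 2 =
      ∑ a, C.pi a * f a ^ 2 + 2 * (∑ a, C.pi a * (av C f (C.tl a) * av C f (C.tl a)) -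
        ∑ a, C.pi a * (f a * av C f (C.tl a))) := by
    rw [← sum_sub_distrib, mul_sum, ← sum_add_distrib, ← sum_add_distrib]
    refine sum_congr rfl fun a _ => ?_
    unfold fl
    ring
  rw [h2, h1]
  ring

theorem y2_flat (f : S → ℚ) : ∑ a, C.pi a * (f a * av C f (C.tl a)) =
    ∑ a, C.pi a * av C f (C.tl a) ^ 2 := by
  rw [← y2_av C f (av C f)]
  exact sum_congr rfl fun a _ => by ring

/-- the drop of the norm in one step -/
theorem y2_V (f : S → ℚ) :
    ∑ a, C.pi a * f a ^ 2 - ∑ a, C.pi a * (∑ b, C.P a b * f b) ^ 2 =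
      1 / 2 * ∑ b, ∑ c, (∑ a, C.pi a * (C.P a b * C.P a c)) * (f b - f c) ^ 2 := by
  rw [← y2_st C fun b => f b ^ 2, ← sum_sub_distrib]
  have h1 : ∀ a, C.pi a * ∑ b, C.P a b * f b ^ 2 - C.pi a * (∑ b, C.P a b * f b) ^ 2 =
      1 / 2 * ∑ b, ∑ c, C.pi a * (C.P a b * C.P a c) * (f b - f c) ^ 2 := by
    intro a
    rw [← mul_sub, y2_var]
    rw [← mul_assoc, mul_comm (C.pi a), mul_assoc, mul_sum]
    congr 1
    refine sum_congr rfl fun b _ => ?_
    rw [mul_sum]
    exact sum_congr rfl fun c _ => by ring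
  simp only [h1]
  rw [← mul_sum, sum_comm]
  congr 1
  refine sum_congr rfl fun b _ => ?_
  rw [sum_comm]
  refine sum_congr rfl fun c _ => ?_
  rw [sum_mul]

/-- the drop controls the distance from the functions of the tail -/
theorem y2_drop (b0 : ℚ)
    (hM : ∀ b c, C.tl b = C.tl c →
      b0 * C.pi b * C.pi c ≤ piV C (C.tl b) * ∑ a, C.pi a * (C.P a b * C.P a c)) (f : S → ℚ) :
    b0 * ∑ a, C.pi a * fl C f a ^ 2 ≤
      ∑ a, C.pi a * f a ^ 2 - ∑ a, C.pi a * (∑ b, C.P a b * f b) ^ 2 := by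
  rw [y2_V]
  have h1 : ∑ a, C.pi a * fl C f a ^ 2 =
      1 / 2 * ∑ b, ∑ c, (if C.tl c = C.tl b then C.pi b * C.pi c / piV C (C.tl b) *
        (f b - f c) ^ 2 else 0) := by
    have h2 : ∀ b, ∑ c, (if C.tl c = C.tl b then C.pi b * C.pi c / piV C (C.tl b) *
        (f b - f c) ^ 2 else 0) =
        C.pi b * f b ^ 2 - 2 * (C.pi b * (f b * av C f (C.tl b))) +
          C.pi b * (av C (fun c => f c ^ 2) (C.tl b) * 1) := by
      intro b
      have h3 := (piV_pos C b).ne'
      have h4 : C.pi b * f b ^ 2 = ∑ c, (if C.tl c = C.tl b then C.pi c else 0) *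
          (C.pi b * f b ^ 2 / piV C (C.tl b)) := by
        rw [← sum_mul]
        show _ = piV C (C.tl b) * _
        field_simp
      unfold av
      rw [h4, div_mul_eq_mul_div, mul_one]
      rw [← mul_div_assoc, ← mul_div_assoc, ← mul_div_assoc, ← mul_div_assoc]
      rw [mul_sum, mul_sum, mul_sum, mul_sum, sum_div, sum_div, ← sum_sub_distrib,
        ← sum_add_distrib]
      refine sum_congr rfl fun c _ => ?_
      split_ifs
      · field_simp
        ring
      · simp
    simp only [h2]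
    rw [sum_add_distrib, sum_sub_distrib, ← mul_sum, y2_av C (fun c => f c ^ 2) fun _ => 1]
    rw [y2_flat]
    have h5 := y2_split C f
    simp only [mul_one]
    linarith
  rw [h1, ← mul_assoc, mul_comm b0, mul_assoc]
  refine mul_le_mul_of_nonneg_left ?_ (by norm_num)
  rw [mul_sum]
  refine sum_le_sum fun b _ => ?_
  rw [mul_sum]
  refine sum_le_sum fun c _ => ?_
  split_ifs with h
  · rw [← mul_assoc]
    refine mul_le_mul_of_nonneg_right ?_ (sq_nonneg _)
    have h3 := piV_pos C b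
    rw [← mul_div_assoc, div_le_iff₀ h3, mul_comm _ (piV C (C.tl b)), ← mul_assoc]
    exact hM b c h.symm
  · rw [mul_zero]
    refine mul_nonneg (sum_nonneg fun a _ => ?_) (sq_nonneg _)
    exact mul_nonneg (C.pi_pos a).le (mul_nonneg (C.P_nonneg a b) (C.P_nonneg a c))

/-- one step takes a function of the tail to the function of the head -/
theorem y2_head (φ : V → ℚ) (a : S) : ∑ b, C.P a b * φ (C.tl b) = φ (C.tl (C.rv a)) := by
  have h1 : ∀ b, C.P a b * φ (C.tl b) = C.P a b * φ (C.tl (C.rv a)) := by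
    intro b
    by_cases h : C.Q a b = 0
    · have h2 : C.P a b = 0 := by
        unfold Chain.P
        rw [h, zero_div]
      rw [h2, zero_mul, zero_mul]
    · rw [((C.Q_ne a b).1 h).1]
  simp only [h1]
  rw [← sum_mul, C.P_row, one_mul]

/-- **the contraction** -/
theorem y2_contr (b0 g : ℚ) (hb0 : 0 < b0) (hb1 : b0 ≤ 1) (hg1 : g ≤ 1)
    (hM : ∀ b c, C.tl b = C.tl c →
      b0 * C.pi b * C.pi c ≤ piV C (C.tl b) * ∑ a, C.pi a * (C.P a b * C.P a c))
    (hgap : ∀ φ : V → ℚ, ∑ a, C.pi a * φ (C.tl a) = 0 →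
      2 * g * ∑ a, C.pi a * φ (C.tl a) ^ 2 ≤
        ∑ a, C.pi a * (φ (C.tl a) - φ (C.tl (C.rv a))) ^ 2)
    (f : S → ℚ) (hf : ∑ a, C.pi a * f a = 0) :
    ∑ a, C.pi a * ((f a + ∑ b, C.P a b * f b) / 2) ^ 2 ≤
      (1 - g * b0 / 20) * ∑ a, C.pi a * f a ^ 2 := by
  set N : ℚ := ∑ a, C.pi a * f a ^ 2 with hN
  set W : ℚ := ∑ a, C.pi a * fl C f a ^ 2 with hW
  set X : ℚ := ∑ a, C.pi a * (f a * ∑ b, C.P a b * f b) with hX
  set Y : ℚ := ∑ a, C.pi a * (∑ b, C.P a b * f b) ^ 2 with hY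
  set F : ℚ := ∑ a, C.pi a * av C f (C.tl a) ^ 2 with hF
  have hL : ∑ a, C.pi a * ((f a + ∑ b, C.P a b * f b) / 2) ^ 2 = 1 / 4 * (N + 2 * X + Y) := by
    rw [hN, hX, hY, mul_sum, ← sum_add_distrib, ← sum_add_distrib, mul_sum]
    exact sum_congr rfl fun a _ => by ring
  have hW0 : 0 ≤ W := sum_nonneg fun a _ => mul_nonneg (C.pi_pos a).le (sq_nonneg _)
  have hD := y2_dir C f
  have hdrop : b0 * W ≤ N - Y := y2_drop C b0 hM f
  have hsplit : N = W + F := y2_split C f
  -- the head-tail difference of the mean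
  have hmean : ∑ a, C.pi a * av C f (C.tl a) = 0 := by
    have h := y2_av C f fun _ => 1
    simp only [mul_one] at h
    rw [h, hf]
  have hg2 := hgap (av C f) hmean
  have hdiff : ∑ a, C.pi a * (av C f (C.tl a) - av C f (C.tl (C.rv a))) ^ 2 ≤
      4 * (N - X) + 8 * W := by
    have h1 : ∀ a, av C f (C.tl a) - av C f (C.tl (C.rv a)) =
        ∑ b, C.P a b * (f a - f b) - (fl C f a - ∑ b, C.P a b * fl C f b) := by
      intro a
      have h2 : ∑ b, C.P a b * fl C f b = ∑ b, C.P a b * f b - av C f (C.tl (C.rv a)) := by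
        rw [← y2_head C (av C f) a, ← sum_sub_distrib]
        exact sum_congr rfl fun b _ => by
          unfold fl
          ring
      have h3 : ∑ b, C.P a b * (f a - f b) = f a - ∑ b, C.P a b * f b := by
        simp only [mul_sub]
        rw [sum_sub_distrib, ← sum_mul, C.P_row, one_mul]
      rw [h2, h3]
      unfold fl
      ring
    have h2 : ∀ a, (av C f (C.tl a) - av C f (C.tl (C.rv a))) ^ 2 ≤
        2 * ∑ b, C.P a b * (f a - f b) ^ 2 +
          4 * (fl C f a ^ 2 + ∑ b, C.P a b * fl C f b ^ 2) := by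
      intro a
      rw [h1 a]
      have h3 := y2_jensen C a fun b => f a - f b
      have h4 := y2_jensen C a (fl C f)
      set u := ∑ b, C.P a b * (f a - f b)
      set v := ∑ b, C.P a b * fl C f b
      have h5 : (u - (fl C f a - v)) ^ 2 ≤ 2 * u ^ 2 + 4 * (fl C f a ^ 2 + v ^ 2) := by
        nlinarith [sq_nonneg (u + (fl C f a - v)), sq_nonneg (fl C f a + v)]
      linarith
    calc ∑ a, C.pi a * (av C f (C.tl a) - av C f (C.tl (C.rv a))) ^ 2
        ≤ ∑ a, C.pi a * (2 * ∑ b, C.P a b * (f a - f b) ^ 2 +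
          4 * (fl C f a ^ 2 + ∑ b, C.P a b * fl C f b ^ 2)) :=
          sum_le_sum fun a _ => mul_le_mul_of_nonneg_left (h2 a) (C.pi_pos a).le
      _ = 2 * (∑ a, C.pi a * ∑ b, C.P a b * (f a - f b) ^ 2) +
          4 * (∑ a, C.pi a * fl C f a ^ 2 + ∑ a, C.pi a * ∑ b, C.P a b * fl C f b ^ 2) := by
          rw [← sum_add_distrib, mul_sum, mul_sum, ← sum_add_distrib]
          exact sum_congr rfl fun a _ => by ring
      _ = 4 * (N - X) + 8 * W := by
          rw [hD, y2_st C fun b => fl C f b ^ 2]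
          ring
  rw [hL]
  have hNX : 0 ≤ N - X := by
    have h1 : 0 ≤ ∑ a, C.pi a * ∑ b, C.P a b * (f a - f b) ^ 2 :=
      sum_nonneg fun a _ => mul_nonneg (C.pi_pos a).le
        (sum_nonneg fun b _ => mul_nonneg (C.P_nonneg a b) (sq_nonneg _))
    rw [hD] at h1
    linarith
  -- now the arithmetic
  have hgF : g * F ≤ 2 * (N - X) + 4 * W := by linarith
  have hgN : g * N ≤ 2 * (N - X) + 5 * W := by
    rw [hsplit, mul_add]
    have : g * W ≤ W := by nlinarith
    rw [hsplit] at hgF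
    linarith
  have h6 : g * b0 * N ≤ 10 * (N - X) + 5 * (N - Y) := by
    have h7 : b0 * (g * N) ≤ b0 * (2 * (N - X) + 5 * W) := mul_le_mul_of_nonneg_left hgN hb0.le
    have h8 : b0 * (N - X) ≤ N - X := by nlinarith
    nlinarith
  nlinarith

end Basics

end Pool.Agent.Lib.MP_95bb8c_al.PX
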