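import Pool.Agent.Lib.MP_95bb8c_al.PX.Defs
import Pool.Agent.Lib.MP_95bb8c_al.PX.Forms
import Pool.Agent.Lib.MP_95bb8c_al.PX.Cheeger
import Pool.Agent.Lib.MP_95bb8c_al.PS.TheChain

set_option autoImplicit false
set_option linter.unusedSectionVars false

/-!
# The lazy chain of an expanding graph contracts the functions of mean zero
-/

namespace Pool.Agent.Lib.MP_95bb8c_al.PX

open Finset Matrix PS

section Block

variable {S V : Type} [Fintype S] [DecidableEq S] [DecidableEq V]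

/-- Two darts with the same tail have a common part of their predecessors. -/
theorem y2_block (C : Chain S V) (lam ε : ℚ) (hlam : 0 ≤ lam)
    (hP : ∀ a b, C.Q a b ≠ 0 → lam ≤ C.P a b) (hstep : C.Step ε) {b c : S}
    (h : C.tl b = C.tl c) :
    lam * (1 - ε) * C.pi b ≤ ∑ a, C.pi a * (C.P a b * C.P a c) := by
  have h1 : ∀ a, lam * (C.pi a * C.P a b) -
      lam * (if C.tl a = C.tl (C.rv c) then C.pi a * C.P a b else 0) ≤
        C.pi a * (C.P a b * C.P a c) := by
    intro a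
    have h0 : 0 ≤ C.pi a * (C.P a b * C.P a c) :=
      mul_nonneg (C.pi_pos a).le (mul_nonneg (C.P_nonneg a b) (C.P_nonneg a c))
    by_cases h2 : C.tl a = C.tl (C.rv c)
    · rw [if_pos h2, sub_self]
      exact h0
    · rw [if_neg h2, mul_zero, sub_zero]
      by_cases h3 : C.Q a b = 0
      · have h4 : C.P a b = 0 := by
          unfold Chain.P
          rw [h3, zero_div]
        rw [h4]
        simp
      · have h4 : C.Q a c ≠ 0 := by
          rw [C.Q_ne]
          exact ⟨h.symm.trans ((C.Q_ne a b).1 h3).1, fun h5 => h2 h5.symm⟩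
        have h5 := hP a c h4
        have h6 : 0 ≤ C.pi a * C.P a b := mul_nonneg (C.pi_pos a).le (C.P_nonneg a b)
        calc lam * (C.pi a * C.P a b) ≤ C.P a c * (C.pi a * C.P a b) :=
              mul_le_mul_of_nonneg_right h5 h6
          _ = C.pi a * (C.P a b * C.P a c) := by ring
  have h2 : ∑ a, (if C.tl a = C.tl (C.rv c) then C.pi a * C.P a b else 0) ≤ ε * C.pi b := by
    have h3 := hstep (C.rv b) (C.tl (C.rv c))
    have h4 : ∀ a, (if C.tl a = C.tl (C.rv c) then C.pi a * C.P a b else 0) =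
        C.pi b * (if C.tl (C.rv (C.rv a)) = C.tl (C.rv c) then C.P (C.rv b) (C.rv a) else 0) := by
      intro a
      rw [C.rv_rv, C.rev_one a b]
      split_ifs
      · rfl
      · rw [mul_zero]
    simp only [h4]
    rw [← mul_sum, C.sum_rv fun a =>
      (if C.tl (C.rv a) = C.tl (C.rv c) then C.P (C.rv b) a else 0), mul_comm ε]
    exact mul_le_mul_of_nonneg_left h3 (C.pi_pos b).le
  calc lam * (1 - ε) * C.pi b = lam * C.pi b - lam * (ε * C.pi b) := by ring
    _ ≤ lam * (∑ a, C.pi a * C.P a b) -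
        lam * ∑ a, (if C.tl a = C.tl (C.rv c) then C.pi a * C.P a b else 0) := by
        rw [C.pi_P]
        have := mul_le_mul_of_nonneg_left h2 hlam
        linarith
    _ = ∑ a, (lam * (C.pi a * C.P a b) -
        lam * (if C.tl a = C.tl (C.rv c) then C.pi a * C.P a b else 0)) := by
        rw [sum_sub_distrib, mul_sum, mul_sum]
    _ ≤ _ := sum_le_sum fun a _ => h1 a

/-- the lazy matrix on a function -/
theorem y2_lz (C : Chain S V) (f : S → ℚ) (a : S) :
    (lz C *ᵥ f) a = (f a + ∑ b, C.P a b * f b) / 2 := by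
  unfold Matrix.mulVec dotProduct lz
  have h1 : ∀ b, ((if a = b then (1 : ℚ) / 2 else 0) + C.P a b / 2) * f b =
      (if a = b then f b / 2 else 0) + C.P a b * f b / 2 := by
    intro b
    split_ifs <;> ring
  simp only [h1]
  rw [sum_add_distrib, sum_ite_eq univ a fun b => f b / 2, if_pos (mem_univ a), ← sum_div]
  ring

end Block

section Graph

variable {V E : Type} [Fintype V] [DecidableEq V] [Fintype E] [DecidableEq E]

/-- the number of darts leaving a vertex -/
theorem y2_card {s t : E → V} (hl : ∀ e, s e ≠ t e) (v : V) :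
    ∑ a : E × Bool, (if GW.tl s t a = v then (1 : ℚ) else 0) = ((cut s t {v}).card : ℚ) := by
  have h1 := p9_sum_darts hl v v fun _ => (1 : ℚ)
  have h2 : ∑ f ∈ cut s t {v}, (if GW.oth s t v f ≠ v then (1 : ℚ) else 0) =
      ((cut s t {v}).card : ℚ) := by
    rw [sum_congr rfl (g := fun _ => (1 : ℚ)) ?_, sum_const, nsmul_eq_mul, mul_one]
    intro f hf
    rw [if_pos]
    have h3 := (GW.mem_J_oth hl hf).2
    unfold GW.J at h3
    rw [mem_filter] at h3
    exact fun h4 => h3.2.1 h4.symm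
  rw [← h2, ← h1]
  refine sum_congr rfl fun a _ => ?_
  by_cases h3 : GW.tl s t a = v
  · rw [if_pos h3, if_pos]
    exact ⟨h3.symm, fun h4 => p9_tl_ne_hd hl a (h3.trans h4)⟩
  · rw [if_neg h3, if_neg]
    exact fun h4 => h3 h4.1.symm

/-- a sum over the darts of a function of the tail -/
theorem y2_tails {s t : E → V} (hl : ∀ e, s e ≠ t e) (F : V → ℚ) :
    ∑ a : E × Bool, F (GW.tl s t a) = ∑ v, ((cut s t {v}).card : ℚ) * F v := by
  have h1 : ∀ a : E × Bool, F (GW.tl s t a) = ∑ v, (if GW.tl s t a = v then F v else 0) := by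
    intro a
    rw [sum_ite_eq univ (GW.tl s t a) F, if_pos (mem_univ _)]
  simp only [h1]
  rw [sum_comm]
  refine sum_congr rfl fun v _ => ?_
  rw [← y2_card hl v, sum_mul]
  refine sum_congr rfl fun a _ => ?_
  split_ifs
  · rw [one_mul]
  · rw [zero_mul]

/-- the gap of the graph in terms of the chain -/
theorem y2_gap {s t : E → V} (hl : ∀ e, s e ≠ t e) (C : Chain (E × Bool) V) (hrv : C.rv = GW.rvd)
    (htl : C.tl = GW.tl s t) (hs : ∀ a, 1 / 2 ≤ C.s a) (hs1 : ∀ a, C.s a ≤ 1)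
    (D c : ℚ) (hD : 0 < D) (hc : 0 ≤ c) (hdeg : ∀ v, ((cut s t {v}).card : ℚ) ≤ D)
    (hcut : ∀ T : Finset V, 2 * T.card ≤ Fintype.card V →
      c * D * T.card ≤ ((cut s t T).card : ℚ))
    (φ : V → ℚ) (h0 : ∑ a, C.pi a * φ (C.tl a) = 0) :
    c ^ 2 / 2 * ∑ a, C.pi a * φ (C.tl a) ^ 2 ≤
      ∑ a, C.pi a * (φ (C.tl a) - φ (C.tl (C.rv a))) ^ 2 := by
  rcases isEmpty_or_nonempty (E × Bool) with hE | ⟨⟨a₀⟩⟩
  · simp
  have hZ : 0 < C.Z := C.Z_pos a₀
  obtain ⟨r, hr⟩ := cheeger hl D c hD hc hdeg hcut φ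
  have h1 : ∑ a, C.pi a * φ (C.tl a) ^ 2 ≤ ∑ a, C.pi a * (φ (C.tl a) - r) ^ 2 := by
    have h2 : ∑ a, C.pi a * (φ (C.tl a) - r) ^ 2 = ∑ a, C.pi a * φ (C.tl a) ^ 2 -
        2 * r * (∑ a, C.pi a * φ (C.tl a)) + r ^ 2 * ∑ a, C.pi a := by
      rw [mul_sum, mul_sum, ← sum_sub_distrib, ← sum_add_distrib]
      exact sum_congr rfl fun a _ => by ring
    have h3 : 0 ≤ ∑ a, C.pi a := sum_nonneg fun a _ => (C.pi_pos a).le
    rw [h2, h0]
    nlinarith [mul_nonneg (sq_nonneg r) h3]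
  have h2 : ∑ a, C.pi a * (φ (C.tl a) - r) ^ 2 ≤ (1 / C.Z) * (D * ∑ v, (φ v - r) ^ 2) := by
    calc ∑ a, C.pi a * (φ (C.tl a) - r) ^ 2 ≤ ∑ a, 1 / C.Z * (φ (GW.tl s t a) - r) ^ 2 := by
          refine sum_le_sum fun a _ => ?_
          rw [htl]
          refine mul_le_mul_of_nonneg_right ?_ (sq_nonneg _)
          unfold Chain.pi
          exact div_le_div_of_nonneg_right (hs1 a) hZ.le
      _ = 1 / C.Z * ∑ v, ((cut s t {v}).card : ℚ) * (φ v - r) ^ 2 := by
          rw [← mul_sum, y2_tails hl fun v => (φ v - r) ^ 2]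
      _ ≤ _ := by
          refine mul_le_mul_of_nonneg_left ?_ (by positivity)
          rw [mul_sum]
          exact sum_le_sum fun v _ => mul_le_mul_of_nonneg_right (hdeg v) (sq_nonneg _)
  have h3 : (1 / C.Z) * ∑ e, (φ (s e) - φ (t e)) ^ 2 ≤
      ∑ a, C.pi a * (φ (C.tl a) - φ (C.tl (C.rv a))) ^ 2 := by
    calc (1 / C.Z) * ∑ e, (φ (s e) - φ (t e)) ^ 2 =
        ∑ a : E × Bool, 1 / 2 / C.Z * (φ (s a.1) - φ (t a.1)) ^ 2 := by
          rw [Fintype.sum_prod_type, mul_sum]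
          refine sum_congr rfl fun e _ => ?_
          rw [Fintype.sum_bool]
          ring
      _ ≤ _ := by
          refine sum_le_sum fun a _ => ?_
          have h4 : (φ (C.tl a) - φ (C.tl (C.rv a))) ^ 2 = (φ (s a.1) - φ (t a.1)) ^ 2 := by
            rw [htl, hrv, p9_tl_rvd]
            obtain ⟨e, b⟩ := a
            cases b
            · simp only [GW.tl, GW.hd, Bool.false_eq_true, if_false]
              ring
            · simp only [GW.tl, GW.hd, if_true]
          rw [h4]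
          refine mul_le_mul_of_nonneg_right ?_ (sq_nonneg _)
          unfold Chain.pi
          exact div_le_div_of_nonneg_right (hs a) hZ.le
  calc c ^ 2 / 2 * ∑ a, C.pi a * φ (C.tl a) ^ 2
      ≤ c ^ 2 / 2 * ((1 / C.Z) * (D * ∑ v, (φ v - r) ^ 2)) :=
        mul_le_mul_of_nonneg_left (h1.trans h2) (by positivity)
    _ = (1 / C.Z) * ((c ^ 2 * D * ∑ v, (φ v - r) ^ 2) / 2) := by ring
    _ ≤ (1 / C.Z) * ∑ e, (φ (s e) - φ (t e)) ^ 2 := by
        refine mul_le_mul_of_nonneg_left ?_ (by positivity)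
        linarith
    _ ≤ _ := h3

/-- **The contraction.** -/
theorem contraction {s t : E → V} (hl : ∀ e, s e ≠ t e) (lam : ℚ) (hlam : 0 < lam)
    (κ : V → E → E → ℚ) (hκ : ∀ v e f, 0 ≤ κ v e f)
    (C : Chain (E × Bool) V) (hrv : C.rv = GW.rvd) (htl : C.tl = GW.tl s t)
    (hQ : ∀ a b, C.Q a b = if GW.hd s t a = GW.tl s t b ∧ GW.tl s t a ≠ GW.hd s t b then
      lam + κ (GW.hd s t a) a.1 b.1 else 0) (hs : ∀ a, 1 / 2 ≤ C.s a) (hs1 : ∀ a, C.s a ≤ 1)
    (D c : ℚ) (hD : 0 < D) (hlD : 1 ≤ lam * D) (hc : 0 < c) (hc1 : c ≤ 1)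
    (hstep : C.Step (1 / 2))
    (hdeg : ∀ v, ((cut s t {v}).card : ℚ) ≤ D) (hlow : ∀ v, c * D ≤ ((cut s t {v}).card : ℚ))
    (hcut : ∀ T : Finset V, 2 * T.card ≤ Fintype.card V →
      c * D * T.card ≤ ((cut s t T).card : ℚ)) :
    Contr C (1 - c ^ 3 / 640) := by
  intro f hf
  rcases isEmpty_or_nonempty (E × Bool) with hE | ⟨⟨a₀⟩⟩
  · unfold nrm
    simp
  have hZ : 0 < C.Z := C.Z_pos a₀
  have hP : ∀ a b, C.Q a b ≠ 0 → lam ≤ C.P a b := by
    intro a b hab
    have h1 := hQ a b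
    split_ifs at h1 with h2
    · have h3 : lam ≤ C.Q a b := by
        rw [h1]
        linarith [hκ (GW.hd s t a) a.1 b.1]
      unfold Chain.P
      rw [le_div_iff₀ (C.s_pos a)]
      have h4 := hs1 a
      nlinarith [C.s_pos a]
    · exact absurd h1 hab
  have hpi : ∀ a, C.pi a ≤ 1 / C.Z := fun a => by
    unfold Chain.pi
    exact div_le_div_of_nonneg_right (hs1 a) hZ.le
  have hpi2 : ∀ a, 1 / 2 / C.Z ≤ C.pi a := fun a => by
    unfold Chain.pi
    exact div_le_div_of_nonneg_right (hs a) hZ.le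
  have hpiV : ∀ v, c * D / 2 / C.Z ≤ piV C v := by
    intro v
    calc c * D / 2 / C.Z ≤ ((cut s t {v}).card : ℚ) * (1 / 2 / C.Z) := by
          have h1 := hlow v
          have h2 : c * D / 2 / C.Z = c * D * (1 / 2 / C.Z) := by ring
          rw [h2]
          exact mul_le_mul_of_nonneg_right h1 (by positivity)
      _ = ∑ a : E × Bool, (if GW.tl s t a = v then (1 : ℚ) else 0) * (1 / 2 / C.Z) := by
          rw [← sum_mul, y2_card hl v]
      _ ≤ piV C v := by
          unfold piV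
          refine sum_le_sum fun a _ => ?_
          rw [htl]
          split_ifs
          · rw [one_mul]
            exact hpi2 a
          · rw [zero_mul]
  have hM : ∀ b b', C.tl b = C.tl b' →
      c / 4 * C.pi b * C.pi b' ≤ piV C (C.tl b) * ∑ a, C.pi a * (C.P a b * C.P a b') := by
    intro b b' hbb
    have h1 := y2_block C lam (1 / 2) hlam.le hP hstep hbb
    have h2 := hpiV (C.tl b)
    have h3 : 0 < C.pi b := C.pi_pos b
    calc c / 4 * C.pi b * C.pi b' ≤ c / 4 * C.pi b * (1 / C.Z) :=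
          mul_le_mul_of_nonneg_left (hpi b') (by positivity)
      _ = 1 * (c / 4 * C.pi b * (1 / C.Z)) := (one_mul _).symm
      _ ≤ (lam * D) * (c / 4 * C.pi b * (1 / C.Z)) :=
          mul_le_mul_of_nonneg_right hlD (by positivity)
      _ = (c * D / 2 / C.Z) * (lam * (1 - 1 / 2) * C.pi b) := by ring
      _ ≤ _ := mul_le_mul h2 h1 (by positivity) (le_trans (by positivity) h2)
  have hc2 : c ^ 2 ≤ 1 := pow_le_one₀ hc.le hc1
  have hmain := y2_contr C (c / 4) (c ^ 2 / 4) (by positivity) (by linarith) (by linarith) hM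
    (fun φ h0 => by
      have h1 := y2_gap hl C hrv htl hs hs1 D c hD hc.le hdeg hcut φ h0
      linarith) f hf
  unfold nrm
  simp only [y2_lz]
  refine hmain.trans ?_
  refine mul_le_mul_of_nonneg_right ?_
    (sum_nonneg fun a _ => mul_nonneg (C.pi_pos a).le (sq_nonneg _))
  nlinarith [sq_nonneg (c ^ 3 / 640)]

end Graph

end Pool.Agent.Lib.MP_95bb8c_al.PX
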