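import Pool.Agent.Lib.MP_95bb8c_al.PS.Basic

set_option autoImplicit false
set_option linter.unusedSectionVars false

/-!
# Expanding Whitehead graphs: definitions

The lazy chain on the darts: with probability one half it stays, otherwise it makes a step of the
chain. Closed sequences of the lazy chain; the places at which the sequence stays are ignored.
-/

namespace Pool.Agent.Lib.MP_95bb8c_al.PX

open Finset Matrix PS

variable {S V : Type} [Fintype S] [DecidableEq S] [DecidableEq V]

/-- The lazy transition matrix. -/
def lz (C : Chain S V) : Matrix S S ℚ := fun a b =>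
  (if a = b then (1 : ℚ) / 2 else 0) + C.P a b / 2

/-- The mean of a function. -/
def mean (C : Chain S V) (f : S → ℚ) : ℚ := ∑ x, C.pi x * f x

/-- The square of the norm of a function. -/
def nrm (C : Chain S V) (f : S → ℚ) : ℚ := ∑ x, C.pi x * f x ^ 2

/-- The lazy chain contracts the functions of mean zero by the factor `η`. -/
def Contr (C : Chain S V) (η : ℚ) : Prop :=
  ∀ f : S → ℚ, mean C f = 0 → nrm C (lz C *ᵥ f) ≤ η ^ 2 * nrm C f

/-- The chain has densities at most `B` after a step, and after `T` lazy steps it is mixed up to
the relative error `γ`, apart from the event that it never moved. -/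
structure LMix (C : Chain S V) (B : ℚ) (T : ℕ) (γ : ℚ) : Prop where
  one_le : 1 ≤ B
  top : ∀ x y, C.P x y ≤ B * C.pi y
  mix : ∀ t, T ≤ t → ∀ x y, |(lz C ^ t) x y - C.pi y| ≤
    γ * C.pi y + (if x = y then (1 / 2 : ℚ) ^ t else 0)
  small : (1 / 2 : ℚ) ^ T * B ≤ γ

/-- The darts from which a closed lazy sequence really moves on have different tails. -/
def Simple (C : Chain S V) {n : ℕ} (a : Fin (n + 1) → S) : Prop :=
  ∀ i j, a i ≠ a (i + 1) → a j ≠ a (j + 1) → C.tl (a i) = C.tl (a j) → i = j

instance (C : Chain S V) {n : ℕ} (a : Fin (n + 1) → S) : Decidable (Simple C a) := by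
  unfold Simple
  infer_instance

section Words

variable {n : ℕ}

/-- The Whitehead graph expands: every set of at most half of the vertices is left by at least
`c * D` edges for each of its elements. -/
def Expands (U : List (List (Letter n))) (D : ℕ) (c : ℚ) : Prop :=
  ∀ T : Finset (Letter n), T.card ≤ n → c * D * T.card ≤ ((cut (src U) (tgt U) T).card : ℚ)

end Words

end Pool.Agent.Lib.MP_95bb8c_al.PX
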