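import Pool.Agent.Lib.MP_95bb8c_al.PX.Defs

set_option autoImplicit false
set_option linter.unusedSectionVars false

/-!
# The Dirichlet form of the lazy chain
-/

namespace Pool.Agent.Lib.MP_95bb8c_al.PX

open Finset Matrix PS

variable {S V : Type} [Fintype S] [DecidableEq S] [DecidableEq V]

/-- The lazy matrix as an operator. -/
theorem lz_mulVec (C : Chain S V) (f : S → ℚ) (x : S) :
    (lz C *ᵥ f) x = 1 / 2 * f x + 1 / 2 * ∑ y, C.P x y * f y := by
  unfold mulVec dotProduct lz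
  simp only [add_mul, sum_add_distrib]
  congr 1
  · simp only [ite_mul, zero_mul, sum_ite_eq, mem_univ, if_true]
  · rw [mul_sum]
    exact sum_congr rfl fun y _ => by ring

/-- Stationarity. -/
theorem sum_pi_P (C : Chain S V) (h : S → ℚ) :
    ∑ x, C.pi x * ∑ y, C.P x y * h y = ∑ y, C.pi y * h y := by
  simp only [mul_sum]
  rw [sum_comm]
  refine sum_congr rfl fun y _ => ?_
  rw [← C.pi_P y, sum_mul]
  exact sum_congr rfl fun x _ => by ring

theorem dirichlet (C : Chain S V) (f : S → ℚ) :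
    nrm C f - nrm C (lz C *ᵥ f) =
      1 / 4 * ∑ x, ∑ y, C.pi x * C.P x y * (f x - f y) ^ 2 +
      1 / 8 * ∑ x, ∑ y, ∑ z, C.pi x * C.P x y * C.P x z * (f y - f z) ^ 2 := by
  have h1 : ∀ x, ∑ y, C.pi x * C.P x y * (f x - f y) ^ 2 =
      C.pi x * (f x ^ 2 - 2 * f x * ∑ y, C.P x y * f y + ∑ y, C.P x y * f y ^ 2) := by
    intro x
    calc ∑ y, C.pi x * C.P x y * (f x - f y) ^ 2
        = ∑ y, (C.pi x * f x ^ 2 * C.P x y - C.pi x * (2 * f x) * (C.P x y * f y) +
            C.pi x * (C.P x y * f y ^ 2)) := sum_congr rfl fun y _ => by ring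
      _ = C.pi x * f x ^ 2 * ∑ y, C.P x y - C.pi x * (2 * f x) * ∑ y, C.P x y * f y +
            C.pi x * ∑ y, C.P x y * f y ^ 2 := by
          rw [sum_add_distrib, sum_sub_distrib, mul_sum, mul_sum, mul_sum]
      _ = _ := by
          rw [C.P_row x]
          ring
  have h2 : ∀ x, ∑ y, ∑ z, C.pi x * C.P x y * C.P x z * (f y - f z) ^ 2 =
      C.pi x * (2 * ∑ y, C.P x y * f y ^ 2 - 2 * (∑ y, C.P x y * f y) ^ 2) := by
    intro x
    have h3 : ∀ y, ∑ z, C.pi x * C.P x y * C.P x z * (f y - f z) ^ 2 =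
        C.pi x * (C.P x y * f y ^ 2) - 2 * C.pi x * (∑ z, C.P x z * f z) * (C.P x y * f y) +
          C.pi x * (∑ z, C.P x z * f z ^ 2) * C.P x y := by
      intro y
      calc ∑ z, C.pi x * C.P x y * C.P x z * (f y - f z) ^ 2
          = ∑ z, (C.pi x * (C.P x y * f y ^ 2) * C.P x z -
              2 * C.pi x * (C.P x y * f y) * (C.P x z * f z) +
              C.pi x * C.P x y * (C.P x z * f z ^ 2)) := sum_congr rfl fun z _ => by ring
        _ = C.pi x * (C.P x y * f y ^ 2) * ∑ z, C.P x z -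
              2 * C.pi x * (C.P x y * f y) * ∑ z, C.P x z * f z +
              C.pi x * C.P x y * ∑ z, C.P x z * f z ^ 2 := by
            rw [sum_add_distrib, sum_sub_distrib, mul_sum, mul_sum, mul_sum]
        _ = _ := by
            rw [C.P_row x]
            ring
    simp only [h3]
    rw [sum_add_distrib, sum_sub_distrib, ← mul_sum, ← mul_sum, ← mul_sum, C.P_row x]
    ring
  have h4 : ∀ x, C.pi x * ((lz C *ᵥ f) x) ^ 2 =
      1 / 4 * (C.pi x * f x ^ 2) + 1 / 2 * (C.pi x * (f x * ∑ y, C.P x y * f y)) +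
        1 / 4 * (C.pi x * (∑ y, C.P x y * f y) ^ 2) := by
    intro x
    rw [lz_mulVec]
    ring
  have h5 := sum_pi_P C (fun y => f y ^ 2)
  have h6 : ∑ x, ∑ y, C.pi x * C.P x y * (f x - f y) ^ 2 =
      2 * ∑ x, C.pi x * f x ^ 2 - 2 * ∑ x, C.pi x * (f x * ∑ y, C.P x y * f y) := by
    simp only [h1]
    calc ∑ x, C.pi x * (f x ^ 2 - 2 * f x * ∑ y, C.P x y * f y + ∑ y, C.P x y * f y ^ 2)
        = ∑ x, (C.pi x * f x ^ 2 - 2 * (C.pi x * (f x * ∑ y, C.P x y * f y)) +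
            C.pi x * ∑ y, C.P x y * f y ^ 2) := sum_congr rfl fun x _ => by ring
      _ = _ := by
          rw [sum_add_distrib, sum_sub_distrib, h5, ← mul_sum]
          ring
  have h7 : ∑ x, ∑ y, ∑ z, C.pi x * C.P x y * C.P x z * (f y - f z) ^ 2 =
      2 * ∑ x, C.pi x * f x ^ 2 - 2 * ∑ x, C.pi x * (∑ y, C.P x y * f y) ^ 2 := by
    simp only [h2]
    calc ∑ x, C.pi x * (2 * ∑ y, C.P x y * f y ^ 2 - 2 * (∑ y, C.P x y * f y) ^ 2)
        = ∑ x, (2 * (C.pi x * ∑ y, C.P x y * f y ^ 2) -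
            2 * (C.pi x * (∑ y, C.P x y * f y) ^ 2)) := sum_congr rfl fun x _ => by ring
      _ = _ := by
          rw [sum_sub_distrib, ← mul_sum, ← mul_sum, h5]
  rw [h6, h7]
  unfold nrm
  simp only [h4]
  rw [sum_add_distrib, sum_add_distrib, ← mul_sum, ← mul_sum, ← mul_sum]
  ring

end Pool.Agent.Lib.MP_95bb8c_al.PX
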