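import Pool.Agent.Lib.MP_95bb8c_al.PX.Lazy

set_option autoImplicit false
set_option linter.unusedSectionVars false

/-!
# The lazy chain mixes: from the contraction of the square norm to pointwise bounds
-/

namespace Pool.Agent.Lib.MP_95bb8c_al.PX

open Finset Matrix PS

variable {S : Type} [Fintype S] [DecidableEq S]

/-- The square of a mean is at most the mean of the square. -/
theorem y3_jensen (p f : S → ℚ) (hp : ∀ a, 0 ≤ p a) (h1 : ∑ a, p a = 1) :
    (∑ a, p a * f a) ^ 2 ≤ ∑ a, p a * f a ^ 2 := by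
  have h := Finset.sum_nonneg (s := univ) fun a (_ : a ∈ univ) =>
    mul_nonneg (hp a) (sq_nonneg (f a - ∑ b, p b * f b))
  have h2 : ∑ a, p a * (f a - ∑ b, p b * f b) ^ 2 =
      ∑ a, p a * f a ^ 2 - (∑ b, p b * f b) ^ 2 := by
    have h3 : ∀ a, p a * (f a - ∑ b, p b * f b) ^ 2 =
        p a * f a ^ 2 - 2 * (∑ b, p b * f b) * (p a * f a) + (∑ b, p b * f b) ^ 2 * p a := by
      intro a; ring
    rw [Finset.sum_congr rfl fun a _ => h3 a, Finset.sum_add_distrib, Finset.sum_sub_distrib,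
      ← Finset.mul_sum, ← Finset.mul_sum, h1]
    ring
  linarith

variable {P : Matrix S S ℚ} {pi : S → ℚ} {B η : ℚ}

/-- The powers of the lazy chain applied to a function. -/
theorem y3_contr (hst : ∀ b, ∑ a, pi a * P a b = pi b)
    (hc : ∀ f : S → ℚ, ∑ a, pi a * f a = 0 →
      ∑ a, pi a * ((f a + ∑ b, P a b * f b) / 2) ^ 2 ≤ η ^ 2 * ∑ a, pi a * f a ^ 2)
    (f : S → ℚ) (hf : ∑ a, pi a * f a = 0) (t : ℕ) :
    ∑ a, pi a * (∑ b, (((1 / 2 : ℚ) • (1 + P)) ^ t) a b * f b) = 0 ∧
      ∑ a, pi a * (∑ b, (((1 / 2 : ℚ) • (1 + P)) ^ t) a b * f b) ^ 2 ≤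
        (η ^ 2) ^ t * ∑ a, pi a * f a ^ 2 := by
  induction t with
  | zero =>
    simp [Matrix.one_apply, hf]
  | succ t ih =>
    obtain ⟨ih1, ih2⟩ := ih
    have hstep : ∀ a, ∑ b, (((1 / 2 : ℚ) • (1 + P)) ^ (t + 1)) a b * f b =
        ((∑ b, (((1 / 2 : ℚ) • (1 + P)) ^ t) a b * f b) +
          ∑ c, P a c * ∑ b, (((1 / 2 : ℚ) • (1 + P)) ^ t) c b * f b) / 2 := by
      intro a
      have h2 : ∀ b, (((1 / 2 : ℚ) • (1 + P)) ^ (t + 1)) a b =
          ((((1 / 2 : ℚ) • (1 + P)) ^ t) a b +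
            ∑ c, P a c * (((1 / 2 : ℚ) • (1 + P)) ^ t) c b) / 2 := by
        intro b
        rw [pow_succ', Matrix.smul_mul, Matrix.smul_apply, add_mul, one_mul, Matrix.add_apply,
          Matrix.mul_apply, smul_eq_mul]
        ring
      rw [Finset.sum_congr rfl fun b _ => by rw [h2 b]]
      have h3 : ∀ b, ((((1 / 2 : ℚ) • (1 + P)) ^ t) a b +
            ∑ c, P a c * (((1 / 2 : ℚ) • (1 + P)) ^ t) c b) / 2 * f b =
          ((((1 / 2 : ℚ) • (1 + P)) ^ t) a b * f b) / 2 +
            (∑ c, P a c * ((((1 / 2 : ℚ) • (1 + P)) ^ t) c b * f b)) / 2 := by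
        intro b
        have : (∑ c, P a c * ((((1 / 2 : ℚ) • (1 + P)) ^ t) c b * f b)) =
            (∑ c, P a c * (((1 / 2 : ℚ) • (1 + P)) ^ t) c b) * f b := by
          rw [Finset.sum_mul]
          exact Finset.sum_congr rfl fun c _ => by ring
        rw [this]; ring
      rw [Finset.sum_congr rfl fun b _ => h3 b, Finset.sum_add_distrib, ← Finset.sum_div,
        ← Finset.sum_div, Finset.sum_comm]
      simp only [← Finset.mul_sum]
      ring
    simp only [hstep]
    constructor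
    · have h4 : ∀ a, pi a * (((∑ b, (((1 / 2 : ℚ) • (1 + P)) ^ t) a b * f b) +
          ∑ c, P a c * ∑ b, (((1 / 2 : ℚ) • (1 + P)) ^ t) c b * f b) / 2) =
          (pi a * (∑ b, (((1 / 2 : ℚ) • (1 + P)) ^ t) a b * f b)) / 2 +
          (∑ c, pi a * P a c * ∑ b, (((1 / 2 : ℚ) • (1 + P)) ^ t) c b * f b) / 2 := by
        intro a
        have : (∑ c, pi a * P a c * ∑ b, (((1 / 2 : ℚ) • (1 + P)) ^ t) c b * f b) =
            pi a * (∑ c, P a c * ∑ b, (((1 / 2 : ℚ) • (1 + P)) ^ t) c b * f b) := by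
          rw [Finset.mul_sum]
          exact Finset.sum_congr rfl fun c _ => by ring
        rw [this]; ring
      rw [Finset.sum_congr rfl fun a _ => h4 a, Finset.sum_add_distrib, ← Finset.sum_div,
        ← Finset.sum_div, ih1, Finset.sum_comm]
      have h5 : ∑ c, ∑ a, pi a * P a c * ∑ b, (((1 / 2 : ℚ) • (1 + P)) ^ t) c b * f b =
          ∑ c, pi c * ∑ b, (((1 / 2 : ℚ) • (1 + P)) ^ t) c b * f b := by
        refine Finset.sum_congr rfl fun c _ => ?_
        rw [← Finset.sum_mul, hst c]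
      rw [h5, ih1]
      norm_num
    · refine (hc _ ih1).trans ?_
      rw [pow_succ' (η ^ 2) t, mul_assoc]
      exact mul_le_mul_of_nonneg_left ih2 (sq_nonneg _)

/-- After one real step the lazy chain is mixed pointwise. -/
theorem y3_after (hpi : ∀ a, 0 < pi a) (hsum : ∑ a, pi a = 1) (hP0 : ∀ a b, 0 ≤ P a b)
    (hrow : ∀ a, ∑ b, P a b = 1) (hst : ∀ b, ∑ a, pi a * P a b = pi b)
    (hB : ∀ a b, P a b ≤ B * pi b) (h0 : 0 ≤ η)
    (hc : ∀ f : S → ℚ, ∑ a, pi a * f a = 0 →
      ∑ a, pi a * ((f a + ∑ b, P a b * f b) / 2) ^ 2 ≤ η ^ 2 * ∑ a, pi a * f a ^ 2)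
    (t : ℕ) (x y : S) :
    |(P * ((1 / 2 : ℚ) • (1 + P)) ^ t * P) x y - pi y| ≤ B * η ^ t * pi y := by
  set L : Matrix S S ℚ := (1 / 2 : ℚ) • (1 + P) with hL
  have hBpos : 1 ≤ B := by
    have h := Finset.sum_le_sum fun b (_ : b ∈ univ) => hB x b
    rw [hrow x, ← Finset.mul_sum, hsum, mul_one] at h
    exact h
  have hy := hpi y
  -- the function
  set f : S → ℚ := fun z => P z y / pi y - 1 with hf
  have hf0 : ∑ a, pi a * f a = 0 := by
    have h : ∀ a, pi a * f a = pi a * P a y / pi y - pi a := by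
      intro a; simp only [hf]; ring
    rw [Finset.sum_congr rfl fun a _ => h a, Finset.sum_sub_distrib, ← Finset.sum_div, hst, hsum,
      div_self hy.ne', sub_self]
  have hf2 : ∑ a, pi a * f a ^ 2 ≤ B := by
    have h : ∀ a, pi a * f a ^ 2 ≤ B * (pi a * P a y / pi y) - 2 * (pi a * P a y / pi y) + pi a := by
      intro a
      have h2 : pi a * f a ^ 2 = (P a y / pi y) * (pi a * P a y / pi y) -
          2 * (pi a * P a y / pi y) + pi a := by
        simp only [hf]; ring
      rw [h2]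
      have h3 : P a y / pi y ≤ B := by
        rw [div_le_iff₀ hy]; exact hB a y
      have h4 : 0 ≤ pi a * P a y / pi y :=
        div_nonneg (mul_nonneg (hpi a).le (hP0 a y)) hy.le
      have := mul_le_mul_of_nonneg_right h3 h4
      linarith
    have h5 := Finset.sum_le_sum fun a (_ : a ∈ univ) => h a
    rw [Finset.sum_add_distrib, Finset.sum_sub_distrib, ← Finset.mul_sum, ← Finset.mul_sum,
      ← Finset.sum_div, hst, hsum, div_self hy.ne'] at h5
    linarith
  obtain ⟨-, h6⟩ := y3_contr hst hc f hf0 t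
  rw [← hL] at h6
  set G : S → ℚ := fun z => ∑ b, (L ^ t) z b * f b with hG
  have hB' : ∀ b, P x b ≤ B * pi b := hB x
  have h7 : (∑ b, P x b * G b) ^ 2 ≤ B ^ 2 * (η ^ 2) ^ t := by
    refine (y3_jensen (P x) G (hP0 x) (hrow x)).trans ?_
    calc ∑ b, P x b * G b ^ 2 ≤ ∑ b, B * (pi b * G b ^ 2) := by
          refine Finset.sum_le_sum fun b _ => ?_
          rw [← mul_assoc]
          exact mul_le_mul_of_nonneg_right (hB' b) (sq_nonneg _)
      _ = B * ∑ b, pi b * G b ^ 2 := by rw [Finset.mul_sum]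
      _ ≤ B * ((η ^ 2) ^ t * B) := by
          refine mul_le_mul_of_nonneg_left (h6.trans ?_) (by linarith)
          exact mul_le_mul_of_nonneg_left hf2 (pow_nonneg (sq_nonneg _) _)
      _ = B ^ 2 * (η ^ 2) ^ t := by ring
  have h8 : (η ^ 2) ^ t ≤ (η ^ t) ^ 2 := by
    rw [← pow_mul, ← pow_mul, mul_comm t 2]
  have h9 : (∑ b, P x b * G b) ^ 2 ≤ (B * η ^ t) ^ 2 := by
    rw [mul_pow]
    exact h7.trans (mul_le_mul_of_nonneg_left h8 (sq_nonneg _))
  have h10 : |∑ b, P x b * G b| ≤ B * η ^ t :=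
    abs_le_of_sq_le_sq h9 (mul_nonneg (by linarith) (pow_nonneg h0 _))
  -- identify
  have hLrow : ∀ s a, ∑ b, (L ^ s) a b = 1 := by
    intro s
    induction s with
    | zero => intro a; simp [Matrix.one_apply]
    | succ s ih =>
      intro a
      rw [pow_succ']
      simp only [Matrix.mul_apply]
      rw [Finset.sum_comm]
      simp only [← Finset.mul_sum, ih, mul_one]
      simp only [hL, Matrix.smul_apply, Matrix.add_apply, smul_eq_mul, ← Finset.mul_sum,
        Finset.sum_add_distrib, hrow]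
      simp only [Matrix.one_apply, Finset.sum_ite_eq, Finset.mem_univ, if_true]
      norm_num
  have h11 : ∑ b, P x b * G b = (P * L ^ t * P) x y / pi y - 1 := by
    have h12 : ∀ b, G b = (L ^ t * P) b y / pi y - 1 := by
      intro b
      simp only [hG, hf, mul_sub, mul_one, Finset.sum_sub_distrib, hLrow, Matrix.mul_apply,
        Finset.sum_div, mul_div_assoc]
    rw [Finset.sum_congr rfl fun b _ => by rw [h12 b]]
    simp only [mul_sub, mul_one, Finset.sum_sub_distrib, hrow]
    rw [Matrix.mul_assoc, Matrix.mul_apply (M := P), Finset.sum_div]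
    congr 1
    exact Finset.sum_congr rfl fun b _ => by ring
  rw [h11] at h10
  have h13 : (P * L ^ t * P) x y - pi y = ((P * L ^ t * P) x y / pi y - 1) * pi y := by
    field_simp
  rw [h13, abs_mul, abs_of_pos hy]
  exact mul_le_mul_of_nonneg_right h10 hy.le

/-- From the contraction of the square norm by the lazy chain to pointwise bounds: the error term
of never having moved is kept apart, and it is absent after a real step. -/
theorem lazy_mixing (hpi : ∀ a, 0 < pi a) (hsum : ∑ a, pi a = 1) (hP0 : ∀ a b, 0 ≤ P a b)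
    (hrow : ∀ a, ∑ b, P a b = 1) (hst : ∀ b, ∑ a, pi a * P a b = pi b)
    (hB : ∀ a b, P a b ≤ B * pi b) (hη2 : 3 / 4 ≤ η)
    (hc : ∀ f : S → ℚ, ∑ a, pi a * f a = 0 →
      ∑ a, pi a * ((f a + ∑ b, P a b * f b) / 2) ^ 2 ≤ η ^ 2 * ∑ a, pi a * f a ^ 2)
    (t : ℕ) (x y : S) :
    |(((1 / 2 : ℚ) • (1 + P)) ^ t * P) x y - pi y| ≤ 2 * B * η ^ t * pi y ∧
    |(((1 / 2 : ℚ) • (1 + P)) ^ t) x y - (if x = y then (1 / 2) ^ t else 0) - pi y| ≤
      4 * B * η ^ t * pi y := by
  set L : Matrix S S ℚ := (1 / 2 : ℚ) • (1 + P) with hL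
  have hBpos : 1 ≤ B := by
    have h := Finset.sum_le_sum fun b (_ : b ∈ univ) => hB x b
    rw [hrow x, ← Finset.mul_sum, hsum, mul_one] at h
    exact h
  have hy := hpi y
  have hcomm : ∀ s, L ^ s * P = P * L ^ s := by
    intro s
    have : Commute L P := by
      rw [hL]
      exact ((Commute.one_left P).add_left (Commute.refl P)).smul_left _
    exact this.pow_left s
  have hη : 0 ≤ η := by linarith
  have key : ∀ s, |(L ^ s * P) x y - pi y| ≤ 2 * B * η ^ s * pi y := by
    intro s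
    induction s with
    | zero =>
      rw [pow_zero, one_mul, pow_zero, mul_one]
      rw [abs_le]
      have h2 := hB x y
      have h3 := hP0 x y
      have h4 : pi y ≤ B * pi y := by nlinarith
      constructor <;> nlinarith
    | succ s ih =>
      have h2 := y3_after hpi hsum hP0 hrow hst hB hη hc s x y
      rw [← hL] at h2
      have h3 : (L ^ (s + 1) * P) x y - pi y =
          (((L ^ s * P) x y - pi y) + ((P * L ^ s * P) x y - pi y)) / 2 := by
        have : L ^ (s + 1) * P = (1 / 2 : ℚ) • (L ^ s * P + P * L ^ s * P) := by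
          rw [pow_succ', hL, Matrix.smul_mul, Matrix.smul_mul, add_mul, add_mul, one_mul]
        rw [this, Matrix.smul_apply, Matrix.add_apply, smul_eq_mul]
        ring
      rw [h3, abs_div, abs_of_pos (by norm_num : (0 : ℚ) < 2), div_le_iff₀ (by norm_num)]
      refine (abs_add_le _ _).trans ((add_le_add ih h2).trans ?_)
      have h5 : 0 ≤ B * η ^ s * pi y :=
        mul_nonneg (mul_nonneg (by linarith) (pow_nonneg hη _)) hy.le
      rw [pow_succ]
      nlinarith [mul_le_mul_of_nonneg_left hη2 h5]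
  refine ⟨key t, ?_⟩
  induction t with
  | zero =>
    rw [pow_zero, pow_zero, Matrix.one_apply, pow_zero, sub_self, zero_sub, abs_neg,
      abs_of_pos hy, mul_one]
    nlinarith
  | succ s ih =>
    have h3 : (L ^ (s + 1)) x y - (if x = y then (1 / 2 : ℚ) ^ (s + 1) else 0) - pi y =
        (((L ^ s) x y - (if x = y then (1 / 2 : ℚ) ^ s else 0) - pi y) +
          ((L ^ s * P) x y - pi y)) / 2 := by
      have : L ^ (s + 1) = (1 / 2 : ℚ) • (L ^ s + L ^ s * P) := by
        rw [pow_succ]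
        nth_rw 2 [hL]
        rw [Matrix.mul_smul, mul_add, mul_one]
      rw [this, Matrix.smul_apply, Matrix.add_apply, smul_eq_mul]
      split_ifs <;> ring
    rw [h3, abs_div, abs_of_pos (by norm_num : (0 : ℚ) < 2), div_le_iff₀ (by norm_num)]
    refine (abs_add_le _ _).trans ((add_le_add ih (key s)).trans ?_)
    have h5 : 0 ≤ B * η ^ s * pi y :=
      mul_nonneg (mul_nonneg (by linarith) (pow_nonneg hη _)) hy.le
    rw [pow_succ]
    nlinarith [mul_le_mul_of_nonneg_left hη2 h5]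

/-- A chain whose lazy version contracts the square norm is mixed pointwise after a logarithmic
number of lazy steps, apart from the event that it never moved. -/
theorem lazy_mix {V : Type} [DecidableEq V] (C : Chain S V) (η B γ : ℚ) (hη : 3 / 4 ≤ η)
    (hη1 : η ≤ 1) (hC : Contr C η)
    (hB1 : 1 ≤ B) (hB : ∀ x y, C.P x y ≤ B * C.pi y) (T : ℕ) (hγ : 4 * B * η ^ T ≤ γ) :
    LMix C B T γ := by
  rcases isEmpty_or_nonempty S with hS | hS
  · refine ⟨hB1, hB, fun t _ x => (hS.false x).elim, ?_⟩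
    refine le_trans ?_ hγ
    have h1 : (1 / 2 : ℚ) ^ T ≤ η ^ T := pow_le_pow_left₀ (by norm_num) (by linarith) T
    have h2 : 0 ≤ η ^ T := pow_nonneg (by linarith) T
    nlinarith
  have hc : ∀ f : S → ℚ, ∑ a, C.pi a * f a = 0 →
      ∑ a, C.pi a * ((f a + ∑ b, C.P a b * f b) / 2) ^ 2 ≤ η ^ 2 * ∑ a, C.pi a * f a ^ 2 := by
    intro f hf
    have h := hC f hf
    unfold nrm at h
    have h2 : ∀ a, (lz C *ᵥ f) a = (f a + ∑ b, C.P a b * f b) / 2 := by
      intro a
      rw [lz_eq, Matrix.smul_mulVec, Matrix.add_mulVec, Matrix.one_mulVec, Pi.smul_apply,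
        Pi.add_apply, smul_eq_mul, Matrix.mulVec, dotProduct]
      ring
    simp only [h2] at h
    exact h
  have key := lazy_mixing (P := C.P) (pi := C.pi) (B := B) (η := η) C.pi_pos C.pi_sum
    C.P_nonneg C.P_row C.pi_P hB hη hc
  refine ⟨hB1, hB, ?_, ?_⟩
  · intro t ht x y
    have h := (key t x y).2
    rw [← lz_eq] at h
    have h3 : 4 * B * η ^ t ≤ γ := by
      refine le_trans ?_ hγ
      exact mul_le_mul_of_nonneg_left (pow_le_pow_of_le_one (by linarith) hη1 ht) (by linarith)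
    have h4 : 4 * B * η ^ t * C.pi y ≤ γ * C.pi y :=
      mul_le_mul_of_nonneg_right h3 (C.pi_pos y).le
    have h5 : (0 : ℚ) ≤ if x = y then (1 / 2 : ℚ) ^ t else 0 := by
      split_ifs
      · positivity
      · exact le_rfl
    rw [abs_le] at h ⊢
    constructor <;> linarith [h.1, h.2]
  · refine le_trans ?_ hγ
    have h1 : (1 / 2 : ℚ) ^ T ≤ η ^ T := pow_le_pow_left₀ (by norm_num) (by linarith) T
    have h2 : 0 ≤ η ^ T := pow_nonneg (by linarith) T
    nlinarith

end Pool.Agent.Lib.MP_95bb8c_al.PX
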