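import Pool.Agent.Lib.MP_95bb8c_al.PX.Contract
import Pool.Agent.Lib.MP_95bb8c_al.PX.LMixing
import Pool.Agent.Lib.MP_95bb8c_al.PX.LGraphLaw
import Pool.Agent.Lib.MP_95bb8c_al.PS.Bounds
import Pool.Agent.Lib.MP_95bb8c_al.PS.TheChain
import Pool.Agent.Lib.MP_95bb8c_al.GW.Three

set_option autoImplicit false
set_option linter.unusedSectionVars false

/-!
# Expanding Whitehead graphs: the final theorem, explicit form
-/

namespace Pool.Agent.Lib.MP_95bb8c_al.PX

open Finset Matrix PS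

variable {n : ℕ}

/-- The number of positions is at most the sum of the numbers of occurrences. -/
private theorem y10_pos (U : List (List (Letter n))) (D : ℕ) (hD : ∀ a, occ U a ≤ D) :
    Fintype.card (Pos U) ≤ n * D := by
  have h1 : Fintype.card (Pos U) = ∑ a : Fin n, occ U a := by
    rw [← Finset.card_univ, Finset.card_eq_sum_card_fiberwise (s := (univ : Finset (Pos U)))
      (t := (univ : Finset (Fin n))) (f := fun p => p.letter.1)
      (fun _ _ => Finset.mem_coe.2 (Finset.mem_univ _))]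
    exact Finset.sum_congr rfl fun a _ => (occ_eq a).symm
  rw [h1]
  refine le_trans (Finset.sum_le_card_nsmul _ _ D fun a _ => hD a) ?_
  rw [Finset.card_univ, Fintype.card_fin, smul_eq_mul]

/-- From a list of cycles with the prescribed numbers to polygonality. -/
private theorem y10_polygonal {U : List (List (Letter n))} (hU : CycRed U)
    (κ : Letter n → Pos U → Pos U → ℚ) (hκ0 : ∀ v e f, 0 ≤ κ v e f)
    (hκc : ∀ v, ∀ e ∈ star U v, ∀ f ∈ star U v,
        κ (bar v) (conMap U v e) (conMap U v f) = κ v e f)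
    (lam : ℚ) (hlam : 0 < lam) (L : List (Finset (Pos U))) (N : ℕ) (hN : 0 < N)
    (hL1 : ∀ C ∈ L, IsCycle (src U) (tgt U) C)
    (hL2 : ∀ v, ∀ e ∈ cut (src U) (tgt U) {v}, ∀ f ∈ cut (src U) (tgt U) {v},
        ((L.countP fun C => e ∈ C ∧ f ∈ C : ℕ) : ℚ) =
          N * (if e = f then 1 else lam + κ v e f))
    {u v w : Letter n} (huw : u ≠ w) {e f : Pos U} (he : e ∈ GW.J (src U) (tgt U) u v)
    (hf : f ∈ GW.J (src U) (tgt U) v w) : GW.Polygonal U := by
  have hl := no_loop hU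
  refine ⟨L, hL1, ?_, ?_⟩
  · have he1 := GW.oth_of_mem_J hl he
    have hf' := hf
    rw [GW.J_comm] at hf'
    have hf1 := GW.oth_of_mem_J hl hf'
    have hne : e ≠ f := by
      intro hef
      rw [hef] at he1
      exact huw (he1.2.symm.trans hf1.2)
    have h1 := hL2 _ e he1.1 f hf1.1
    rw [if_neg hne] at h1
    have h2 : (0 : ℚ) < ((L.countP fun C => e ∈ C ∧ f ∈ C : ℕ) : ℚ) := by
      rw [h1]
      refine mul_pos (by exact_mod_cast hN) ?_
      have := hκ0 v e f
      linarith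
    have h3 : 0 < (L.countP fun C => e ∈ C ∧ f ∈ C) := by exact_mod_cast h2
    obtain ⟨C, hC, hC2⟩ := List.countP_pos_iff.1 h3
    have hC3 : e ∈ C ∧ f ∈ C := by simpa using hC2
    exact ⟨C, hC, GW.three_le hl (hL1 C hC) huw he hf hC3.1 hC3.2⟩
  · intro v e he f hf
    have he' := conMap_mem hU v e he
    have hf' := conMap_mem hU v f hf
    have h1 := hL2 v e he f hf
    have h2 := hL2 (bar v) _ he' _ hf'
    have h3 : ((L.countP fun C => e ∈ C ∧ f ∈ C : ℕ) : ℚ) =
        ((L.countP fun C => conMap U v e ∈ C ∧ conMap U v f ∈ C : ℕ) : ℚ) := by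
      rw [h1, h2]
      by_cases hef : e = f
      · rw [if_pos hef, if_pos (by rw [hef])]
      · rw [if_neg hef, if_neg (fun h => hef (conMap_inj hU v e he f hf h)), hκc v e he f hf]
    exact_mod_cast h3

theorem expand (hn : 1 < n) {U : List (List (Letter n))} (hU : CycRed U) (hne : U ≠ [])
    (D M : ℕ) (hD : ∀ a, occ U a ≤ D) (hD' : ∃ a, occ U a = D)
    (hM : ∀ u v : Letter n, u ≠ v → GW.mult U u v ≤ M) (c : ℚ) (hc : 0 < c)
    (hexp : Expands U D c) (T : ℕ)
    (h1 : 200000 * (T + 2 : ℚ) ^ 3 * (256 * n / c * (1 - c ^ 3 / 640) ^ T) ≤ c)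
    (h2 : 200000 * (T + 2 : ℚ) ^ 3 * M ≤ c ^ 2 * D) :
    GW.Polygonal U := by
  classical
  have hl := no_loop hU
  have hnq : (1 : ℚ) < n := by exact_mod_cast hn
  have hTq : (0 : ℚ) ≤ T := Nat.cast_nonneg _
  -- a position exists
  obtain ⟨p₀⟩ : Nonempty (Pos U) := by
    have h3 : 0 < U.length := List.length_pos_of_ne_nil hne
    have h4 : 0 < (U.get ⟨0, h3⟩).length :=
      List.length_pos_of_ne_nil (hU.1 _ (List.get_mem _ _))
    exact ⟨⟨⟨0, h3⟩, ⟨0, h4⟩⟩⟩
  have : Nonempty (Pos U × Bool) := ⟨(p₀, true)⟩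
  have hM1 : 1 ≤ M := by
    have h3 := hM (src U p₀) (tgt U p₀) (hl p₀)
    have h4 : 0 < GW.mult U (src U p₀) (tgt U p₀) := by
      unfold GW.mult
      rw [Finset.card_pos]
      refine ⟨p₀, ?_⟩
      unfold GW.J
      rw [Finset.mem_filter]
      exact ⟨Finset.mem_univ _, hl p₀, Or.inl ⟨rfl, rfl⟩⟩
    omega
  have hMq : (1 : ℚ) ≤ M := by exact_mod_cast hM1
  have hDq0 : (0 : ℚ) ≤ D := Nat.cast_nonneg _
  have hdeg : ∀ v : Letter n, (star U v).card = occ U v.1 := fun v => dg_eq hU v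
  have hdlow' : ∀ v : Letter n, c * D ≤ ((star U v).card : ℚ) := by
    intro v
    have h3 := hexp {v} (by rw [Finset.card_singleton]; exact hn.le)
    rw [Finset.card_singleton, Nat.cast_one, mul_one] at h3
    exact h3
  -- D is positive
  have hDpos : (0 : ℚ) < D := by
    rcases Nat.eq_zero_or_pos D with h0 | h0
    · exfalso
      have h3 : p₀ ∈ star U (src U p₀) := by
        unfold star
        rw [mem_star hl]
        exact Or.inl rfl
      have h4 : 0 < (star U (src U p₀)).card := Finset.card_pos.2 ⟨p₀, h3⟩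
      rw [hdeg] at h4
      have h5 := hD (src U p₀).1
      omega
    · exact_mod_cast h0
  -- c is at most one
  have hc1 : c ≤ 1 := by
    obtain ⟨a, ha⟩ := hD'
    have h3 := hdlow' (a, true)
    rw [hdeg, ha] at h3
    by_contra hcon
    push Not at hcon
    have h4 : 1 * (D : ℚ) < c * D := mul_lt_mul_of_pos_right hcon hDpos
    linarith
  obtain ⟨θ, hθdef⟩ : ∃ θ : ℚ, θ = c / 2 := ⟨_, rfl⟩
  have hθc : c = 2 * θ := by rw [hθdef]; ring
  have hθ0 : 0 < θ := by rw [hθdef]; linarith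
  have hθ1 : θ ≤ 1 := by rw [hθdef]; linarith
  -- the size of D
  have hT3 : (8 : ℚ) ≤ ((T : ℚ) + 2) ^ 3 := by
    calc (8 : ℚ) = 2 ^ 3 := by norm_num
      _ ≤ ((T : ℚ) + 2) ^ 3 := pow_le_pow_left₀ (by norm_num) (by linarith) 3
  have hθD : 800000 * (M : ℚ) ≤ θ * D := by
    have h3 : 200000 * (8 : ℚ) * M ≤ 200000 * ((T : ℚ) + 2) ^ 3 * M :=
      mul_le_mul_of_nonneg_right (mul_le_mul_of_nonneg_left hT3 (by norm_num)) (by linarith)
    have h4 : c ^ 2 * D ≤ c * D := by
      apply mul_le_mul_of_nonneg_right _ hDq0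
      rw [pow_two]
      exact mul_le_of_le_one_left hc.le hc1
    have h5 : c * D = 2 * (θ * D) := by rw [hθc]; ring
    linarith
  have hDM : 800000 * (M : ℚ) ≤ D := by
    have : θ * D ≤ 1 * D := mul_le_mul_of_nonneg_right hθ1 hDq0
    linarith
  have hD1 : (0 : ℚ) < D - 1 := by linarith
  have hθDpos : 0 < θ * D := mul_pos hθ0 hDpos
  -- degrees
  have hdlow : ∀ v : Letter n, 2 * θ * D ≤ ((star U v).card : ℚ) := by
    intro v
    rw [← hθc]
    exact hdlow' v
  have hocclow : ∀ a : Fin n, 0 < occ U a → 2 * θ * D ≤ (occ U a : ℚ) := by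
    intro a ha
    have := hdlow (a, true)
    rw [hdeg] at this
    exact this
  have hJM : ∀ u v : Letter n, ((GW.J (src U) (tgt U) u v).card : ℚ) ≤ M := by
    intro u v
    by_cases huv : u = v
    · have h3 : GW.J (src U) (tgt U) u v = ∅ := by
        rw [Finset.eq_empty_iff_forall_notMem]
        intro e he
        unfold GW.J at he
        rw [Finset.mem_filter] at he
        exact he.2.1 huv
      rw [h3]
      simp
    · exact_mod_cast hM u v huv
  -- the special weights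
  let ρ : Fin n → ℚ := fun a =>
    if 0 < occ U a then ((D : ℚ) - occ U a) / ((D : ℚ) - 1) else 0
  have hρpos : ∀ a, 0 < occ U a → ρ a = ((D : ℚ) - occ U a) / ((D : ℚ) - 1) :=
    fun a ha => if_pos ha
  have hρneg : ∀ a, ¬ 0 < occ U a → ρ a = 0 := fun a ha => if_neg ha
  have hρ : ∀ a, 0 ≤ ρ a := by
    intro a
    by_cases ha : 0 < occ U a
    · rw [hρpos a ha]
      refine div_nonneg ?_ hD1.le
      have h3 : (occ U a : ℚ) ≤ D := by exact_mod_cast hD a
      linarith
    · rw [hρneg a ha]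
  have hρ1 : ∀ a, ρ a ≤ 1 := by
    intro a
    by_cases ha : 0 < occ U a
    · rw [hρpos a ha, div_le_one hD1]
      have := hocclow a ha
      linarith
    · rw [hρneg a ha]
      norm_num
  let k : Fin n → ℕ := fun a => occ U a / 2 - 2 * M + 1
  have h8M : ∀ a : Fin n, 0 < occ U a → 8 * M ≤ occ U a := by
    intro a ha
    have h3 := hocclow a ha
    have h4 : (8 : ℚ) * M ≤ occ U a := by linarith
    exact_mod_cast h4
  have hkK : ∀ a : Fin n, 0 < occ U a → θ * D / 2 ≤ (k a : ℚ) := by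
    intro a ha
    have h3 : occ U a ≤ 2 * (occ U a / 2) + 1 := by omega
    have h4 : 2 * M ≤ occ U a / 2 := by have := h8M a ha; omega
    have h5 : (occ U a : ℚ) ≤ 2 * ((occ U a / 2 : ℕ) : ℚ) + 1 := by exact_mod_cast h3
    show θ * D / 2 ≤ ((occ U a / 2 - 2 * M + 1 : ℕ) : ℚ)
    rw [Nat.cast_add, Nat.cast_sub h4]
    push_cast at h5 ⊢
    have h6 := hocclow a ha
    have h7 : (8 : ℚ) * M ≤ occ U a := by exact_mod_cast h8M a ha
    linarith
  obtain ⟨κ, hκ0, hκs, hκp, hκr, hκc, hκk⟩ := GW.exists_kappa_spread hU ρ hρ k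
    (fun a => Nat.succ_pos _) (by
      intro v u u' hu hu'
      have h3 := hM v u hu.symm
      have h4 := hM (bar v) u' hu'.symm
      show 2 * (GW.mult U v u + GW.mult U (bar v) u' + (occ U v.1 / 2 - 2 * M + 1 - 1)) ≤
        occ U v.1
      by_cases ha : 0 < occ U v.1
      · have h5 := h8M v.1 ha
        omega
      · have h5 : GW.mult U v u ≤ (star U v).card := by
          refine Finset.card_le_card fun e he => ?_
          rw [GW.J_comm] at he
          exact (GW.oth_of_mem_J hl he).1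
        have h6 : GW.mult U (bar v) u' ≤ (star U (bar v)).card := by
          refine Finset.card_le_card fun e he => ?_
          rw [GW.J_comm] at he
          exact (GW.oth_of_mem_J hl he).1
        rw [hdeg v] at h5
        rw [hdeg (bar v)] at h6
        have h7 : occ U (bar v).1 = occ U v.1 := rfl
        rw [h7] at h6
        omega)
  have hκB : ∀ v e f, κ v e f ≤ 2 / (θ * D) := by
    intro v e f
    by_cases ha : 0 < occ U v.1
    · rw [le_div_iff₀ hθDpos]
      have h3 := hκk v e f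
      have h4 := hρ1 v.1
      have h5 : θ * D / 2 * κ v e f ≤ (k v.1 : ℚ) * κ v e f :=
        mul_le_mul_of_nonneg_right (hkK v.1 ha) (hκ0 v e f)
      linarith
    · have h3 := hκk v e f
      rw [hρneg v.1 ha] at h3
      have h4 : (1 : ℚ) ≤ (k v.1 : ℚ) := by
        have : 1 ≤ k v.1 := Nat.succ_le_succ (Nat.zero_le _)
        exact_mod_cast this
      have h5 : 1 * κ v e f ≤ (k v.1 : ℚ) * κ v e f :=
        mul_le_mul_of_nonneg_right h4 (hκ0 v e f)
      have h6 : 0 ≤ 2 / (θ * D) := by positivity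
      linarith
  obtain ⟨lam, hlamdef⟩ : ∃ lam : ℚ, lam = 1 / ((D : ℚ) - 1) := ⟨_, rfl⟩
  have hlam0 : 0 < lam := by rw [hlamdef]; exact div_pos one_pos hD1
  have hlamD : lam * ((D : ℚ) - 1) = 1 := by rw [hlamdef]; field_simp
  have hlamB : lam ≤ 2 / (θ * D) := by
    rw [hlamdef, div_le_div_iff₀ hD1 hθDpos]
    have : θ * D ≤ 1 * D := mul_le_mul_of_nonneg_right hθ1 hDq0
    linarith
  have hsumB : ∀ v e f, lam + κ v e f ≤ 4 / (θ * D) := by
    intro v e f
    have h3 := hκB v e f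
    have h4 : 4 / (θ * D) = 2 / (θ * D) + 2 / (θ * D) := by ring
    linarith
  have hrow : ∀ v, ∀ e ∈ cut (src U) (tgt U) {v},
      ∑ f ∈ (cut (src U) (tgt U) {v}).erase e, (lam + κ v e f) = 1 := by
    intro v e he
    have h3 : κ v e e = 0 := by
      have h4 := (GW.mem_J_oth hl he).2
      rw [GW.J_comm] at h4
      exact hκp _ v e h4 e h4
    have h4 := hκr v e he
    unfold star at h4
    rw [Finset.sum_add_distrib, Finset.sum_const, Finset.card_erase_of_mem he, nsmul_eq_mul]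
    have h5 : ∑ f ∈ (cut (src U) (tgt U) {v}).erase e, κ v e f = ρ v.1 := by
      rw [← h4, ← Finset.add_sum_erase _ _ he, h3, zero_add]
    have h6 : 1 ≤ (cut (src U) (tgt U) {v}).card := Finset.card_pos.2 ⟨e, he⟩
    rw [h5, Nat.cast_sub h6, Nat.cast_one]
    have h7 : (((cut (src U) (tgt U) {v}).card : ℕ) : ℚ) = occ U v.1 := by
      have := hdeg v
      unfold star at this
      rw [this]
    have ha : 0 < occ U v.1 := by
      have h8 := hdeg v
      unfold star at h8
      omega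
    rw [h7, hlamdef, hρpos v.1 ha]
    field_simp
    ring
  have hmJ : ∀ u v, 2 * lam * (GW.J (src U) (tgt U) u v).card ≤ 1 := by
    intro u v
    have h3 := hJM u v
    have h4 : 2 * lam * (GW.J (src U) (tgt U) u v).card ≤ 2 * lam * M :=
      mul_le_mul_of_nonneg_left h3 (by linarith)
    have h5 : lam * (2 * M) ≤ lam * ((D : ℚ) - 1) :=
      mul_le_mul_of_nonneg_left (by linarith) hlam0.le
    rw [hlamD] at h5
    linarith
  -- the chain
  obtain ⟨C, hrv, htl, hQ, hs⟩ := exists_chain hl lam hlam0 κ hκ0 hκs hκp hrow hmJ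
  have hover : C.Over θ := by
    have h3 := chain_over hl lam hlam0 κ hκ0 C hrv htl hQ (fun a => (hs a).2) (M : ℚ)
      (2 * θ * D) hJM (fun v _ => hdlow v)
    intro a b hab
    refine le_trans ?_ (h3 a b hab)
    have h4 : lam * (θ * ((D : ℚ) - 1)) ≤ lam * (2 * θ * D - 2 * M) := by
      apply mul_le_mul_of_nonneg_left _ hlam0.le
      nlinarith
    have h5 : lam * (θ * ((D : ℚ) - 1)) = θ := by
      have : lam * (θ * ((D : ℚ) - 1)) = θ * (lam * ((D : ℚ) - 1)) := by ring
      rw [this, hlamD, mul_one]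
    linarith
  have hstep : C.Step (8 * M / (θ * D)) := by
    have h3 := chain_step hl lam (4 / (θ * D)) hlam0 κ hκ0 hsumB C hrv htl hQ
      (fun a => (hs a).1) (M : ℚ) hJM
    have h4 : 2 * (4 / (θ * D)) * (M : ℚ) = 8 * M / (θ * D) := by ring
    rw [h4] at h3
    exact h3
  have hcardE : (Fintype.card (Pos U) : ℚ) ≤ n * D := by
    exact_mod_cast y10_pos U D hD
  have hmax : ∀ a b, C.P a b ≤ 32 * n / θ * C.pi b := by
    intro a b
    refine le_trans (chain_max hl lam (4 / (θ * D)) hlam0 κ hκ0 hsumB C hQ (fun a => (hs a).1)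
      (fun a => (hs a).2) a b) (mul_le_mul_of_nonneg_right ?_ (C.pi_pos b).le)
    have h3 : 8 * (4 / (θ * D)) * (Fintype.card (Pos U) : ℚ) ≤ 8 * (4 / (θ * D)) * (n * D) :=
      mul_le_mul_of_nonneg_left hcardE (by positivity)
    refine le_trans h3 (le_of_eq ?_)
    field_simp
    ring
  -- contraction and mixing
  have hc3 : c ^ 3 ≤ 1 := pow_le_one₀ hc.le hc1
  have hc3' : 0 ≤ c ^ 3 := by positivity
  have hcontr : Contr C (1 - c ^ 3 / 640) := by
    refine contraction hl lam hlam0 κ hκ0 C hrv htl hQ (fun a => (hs a).1) (fun a => (hs a).2)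
      D c hDpos ?_ hc hc1 ?_ ?_ hdlow' ?_
    · have h3 : lam * ((D : ℚ) - 1) ≤ lam * D :=
        mul_le_mul_of_nonneg_left (by linarith) hlam0.le
      linarith
    · intro x v
      refine (hstep x v).trans ?_
      rw [div_le_iff₀ hθDpos]
      linarith
    · intro v
      have h3 := hdeg v
      unfold star at h3
      rw [h3]
      exact_mod_cast hD v.1
    · intro T' hT'
      refine hexp T' ?_
      have h3 : Fintype.card (Letter n) = n * 2 := by
        show Fintype.card (Fin n × Bool) = n * 2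
        rw [Fintype.card_prod, Fintype.card_fin, Fintype.card_bool]
      omega
  have hB1 : (1 : ℚ) ≤ 32 * n / θ := by
    rw [le_div_iff₀ hθ0]
    linarith
  have hγeq : 4 * (32 * (n : ℚ) / θ) * (1 - c ^ 3 / 640) ^ T =
      256 * n / c * (1 - c ^ 3 / 640) ^ T := by
    rw [hθdef]
    congr 1
    field_simp
    ring
  have hmix : LMix C (32 * n / θ) T (256 * n / c * (1 - c ^ 3 / 640) ^ T) :=
    lazy_mix C (1 - c ^ 3 / 640) (32 * n / θ) _ (by linarith) (by linarith) hcontr hB1 hmax T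
      (le_of_eq hγeq)
  have hη0 : 0 ≤ (1 - c ^ 3 / 640) ^ T := pow_nonneg (by linarith) T
  have hγ0 : 0 ≤ 256 * (n : ℚ) / c * (1 - c ^ 3 / 640) ^ T := by positivity
  -- the numbers
  have hN : ((3 * T + 3 : ℕ) : ℚ) + 1 ≤ 3 * (T + 2) := by
    push_cast
    linarith
  have hN0 : (0 : ℚ) ≤ ((3 * T + 3 : ℕ) : ℚ) + 1 := by positivity
  obtain ⟨γ, hγ⟩ : ∃ γ : ℚ, γ = 256 * (n : ℚ) / c * (1 - c ^ 3 / 640) ^ T := ⟨_, rfl⟩
  rw [← hγ] at hmix hγ0 h1
  obtain ⟨L, N, hN1, hL1, hL2⟩ := lazy_graph_list hl lam hlam0 κ hκ0 hκs hκp hrow C hrv htl hQ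
    (32 * n / θ) T γ θ (8 * M / (θ * D)) hγ0 hmix hθ0
    hθ1 hover (by positivity) hstep (3 * T + 3) le_rfl
    (by
      have h3 : 56 * (((3 * T + 3 : ℕ) : ℚ) + 1) ^ 3 * (2 * (8 * M / (θ * D)) + γ) ≤
          56 * (3 * ((T : ℚ) + 2)) ^ 3 * (2 * (8 * M / (θ * D)) + γ) :=
        mul_le_mul_of_nonneg_right (mul_le_mul_of_nonneg_left
          (pow_le_pow_left₀ hN0 hN 3) (by norm_num)) (by positivity)
      refine le_trans h3 ?_
      have h4 : 56 * (3 * ((T : ℚ) + 2)) ^ 3 * (2 * (8 * M / (θ * D)) + γ) =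
          24192 * ((T + 2) ^ 3 * M) / (θ * D) + 1512 * ((T + 2) ^ 3 * γ) := by
        field_simp
        ring
      have h5 : 24192 * (((T : ℚ) + 2) ^ 3 * M) / (θ * D) ≤ θ / 2 := by
        rw [div_le_iff₀ hθDpos]
        have h6 : c ^ 2 * D = 4 * (θ * (θ * D)) := by rw [hθc]; ring
        have h7 : 200000 * (((T : ℚ) + 2) ^ 3 * M) = 200000 * ((T : ℚ) + 2) ^ 3 * M := by ring
        have h8 : 0 ≤ ((T : ℚ) + 2) ^ 3 * M := by positivity
        have h9 : θ / 2 * (θ * D) = θ * (θ * D) / 2 := by ring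
        rw [h9]
        linarith
      have h6 : 1512 * (((T : ℚ) + 2) ^ 3 * γ) ≤ θ / 2 := by
        have h7 : 200000 * (((T : ℚ) + 2) ^ 3 * γ) = 200000 * ((T : ℚ) + 2) ^ 3 * γ := by ring
        have h8 : 0 ≤ ((T : ℚ) + 2) ^ 3 * γ := by positivity
        linarith
      rw [h4]
      linarith)
  -- a vertex with two different neighbours
  obtain ⟨v, hv⟩ : ∃ v : Letter n, v = src U p₀ := ⟨_, rfl⟩
  obtain ⟨e, he⟩ : (star U v).Nonempty := by
    refine ⟨p₀, ?_⟩
    unfold star
    rw [mem_star hl]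
    exact Or.inl hv.symm
  have hej := GW.mem_J_oth hl he
  obtain ⟨f, hf, hfne⟩ : ∃ f ∈ star U v, GW.oth (src U) (tgt U) v f ≠
      GW.oth (src U) (tgt U) v e := by
    by_contra hcon
    push Not at hcon
    have h3 : star U v ⊆ GW.J (src U) (tgt U) v (GW.oth (src U) (tgt U) v e) := by
      intro f hf
      have h4 := (GW.mem_J_oth hl hf).2
      rw [hcon f hf] at h4
      exact h4
    have h4 : ((star U v).card : ℚ) ≤ M :=
      le_trans (by exact_mod_cast Finset.card_le_card h3) (hJM _ _)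
    have h5 := hdlow v
    linarith
  have hfj := (GW.mem_J_oth hl hf).2
  have hej' := hej.2
  rw [GW.J_comm] at hej'
  exact y10_polygonal hU κ hκ0 hκc lam hlam0 L N hN1 hL1 hL2 (fun h => hfne h.symm) hej' hfj

end Pool.Agent.Lib.MP_95bb8c_al.PX
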