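import Pool.Agent.Lib.MP_95bb8c_al.PS.LocalSolve

set_option autoImplicit false
set_option linter.unusedSectionVars false
set_option linter.unusedVariables false

/-!
# A nearly uniform symmetric matrix with prescribed zeros and constant row sums
-/

namespace Pool.Agent.Lib.MP_95bb8c_al.PX

open Finset Matrix PS

theorem kappa_one {X : Type} [Fintype X] [DecidableEq X] (A : X → X → Prop) [DecidableRel A]
    (hsym : ∀ e f, A e f → A f e) (hirr : ∀ e, ¬ A e e) (μ : ℚ) (hμ0 : 0 ≤ μ)
    (hμ1 : μ ≤ 1 / 1000)
    (hA : ∀ e, (1 - 2 * μ) * Fintype.card X ≤ ((univ.filter fun f => A e f).card : ℚ))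
    (ρ : ℚ) (hρ : 0 ≤ ρ) :
    ∃ κ : X → X → ℚ, (∀ e f, 0 ≤ κ e f) ∧ (∀ e f, κ e f = κ f e) ∧ (∀ e f, ¬ A e f → κ e f = 0) ∧
      (∀ e, ∑ f, κ e f = ρ) ∧ (∀ e f, κ e f * Fintype.card X ≤ 51 / 50 * ρ) ∧
      ∀ e f, A e f → 49 / 50 * ρ ≤ κ e f * Fintype.card X := by
  rcases isEmpty_or_nonempty X with hX | hX
  · refine ⟨fun _ _ => 0, fun e => hX.elim e, fun e => hX.elim e, fun e => hX.elim e,
      fun e => hX.elim e, fun e => hX.elim e, fun e => hX.elim e⟩
  · have hd : (0 : ℚ) < Fintype.card X := by exact_mod_cast Fintype.card_pos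
    set d : ℚ := (Fintype.card X : ℚ) with hdd
    -- the numbers of allowed partners
    obtain ⟨m, hm⟩ : ∃ m : X → ℚ, ∀ e, m e = ((univ.filter fun f => A e f).card : ℚ) :=
      ⟨_, fun _ => rfl⟩
    have hm1 : ∀ e, (1 - 2 * μ) * d ≤ m e := fun e => by rw [hm]; exact hA e
    have hm2 : ∀ e, m e ≤ d := fun e => by
      rw [hm, hdd]
      exact_mod_cast card_le_univ _
    have h45 : 4 / 5 * d ≤ (1 - 2 * μ) * d := mul_le_mul_of_nonneg_right (by linarith) hd.le
    have hm0 : ∀ e, 0 < m e := fun e => by
      have := hm1 e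
      linarith
    have hsum : ∀ e, ∀ F : X → ℚ, ∑ f, (if A e f then F f else 0) =
        ∑ f ∈ univ.filter (fun f => A e f), F f := fun e F => (sum_filter _ _).symm
    have hcount : ∀ e, ∑ f, (if A e f then (1 : ℚ) else 0) = m e := fun e => by
      rw [hsum, hm]
      simp
    -- the stochastic matrix
    set P : Matrix X X ℚ := fun e f => if A e f then 1 / m e else 0 with hP
    have hP0 : ∀ e f, 0 ≤ P e f := by
      intro e f
      simp only [hP]
      split_ifs
      · exact (div_pos one_pos (hm0 e)).le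
      · exact le_rfl
    have hPs : ∀ e, ∀ F : X → ℚ, ∑ f, P e f * F f =
        (∑ f, (if A e f then F f else 0)) / m e := by
      intro e F
      rw [sum_div]
      refine sum_congr rfl fun f _ => ?_
      simp only [hP]
      split_ifs
      · ring
      · ring
    have hrow : ∀ e, ∑ f, P e f = 1 := by
      intro e
      have h := hPs e fun _ => 1
      simp only [mul_one] at h
      rw [h, hcount]
      exact div_self (hm0 e).ne'
    have hov : ∀ e f : X, (1 : ℚ) / 2 ≤ ∑ x, min (P e x) (P f x) := by
      intro e f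
      have h1 : ∀ x, ((if A e x then (1 : ℚ) else 0) + (if A f x then (1 : ℚ) else 0) - 1) / d ≤
          min (P e x) (P f x) := by
        intro x
        have he : 1 / d ≤ 1 / m e := one_div_le_one_div_of_le (hm0 e) (hm2 e)
        have hf : 1 / d ≤ 1 / m f := one_div_le_one_div_of_le (hm0 f) (hm2 f)
        by_cases c1 : A e x
        · by_cases c2 : A f x
          · simp only [hP]
            rw [if_pos c1, if_pos c2, if_pos c1, if_pos c2]
            refine le_min ?_ ?_
            · calc ((1 : ℚ) + 1 - 1) / d = 1 / d := by ring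
                _ ≤ _ := he
            · calc ((1 : ℚ) + 1 - 1) / d = 1 / d := by ring
                _ ≤ _ := hf
          · rw [if_pos c1, if_neg c2]
            calc ((1 : ℚ) + 0 - 1) / d = 0 := by ring
              _ ≤ _ := le_min (hP0 e x) (hP0 f x)
        · by_cases c2 : A f x
          · rw [if_neg c1, if_pos c2]
            calc ((0 : ℚ) + 1 - 1) / d = 0 := by ring
              _ ≤ _ := le_min (hP0 e x) (hP0 f x)
          · rw [if_neg c1, if_neg c2]
            calc ((0 : ℚ) + 0 - 1) / d ≤ 0 :=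
                  div_nonpos_of_nonpos_of_nonneg (by norm_num) hd.le
              _ ≤ _ := le_min (hP0 e x) (hP0 f x)
      refine le_trans ?_ (sum_le_sum fun x _ => h1 x)
      rw [← sum_div, sum_sub_distrib, sum_add_distrib, hcount, hcount, sum_const, card_univ,
        nsmul_eq_mul, mul_one, ← hdd, le_div_iff₀ hd]
      have h2 := hm1 e
      have h3 := hm1 f
      have h4 : (1 - 2 * μ) * d = d - 2 * (μ * d) := by ring
      have h5 : μ * d ≤ 1 / 1000 * d := mul_le_mul_of_nonneg_right hμ1 hd.le
      rw [h4] at h2 h3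
      linarith
    obtain ⟨ψ, hψ, hψb⟩ := local_solve P hP0 hrow id (fun _ => rfl) (fun _ : X => ())
      (fun _ _ _ => rfl) (1 / 2) (by norm_num) (by norm_num) (fun e f _ => hov e f)
      (fun e => 2 * (d - m e) / m e) (5 * μ) (by
        intro e
        have h1 : 0 ≤ 2 * (d - m e) / m e :=
          div_nonneg (mul_nonneg (by norm_num) (by linarith [hm2 e])) (hm0 e).le
        rw [abs_of_nonneg h1, div_le_iff₀ (hm0 e)]
        have h2 := hm1 e
        have h3 : 5 * μ * ((1 - 2 * μ) * d) ≤ 5 * μ * m e :=
          mul_le_mul_of_nonneg_left h2 (by linarith)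
        have h4 : 5 * μ * (4 / 5 * d) ≤ 5 * μ * ((1 - 2 * μ) * d) :=
          mul_le_mul_of_nonneg_left h45 (by linarith)
        have h5 : (1 - 2 * μ) * d = d - 2 * (μ * d) := by ring
        have h6 : 5 * μ * (4 / 5 * d) = 4 * (μ * d) := by ring
        rw [h5] at h2
        linarith)
    have hb : ∀ e, |ψ e| ≤ 1 / 50 := by
      intro e
      have := hψb e
      have h2 : (2 : ℚ) / (1 / 2) * (5 * μ) = 20 * μ := by ring
      rw [h2] at this
      linarith
    have hb1 : ∀ e, ψ e ≤ 1 / 50 := fun e => (abs_le.1 (hb e)).2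
    have hb2 : ∀ e, -(1 / 50) ≤ ψ e := fun e => (abs_le.1 (hb e)).1
    refine ⟨fun e f => if A e f then ρ / (2 * d) * (2 + ψ e + ψ f) else 0, ?_, ?_, ?_, ?_, ?_, ?_⟩
    · intro e f
      dsimp only
      split_ifs
      · have h1 := hb2 e
        have h2 := hb2 f
        exact mul_nonneg (div_nonneg hρ (by linarith)) (by linarith)
      · exact le_rfl
    · intro e f
      dsimp only
      by_cases c : A e f
      · rw [if_pos c, if_pos (hsym e f c)]
        ring
      · rw [if_neg c, if_neg fun c' => c (hsym f e c')]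
    · intro e f c
      dsimp only
      rw [if_neg c]
    · intro e
      have h1 : ∀ f, (if A e f then ρ / (2 * d) * (2 + ψ e + ψ f) else 0) =
          ρ / (2 * d) * ((2 + ψ e) * (if A e f then 1 else 0) + (if A e f then ψ f else 0)) := by
        intro f
        split_ifs
        · ring
        · ring
      dsimp only
      simp only [h1]
      rw [← mul_sum, sum_add_distrib, ← mul_sum, hcount]
      have h2 := hψ e
      simp only [id] at h2
      rw [hPs e ψ] at h2
      have h3 : ∑ f, (if A e f then ψ f else 0) = 2 * (d - m e) - m e * ψ e := by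
        have h4 : (∑ f, (if A e f then ψ f else 0)) / m e = 2 * (d - m e) / m e - ψ e := by
          linarith
        have h5 : (∑ f, (if A e f then ψ f else 0)) =
            (∑ f, (if A e f then ψ f else 0)) / m e * m e :=
          (div_mul_cancel₀ _ (hm0 e).ne').symm
        rw [h5, h4, sub_mul, div_mul_cancel₀ _ (hm0 e).ne']
        ring
      rw [h3]
      have h6 : (2 + ψ e) * m e + (2 * (d - m e) - m e * ψ e) = 2 * d := by ring
      rw [h6]
      exact div_mul_cancel₀ _ (by linarith)
    · intro e f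
      dsimp only
      split_ifs
      · have h1 : ρ / (2 * d) * (2 + ψ e + ψ f) * d = ρ / 2 * (2 + ψ e + ψ f) := by
          have h2 : ρ / (2 * d) * (2 + ψ e + ψ f) * d =
              ρ / 2 * (2 + ψ e + ψ f) * (d / d) := by ring
          rw [h2, div_self hd.ne', mul_one]
        rw [h1]
        calc ρ / 2 * (2 + ψ e + ψ f) ≤ ρ / 2 * (2 + 1 / 50 + 1 / 50) :=
              mul_le_mul_of_nonneg_left (by linarith [hb1 e, hb1 f]) (by linarith)
          _ = 51 / 50 * ρ := by ring
      · rw [zero_mul]
        linarith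
    · intro e f c
      dsimp only
      rw [if_pos c]
      have h1 : ρ / (2 * d) * (2 + ψ e + ψ f) * d = ρ / 2 * (2 + ψ e + ψ f) := by
        have h2 : ρ / (2 * d) * (2 + ψ e + ψ f) * d =
            ρ / 2 * (2 + ψ e + ψ f) * (d / d) := by ring
        rw [h2, div_self hd.ne', mul_one]
      rw [h1]
      calc 49 / 50 * ρ = ρ / 2 * (2 + -(1 / 50) + -(1 / 50)) := by ring
        _ ≤ ρ / 2 * (2 + ψ e + ψ f) :=
          mul_le_mul_of_nonneg_left (by linarith [hb2 e, hb2 f]) (by linarith)

end Pool.Agent.Lib.MP_95bb8c_al.PX
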