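import Pool.Agent.Lib.MP_95bb8c_al.PX.KappaOne
import Pool.Agent.Lib.MP_95bb8c_al.GW.Kappa

set_option autoImplicit false
set_option linter.unusedSectionVars false

/-!
# The nearly uniform special weights on the Whitehead graph
-/

namespace Pool.Agent.Lib.MP_95bb8c_al.PX

open Finset PS

section Words

variable {n : ℕ} {U : List (List (Letter n))}

/-- The edge at the positive letter which is connected to the edge `e` at `v`. -/
private def ku_bas (v : Letter n) (e : Pos U) : Pos U := if v.2 = true then e else conMap U v e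

private theorem ku_bas_mem (hU : CycRed U) {v : Letter n} {e : Pos U} (he : e ∈ star U v) :
    ku_bas v e ∈ star U (v.1, true) := by
  obtain ⟨a, b⟩ := v
  unfold ku_bas
  cases b
  · rw [if_neg (by simp)]
    exact conMap_mem hU (a, false) e he
  · rw [if_pos rfl]
    exact he

private theorem ku_bas_inj (hU : CycRed U) {v : Letter n} {e f : Pos U} (he : e ∈ star U v)
    (hf : f ∈ star U v) (h : ku_bas v e = ku_bas v f) : e = f := by
  obtain ⟨a, b⟩ := v
  unfold ku_bas at h
  cases b
  · rw [if_neg (by simp), if_neg (by simp)] at h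
    exact conMap_inj hU (a, false) e he f hf h
  · rw [if_pos rfl, if_pos rfl] at h
    exact h

private theorem ku_bas_surj (hU : CycRed U) (v : Letter n) {x : Pos U}
    (hx : x ∈ star U (v.1, true)) : ∃ e ∈ star U v, ku_bas v e = x := by
  obtain ⟨a, b⟩ := v
  cases b
  · refine ⟨conMap U (a, true) x, conMap_mem hU (a, true) x hx, ?_⟩
    unfold ku_bas
    rw [if_neg (by simp)]
    exact GW.conMap_conMap hU (a, true) hx
  · exact ⟨x, hx, if_pos rfl⟩

private theorem ku_bas_con (hU : CycRed U) {v : Letter n} {e : Pos U} (he : e ∈ star U v) :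
    ku_bas (bar v) (conMap U v e) = ku_bas v e := by
  obtain ⟨a, b⟩ := v
  unfold ku_bas bar
  cases b
  · simp
  · simp only [Bool.not_true]
    rw [if_neg (by simp), if_pos trivial]
    exact GW.conMap_conMap hU (a, true) he

/-- The pairs of edges at the positive letter which are not parallel there and have images which
are not parallel. -/
private def ku_A (U : List (List (Letter n))) (a : Fin n) (x y : Pos U) : Prop :=
  GW.oth (src U) (tgt U) (a, true) y ≠ GW.oth (src U) (tgt U) (a, true) x ∧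
    GW.oth (src U) (tgt U) (a, false) (conMap U (a, true) y) ≠
      GW.oth (src U) (tgt U) (a, false) (conMap U (a, true) x)

private theorem ku_card (hU : CycRed U) (μ : ℚ)
    (hμ : ∀ u v : Letter n, u ≠ v → (GW.mult U u v : ℚ) ≤ μ * occ U v.1) (a : Fin n)
    (x : {e : Pos U // e ∈ star U (a, true)}) [DecidableRel (ku_A U a)] :
    (1 - 2 * μ) * Fintype.card {e : Pos U // e ∈ star U (a, true)} ≤
      ((univ.filter fun y : {e : Pos U // e ∈ star U (a, true)} => ku_A U a x.1 y.1).card : ℚ) := by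
  classical
  have hl := no_loop hU
  have h5 : Fintype.card {e : Pos U // e ∈ star U (a, true)} = occ U a := by
    rw [Fintype.card_coe]
    exact dg_eq hU (a, true)
  have h1 := GW.mem_J_oth hl x.2
  have h2 := GW.mem_J_oth hl (conMap_mem hU (a, true) x.1 x.2)
  set s1 := univ.filter fun y : {e : Pos U // e ∈ star U (a, true)} =>
    GW.oth (src U) (tgt U) (a, true) y.1 = GW.oth (src U) (tgt U) (a, true) x.1 with hs1
  set s2 := univ.filter fun y : {e : Pos U // e ∈ star U (a, true)} =>
    GW.oth (src U) (tgt U) (a, false) (conMap U (a, true) y.1) =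
      GW.oth (src U) (tgt U) (a, false) (conMap U (a, true) x.1) with hs2
  have hc1 : (s1.card : ℚ) ≤ μ * occ U a := by
    refine le_trans ?_ (hμ (GW.oth (src U) (tgt U) (a, true) x.1) (a, true) h1.1)
    rw [Nat.cast_le]
    unfold GW.mult
    rw [GW.J_comm]
    refine Finset.card_le_card_of_injOn (fun y => y.1) ?_ ?_
    · intro y hy
      have hy2 : GW.oth (src U) (tgt U) (a, true) y.1 = GW.oth (src U) (tgt U) (a, true) x.1 := by
        simpa [hs1] using hy
      have h7 := (GW.mem_J_oth hl y.2).2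
      rw [hy2] at h7
      exact h7
    · intro y _ z _ hyz
      exact Subtype.ext hyz
  have hc2 : (s2.card : ℚ) ≤ μ * occ U a := by
    refine le_trans ?_
      (hμ (GW.oth (src U) (tgt U) (a, false) (conMap U (a, true) x.1)) (a, false) h2.1)
    rw [Nat.cast_le]
    unfold GW.mult
    rw [GW.J_comm]
    refine Finset.card_le_card_of_injOn (fun y => conMap U (a, true) y.1) ?_ ?_
    · intro y hy
      have hy2 : GW.oth (src U) (tgt U) (a, false) (conMap U (a, true) y.1) =
        GW.oth (src U) (tgt U) (a, false) (conMap U (a, true) x.1) := by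
        simpa [hs2] using hy
      have h7 := (GW.mem_J_oth hl (conMap_mem hU (a, true) y.1 y.2)).2
      have h8 : bar (a, true) = (a, false) := rfl
      rw [h8] at h7
      rw [hy2] at h7
      exact h7
    · intro y _ z _ hyz
      exact Subtype.ext (conMap_inj hU (a, true) y.1 y.2 z.1 z.2 hyz)
  have hun : (univ : Finset {e : Pos U // e ∈ star U (a, true)}) ⊆
      (univ.filter fun y : {e : Pos U // e ∈ star U (a, true)} => ku_A U a x.1 y.1) ∪
        (s1 ∪ s2) := by
    intro y _
    rw [Finset.mem_union, Finset.mem_union, Finset.mem_filter, Finset.mem_filter,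
      Finset.mem_filter]
    by_cases g1 : GW.oth (src U) (tgt U) (a, true) y.1 = GW.oth (src U) (tgt U) (a, true) x.1
    · exact Or.inr (Or.inl ⟨Finset.mem_univ _, g1⟩)
    · by_cases g2 : GW.oth (src U) (tgt U) (a, false) (conMap U (a, true) y.1) =
        GW.oth (src U) (tgt U) (a, false) (conMap U (a, true) x.1)
      · exact Or.inr (Or.inr ⟨Finset.mem_univ _, g2⟩)
      · exact Or.inl ⟨Finset.mem_univ _, g1, g2⟩
  have hle := (Finset.card_le_card hun).trans
    ((Finset.card_union_le _ _).trans (Nat.add_le_add_left (Finset.card_union_le _ _) _))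
  rw [Finset.card_univ, h5] at hle
  have hle2 : (occ U a : ℚ) ≤
      ((univ.filter fun y : {e : Pos U // e ∈ star U (a, true)} => ku_A U a x.1 y.1).card : ℚ) +
        (s1.card + s2.card) := by exact_mod_cast hle
  rw [h5]
  linarith

/-- **The nearly uniform special weights.** -/
theorem exists_kappa_unif {U : List (List (Letter n))} (hU : CycRed U) (ρ : Fin n → ℚ)
    (hρ : ∀ a, 0 < ρ a) (μ : ℚ) (hμ0 : 0 ≤ μ) (hμ1 : μ ≤ 1 / 1000)
    (hμ : ∀ u v : Letter n, u ≠ v → (GW.mult U u v : ℚ) ≤ μ * occ U v.1) :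
    ∃ κ : Letter n → Pos U → Pos U → ℚ, (∀ v e f, 0 ≤ κ v e f) ∧
      (∀ v e f, κ v e f = κ v f e) ∧
      (∀ u v, ∀ e ∈ GW.J (src U) (tgt U) u v, ∀ f ∈ GW.J (src U) (tgt U) u v, κ v e f = 0) ∧
      (∀ v, ∀ e ∈ star U v, ∑ f ∈ star U v, κ v e f = ρ v.1) ∧
      (∀ v, ∀ e ∈ star U v, ∀ f ∈ star U v,
        κ (bar v) (conMap U v e) (conMap U v f) = κ v e f) ∧
      (∀ v e f, κ v e f * occ U v.1 ≤ 51 / 50 * ρ v.1) ∧
      ∀ v, ∀ e ∈ star U v, (1 - 2 * μ) * occ U v.1 ≤
        (((star U v).filter fun f => 49 / 50 * ρ v.1 ≤ κ v e f * occ U v.1).card : ℚ) := by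
  classical
  have hl := no_loop hU
  have hcard : ∀ a : Fin n, Fintype.card {e : Pos U // e ∈ star U (a, true)} = occ U a := by
    intro a
    rw [Fintype.card_coe]
    exact dg_eq hU (a, true)
  have hk : ∀ a : Fin n, ∃ κ : {e : Pos U // e ∈ star U (a, true)} →
      {e : Pos U // e ∈ star U (a, true)} → ℚ, (∀ e f, 0 ≤ κ e f) ∧ (∀ e f, κ e f = κ f e) ∧
      (∀ e f, ¬ ku_A U a e.1 f.1 → κ e f = 0) ∧
      (∀ e, ∑ f, κ e f = ρ a) ∧
      (∀ e f, κ e f * occ U a ≤ 51 / 50 * ρ a) ∧
      ∀ e f, ku_A U a e.1 f.1 → 49 / 50 * ρ a ≤ κ e f * occ U a := by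
    intro a
    have h := kappa_one (fun x y : {e : Pos U // e ∈ star U (a, true)} => ku_A U a x.1 y.1)
      (fun e f h => ⟨fun g => h.1 g.symm, fun g => h.2 g.symm⟩) (fun e h => h.1 rfl) μ hμ0 hμ1
      (fun x => ku_card hU μ hμ a x) (ρ a) (hρ a).le
    rw [hcard a] at h
    exact h
  choose k k0 ksym kz krow kup klow using hk
  -- extended to all positions
  let K : Fin n → Pos U → Pos U → ℚ := fun a x y =>
    if h : x ∈ star U (a, true) ∧ y ∈ star U (a, true) then k a ⟨x, h.1⟩ ⟨y, h.2⟩ else 0
  have hK : ∀ a x y (hx : x ∈ star U (a, true)) (hy : y ∈ star U (a, true)),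
      K a x y = k a ⟨x, hx⟩ ⟨y, hy⟩ := fun a x y hx hy => dif_pos ⟨hx, hy⟩
  let κ : Letter n → Pos U → Pos U → ℚ := fun v e f =>
    if e ∈ star U v ∧ f ∈ star U v then K v.1 (ku_bas v e) (ku_bas v f) else 0
  have hin : ∀ v e f, (he : e ∈ star U v) → (hf : f ∈ star U v) →
      κ v e f = k v.1 ⟨ku_bas v e, ku_bas_mem hU he⟩ ⟨ku_bas v f, ku_bas_mem hU hf⟩ := by
    intro v e f he hf
    have h1 : κ v e f = K v.1 (ku_bas v e) (ku_bas v f) := if_pos ⟨he, hf⟩
    rw [h1, hK]
  have hout : ∀ v e f, ¬ (e ∈ star U v ∧ f ∈ star U v) → κ v e f = 0 := by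
    intro v e f h
    exact if_neg h
  refine ⟨κ, ?_, ?_, ?_, ?_, ?_, ?_, ?_⟩
  · intro v e f
    by_cases h : e ∈ star U v ∧ f ∈ star U v
    · rw [hin v e f h.1 h.2]
      exact k0 _ _ _
    · rw [hout v e f h]
  · intro v e f
    by_cases h : e ∈ star U v ∧ f ∈ star U v
    · rw [hin v e f h.1 h.2, hin v f e h.2 h.1, ksym]
    · rw [hout v e f h, hout v f e (fun h' => h h'.symm)]
  · intro u v e he f hf
    have he1 := GW.oth_of_mem_J hl he
    have hf1 := GW.oth_of_mem_J hl hf
    rw [hin v e f he1.1 hf1.1]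
    apply kz
    have hef : GW.oth (src U) (tgt U) v e = GW.oth (src U) (tgt U) v f := he1.2.trans hf1.2.symm
    rintro ⟨g1, g2⟩
    obtain ⟨a, b⟩ := v
    cases b
    · apply g2
      have h2 : conMap U (a, true) (ku_bas (a, false) e) = e := by
        unfold ku_bas
        rw [if_neg (by simp)]
        exact GW.conMap_conMap hU (a, false) he1.1
      have h3 : conMap U (a, true) (ku_bas (a, false) f) = f := by
        unfold ku_bas
        rw [if_neg (by simp)]
        exact GW.conMap_conMap hU (a, false) hf1.1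
      show GW.oth (src U) (tgt U) (a, false) (conMap U (a, true) (ku_bas (a, false) f)) =
        GW.oth (src U) (tgt U) (a, false) (conMap U (a, true) (ku_bas (a, false) e))
      rw [h2, h3]
      exact hef.symm
    · apply g1
      have h2 : ku_bas (a, true) e = e := if_pos rfl
      have h3 : ku_bas (a, true) f = f := if_pos rfl
      show GW.oth (src U) (tgt U) (a, true) (ku_bas (a, true) f) =
        GW.oth (src U) (tgt U) (a, true) (ku_bas (a, true) e)
      rw [h2, h3]
      exact hef.symm
  · intro v e he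
    have h1 : ∑ f ∈ star U v, κ v e f = ∑ y ∈ star U (v.1, true), K v.1 (ku_bas v e) y := by
      refine Finset.sum_bij (fun f _ => ku_bas v f) ?_ ?_ ?_ ?_
      · intro f hf
        exact ku_bas_mem hU hf
      · intro f hf g hg h
        exact ku_bas_inj hU hf hg h
      · intro y hy
        obtain ⟨f, hf, h⟩ := ku_bas_surj hU v hy
        exact ⟨f, hf, h⟩
      · intro f hf
        exact if_pos ⟨he, hf⟩
    rw [h1, ← krow v.1 ⟨ku_bas v e, ku_bas_mem hU he⟩, ← Finset.sum_coe_sort]
    refine Finset.sum_congr rfl fun y _ => ?_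
    exact hK _ _ _ _ y.2
  · intro v e he f hf
    have he1 : conMap U v e ∈ star U (bar v) := conMap_mem hU v e he
    have hf1 : conMap U v f ∈ star U (bar v) := conMap_mem hU v f hf
    have g1 : κ (bar v) (conMap U v e) (conMap U v f) =
      K (bar v).1 (ku_bas (bar v) (conMap U v e)) (ku_bas (bar v) (conMap U v f)) :=
      if_pos ⟨he1, hf1⟩
    have g2 : κ v e f = K v.1 (ku_bas v e) (ku_bas v f) := if_pos ⟨he, hf⟩
    rw [g1, g2, ku_bas_con hU he, ku_bas_con hU hf]
    rfl
  · intro v e f
    by_cases h : e ∈ star U v ∧ f ∈ star U v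
    · rw [hin v e f h.1 h.2]
      exact kup _ _ _
    · rw [hout v e f h, zero_mul]
      have := hρ v.1
      linarith
  · intro v e he
    set x : {e : Pos U // e ∈ star U (v.1, true)} := ⟨ku_bas v e, ku_bas_mem hU he⟩ with hx
    have h1 := ku_card hU μ hμ v.1 x
    rw [hcard v.1] at h1
    refine h1.trans ?_
    rw [Nat.cast_le]
    have h2 : (univ.filter fun y : {e : Pos U // e ∈ star U (v.1, true)} =>
        ku_A U v.1 x.1 y.1).card =
        ((univ.filter fun y : {e : Pos U // e ∈ star U (v.1, true)} =>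
        ku_A U v.1 x.1 y.1).map (Function.Embedding.subtype _)).card := (Finset.card_map _).symm
    rw [h2]
    refine Finset.card_le_card_of_surjOn (fun f => ku_bas v f) ?_
    intro y hy
    rw [Finset.mem_coe, Finset.mem_map] at hy
    obtain ⟨z, hz, rfl⟩ := hy
    rw [Finset.mem_filter] at hz
    obtain ⟨f, hf, hfz⟩ := ku_bas_surj hU v z.2
    refine ⟨f, ?_, hfz⟩
    rw [Finset.mem_coe, Finset.mem_filter]
    refine ⟨hf, ?_⟩
    rw [hin v e f he hf]
    apply klow
    show ku_A U v.1 (ku_bas v e) (ku_bas v f)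
    rw [hfz]
    exact hz.2

end Words

end Pool.Agent.Lib.MP_95bb8c_al.PX
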