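import Pool.Agent.Lib.MP_95bb8c_al.PX.Lazy
import Pool.Agent.Lib.MP_95bb8c_al.PS.TwoPoint

set_option autoImplicit false
set_option linter.unusedSectionVars false

/-!
# The closed sequences of the lazy chain which are not simple have small weight
-/

namespace Pool.Agent.Lib.MP_95bb8c_al.PX

open Finset Matrix PS

variable {S V : Type} [Fintype S] [DecidableEq S] [DecidableEq V]

/-- The weight of the closed sequences with given places `i`, `i + 1`, `j`. -/
theorem y6_three_point (P : Matrix S S ℚ) {n : ℕ} (g h : S) (F : S → S → S → ℚ)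
    (i j : Fin (n + 1)) (hi : 1 ≤ i.1) (hij : i < j) :
    ∑ a : Fin (n + 1) → S, (if a 0 = g ∧ a 1 = h then
      cw P a * F (a i) (a (i + 1)) (a j) else 0) =
      P g h * ∑ x, ∑ z, ∑ y, (P ^ (i.1 - 1)) h x * P x z * (P ^ (j.1 - i.1 - 1)) z y *
        (P ^ (n + 1 - j.1)) y g * F x z y := by
  have hij' : i.1 < j.1 := hij
  have hjn : j.1 < n + 1 := j.2
  have hn : 1 ≤ n := by omega
  have h01 : ((1 : Fin (n + 1)) : ℕ) = 1 := by
    rw [Fin.val_one']
    exact Nat.mod_eq_of_lt (by omega)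
  have hi1 : ((i + 1 : Fin (n + 1)) : ℕ) = i.1 + 1 := by
    rw [Fin.val_add, h01]
    exact Nat.mod_eq_of_lt (by omega)
  have key : ∀ x z y : S, ∑ a : Fin (n + 1) → S,
      (if a 0 = g ∧ a 1 = h ∧ a i = x ∧ a (i + 1) = z ∧ a j = y then cw P a else 0) =
      P g h * ((P ^ (i.1 - 1)) h x * P x z * (P ^ (j.1 - i.1 - 1)) z y *
        (P ^ (n + 1 - j.1)) y g) := by
    intro x z y
    have e0 : ∑ a : Fin (n + 1) → S,
        (if a 0 = g ∧ a 1 = h ∧ a i = x ∧ a (i + 1) = z ∧ a j = y then cw P a else 0) =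
        wpath P (pin 1 h (pin i.1 x (pin (i.1 + 1) z (pin j.1 y fun _ _ => 1)))) g
          (n + 1) 0 g := by
      rw [← sum_cw]
      refine Finset.sum_congr rfl fun a _ => ?_
      have e1 := prod_pin (pin i.1 x (pin (i.1 + 1) z (pin j.1 y fun _ _ => (1 : ℚ)))) 1 h a
      rw [h01] at e1
      have e2 := prod_pin (pin j.1 y fun _ _ => (1 : ℚ)) (i + 1) z a
      rw [hi1] at e2
      rw [e1, prod_pin, e2, prod_pin, Finset.prod_const_one]
      by_cases c0 : a 0 = g
      · by_cases c1 : a 1 = h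
        · by_cases c2 : a i = x
          · by_cases c3 : a (i + 1) = z
            · by_cases c4 : a j = y
              · rw [if_pos ⟨c0, c1, c2, c3, c4⟩, if_pos c0, if_pos c1, if_pos c2, if_pos c3,
                  if_pos c4, one_mul]
              · rw [if_neg (fun h => c4 h.2.2.2.2), if_pos c0, if_pos c1, if_pos c2, if_pos c3,
                  if_neg c4, zero_mul]
            · rw [if_neg (fun h => c3 h.2.2.2.1), if_pos c0, if_pos c1, if_pos c2, if_neg c3,
                zero_mul]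
          · rw [if_neg (fun h => c2 h.2.2.1), if_pos c0, if_pos c1, if_neg c2, zero_mul]
        · rw [if_neg (fun h => c1 h.2.1), if_pos c0, if_neg c1, zero_mul]
      · rw [if_neg (fun h => c0 h.1), if_neg c0]
    rw [e0]
    have s1 := wpath_pin P (pin i.1 x (pin (i.1 + 1) z (pin j.1 y fun _ _ => 1))) g h (n - 1) 1
      0 g
    rw [show 0 + 1 = 1 from rfl, show 1 + (n - 1 + 1) = n + 1 by omega,
      show n - 1 + 1 = n by omega] at s1
    have s1' : wpath P (pin i.1 x (pin (i.1 + 1) z (pin j.1 y fun _ _ => 1))) h 1 0 g =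
        P g h := by
      rw [wpath_congr P _ (fun _ _ => 1) h 1 0 ?_ g, wpath_one, pow_one]
      intro l _ h2
      funext s
      unfold pin
      rw [if_neg (by omega), if_neg (by omega), if_neg (by omega)]
    have s2 := wpath_pin P (pin (i.1 + 1) z (pin j.1 y fun _ _ => 1)) g x (n - i.1) (i.1 - 1) 1 h
    rw [show 1 + (i.1 - 1) = i.1 by omega, show i.1 - 1 + (n - i.1 + 1) = n by omega] at s2
    have s2' : wpath P (pin (i.1 + 1) z (pin j.1 y fun _ _ => 1)) x (i.1 - 1) 1 h =
        (P ^ (i.1 - 1)) h x := by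
      rw [wpath_congr P _ (fun _ _ => 1) x (i.1 - 1) 1 ?_ h, wpath_one]
      intro l _ h2
      funext s
      unfold pin
      rw [if_neg (by omega), if_neg (by omega)]
    have s3 := wpath_pin P (pin j.1 y fun _ _ => 1) g z (n - i.1 - 1) 1 i.1 x
    rw [show 1 + (n - i.1 - 1 + 1) = n - i.1 + 1 by omega] at s3
    have s3' : wpath P (pin j.1 y fun _ _ => 1) z 1 i.1 x = P x z := by
      rw [wpath_congr P _ (fun _ _ => 1) z 1 i.1 ?_ x, wpath_one, pow_one]
      intro l _ h2
      funext s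
      unfold pin
      rw [if_neg (by omega)]
    have s4 := wpath_pin P (fun _ _ => 1) g y (n - j.1) (j.1 - i.1 - 1) (i.1 + 1) z
    rw [show i.1 + 1 + (j.1 - i.1 - 1) = j.1 by omega,
      show j.1 - i.1 - 1 + (n - j.1 + 1) = n - i.1 - 1 + 1 by omega, wpath_one, wpath_one,
      show n - j.1 + 1 = n + 1 - j.1 by omega] at s4
    rw [s1, s1', s2, s2', s3, s3', s4]
    ring
  have e2 : ∀ a : Fin (n + 1) → S, (if a 0 = g ∧ a 1 = h then
      cw P a * F (a i) (a (i + 1)) (a j) else 0) = ∑ x, ∑ z, ∑ y, F x z y *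
        (if a 0 = g ∧ a 1 = h ∧ a i = x ∧ a (i + 1) = z ∧ a j = y then cw P a else 0) := by
    intro a
    rw [Finset.sum_eq_single (a i), Finset.sum_eq_single (a (i + 1)),
      Finset.sum_eq_single (a j)]
    · by_cases c : a 0 = g ∧ a 1 = h
      · rw [if_pos c, if_pos ⟨c.1, c.2, rfl, rfl, rfl⟩, mul_comm]
      · rw [if_neg c, if_neg (fun h => c ⟨h.1, h.2.1⟩), mul_zero]
    · intro b _ hb
      rw [if_neg (fun h => hb h.2.2.2.2.symm), mul_zero]
    · intro h'
      exact absurd (Finset.mem_univ _) h'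
    · intro b _ hb
      refine Finset.sum_eq_zero fun c _ => ?_
      rw [if_neg (fun h => hb h.2.2.2.1.symm), mul_zero]
    · intro h'
      exact absurd (Finset.mem_univ _) h'
    · intro b _ hb
      refine Finset.sum_eq_zero fun c _ => Finset.sum_eq_zero fun d _ => ?_
      rw [if_neg (fun h => hb h.2.2.1.symm), mul_zero]
    · intro h'
      exact absurd (Finset.mem_univ _) h'
  simp only [e2]
  rw [Finset.sum_comm, Finset.mul_sum]
  refine Finset.sum_congr rfl fun x _ => ?_
  rw [Finset.sum_comm, Finset.mul_sum]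
  refine Finset.sum_congr rfl fun z _ => ?_
  rw [Finset.sum_comm, Finset.mul_sum]
  refine Finset.sum_congr rfl fun y _ => ?_
  rw [← Finset.mul_sum, key]
  ring

/-- The weight of the closed sequences with given places `j`, `j + 1`. -/
theorem y6_step_point (P : Matrix S S ℚ) {n : ℕ} (g h : S) (F : S → S → ℚ)
    (j : Fin (n + 1)) (hj : 1 ≤ j.1) :
    ∑ a : Fin (n + 1) → S, (if a 0 = g ∧ a 1 = h then cw P a * F (a j) (a (j + 1)) else 0) =
      P g h * ∑ y, ∑ z, (P ^ (j.1 - 1)) h y * P y z * (P ^ (n - j.1)) z g * F y z := by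
  have hjn : j.1 < n + 1 := j.2
  rcases Nat.lt_or_ge j.1 n with hlt | hge
  · have h01 : ((1 : Fin (n + 1)) : ℕ) = 1 := by
      rw [Fin.val_one']
      exact Nat.mod_eq_of_lt (by omega)
    have hj1 : ((j + 1 : Fin (n + 1)) : ℕ) = j.1 + 1 := by
      rw [Fin.val_add, h01]
      exact Nat.mod_eq_of_lt (by omega)
    have h1 := two_point P g h F j (j + 1) hj (by
      rw [Fin.le_def, hj1]
      omega)
    rw [h1, hj1, show j.1 + 1 - j.1 = 1 by omega, pow_one,
      show n + 1 - (j.1 + 1) = n - j.1 by omega]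
  · have hjn' : j.1 = n := by omega
    have hlast : j = Fin.last n := Fin.ext hjn'
    have hj0 : j + 1 = 0 := by rw [hlast, Fin.last_add_one]
    have h1 := two_point P g h (fun x _ => F x g) j j hj le_rfl
    have h2 : ∀ a : Fin (n + 1) → S, (if a 0 = g ∧ a 1 = h then
        cw P a * F (a j) (a (j + 1)) else 0) =
        (if a 0 = g ∧ a 1 = h then cw P a * F (a j) g else 0) := by
      intro a
      split_ifs with h3
      · rw [hj0, h3.1]
      · rfl
    simp only [h2]
    rw [h1]
    congr 1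
    refine Finset.sum_congr rfl fun x _ => ?_
    rw [hjn', Nat.sub_self, pow_zero, show n + 1 - n = 1 by omega, pow_one]
    rw [Finset.sum_eq_single x, Finset.sum_eq_single g]
    · rw [Matrix.one_apply_eq, Matrix.one_apply_eq]
      ring
    · intro z _ hz
      rw [Matrix.one_apply_ne hz]
      ring
    · intro hg
      exact absurd (Finset.mem_univ g) hg
    · intro y _ hy
      rw [Matrix.one_apply_ne (Ne.symm hy)]
      ring
    · intro hx
      exact absurd (Finset.mem_univ x) hx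

theorem y6_P_self (C : Chain S V) (a : S) : C.P a a = 0 := by
  have h : C.Q a a = 0 := by
    by_contra h0
    exact C.loopless a ((C.Q_ne a a).1 h0).1
  simp [Chain.P, h]

/-- one more lazy step -/
theorem y6_succ (C : Chain S V) (t : ℕ) (x y : S) :
    (lz C ^ (t + 1)) x y = 1 / 2 * (lz C ^ t) x y + 1 / 2 * (lz C ^ t * C.P) x y := by
  rw [pow_succ]
  conv_lhs => rw [show lz C ^ t * lz C = lz C ^ t * ((1 / 2 : ℚ) • (1 + C.P)) by rw [← lz_eq]]
  rw [Matrix.mul_smul, Matrix.mul_add, Matrix.mul_one, Matrix.smul_apply, Matrix.add_apply,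
    smul_eq_mul]
  ring

theorem y6_PL_nonneg (C : Chain S V) (t : ℕ) (x y : S) : 0 ≤ (C.P * lz C ^ t) x y := by
  rw [Matrix.mul_apply]
  exact Finset.sum_nonneg fun z _ => mul_nonneg (C.P_nonneg x z) (lzpow_nonneg C t z y)

/-- the head after a real step -/
theorem y6_head (C : Chain S V) {ε : ℚ} (hstep : C.Step ε) (t : ℕ) (x : S) (v : V) :
    ∑ y, (if C.tl (C.rv y) = v then (C.P * lz C ^ t) x y else 0) ≤ ε := by
  have h1 : ∀ y, (if C.tl (C.rv y) = v then (C.P * lz C ^ t) x y else 0) =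
      ∑ w, (lz C ^ t) x w * (if C.tl (C.rv y) = v then C.P w y else 0) := by
    intro y
    rw [lz_comm]
    split_ifs with h
    · rw [Matrix.mul_apply]
    · simp
  simp only [h1]
  rw [Finset.sum_comm]
  simp only [← Finset.mul_sum]
  calc ∑ w, (lz C ^ t) x w * ∑ y, (if C.tl (C.rv y) = v then C.P w y else 0)
      ≤ ∑ w, (lz C ^ t) x w * ε :=
        Finset.sum_le_sum fun w _ => mul_le_mul_of_nonneg_left (hstep w v)
          (lzpow_nonneg C t x w)
    _ = ε := by rw [← Finset.sum_mul, lzpow_row, one_mul]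

/-- the head after lazy steps -/
theorem y6_headL (C : Chain S V) {ε : ℚ} (hε : 0 ≤ ε) (hstep : C.Step ε) (t : ℕ) (x : S)
    (v : V) : ∑ y, (if C.tl (C.rv y) = v then (lz C ^ t) x y else 0) ≤
      (if C.tl (C.rv x) = v then (1 / 2 : ℚ) ^ t else 0) + ε := by
  induction t with
  | zero =>
    simp only [pow_zero, Matrix.one_apply]
    have h1 : ∑ y, (if C.tl (C.rv y) = v then (if x = y then (1 : ℚ) else 0) else 0) =
        if C.tl (C.rv x) = v then 1 else 0 := by
      rw [Finset.sum_eq_single x]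
      · rw [if_pos rfl]
      · intro y _ hy
        rw [if_neg (Ne.symm hy)]
        simp
      · intro h
        exact absurd (Finset.mem_univ x) h
    rw [h1]
    linarith
  | succ t ih =>
    have h1 : ∑ y, (if C.tl (C.rv y) = v then (lz C ^ (t + 1)) x y else 0) =
        1 / 2 * ∑ y, (if C.tl (C.rv y) = v then (lz C ^ t) x y else 0) +
        1 / 2 * ∑ y, (if C.tl (C.rv y) = v then (C.P * lz C ^ t) x y else 0) := by
      rw [Finset.mul_sum, Finset.mul_sum, ← Finset.sum_add_distrib]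
      refine Finset.sum_congr rfl fun y _ => ?_
      split_ifs
      · rw [y6_succ, lz_comm]
      · ring
    rw [h1]
    have h2 := y6_head C hstep t x v
    have h3 : (if C.tl (C.rv x) = v then (1 / 2 : ℚ) ^ (t + 1) else 0) =
        1 / 2 * (if C.tl (C.rv x) = v then (1 / 2 : ℚ) ^ t else 0) := by
      split_ifs
      · rw [pow_succ]
        ring
      · ring
    rw [h3]
    linarith

/-- the tail after a real step is the head before it -/
theorem y6_tail_eq (C : Chain S V) (t : ℕ) (x : S) (v : V) :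
    ∑ y, (if C.tl y = v then (C.P * lz C ^ t) x y else 0) =
      ∑ z, (if C.tl (C.rv z) = v then (lz C ^ t) x z else 0) := by
  have h1 : ∀ y, (if C.tl y = v then (C.P * lz C ^ t) x y else 0) =
      ∑ w, (lz C ^ t) x w * (if C.tl y = v then C.P w y else 0) := by
    intro y
    rw [lz_comm]
    split_ifs with h
    · rw [Matrix.mul_apply]
    · simp
  simp only [h1]
  rw [Finset.sum_comm]
  refine Finset.sum_congr rfl fun w _ => ?_
  rw [← Finset.mul_sum]
  have h2 : ∀ y, (if C.tl y = v then C.P w y else 0) =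
      (if C.tl (C.rv w) = v then C.P w y else 0) := by
    intro y
    by_cases hP : C.P w y = 0
    · simp [hP]
    · have hQ : C.Q w y ≠ 0 := by
        intro h0
        apply hP
        simp [Chain.P, h0]
      rw [((C.Q_ne w y).1 hQ).1]
  simp only [h2]
  split_ifs with h
  · rw [C.P_row, mul_one]
  · simp

/-- the tail after lazy steps, at a vertex which is not an end of the dart -/
theorem y6_tailL (C : Chain S V) {ε : ℚ} (hε : 0 ≤ ε) (hstep : C.Step ε) (t : ℕ) (x : S)
    (v : V) (hv : C.tl x ≠ v) (hv' : C.tl (C.rv x) ≠ v) :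
    ∑ y, (if C.tl y = v then (lz C ^ t) x y else 0) ≤ ε := by
  induction t with
  | zero =>
    refine le_trans (le_of_eq ?_) hε
    refine Finset.sum_eq_zero fun y _ => ?_
    split_ifs with h
    · rw [pow_zero, Matrix.one_apply, if_neg]
      rintro rfl
      exact hv h
    · rfl
  | succ t ih =>
    have h1 : ∑ y, (if C.tl y = v then (lz C ^ (t + 1)) x y else 0) =
        1 / 2 * ∑ y, (if C.tl y = v then (lz C ^ t) x y else 0) +
        1 / 2 * ∑ y, (if C.tl y = v then (C.P * lz C ^ t) x y else 0) := by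
      rw [Finset.mul_sum, Finset.mul_sum, ← Finset.sum_add_distrib]
      refine Finset.sum_congr rfl fun y _ => ?_
      split_ifs
      · rw [y6_succ, lz_comm]
      · ring
    rw [h1, y6_tail_eq]
    have h2 := y6_headL C hε hstep t x v
    rw [if_neg hv'] at h2
    linarith

/-- the tail after a real step, at the tail of the dart itself -/
theorem y6_tail_self (C : Chain S V) {ε : ℚ} (hε : 0 ≤ ε) (hstep : C.Step ε) (t : ℕ) (x : S) :
    ∑ y, (if C.tl y = C.tl x then (C.P * lz C ^ t) x y else 0) ≤ ε := by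
  rw [y6_tail_eq]
  have h2 := y6_headL C hε hstep t x (C.tl x)
  rw [if_neg (fun h => C.loopless x h.symm)] at h2
  linarith

/-- reversal with a real step -/
theorem y6_rev (C : Chain S V) (t : ℕ) (a b : S) :
    C.pi a * (C.P * lz C ^ t) a b = C.pi b * (C.P * lz C ^ t) (C.rv b) (C.rv a) := by
  have h1 : C.pi b * (C.P * lz C ^ t) (C.rv b) (C.rv a) =
      C.pi b * (lz C ^ t * C.P) (C.rv b) (C.rv a) := by rw [lz_comm]
  rw [h1, Matrix.mul_apply, Matrix.mul_apply, Finset.mul_sum, Finset.mul_sum,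
    ← C.sum_rv (fun c => C.pi b * ((lz C ^ t) (C.rv b) c * C.P c (C.rv a)))]
  refine Finset.sum_congr rfl fun c _ => ?_
  rw [← mul_assoc, C.rev_one a c]
  have h2 := lz_rev C t c b
  calc C.pi c * C.P (C.rv c) (C.rv a) * (lz C ^ t) c b
      = (C.pi c * (lz C ^ t) c b) * C.P (C.rv c) (C.rv a) := by ring
    _ = _ := by rw [h2]; ring

/-- the head of the reversed dart after a real step -/
theorem y6_head_rv (C : Chain S V) {ε : ℚ} (hstep : C.Step ε) (t : ℕ) (x : S) (v : V) :
    ∑ y, (if C.tl y = v then (C.P * lz C ^ t) x (C.rv y) else 0) ≤ ε := by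
  have h1 : ∑ y, (if C.tl y = v then (C.P * lz C ^ t) x (C.rv y) else 0) =
      ∑ y, (if C.tl (C.rv y) = v then (C.P * lz C ^ t) x y else 0) := by
    refine Fintype.sum_bijective C.rv (Function.Involutive.bijective C.rv_rv) _ _ fun y => ?_
    rw [C.rv_rv]
  rw [h1]
  exact y6_head C hstep t x v

theorem y6_headL_rv (C : Chain S V) {ε : ℚ} (hε : 0 ≤ ε) (hstep : C.Step ε) (t : ℕ) (x : S)
    (v : V) : ∑ y, (if C.tl y = v then (lz C ^ t) x (C.rv y) else 0) ≤
      (if C.tl (C.rv x) = v then (1 / 2 : ℚ) ^ t else 0) + ε := by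
  have h1 : ∑ y, (if C.tl y = v then (lz C ^ t) x (C.rv y) else 0) =
      ∑ y, (if C.tl (C.rv y) = v then (lz C ^ t) x y else 0) := by
    refine Fintype.sum_bijective C.rv (Function.Involutive.bijective C.rv_rv) _ _ fun y => ?_
    rw [C.rv_rv]
  rw [h1]
  exact y6_headL C hε hstep t x v

theorem y6_half_le {t T : ℕ} (h : T ≤ t) : (1 / 2 : ℚ) ^ t ≤ (1 / 2 : ℚ) ^ T :=
  pow_le_pow_of_le_one (by norm_num) (by norm_num) h

/-- the lazy steps are mixed -/
theorem y6_mixL (C : Chain S V) {B : ℚ} {T : ℕ} {γ : ℚ} (hγ1 : γ ≤ 1) (hmix : LMix C B T γ)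
    {t : ℕ} (ht : T ≤ t) (x y : S) : (lz C ^ t) x y ≤
      2 * C.pi y + (if x = y then (1 / 2 : ℚ) ^ t else 0) := by
  have h1 := (abs_le.1 (hmix.mix t ht x y)).2
  have h2 := mul_le_mul_of_nonneg_right hγ1 (C.pi_pos y).le
  linarith

/-- a real step and the lazy steps are mixed -/
theorem y6_mixP (C : Chain S V) {B : ℚ} {T : ℕ} {γ : ℚ} (hγ1 : γ ≤ 1) (hmix : LMix C B T γ)
    {t : ℕ} (ht : T ≤ t) (x y : S) : (C.P * lz C ^ t) x y ≤ 3 * C.pi y := by
  rw [Matrix.mul_apply]
  have h1 : ∑ z, C.P x z * (lz C ^ t) z y ≤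
      ∑ z, C.P x z * (2 * C.pi y + (if z = y then (1 / 2 : ℚ) ^ t else 0)) :=
    Finset.sum_le_sum fun z _ => mul_le_mul_of_nonneg_left (y6_mixL C hγ1 hmix ht z y)
      (C.P_nonneg x z)
  have h2 : ∑ z, C.P x z * (2 * C.pi y + (if z = y then (1 / 2 : ℚ) ^ t else 0)) =
      2 * C.pi y + C.P x y * (1 / 2) ^ t := by
    simp only [mul_add, Finset.sum_add_distrib, mul_ite, mul_zero, Finset.sum_ite_eq',
      Finset.mem_univ, if_true]
    rw [← Finset.sum_mul, C.P_row, one_mul]
  have hpi := (C.pi_pos y).le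
  have h3 : C.P x y * (1 / 2) ^ t ≤ γ * C.pi y := by
    calc C.P x y * (1 / 2) ^ t ≤ (B * C.pi y) * (1 / 2) ^ T := by
          have hB : 0 ≤ B * C.pi y := (C.P_nonneg x y).trans (hmix.top x y)
          exact mul_le_mul (hmix.top x y) (y6_half_le ht) (by positivity) hB
      _ = ((1 / 2) ^ T * B) * C.pi y := by ring
      _ ≤ γ * C.pi y := mul_le_mul_of_nonneg_right hmix.small hpi
  have h4 := mul_le_mul_of_nonneg_right hγ1 hpi
  linarith

/-- The contribution of a pair of places after the first one. -/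
theorem y6_pair_le (C : Chain S V) {B : ℚ} {T : ℕ} {γ ε : ℚ} (hγ0 : 0 ≤ γ) (hγ1 : γ ≤ 1)
    (hmix : LMix C B T γ) (hε : 0 ≤ ε) (hstep : C.Step ε) (a b c : ℕ) (hc : 1 ≤ c)
    (h : T ≤ a ∨ T ≤ b ∨ T ≤ c) (g k : S) (hQ : C.Q g k ≠ 0) :
    ∑ x, ∑ y, (lz C ^ a) k x * (1 / 2 * (C.P * lz C ^ b) x y) * (lz C ^ c) y g *
      (if C.tl y = C.tl x then 1 else 0) ≤ 2 * (2 * ε + γ) * C.pi g := by
  have hn := lzpow_nonneg C
  have hp := y6_PL_nonneg C
  have hpg := (C.pi_pos g).le
  have hB0 : 0 ≤ B := zero_le_one.trans hmix.one_le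
  have hεg : 0 ≤ ε * C.pi g := mul_nonneg hε hpg
  have hγg : 0 ≤ γ * C.pi g := mul_nonneg hγ0 hpg
  have hsmall : ∀ t, T ≤ t → (1 / 2 : ℚ) ^ t * (B * C.pi g) ≤ γ * C.pi g := by
    intro t ht
    calc (1 / 2 : ℚ) ^ t * (B * C.pi g) ≤ (1 / 2 : ℚ) ^ T * (B * C.pi g) :=
          mul_le_mul_of_nonneg_right (y6_half_le ht) (mul_nonneg hB0 hpg)
      _ = ((1 / 2) ^ T * B) * C.pi g := by ring
      _ ≤ γ * C.pi g := mul_le_mul_of_nonneg_right hmix.small hpg
  rcases h with h | h | h
  · -- the first power is mixed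
    have e1 : ∑ x, ∑ y, (lz C ^ a) k x * (1 / 2 * (C.P * lz C ^ b) x y) * (lz C ^ c) y g *
        (if C.tl y = C.tl x then 1 else 0) ≤
        ∑ x, ∑ y, (C.pi y * (lz C ^ c) y g *
          (if C.tl x = C.tl y then (C.P * lz C ^ b) (C.rv y) (C.rv x) else 0)) +
        ∑ x, ∑ y, (if k = x then (1 / 2 : ℚ) ^ a else 0) *
          (1 / 2 * (C.P * lz C ^ b) x y) * (lz C ^ c) y g := by
      rw [← Finset.sum_add_distrib]
      refine Finset.sum_le_sum fun x _ => ?_
      rw [← Finset.sum_add_distrib]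
      refine Finset.sum_le_sum fun y _ => ?_
      have h0 : 0 ≤ (if k = x then (1 / 2 : ℚ) ^ a else 0) *
          (1 / 2 * (C.P * lz C ^ b) x y) * (lz C ^ c) y g := by
        have := hp b x y
        have := hn c y g
        split_ifs <;> positivity
      by_cases hxy : C.tl y = C.tl x
      · rw [if_pos hxy, if_pos hxy.symm, mul_one]
        have h1 := y6_mixL C hγ1 hmix h k x
        have h2 := y6_rev C b x y
        have h3 : 0 ≤ 1 / 2 * (C.P * lz C ^ b) x y := mul_nonneg (by norm_num) (hp b x y)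
        calc (lz C ^ a) k x * (1 / 2 * (C.P * lz C ^ b) x y) * (lz C ^ c) y g
            ≤ (2 * C.pi x + (if k = x then (1 / 2 : ℚ) ^ a else 0)) *
                (1 / 2 * (C.P * lz C ^ b) x y) * (lz C ^ c) y g :=
              mul_le_mul_of_nonneg_right (mul_le_mul_of_nonneg_right h1 h3) (hn c y g)
          _ = (C.pi x * (C.P * lz C ^ b) x y) * (lz C ^ c) y g +
              (if k = x then (1 / 2 : ℚ) ^ a else 0) *
                (1 / 2 * (C.P * lz C ^ b) x y) * (lz C ^ c) y g := by ring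
          _ = _ := by rw [h2]; ring
      · rw [if_neg hxy, if_neg (Ne.symm hxy), mul_zero, mul_zero, zero_add]
        exact h0
    have e2 : ∑ x, ∑ y, (C.pi y * (lz C ^ c) y g *
        (if C.tl x = C.tl y then (C.P * lz C ^ b) (C.rv y) (C.rv x) else 0)) ≤
        ε * C.pi g := by
      calc ∑ x, ∑ y, (C.pi y * (lz C ^ c) y g *
            (if C.tl x = C.tl y then (C.P * lz C ^ b) (C.rv y) (C.rv x) else 0))
          = ∑ y, (C.pi y * (lz C ^ c) y g *
            ∑ x, (if C.tl x = C.tl y then (C.P * lz C ^ b) (C.rv y) (C.rv x) else 0)) := by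
            rw [Finset.sum_comm]
            simp only [Finset.mul_sum]
        _ ≤ ∑ y, (C.pi y * (lz C ^ c) y g * ε) := by
            refine Finset.sum_le_sum fun y _ => ?_
            exact mul_le_mul_of_nonneg_left (y6_head_rv C hstep b (C.rv y) (C.tl y))
              (mul_nonneg (C.pi_pos y).le (hn c y g))
        _ = ε * C.pi g := by
            rw [← Finset.sum_mul, pi_lzpow, mul_comm]
    have e3 : ∑ x, ∑ y, (if k = x then (1 / 2 : ℚ) ^ a else 0) *
        (1 / 2 * (C.P * lz C ^ b) x y) * (lz C ^ c) y g ≤ γ * C.pi g := by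
      have e4 : ∑ x, ∑ y, (if k = x then (1 / 2 : ℚ) ^ a else 0) *
          (1 / 2 * (C.P * lz C ^ b) x y) * (lz C ^ c) y g =
          (1 / 2) ^ a * (1 / 2 * (C.P * lz C ^ (b + c)) k g) := by
        rw [Finset.sum_eq_single k]
        · simp only [if_true]
          rw [pow_add, ← Matrix.mul_assoc, Matrix.mul_apply (M := C.P * lz C ^ b), Finset.mul_sum,
            Finset.mul_sum]
          exact Finset.sum_congr rfl fun y _ => by ring
        · intro x _ hx
          rw [if_neg (Ne.symm hx)]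
          simp
        · intro hk
          exact absurd (Finset.mem_univ k) hk
      rw [e4]
      have e5 := Plz_le C hmix.top (b + c) k g
      have e6 : (0 : ℚ) ≤ (1 / 2) ^ a := by positivity
      calc (1 / 2 : ℚ) ^ a * (1 / 2 * (C.P * lz C ^ (b + c)) k g)
          ≤ (1 / 2 : ℚ) ^ a * (B * C.pi g) := by
            refine mul_le_mul_of_nonneg_left ?_ e6
            have := hp (b + c) k g
            linarith
        _ ≤ γ * C.pi g := hsmall a h
    nlinarith
  · -- the middle part is mixed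
    have hk := (C.Q_ne g k).1 hQ
    have e1 : ∑ x, ∑ y, (lz C ^ a) k x * (1 / 2 * (C.P * lz C ^ b) x y) * (lz C ^ c) y g *
        (if C.tl y = C.tl x then 1 else 0) ≤
        ∑ x, ∑ y, 3 / 2 * C.pi g * ((lz C ^ a) k x *
          (if C.tl y = C.tl x then (lz C ^ c) (C.rv g) (C.rv y) else 0)) := by
      refine Finset.sum_le_sum fun x _ => Finset.sum_le_sum fun y _ => ?_
      by_cases hxy : C.tl y = C.tl x
      · rw [if_pos hxy, if_pos hxy, mul_one]
        have h1 := y6_mixP C hγ1 hmix h x y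
        have h2 := lz_rev C c y g
        have h3 : 1 / 2 * (C.P * lz C ^ b) x y ≤ 3 / 2 * C.pi y := by linarith
        calc (lz C ^ a) k x * (1 / 2 * (C.P * lz C ^ b) x y) * (lz C ^ c) y g
            ≤ (lz C ^ a) k x * (3 / 2 * C.pi y) * (lz C ^ c) y g :=
              mul_le_mul_of_nonneg_right (mul_le_mul_of_nonneg_left h3 (hn a k x))
                (hn c y g)
          _ = 3 / 2 * (lz C ^ a) k x * (C.pi y * (lz C ^ c) y g) := by ring
          _ = _ := by rw [h2]; ring
      · rw [if_neg hxy, if_neg hxy]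
        simp
    have e2 : ∑ x, ∑ y, 3 / 2 * C.pi g * ((lz C ^ a) k x *
        (if C.tl y = C.tl x then (lz C ^ c) (C.rv g) (C.rv y) else 0)) ≤
        ∑ x, 3 / 2 * C.pi g * ((lz C ^ a) k x *
          ((if C.tl x = C.tl g then (1 / 2 : ℚ) ^ c else 0) + ε)) := by
      refine Finset.sum_le_sum fun x _ => ?_
      rw [← Finset.mul_sum, ← Finset.mul_sum]
      refine mul_le_mul_of_nonneg_left (mul_le_mul_of_nonneg_left ?_ (hn a k x)) (by positivity)
      have h1 := y6_headL_rv C hε hstep c (C.rv g) (C.tl x)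
      rw [C.rv_rv] at h1
      refine h1.trans (le_of_eq ?_)
      congr 1
      by_cases h2 : C.tl g = C.tl x
      · rw [if_pos h2, if_pos h2.symm]
      · rw [if_neg h2, if_neg (Ne.symm h2)]
    have e3 : ∑ x, 3 / 2 * C.pi g * ((lz C ^ a) k x *
        ((if C.tl x = C.tl g then (1 / 2 : ℚ) ^ c else 0) + ε)) =
        3 / 2 * C.pi g * ((1 / 2) ^ c * ∑ x, (if C.tl x = C.tl g then (lz C ^ a) k x else 0) +
          ε) := by
      have e4 : ∑ x, (lz C ^ a) k x * ε = ε := by
        rw [← Finset.sum_mul, lzpow_row, one_mul]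
      rw [← Finset.mul_sum]
      congr 1
      simp only [mul_add, Finset.sum_add_distrib]
      rw [e4, Finset.mul_sum]
      congr 1
      refine Finset.sum_congr rfl fun x _ => ?_
      split_ifs
      · ring
      · ring
    have e5 := y6_tailL C hε hstep a k (C.tl g) (by
      rw [hk.1]
      exact fun h => C.loopless g h.symm) hk.2
    have e6 : (1 / 2 : ℚ) ^ c ≤ 1 / 2 := by
      have := y6_half_le (T := 1) hc
      rwa [pow_one] at this
    have e7 : (1 / 2 : ℚ) ^ c * ∑ x, (if C.tl x = C.tl g then (lz C ^ a) k x else 0) ≤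
        1 / 2 * ε := by
      have e8 : 0 ≤ ∑ x, (if C.tl x = C.tl g then (lz C ^ a) k x else 0) :=
        Finset.sum_nonneg fun x _ => by
          split_ifs
          · exact hn a k x
          · exact le_rfl
      exact mul_le_mul e6 e5 e8 (by norm_num)
    have e9 : 3 / 2 * C.pi g * ((1 / 2) ^ c *
        ∑ x, (if C.tl x = C.tl g then (lz C ^ a) k x else 0) + ε) ≤
        3 / 2 * C.pi g * (1 / 2 * ε + ε) :=
      mul_le_mul_of_nonneg_left (by linarith) (by positivity)
    calc _ ≤ _ := e1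
      _ ≤ _ := e2
      _ = _ := e3
      _ ≤ _ := e9
      _ ≤ 2 * (2 * ε + γ) * C.pi g := by nlinarith
  · -- the last power is mixed
    have e1 : ∑ x, ∑ y, (lz C ^ a) k x * (1 / 2 * (C.P * lz C ^ b) x y) * (lz C ^ c) y g *
        (if C.tl y = C.tl x then 1 else 0) ≤
        ∑ x, ∑ y, C.pi g * ((lz C ^ a) k x *
          (if C.tl y = C.tl x then (C.P * lz C ^ b) x y else 0)) +
        ∑ x, ∑ y, (lz C ^ a) k x * (1 / 2 * (C.P * lz C ^ b) x y) *
          (if y = g then (1 / 2 : ℚ) ^ c else 0) := by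
      rw [← Finset.sum_add_distrib]
      refine Finset.sum_le_sum fun x _ => ?_
      rw [← Finset.sum_add_distrib]
      refine Finset.sum_le_sum fun y _ => ?_
      have h3 : 0 ≤ (lz C ^ a) k x * (1 / 2 * (C.P * lz C ^ b) x y) :=
        mul_nonneg (hn a k x) (mul_nonneg (by norm_num) (hp b x y))
      by_cases hxy : C.tl y = C.tl x
      · rw [if_pos hxy, if_pos hxy, mul_one]
        have h1 := y6_mixL C hγ1 hmix h y g
        calc (lz C ^ a) k x * (1 / 2 * (C.P * lz C ^ b) x y) * (lz C ^ c) y g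
            ≤ (lz C ^ a) k x * (1 / 2 * (C.P * lz C ^ b) x y) *
              (2 * C.pi g + (if y = g then (1 / 2 : ℚ) ^ c else 0)) :=
              mul_le_mul_of_nonneg_left h1 h3
          _ = _ := by ring
      · rw [if_neg hxy, if_neg hxy, mul_zero, mul_zero, mul_zero, zero_add]
        refine mul_nonneg h3 ?_
        split_ifs
        · positivity
        · exact le_rfl
    have e2 : ∑ x, ∑ y, C.pi g * ((lz C ^ a) k x *
        (if C.tl y = C.tl x then (C.P * lz C ^ b) x y else 0)) ≤ ε * C.pi g := by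
      calc ∑ x, ∑ y, C.pi g * ((lz C ^ a) k x *
            (if C.tl y = C.tl x then (C.P * lz C ^ b) x y else 0))
          = ∑ x, C.pi g * ((lz C ^ a) k x *
            ∑ y, (if C.tl y = C.tl x then (C.P * lz C ^ b) x y else 0)) := by
            simp only [Finset.mul_sum]
        _ ≤ ∑ x, C.pi g * ((lz C ^ a) k x * ε) := by
            refine Finset.sum_le_sum fun x _ => mul_le_mul_of_nonneg_left ?_ hpg
            exact mul_le_mul_of_nonneg_left (y6_tail_self C hε hstep b x) (hn a k x)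
        _ = ε * C.pi g := by
            rw [← Finset.mul_sum, ← Finset.sum_mul, lzpow_row]
            ring
    have e3 : ∑ x, ∑ y, (lz C ^ a) k x * (1 / 2 * (C.P * lz C ^ b) x y) *
        (if y = g then (1 / 2 : ℚ) ^ c else 0) ≤ γ * C.pi g := by
      calc ∑ x, ∑ y, (lz C ^ a) k x * (1 / 2 * (C.P * lz C ^ b) x y) *
            (if y = g then (1 / 2 : ℚ) ^ c else 0)
          = ∑ x, (lz C ^ a) k x * (1 / 2 * (C.P * lz C ^ b) x g) * (1 / 2 : ℚ) ^ c := by
            refine Finset.sum_congr rfl fun x _ => ?_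
            rw [Finset.sum_eq_single g]
            · rw [if_pos rfl]
            · intro y _ hy
              rw [if_neg hy, mul_zero]
            · intro hg
              exact absurd (Finset.mem_univ g) hg
        _ ≤ ∑ x, (lz C ^ a) k x * (γ * C.pi g) := by
            refine Finset.sum_le_sum fun x _ => ?_
            rw [mul_assoc]
            refine mul_le_mul_of_nonneg_left ?_ (hn a k x)
            have e5 := Plz_le C hmix.top b x g
            have e7 := hp b x g
            have e6 : (0 : ℚ) ≤ (1 / 2) ^ c := by positivity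
            calc 1 / 2 * (C.P * lz C ^ b) x g * (1 / 2 : ℚ) ^ c
                ≤ (B * C.pi g) * (1 / 2 : ℚ) ^ c :=
                  mul_le_mul_of_nonneg_right (by linarith) e6
              _ = (1 / 2 : ℚ) ^ c * (B * C.pi g) := by ring
              _ ≤ γ * C.pi g := hsmall c h
        _ = γ * C.pi g := by rw [← Finset.sum_mul, lzpow_row, one_mul]
    nlinarith

/-- The contribution of a pair of places with the first one. -/
theorem y6_pair_zero_le (C : Chain S V) {B : ℚ} {T : ℕ} {γ ε : ℚ} (hγ0 : 0 ≤ γ) (hγ1 : γ ≤ 1)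
    (hmix : LMix C B T γ) (hε : 0 ≤ ε) (hstep : C.Step ε) (a c : ℕ) (h : T ≤ a ∨ T ≤ c)
    (g k : S) (hQ : C.Q g k ≠ 0) :
    ∑ y, (lz C ^ a) k y * (1 / 2 * (C.P * lz C ^ c) y g) *
      (if C.tl y = C.tl g then 1 else 0) ≤ 2 * (2 * ε + γ) * C.pi g := by
  have hn := lzpow_nonneg C
  have hp := y6_PL_nonneg C
  have hpg := (C.pi_pos g).le
  have hεg : 0 ≤ ε * C.pi g := mul_nonneg hε hpg
  have hγg : 0 ≤ γ * C.pi g := mul_nonneg hγ0 hpg
  have hk := (C.Q_ne g k).1 hQ
  have htk : C.tl k ≠ C.tl g := by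
    rw [hk.1]
    exact fun h => C.loopless g h.symm
  rcases h with h | h
  · calc ∑ y, (lz C ^ a) k y * (1 / 2 * (C.P * lz C ^ c) y g) *
          (if C.tl y = C.tl g then 1 else 0)
        ≤ ∑ y, C.pi g *
          (if C.tl y = C.tl g then (C.P * lz C ^ c) (C.rv g) (C.rv y) else 0) := by
          refine Finset.sum_le_sum fun y _ => ?_
          by_cases hy : C.tl y = C.tl g
          · rw [if_pos hy, if_pos hy, mul_one]
            have h1 := y6_mixL C hγ1 hmix h k y
            have hky : k ≠ y := by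
              rintro rfl
              exact htk hy
            rw [if_neg hky, add_zero] at h1
            have h2 := y6_rev C c y g
            have h3 : 0 ≤ 1 / 2 * (C.P * lz C ^ c) y g := mul_nonneg (by norm_num) (hp c y g)
            calc (lz C ^ a) k y * (1 / 2 * (C.P * lz C ^ c) y g)
                ≤ 2 * C.pi y * (1 / 2 * (C.P * lz C ^ c) y g) :=
                  mul_le_mul_of_nonneg_right h1 h3
              _ = C.pi y * (C.P * lz C ^ c) y g := by ring
              _ = _ := h2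
          · rw [if_neg hy, if_neg hy]
            simp
      _ = C.pi g * ∑ y, (if C.tl y = C.tl g then (C.P * lz C ^ c) (C.rv g) (C.rv y) else 0) := by
          rw [Finset.mul_sum]
      _ ≤ C.pi g * ε :=
          mul_le_mul_of_nonneg_left (y6_head_rv C hstep c (C.rv g) (C.tl g)) hpg
      _ ≤ 2 * (2 * ε + γ) * C.pi g := by nlinarith
  · have hsum := y6_tailL C hε hstep a k (C.tl g) htk hk.2
    calc ∑ y, (lz C ^ a) k y * (1 / 2 * (C.P * lz C ^ c) y g) *
          (if C.tl y = C.tl g then 1 else 0)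
        ≤ ∑ y, 3 / 2 * C.pi g * (if C.tl y = C.tl g then (lz C ^ a) k y else 0) := by
          refine Finset.sum_le_sum fun y _ => ?_
          by_cases hy : C.tl y = C.tl g
          · rw [if_pos hy, if_pos hy, mul_one]
            have h1 := y6_mixP C hγ1 hmix h y g
            calc (lz C ^ a) k y * (1 / 2 * (C.P * lz C ^ c) y g)
                ≤ (lz C ^ a) k y * (3 / 2 * C.pi g) :=
                  mul_le_mul_of_nonneg_left (by linarith) (hn a k y)
              _ = _ := by ring
          · rw [if_neg hy, if_neg hy]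
            simp
      _ = 3 / 2 * C.pi g * ∑ y, (if C.tl y = C.tl g then (lz C ^ a) k y else 0) := by
          rw [Finset.mul_sum]
      _ ≤ 3 / 2 * C.pi g * ε := mul_le_mul_of_nonneg_left hsum (by positivity)
      _ ≤ 2 * (2 * ε + γ) * C.pi g := by nlinarith

theorem y6_cw_nonneg (C : Chain S V) {n : ℕ} (a : Fin (n + 1) → S) : 0 ≤ cw (lz C) a :=
  Finset.prod_nonneg fun _ _ => lz_nonneg C _ _

/-- a real step -/
theorem y6_real (C : Chain S V) (x z : S) : lz C x z * (if x ≠ z then 1 else 0) =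
    1 / 2 * C.P x z := by
  by_cases h : x = z
  · subst h
    rw [y6_P_self]
    simp
  · rw [if_pos h, lz_ne C h]
    ring

/-- The contribution of one pair of places. -/
theorem y6_pair_total (C : Chain S V) (B : ℚ) (T : ℕ) (γ ε : ℚ) (hγ0 : 0 ≤ γ) (hγ1 : γ ≤ 1)
    (hmix : LMix C B T γ) (hε : 0 ≤ ε) (hstep : C.Step ε) (n : ℕ) (hn : 3 * T + 3 ≤ n)
    (g h : S) (hgh : g ≠ h) (i j : Fin (n + 1)) (hij : i < j) :
    2 * C.Z * ∑ a : Fin (n + 1) → S, (if a 0 = g ∧ a 1 = h then
      cw (lz C) a * (if a i ≠ a (i + 1) ∧ a j ≠ a (j + 1) ∧ C.tl (a j) = C.tl (a i) then 1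
        else 0) else 0) ≤ 2 * (2 * ε + γ) * C.Q g h := by
  have : Nonempty S := ⟨g⟩
  have hij' := Fin.lt_def.1 hij
  have hj : 1 ≤ j.1 := by omega
  have hjn : j.1 ≤ n := by omega
  have hZ : 0 < C.Z := C.Z_pos g
  have hL : 2 * C.Z * (lz C g h * C.pi g) = C.Q g h := by
    rw [lz_ne C hgh, ← C.Q_eq g h]
    ring
  have hw := y6_cw_nonneg C (n := n)
  by_cases hQ : C.Q g h = 0
  · -- both sides vanish
    have hL0 : lz C g h = 0 := by
      rw [lz_ne C hgh]
      simp [Chain.P, hQ]
    have h0 : ∀ a : Fin (n + 1) → S, (if a 0 = g ∧ a 1 = h then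
      cw (lz C) a * (if a i ≠ a (i + 1) ∧ a j ≠ a (j + 1) ∧ C.tl (a j) = C.tl (a i) then (1 : ℚ)
        else 0) else 0) = 0 := by
      intro a
      split_ifs with h1 h2
      · have h3 : cw (lz C) a = 0 := by
          refine Finset.prod_eq_zero (Finset.mem_univ 0) ?_
          rw [zero_add, h1.1, h1.2, hL0]
        rw [h3, zero_mul]
      · ring
      · rfl
    simp only [h0, Finset.sum_const_zero, mul_zero, hQ, le_refl]
  rcases Nat.eq_zero_or_pos i.1 with hi | hi
  · -- the first place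
    have hi0 : i = 0 := Fin.ext hi
    subst hi0
    have h1 : ∑ a : Fin (n + 1) → S, (if a 0 = g ∧ a 1 = h then
        cw (lz C) a * (if a 0 ≠ a (0 + 1) ∧ a j ≠ a (j + 1) ∧ C.tl (a j) = C.tl (a 0) then (1 : ℚ)
          else 0) else 0) ≤ ∑ a : Fin (n + 1) → S, (if a 0 = g ∧ a 1 = h then
        cw (lz C) a * ((if a j ≠ a (j + 1) then 1 else 0) *
          (if C.tl (a j) = C.tl g then 1 else 0)) else 0) := by
      refine Finset.sum_le_sum fun a _ => ?_
      by_cases h2 : a 0 = g ∧ a 1 = h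
      · rw [if_pos h2, if_pos h2]
        refine mul_le_mul_of_nonneg_left ?_ (hw a)
        split_ifs with h3 h4 h5 h5 h4 h5 h5
        · norm_num
        · exact absurd (by rw [← h2.1]; exact h3.2.2) h5
        · exact absurd h3.2.1 h4
        · exact absurd h3.2.1 h4
        · norm_num
        · norm_num
        · norm_num
        · norm_num
      · rw [if_neg h2, if_neg h2]
    have h2 := y6_step_point (lz C) g h (fun y z => (if y ≠ z then (1 : ℚ) else 0) *
      (if C.tl y = C.tl g then 1 else 0)) j hj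
    have h3 : ∑ y, ∑ z, (lz C ^ (j.1 - 1)) h y * lz C y z * (lz C ^ (n - j.1)) z g *
        ((if y ≠ z then (1 : ℚ) else 0) * (if C.tl y = C.tl g then 1 else 0)) =
        ∑ y, (lz C ^ (j.1 - 1)) h y * (1 / 2 * (C.P * lz C ^ (n - j.1)) y g) *
          (if C.tl y = C.tl g then 1 else 0) := by
      refine Finset.sum_congr rfl fun y _ => ?_
      rw [Matrix.mul_apply, Finset.mul_sum, Finset.mul_sum, Finset.sum_mul]
      refine Finset.sum_congr rfl fun z _ => ?_
      calc (lz C ^ (j.1 - 1)) h y * lz C y z * (lz C ^ (n - j.1)) z g *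
            ((if y ≠ z then (1 : ℚ) else 0) * (if C.tl y = C.tl g then 1 else 0))
          = (lz C ^ (j.1 - 1)) h y * (lz C y z * (if y ≠ z then (1 : ℚ) else 0)) *
            (lz C ^ (n - j.1)) z g * (if C.tl y = C.tl g then 1 else 0) := by ring
        _ = _ := by rw [y6_real]; ring
    rw [h3] at h2
    have h4 := y6_pair_zero_le C hγ0 hγ1 hmix hε hstep (j.1 - 1) (n - j.1) (by omega) g h hQ
    calc 2 * C.Z * ∑ a : Fin (n + 1) → S, (if a 0 = g ∧ a 1 = h then
        cw (lz C) a * (if a 0 ≠ a (0 + 1) ∧ a j ≠ a (j + 1) ∧ C.tl (a j) = C.tl (a 0) then (1 : ℚ)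
          else 0) else 0) ≤ 2 * C.Z * (lz C g h * (2 * (2 * ε + γ) * C.pi g)) := by
          refine mul_le_mul_of_nonneg_left ?_ (by positivity)
          refine h1.trans ?_
          rw [h2]
          exact mul_le_mul_of_nonneg_left h4 (lz_nonneg C g h)
      _ = 2 * (2 * ε + γ) * (2 * C.Z * (lz C g h * C.pi g)) := by ring
      _ = 2 * (2 * ε + γ) * C.Q g h := by rw [hL]
  · have h1 : ∑ a : Fin (n + 1) → S, (if a 0 = g ∧ a 1 = h then
        cw (lz C) a * (if a i ≠ a (i + 1) ∧ a j ≠ a (j + 1) ∧ C.tl (a j) = C.tl (a i) then (1 : ℚ)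
          else 0) else 0) ≤ ∑ a : Fin (n + 1) → S, (if a 0 = g ∧ a 1 = h then
        cw (lz C) a * ((if a i ≠ a (i + 1) then 1 else 0) *
          (if C.tl (a j) = C.tl (a i) then 1 else 0)) else 0) := by
      refine Finset.sum_le_sum fun a _ => ?_
      by_cases h2 : a 0 = g ∧ a 1 = h
      · rw [if_pos h2, if_pos h2]
        refine mul_le_mul_of_nonneg_left ?_ (hw a)
        split_ifs with h3 h4 h5 h5 h4 h5 h5
        · norm_num
        · exact absurd h3.2.2 h5
        · exact absurd h3.1 h4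
        · exact absurd h3.1 h4
        · norm_num
        · norm_num
        · norm_num
        · norm_num
      · rw [if_neg h2, if_neg h2]
    have h2 := y6_three_point (lz C) g h (fun x z y => (if x ≠ z then (1 : ℚ) else 0) *
      (if C.tl y = C.tl x then 1 else 0)) i j hi hij
    have h3 : ∑ x, ∑ z, ∑ y, (lz C ^ (i.1 - 1)) h x * lz C x z *
        (lz C ^ (j.1 - i.1 - 1)) z y * (lz C ^ (n + 1 - j.1)) y g *
        ((if x ≠ z then (1 : ℚ) else 0) * (if C.tl y = C.tl x then 1 else 0)) =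
        ∑ x, ∑ y, (lz C ^ (i.1 - 1)) h x * (1 / 2 * (C.P * lz C ^ (j.1 - i.1 - 1)) x y) *
          (lz C ^ (n + 1 - j.1)) y g * (if C.tl y = C.tl x then 1 else 0) := by
      refine Finset.sum_congr rfl fun x _ => ?_
      rw [Finset.sum_comm]
      refine Finset.sum_congr rfl fun y _ => ?_
      rw [Matrix.mul_apply, Finset.mul_sum, Finset.mul_sum, Finset.sum_mul, Finset.sum_mul]
      refine Finset.sum_congr rfl fun z _ => ?_
      calc (lz C ^ (i.1 - 1)) h x * lz C x z * (lz C ^ (j.1 - i.1 - 1)) z y *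
            (lz C ^ (n + 1 - j.1)) y g *
            ((if x ≠ z then (1 : ℚ) else 0) * (if C.tl y = C.tl x then 1 else 0))
          = (lz C ^ (i.1 - 1)) h x * (lz C x z * (if x ≠ z then (1 : ℚ) else 0)) *
            (lz C ^ (j.1 - i.1 - 1)) z y * (lz C ^ (n + 1 - j.1)) y g *
              (if C.tl y = C.tl x then 1 else 0) := by ring
        _ = _ := by rw [y6_real]; ring
    rw [h3] at h2
    have h4 := y6_pair_le C hγ0 hγ1 hmix hε hstep (i.1 - 1) (j.1 - i.1 - 1) (n + 1 - j.1)
      (by omega) (by omega) g h hQ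
    calc 2 * C.Z * ∑ a : Fin (n + 1) → S, (if a 0 = g ∧ a 1 = h then
        cw (lz C) a * (if a i ≠ a (i + 1) ∧ a j ≠ a (j + 1) ∧ C.tl (a j) = C.tl (a i) then (1 : ℚ)
          else 0) else 0) ≤ 2 * C.Z * (lz C g h * (2 * (2 * ε + γ) * C.pi g)) := by
          refine mul_le_mul_of_nonneg_left ?_ (by positivity)
          refine h1.trans ?_
          rw [h2]
          exact mul_le_mul_of_nonneg_left h4 (lz_nonneg C g h)
      _ = 2 * (2 * ε + γ) * (2 * C.Z * (lz C g h * C.pi g)) := by ring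
      _ = 2 * (2 * ε + γ) * C.Q g h := by rw [hL]

theorem lazy_collide (C : Chain S V) (B : ℚ) (T : ℕ) (γ ε : ℚ) (hγ0 : 0 ≤ γ) (hγ1 : γ ≤ 1)
    (hmix : LMix C B T γ) (hε : 0 ≤ ε) (hstep : C.Step ε) (n : ℕ) (hn : 3 * T + 3 ≤ n) (g h : S)
    (hgh : g ≠ h) :
    2 * C.Z * ∑ a : Fin (n + 1) → S, (if a 0 = g ∧ a 1 = h ∧ ¬ Simple C a then
      cw (lz C) a else 0) ≤ (n + 1) ^ 2 * (2 * ε + γ) * C.Q g h := by
  classical
  have hZ : 0 ≤ 2 * C.Z := mul_nonneg (by norm_num) (C.Z_pos g).le
  set G : Fin (n + 1) → Fin (n + 1) → (Fin (n + 1) → S) → ℚ := fun i j a =>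
    if i < j then (if a 0 = g ∧ a 1 = h then
      cw (lz C) a * (if a i ≠ a (i + 1) ∧ a j ≠ a (j + 1) ∧ C.tl (a j) = C.tl (a i) then 1
        else 0) else 0) else 0 with hG
  have hG0 : ∀ i j a, 0 ≤ G i j a := by
    intro i j a
    have := y6_cw_nonneg C a
    simp only [hG]
    split_ifs <;> simp [this]
  have h1 : ∀ a : Fin (n + 1) → S, (if a 0 = g ∧ a 1 = h ∧ ¬ Simple C a then
      cw (lz C) a else 0) ≤ ∑ i, ∑ j, G i j a := by
    intro a
    split_ifs with hc
    · obtain ⟨h0, h1, hinj⟩ := hc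
      obtain ⟨i, j, hij, hi, hj, htl⟩ : ∃ i j : Fin (n + 1), i < j ∧ a i ≠ a (i + 1) ∧
          a j ≠ a (j + 1) ∧ C.tl (a j) = C.tl (a i) := by
        simp only [Simple, not_forall] at hinj
        obtain ⟨i, j, hi, hj, htl, hne⟩ := hinj
        rcases lt_or_gt_of_ne hne with h | h
        · exact ⟨i, j, h, hi, hj, htl.symm⟩
        · exact ⟨j, i, h, hj, hi, htl⟩
      have h2 : G i j a = cw (lz C) a := by
        simp only [hG]
        rw [if_pos hij, if_pos ⟨h0, h1⟩, if_pos ⟨hi, hj, htl⟩, mul_one]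
      rw [← h2]
      refine (Finset.single_le_sum (f := fun j => G i j a) (fun j _ => hG0 i j a)
        (Finset.mem_univ j)).trans ?_
      exact Finset.single_le_sum (f := fun i => ∑ j, G i j a)
        (fun i _ => Finset.sum_nonneg fun j _ => hG0 i j a) (Finset.mem_univ i)
    · exact Finset.sum_nonneg fun i _ => Finset.sum_nonneg fun j _ => hG0 i j a
  have h2 : ∀ i j : Fin (n + 1), 2 * C.Z * ∑ a, G i j a ≤
      if i < j then 2 * (2 * ε + γ) * C.Q g h else 0 := by
    intro i j
    simp only [hG]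
    split_ifs with hij
    · exact y6_pair_total C B T γ ε hγ0 hγ1 hmix hε hstep n hn g h hgh i j hij
    · simp
  have hc0 : 0 ≤ 2 * (2 * ε + γ) * C.Q g h :=
    mul_nonneg (by positivity) (C.Q_nonneg g h)
  have h3 : 2 * ∑ i : Fin (n + 1), ∑ j : Fin (n + 1),
      (if i < j then 2 * (2 * ε + γ) * C.Q g h else 0) ≤
        (n + 1) ^ 2 * (2 * (2 * ε + γ) * C.Q g h) := by
    have h4 : ∑ i : Fin (n + 1), ∑ j : Fin (n + 1),
        (if i < j then 2 * (2 * ε + γ) * C.Q g h else 0) =
        ∑ i : Fin (n + 1), ∑ j : Fin (n + 1),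
          (if j < i then 2 * (2 * ε + γ) * C.Q g h else 0) := by
      rw [Finset.sum_comm]
    have h5 : ∑ i : Fin (n + 1), ∑ j : Fin (n + 1),
        (if i < j then 2 * (2 * ε + γ) * C.Q g h else 0) +
        ∑ i : Fin (n + 1), ∑ j : Fin (n + 1),
          (if j < i then 2 * (2 * ε + γ) * C.Q g h else 0) ≤
        ∑ _i : Fin (n + 1), ∑ _j : Fin (n + 1), 2 * (2 * ε + γ) * C.Q g h := by
      rw [← Finset.sum_add_distrib]
      refine Finset.sum_le_sum fun i _ => ?_
      rw [← Finset.sum_add_distrib]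
      refine Finset.sum_le_sum fun j _ => ?_
      split_ifs with h6 h7 h7
      · exact absurd h7 (not_lt.2 h6.le)
      · rw [add_zero]
      · rw [zero_add]
      · rw [add_zero]
        exact hc0
    rw [← h4] at h5
    simp only [Finset.sum_const, Finset.card_univ, Fintype.card_fin, nsmul_eq_mul] at h5
    push_cast at h5
    calc 2 * ∑ i : Fin (n + 1), ∑ j : Fin (n + 1),
          (if i < j then 2 * (2 * ε + γ) * C.Q g h else 0)
        = _ := two_mul _
      _ ≤ ((n : ℚ) + 1) * (((n : ℚ) + 1) * (2 * (2 * ε + γ) * C.Q g h)) := h5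
      _ = _ := by ring
  calc 2 * C.Z * ∑ a : Fin (n + 1) → S, (if a 0 = g ∧ a 1 = h ∧ ¬ Simple C a then
        cw (lz C) a else 0)
      ≤ 2 * C.Z * ∑ a : Fin (n + 1) → S, ∑ i, ∑ j, G i j a :=
        mul_le_mul_of_nonneg_left (Finset.sum_le_sum fun a _ => h1 a) hZ
    _ = ∑ i, ∑ j, 2 * C.Z * ∑ a, G i j a := by
        rw [Finset.sum_comm]
        rw [Finset.mul_sum]
        refine Finset.sum_congr rfl fun i _ => ?_
        rw [Finset.sum_comm, Finset.mul_sum]
    _ ≤ ∑ i : Fin (n + 1), ∑ j : Fin (n + 1),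
        (if i < j then 2 * (2 * ε + γ) * C.Q g h else 0) :=
        Finset.sum_le_sum fun i _ => Finset.sum_le_sum fun j _ => h2 i j
    _ ≤ (n + 1) ^ 2 * (2 * ε + γ) * C.Q g h := by linarith

end Pool.Agent.Lib.MP_95bb8c_al.PX
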