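import Pool.Agent.Lib.MP_95bb8c_al.PX.Lazy
import Pool.Agent.Lib.MP_95bb8c_al.PS.Inverse

set_option autoImplicit false
set_option linter.unusedSectionVars false

/-!
# Expanding Whitehead graphs: the approximate inverse for the lazy chain
-/

namespace Pool.Agent.Lib.MP_95bb8c_al.PX

open Finset Matrix PS

variable {S V : Type} [Fintype S] [DecidableEq S] [DecidableEq V]

theorem lx_small {C : Chain S V} {B : ℚ} {T : ℕ} {γ : ℚ} (hmix : LMix C B T γ) {t : ℕ}
    (ht : T ≤ t) : (1 / 2 : ℚ) ^ t * B ≤ γ := by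
  have h1 : (1 / 2 : ℚ) ^ t ≤ (1 / 2) ^ T :=
    pow_le_pow_of_le_one (by norm_num) (by norm_num) ht
  have h2 : (0 : ℚ) ≤ B := by linarith [hmix.one_le]
  exact (mul_le_mul_of_nonneg_right h1 h2).trans hmix.small

theorem lx_small' {C : Chain S V} {B : ℚ} {T : ℕ} {γ : ℚ} (hmix : LMix C B T γ) {t : ℕ}
    (ht : T ≤ t) : (1 / 2 : ℚ) ^ t ≤ γ := by
  have h1 := lx_small hmix ht
  have h2 : (0 : ℚ) ≤ (1 / 2) ^ t := by positivity
  have h3 := mul_le_mul_of_nonneg_left hmix.one_le h2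
  linarith

/-- A sum against a power of the lazy matrix is close to the mean. -/
theorem lx_mean {C : Chain S V} {B : ℚ} {T : ℕ} {γ : ℚ} (hmix : LMix C B T γ) {t : ℕ}
    (ht : T ≤ t) (x : S) (ψ : S → ℚ) (b : ℚ) (hb : ∀ y, |ψ y| ≤ b) :
    |((lz C ^ t) *ᵥ ψ) x - ∑ y, C.pi y * ψ y| ≤ 2 * γ * b := by
  have : Nonempty S := ⟨x⟩
  have hb0 : 0 ≤ b := (abs_nonneg _).trans (hb x)
  have h1 : ((lz C ^ t) *ᵥ ψ) x - ∑ y, C.pi y * ψ y =
      ∑ y, ((lz C ^ t) x y - C.pi y) * ψ y := by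
    unfold Matrix.mulVec dotProduct
    rw [← sum_sub_distrib]
    exact sum_congr rfl fun y _ => by ring
  rw [h1]
  calc |∑ y, ((lz C ^ t) x y - C.pi y) * ψ y|
      ≤ ∑ y, |((lz C ^ t) x y - C.pi y) * ψ y| := abs_sum_le_sum_abs _ _
    _ ≤ ∑ y, (γ * C.pi y + (if x = y then (1 / 2 : ℚ) ^ t else 0)) * b := by
        refine sum_le_sum fun y _ => ?_
        rw [abs_mul]
        have h2 := hmix.mix t ht x y
        exact mul_le_mul h2 (hb y) (abs_nonneg _) ((abs_nonneg _).trans h2)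
    _ = γ * b + (1 / 2) ^ t * b := by
        rw [← sum_mul, sum_add_distrib, ← mul_sum, C.pi_sum, mul_one, sum_ite_eq,
          if_pos (mem_univ x)]
        ring
    _ ≤ 2 * γ * b := by
        have h3 := mul_le_mul_of_nonneg_right (lx_small' hmix ht) hb0
        linarith

theorem lx_tele (R : Matrix S S ℚ) (ψ : S → ℚ) (J : ℕ) (x : S) :
    ∑ t ∈ range J, ((R ^ t) *ᵥ (fun a => ψ a - (R *ᵥ ψ) a)) x =
      ψ x - ((R ^ J) *ᵥ ψ) x := by
  induction J with
  | zero => simp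
  | succ J ih =>
    rw [sum_range_succ, ih]
    have h1 : (fun a => ψ a - (R *ᵥ ψ) a) = ψ - R *ᵥ ψ := rfl
    rw [h1, Matrix.mulVec_sub, Matrix.mulVec_mulVec, ← pow_succ]
    simp only [Pi.sub_apply]
    ring

/-- Replacing the power of the lazy matrix which ends at `g` by the stationary law. -/
theorem lx_end {C : Chain S V} {B : ℚ} {T : ℕ} {γ : ℚ} (hmix : LMix C B T γ) {t : ℕ}
    (ht : T ≤ t) {ι : Type} [Fintype ι] (τ : ι → S) (q F : ι → ℚ) (hq : ∀ j, 0 ≤ q j) (b : ℚ)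
    (hb : ∀ j, |F j| ≤ b) (g : S) :
    |∑ j, q j * (lz C ^ t) (τ j) g * F j - C.pi g * ∑ j, q j * F j| ≤
      γ * C.pi g * b * ∑ j, q j + (1 / 2) ^ t * b * ∑ j, (if τ j = g then q j else 0) := by
  rw [mul_sum, ← sum_sub_distrib, mul_sum, mul_sum, ← sum_add_distrib]
  refine (abs_sum_le_sum_abs _ _).trans (sum_le_sum fun j _ => ?_)
  have h1 : q j * (lz C ^ t) (τ j) g * F j - C.pi g * (q j * F j) =
      q j * (((lz C ^ t) (τ j) g - C.pi g) * F j) := by ring
  rw [h1, abs_mul, abs_of_nonneg (hq j), abs_mul]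
  have h2 := hmix.mix t ht (τ j) g
  have h3 : |(lz C ^ t) (τ j) g - C.pi g| * |F j| ≤
      (γ * C.pi g + (if τ j = g then (1 / 2 : ℚ) ^ t else 0)) * b :=
    mul_le_mul h2 (hb j) (abs_nonneg _) ((abs_nonneg _).trans h2)
  calc q j * (|(lz C ^ t) (τ j) g - C.pi g| * |F j|) ≤
      q j * ((γ * C.pi g + (if τ j = g then (1 / 2 : ℚ) ^ t else 0)) * b) :=
        mul_le_mul_of_nonneg_left h3 (hq j)
    _ = γ * C.pi g * b * q j + (1 / 2) ^ t * b * (if τ j = g then q j else 0) := by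
        split_ifs <;> ring

/-- Replacing the power of the lazy matrix which starts at `h` by the stationary law. -/
theorem lx_start {C : Chain S V} {B : ℚ} {T : ℕ} {γ : ℚ} (hmix : LMix C B T γ) {t : ℕ}
    (ht : T ≤ t) {ι : Type} [Fintype ι] (τ : ι → S) (u F : ι → ℚ) (hu : ∀ j, 0 ≤ u j) (b : ℚ)
    (hb : ∀ j, |F j| ≤ b) (h : S) :
    |∑ j, (lz C ^ t) h (τ j) * u j * F j - ∑ j, C.pi (τ j) * u j * F j| ≤
      γ * b * ∑ j, C.pi (τ j) * u j + (1 / 2) ^ t * b * ∑ j, (if h = τ j then u j else 0) := by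
  rw [← sum_sub_distrib, mul_sum, mul_sum, ← sum_add_distrib]
  refine (abs_sum_le_sum_abs _ _).trans (sum_le_sum fun j _ => ?_)
  have h1 : (lz C ^ t) h (τ j) * u j * F j - C.pi (τ j) * u j * F j =
      u j * (((lz C ^ t) h (τ j) - C.pi (τ j)) * F j) := by ring
  rw [h1, abs_mul, abs_of_nonneg (hu j), abs_mul]
  have h2 := hmix.mix t ht h (τ j)
  have h3 : |(lz C ^ t) h (τ j) - C.pi (τ j)| * |F j| ≤
      (γ * C.pi (τ j) + (if h = τ j then (1 / 2 : ℚ) ^ t else 0)) * b :=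
    mul_le_mul h2 (hb j) (abs_nonneg _) ((abs_nonneg _).trans h2)
  calc u j * (|(lz C ^ t) h (τ j) - C.pi (τ j)| * |F j|) ≤
      u j * ((γ * C.pi (τ j) + (if h = τ j then (1 / 2 : ℚ) ^ t else 0)) * b) :=
        mul_le_mul_of_nonneg_left h3 (hu j)
    _ = γ * b * (C.pi (τ j) * u j) + (1 / 2) ^ t * b * (if h = τ j then u j else 0) := by
        split_ifs <;> ring

/-- The extra term is small. -/
theorem lx_extra {C : Chain S V} {B : ℚ} {T : ℕ} {γ : ℚ} (hmix : LMix C B T γ) {t : ℕ}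
    (ht : T ≤ t) (k : ℕ) {g h : S} (hgh : g ≠ h) (b : ℚ) (hb : 0 ≤ b) :
    (1 / 2) ^ t * b * (lz C ^ k) h g ≤ γ * C.pi g * b := by
  have h1 := lzpow_le C hmix.top k (x := h) (y := g) hgh.symm
  have h2 : (0 : ℚ) ≤ (1 / 2) ^ t * b := by positivity
  calc (1 / 2) ^ t * b * (lz C ^ k) h g ≤ (1 / 2) ^ t * b * (B * C.pi g) :=
        mul_le_mul_of_nonneg_left h1 h2
    _ = ((1 / 2) ^ t * B) * (C.pi g * b) := by ring
    _ ≤ γ * (C.pi g * b) := mul_le_mul_of_nonneg_right (lx_small hmix ht)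
        (mul_nonneg (C.pi_pos g).le hb)
    _ = γ * C.pi g * b := by ring

/-- The corner terms are small. -/
theorem lx_corner_small {C : Chain S V} {B : ℚ} {T : ℕ} {γ : ℚ} (hmix : LMix C B T γ) {n : ℕ}
    (hn : 2 * T + 1 ≤ n) (G : S → S → ℚ) (b : ℚ) (hb : ∀ x y, |G x y| ≤ b)
    (hrow : ∀ x, ∑ y, lz C x y * G x y = 0) (hcol : ∀ y, ∑ x, C.pi x * lz C x y * G x y = 0)
    {g h : S} (hgh : g ≠ h) {i : ℕ} (hi : i < n) :
    |∑ x, ∑ y, (lz C ^ i) h x * lz C x y * (lz C ^ (n - 1 - i)) y g * G x y| ≤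
      2 * (γ * C.pi g * b) := by
  have hb0 : 0 ≤ b := (abs_nonneg _).trans (hb g g)
  by_cases hc : T ≤ n - 1 - i
  · have h1 := lx_end hmix hc (ι := S × S) Prod.snd (fun j => (lz C ^ i) h j.1 * lz C j.1 j.2)
      (fun j => G j.1 j.2) (fun j => mul_nonneg (lzpow_nonneg C _ _ _) (lz_nonneg C _ _)) b
      (fun j => hb _ _) g
    rw [Fintype.sum_prod_type, Fintype.sum_prod_type, Fintype.sum_prod_type,
      Fintype.sum_prod_type] at h1
    have h2 : ∑ x, ∑ y, (lz C ^ i) h x * lz C x y * G x y = 0 := by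
      refine sum_eq_zero fun x _ => ?_
      have : ∑ y, (lz C ^ i) h x * lz C x y * G x y =
          (lz C ^ i) h x * ∑ y, lz C x y * G x y := by
        rw [mul_sum]
        exact sum_congr rfl fun y _ => by ring
      rw [this, hrow, mul_zero]
    have h3 : ∑ x, ∑ y, (lz C ^ i) h x * lz C x y = 1 := by
      have : ∀ x, ∑ y, (lz C ^ i) h x * lz C x y = (lz C ^ i) h x := by
        intro x
        rw [← mul_sum, lz_row, mul_one]
      rw [sum_congr rfl fun x _ => this x, lzpow_row]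
    have h4 : ∑ x, ∑ y, (if y = g then (lz C ^ i) h x * lz C x y else 0) =
        (lz C ^ (i + 1)) h g := by
      rw [pow_succ, Matrix.mul_apply]
      refine sum_congr rfl fun x _ => ?_
      rw [sum_ite_eq' univ g, if_pos (mem_univ g)]
    simp only at h1
    rw [h2, h3, h4, mul_zero, sub_zero, mul_one] at h1
    have h5 := lx_extra hmix hc (i + 1) hgh b hb0
    linarith
  · have hc' : T ≤ i := by omega
    have h1 := lx_start hmix hc' (ι := S × S) Prod.fst
      (fun j => lz C j.1 j.2 * (lz C ^ (n - 1 - i)) j.2 g)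
      (fun j => G j.1 j.2) (fun j => mul_nonneg (lz_nonneg C _ _) (lzpow_nonneg C _ _ _)) b
      (fun j => hb _ _) h
    rw [Fintype.sum_prod_type, Fintype.sum_prod_type, Fintype.sum_prod_type,
      Fintype.sum_prod_type] at h1
    have h2 : ∑ x, ∑ y, C.pi x * (lz C x y * (lz C ^ (n - 1 - i)) y g) * G x y = 0 := by
      rw [sum_comm]
      refine sum_eq_zero fun y _ => ?_
      have : ∑ x, C.pi x * (lz C x y * (lz C ^ (n - 1 - i)) y g) * G x y =
          (lz C ^ (n - 1 - i)) y g * ∑ x, C.pi x * lz C x y * G x y := by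
        rw [mul_sum]
        exact sum_congr rfl fun x _ => by ring
      rw [this, hcol, mul_zero]
    have h3 : ∑ x, ∑ y, C.pi x * (lz C x y * (lz C ^ (n - 1 - i)) y g) = C.pi g := by
      have : ∀ x, ∑ y, C.pi x * (lz C x y * (lz C ^ (n - 1 - i)) y g) =
          C.pi x * (lz C ^ (n - 1 - i + 1)) x g := by
        intro x
        rw [← mul_sum, pow_succ', Matrix.mul_apply]
      rw [sum_congr rfl fun x _ => this x, pi_lzpow]
    have h4 : ∑ x, ∑ y, (if h = x then lz C x y * (lz C ^ (n - 1 - i)) y g else 0) =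
        (lz C ^ (n - 1 - i + 1)) h g := by
      rw [sum_eq_single h]
      · simp only [if_true]
        rw [pow_succ', Matrix.mul_apply]
      · intro x _ hx
        refine sum_eq_zero fun y _ => ?_
        rw [if_neg hx.symm]
      · intro hx
        exact absurd (mem_univ h) hx
    simp only at h1
    rw [h2, h3, h4, sub_zero] at h1
    have h5 := lx_extra hmix hc' (n - 1 - i + 1) hgh b hb0
    have h6 : ∑ x, ∑ y, (lz C ^ i) h x * lz C x y * (lz C ^ (n - 1 - i)) y g * G x y =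
        ∑ x, ∑ y, (lz C ^ i) h x * (lz C x y * (lz C ^ (n - 1 - i)) y g) * G x y :=
      sum_congr rfl fun x _ => sum_congr rfl fun y _ => by ring
    rw [h6]
    linarith

/-- The vertex terms: telescoping. -/
theorem lx_vert_small {C : Chain S V} {B : ℚ} {T : ℕ} {γ : ℚ} (hmix : LMix C B T γ) {n : ℕ}
    (hn : 2 * T + 1 ≤ n) (ψ H : S → ℚ) (b : ℚ) (hH : ∀ a, H a = ψ a - (lz C *ᵥ ψ) a)
    (hHrv : ∀ a, H (C.rv a) = H a) (hψ : ∀ a, |ψ a| ≤ b) (hHb : ∀ a, |H a| ≤ 2 * b)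
    {g h : S} (hgh : g ≠ h) :
    |∑ i ∈ range (n + 1), ∑ x, (lz C ^ i) h x * (lz C ^ (n - i)) x g * H x -
      C.pi g * (ψ h + ψ (C.rv g) - 2 * ∑ y, C.pi y * ψ y)| ≤
        (4 * (n : ℚ) + 8) * b * γ * C.pi g := by
  have hg0 : 0 ≤ C.pi g := (C.pi_pos g).le
  have hb0 : 0 ≤ b := (abs_nonneg _).trans (hψ g)
  have hHf : (fun a => ψ a - (lz C *ᵥ ψ) a) = H := funext fun a => (hH a).symm
  -- the first half
  have h1 : ∀ i, i < T → |∑ x, (lz C ^ i) h x * (lz C ^ (n - i)) x g * H x -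
      C.pi g * ((lz C ^ i) *ᵥ H) h| ≤ 2 * (γ * C.pi g * (2 * b)) := by
    intro i hi
    have ht : T ≤ n - i := by omega
    have h2 := lx_end hmix ht (ι := S) id (fun x => (lz C ^ i) h x) H
      (fun x => lzpow_nonneg C _ _ _) (2 * b) hHb g
    simp only [id] at h2
    rw [lzpow_row, mul_one, sum_ite_eq' univ g, if_pos (mem_univ g)] at h2
    have h3 := lx_extra hmix ht i hgh (2 * b) (by linarith)
    refine h2.trans ?_
    linarith
  -- the second half
  have h3 : ∀ i, T ≤ i → |∑ x, (lz C ^ i) h x * (lz C ^ (n - i)) x g * H x -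
      C.pi g * ((lz C ^ (n - i)) *ᵥ H) (C.rv g)| ≤ 2 * (γ * C.pi g * (2 * b)) := by
    intro i hi
    have h2 := lx_start hmix hi (ι := S) id (fun x => (lz C ^ (n - i)) x g) H
      (fun x => lzpow_nonneg C _ _ _) (2 * b) hHb h
    simp only [id] at h2
    rw [pi_lzpow, sum_ite_eq univ h, if_pos (mem_univ h)] at h2
    have h4 : ∑ x, C.pi x * (lz C ^ (n - i)) x g * H x =
        C.pi g * ((lz C ^ (n - i)) *ᵥ H) (C.rv g) := by
      have h5 : ∀ x, C.pi x * (lz C ^ (n - i)) x g * H x =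
          C.pi g * ((lz C ^ (n - i)) (C.rv g) (C.rv x) * H (C.rv x)) := by
        intro x
        rw [lz_rev, hHrv]
        ring
      rw [sum_congr rfl fun x _ => h5 x, ← mul_sum]
      congr 1
      unfold Matrix.mulVec dotProduct
      exact Equiv.sum_comp (Function.Involutive.toPerm C.rv C.rv_rv)
        (fun x => (lz C ^ (n - i)) (C.rv g) x * H x)
    rw [h4] at h2
    have h6 := lx_extra hmix hi (n - i) hgh (2 * b) (by linarith)
    refine h2.trans ?_
    linarith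
  -- splitting
  set A : ℕ → ℚ := fun i => ∑ x, (lz C ^ i) h x * (lz C ^ (n - i)) x g * H x with hA
  obtain ⟨N, hN⟩ : ∃ N, n + 1 = T + N := ⟨n + 1 - T, by omega⟩
  have hTN : T ≤ N := by omega
  have h5 : ∑ i ∈ range (n + 1), A i = ∑ i ∈ range T, A i + ∑ i ∈ range N, A (T + i) := by
    rw [hN, sum_range_add]
  have h6 : ∑ i ∈ range T, ((lz C ^ i) *ᵥ H) h = ψ h - ((lz C ^ T) *ᵥ ψ) h := by
    rw [← hHf]
    exact lx_tele (lz C) ψ T h
  have h7 : ∑ i ∈ range N, ((lz C ^ (n - (T + i))) *ᵥ H) (C.rv g) =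
      ψ (C.rv g) - ((lz C ^ N) *ᵥ ψ) (C.rv g) := by
    have h8 : ∑ i ∈ range N, ((lz C ^ (n - (T + i))) *ᵥ H) (C.rv g) =
        ∑ i ∈ range N, ((lz C ^ i) *ᵥ H) (C.rv g) := by
      rw [← sum_range_reflect (fun i => ((lz C ^ i) *ᵥ H) (C.rv g)) N]
      refine sum_congr rfl fun i hi => ?_
      have : n - (T + i) = N - 1 - i := by
        have := mem_range.1 hi
        omega
      rw [this]
    rw [h8, ← hHf]
    exact lx_tele (lz C) ψ N (C.rv g)
  have h9 : |∑ i ∈ range T, A i - C.pi g * ∑ i ∈ range T, ((lz C ^ i) *ᵥ H) h| ≤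
      T * (2 * (γ * C.pi g * (2 * b))) := by
    rw [mul_sum, ← sum_sub_distrib]
    refine (abs_sum_le_sum_abs _ _).trans ?_
    refine (sum_le_sum fun i hi => h1 i (mem_range.1 hi)).trans ?_
    rw [sum_const, card_range, nsmul_eq_mul]
  have h10 : |∑ i ∈ range N, A (T + i) -
      C.pi g * ∑ i ∈ range N, ((lz C ^ (n - (T + i))) *ᵥ H) (C.rv g)| ≤
      N * (2 * (γ * C.pi g * (2 * b))) := by
    rw [mul_sum, ← sum_sub_distrib]
    refine (abs_sum_le_sum_abs _ _).trans ?_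
    refine (sum_le_sum fun i _ => h3 (T + i) (by omega)).trans ?_
    rw [sum_const, card_range, nsmul_eq_mul]
  have h11 := lx_mean hmix (le_refl T) h ψ b hψ
  have h12 := lx_mean hmix hTN (C.rv g) ψ b hψ
  rw [h6] at h9
  rw [h7] at h10
  have hTNq : (T : ℚ) + N = n + 1 := by exact_mod_cast hN.symm
  set m := ∑ y, C.pi y * ψ y with hm
  have h13 : ∑ i ∈ range (n + 1), A i - C.pi g * (ψ h + ψ (C.rv g) - 2 * m) =
      (∑ i ∈ range T, A i - C.pi g * (ψ h - ((lz C ^ T) *ᵥ ψ) h)) +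
      (∑ i ∈ range N, A (T + i) - C.pi g * (ψ (C.rv g) - ((lz C ^ N) *ᵥ ψ) (C.rv g))) +
      (-(C.pi g * (((lz C ^ T) *ᵥ ψ) h - m)) +
        -(C.pi g * (((lz C ^ N) *ᵥ ψ) (C.rv g) - m))) := by
    rw [h5]
    ring
  rw [h13]
  have h14 : |-(C.pi g * (((lz C ^ T) *ᵥ ψ) h - m)) +
      -(C.pi g * (((lz C ^ N) *ᵥ ψ) (C.rv g) - m))|
      ≤ C.pi g * (2 * γ * b) + C.pi g * (2 * γ * b) := by
    refine (abs_add_le _ _).trans ?_
    rw [abs_neg, abs_neg, abs_mul, abs_mul, abs_of_nonneg hg0]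
    exact add_le_add (mul_le_mul_of_nonneg_left h11 hg0) (mul_le_mul_of_nonneg_left h12 hg0)
  calc _ ≤ T * (2 * (γ * C.pi g * (2 * b))) + N * (2 * (γ * C.pi g * (2 * b))) +
        (C.pi g * (2 * γ * b) + C.pi g * (2 * γ * b)) :=
        (abs_add_le _ _).trans (add_le_add ((abs_add_le _ _).trans (add_le_add h9 h10)) h14)
    _ = ((T : ℚ) + N) * (2 * (γ * C.pi g * (2 * b))) + 4 * (C.pi g * (γ * b)) := by ring
    _ = (4 * (n : ℚ) + 8) * b * γ * C.pi g := by
        rw [hTNq]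
        ring

/-- **The approximate inverse for the lazy chain.** -/
theorem lazy_inverse (C : Chain S V) (B : ℚ) (T : ℕ) (γ β : ℚ) (hγ : 0 ≤ γ)
    (hmix : LMix C B T γ) (hβ : 0 < β) (hβ1 : β ≤ 1) (hov : C.Over β) (n : ℕ)
    (hn : 2 * T + 1 ≤ n) (e : S → S → ℚ) (δ : ℚ) (hδ : 0 ≤ δ) (he : C.Err e δ) :
    ∃ φ : (Fin (n + 1) → S) → ℚ, (∀ a, |φ a| ≤ 14 * (n + 1) / β * δ) ∧
      (∀ a, φ (fun i => a (i + 1)) = φ a) ∧
      ∀ g h, g ≠ h →
        |2 * C.Z * ∑ a, (if a 0 = g ∧ a 1 = h then cw (lz C) a * φ a else 0) - e g h| ≤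
        40 * (n + 1) * γ / β * δ * C.Q g h := by
  obtain ⟨he1, he2, he3⟩ := he
  set η : ℚ := δ / β with hη
  have hη0 : 0 ≤ η := div_nonneg hδ hβ.le
  have hδη : δ ≤ η := by
    rw [hη, le_div_iff₀ hβ]
    nlinarith
  have hQself : ∀ x, C.Q x x = 0 := by
    intro x
    by_contra h0
    exact C.loopless x ((C.Q_ne x x).1 h0).1
  -- the local systems
  set f : S → ℚ := fun a => (∑ b, e a b) / C.s a with hf
  have hfb : ∀ a, |f a| ≤ δ := by
    intro a
    rw [hf]
    simp only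
    rw [abs_div, abs_of_pos (C.s_pos a), div_le_iff₀ (C.s_pos a), ← C.row a, mul_sum]
    exact (abs_sum_le_sum_abs _ _).trans (sum_le_sum fun b _ => he3 a b)
  have hfrv : ∀ a, f (C.rv a) = f a := by
    intro a
    rw [hf]
    simp only
    rw [he2, C.s_rv]
  obtain ⟨ψ, hψ1, hψ2⟩ := local_solve C.P C.P_nonneg C.P_row C.rv C.rv_rv C.tl
    (fun a b hab => ((C.Q_ne a b).1 (fun h0 => hab (by
      show C.Q a b / C.s a = 0
      rw [h0, zero_div]))).1) β hβ hβ1 hov f δ hfb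
  set b : ℚ := 2 * η with hb
  have hψb : ∀ a, |ψ a| ≤ b := by
    intro a
    have h1 := hψ2 a
    have h2 : 2 / β * δ = b := by
      rw [hb, hη]
      ring
    rwa [h2] at h1
  have hPψ : ∀ a, (C.P *ᵥ ψ) a = f a - ψ (C.rv a) := by
    intro a
    have h1 := hψ1 (C.rv a)
    rw [C.rv_rv, hfrv] at h1
    have h2 : (C.P *ᵥ ψ) a = ∑ b, C.P a b * ψ b := rfl
    rw [h2]
    linarith
  have hLψ : ∀ a, (lz C *ᵥ ψ) a = ψ a / 2 + (C.P *ᵥ ψ) a / 2 := by
    intro a
    have h2 : (lz C *ᵥ ψ) a = ∑ b, lz C a b * ψ b := rfl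
    have h3 : (C.P *ᵥ ψ) a = ∑ b, C.P a b * ψ b := rfl
    rw [h2, h3, sum_div]
    have h4 : ∀ y, lz C a y * ψ y = (if a = y then ψ y / 2 else 0) + C.P a y * ψ y / 2 := by
      intro y
      unfold lz
      split_ifs <;> ring
    rw [sum_congr rfl fun y _ => h4 y, sum_add_distrib, sum_ite_eq, if_pos (mem_univ a)]
  set H : S → ℚ := fun a => ψ a - (lz C *ᵥ ψ) a with hH
  have hHrv : ∀ a, H (C.rv a) = H a := by
    intro a
    rw [hH]
    simp only
    rw [hLψ, hLψ, hPψ, hPψ, C.rv_rv, hfrv]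
    ring
  have hLb : ∀ a, |(lz C *ᵥ ψ) a| ≤ b := by
    intro a
    have h2 : (lz C *ᵥ ψ) a = ∑ y, lz C a y * ψ y := rfl
    rw [h2]
    calc |∑ y, lz C a y * ψ y| ≤ ∑ y, |lz C a y * ψ y| := abs_sum_le_sum_abs _ _
      _ ≤ ∑ y, lz C a y * b := by
          refine sum_le_sum fun y _ => ?_
          rw [abs_mul, abs_of_nonneg (lz_nonneg C a y)]
          exact mul_le_mul_of_nonneg_left (hψb y) (lz_nonneg C a y)
      _ = b := by rw [← sum_mul, lz_row, one_mul]
  have hHb : ∀ a, |H a| ≤ 2 * b := by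
    intro a
    rw [hH]
    simp only
    have h1 := hψb a
    have h2 := hLb a
    rw [abs_le] at h1 h2 ⊢
    constructor <;> linarith [h1.1, h1.2, h2.1, h2.2]
  -- the corner potentials
  set G : S → S → ℚ := fun x y => e x y / C.Q x y - (if C.Q x y = 0 then 0 else
    (ψ y + ψ (C.rv x))) with hG
  have hQG : ∀ x y, C.Q x y * G x y = e x y - C.Q x y * (ψ y + ψ (C.rv x)) := by
    intro x y
    rw [hG]
    simp only
    by_cases hq : C.Q x y = 0
    · have h0 : e x y = 0 := by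
        have := he3 x y
        rw [hq, mul_zero] at this
        exact abs_nonpos_iff.1 this
      rw [hq, h0]
      ring
    · rw [if_neg hq]
      field_simp
  have hGself : ∀ x, G x x = 0 := by
    intro x
    rw [hG]
    simp only
    rw [if_pos (hQself x), hQself x, div_zero, sub_zero]
  have hGb : ∀ x y, |G x y| ≤ 5 * η := by
    intro x y
    rw [hG]
    simp only
    by_cases hq : C.Q x y = 0
    · rw [if_pos hq, hq, div_zero, sub_zero, abs_zero]
      linarith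
    · rw [if_neg hq]
      have hq0 : 0 < C.Q x y := lt_of_le_of_ne (C.Q_nonneg x y) (Ne.symm hq)
      have h0 : |e x y / C.Q x y| ≤ δ := by
        rw [abs_div, abs_of_pos hq0, div_le_iff₀ hq0]
        exact he3 x y
      have h1 := hψb y
      have h2 := hψb (C.rv x)
      rw [abs_le] at h0 h1 h2 ⊢
      constructor <;> linarith [h1.1, h1.2, h2.1, h2.2, h0.1, h0.2]
  have hrow0 : ∀ x, ∑ y, C.Q x y * G x y = 0 := by
    intro x
    rw [sum_congr rfl fun y _ => hQG x y, sum_sub_distrib]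
    have h1 : ∑ y, C.Q x y * (ψ y + ψ (C.rv x)) = C.s x * f x := by
      have h2 : f x = ∑ y, C.P x y * ψ y + ψ (C.rv x) := by
        have := hψ1 (C.rv x)
        rw [C.rv_rv, hfrv] at this
        linarith
      rw [h2, mul_add, mul_sum, ← C.row x, sum_mul, ← sum_add_distrib]
      refine sum_congr rfl fun y _ => ?_
      have h3 : C.P x y = C.Q x y / C.s x := rfl
      rw [h3, C.row x]
      have := (C.s_pos x).ne'
      field_simp
    rw [h1, hf]
    simp only
    rw [mul_div_cancel₀ _ (C.s_pos x).ne', sub_self]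
  have hsym : ∀ x y, C.Q (C.rv y) (C.rv x) * G (C.rv y) (C.rv x) = C.Q x y * G x y := by
    intro x y
    rw [hQG, hQG, he1, C.Q_rv, C.rv_rv]
    ring
  have hcol0 : ∀ y, ∑ x, C.Q x y * G x y = 0 := by
    intro y
    rw [← hrow0 (C.rv y)]
    rw [sum_congr rfl fun x _ => (hsym x y).symm]
    exact Equiv.sum_comp (Function.Involutive.toPerm C.rv C.rv_rv)
      (fun x => C.Q (C.rv y) x * G (C.rv y) x)
  have hlG : ∀ x y, lz C x y * G x y = (C.s x)⁻¹ / 2 * (C.Q x y * G x y) := by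
    intro x y
    by_cases hxy : x = y
    · rw [hxy, hGself]
      ring
    · rw [lz_ne C hxy]
      show C.Q x y / C.s x / 2 * G x y = _
      ring
  have hrow : ∀ x, ∑ y, lz C x y * G x y = 0 := by
    intro x
    rw [sum_congr rfl fun y _ => hlG x y, ← mul_sum, hrow0, mul_zero]
  have hcol : ∀ y, ∑ x, C.pi x * lz C x y * G x y = 0 := by
    intro y
    have h1 : ∀ x, C.pi x * lz C x y * G x y = (C.Z)⁻¹ / 2 * (C.Q x y * G x y) := by
      intro x
      have h2 : C.pi x * lz C x y * G x y = C.pi x * (lz C x y * G x y) := by ring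
      rw [h2, hlG]
      show C.s x / C.Z * ((C.s x)⁻¹ / 2 * (C.Q x y * G x y)) = _
      have := (C.s_pos x).ne'
      field_simp
    rw [sum_congr rfl fun x _ => h1 x, ← mul_sum, hcol0, mul_zero]
  set m := ∑ y, C.pi y * ψ y with hm
  have hmb : ∀ a : S, |m| ≤ b := by
    intro a
    have : Nonempty S := ⟨a⟩
    calc |m| ≤ ∑ y, |C.pi y * ψ y| := abs_sum_le_sum_abs _ _
      _ ≤ ∑ y, C.pi y * b := by
          refine sum_le_sum fun y _ => ?_
          rw [abs_mul, abs_of_pos (C.pi_pos y)]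
          exact mul_le_mul_of_nonneg_left (hψb y) (C.pi_pos y).le
      _ = b := by rw [← sum_mul, C.pi_sum, one_mul]
  refine ⟨fun a => ∑ i, G (a i) (a (i + 1)) + ∑ i, H (a i) + 2 * m, ?_, ?_, ?_⟩
  · intro a
    have h1 : |∑ i, G (a i) (a (i + 1))| ≤ (n + 1) * (5 * η) := by
      calc _ ≤ ∑ i, |G (a i) (a (i + 1))| := abs_sum_le_sum_abs _ _
        _ ≤ ∑ _i : Fin (n + 1), 5 * η := sum_le_sum fun i _ => hGb _ _
        _ = (n + 1) * (5 * η) := by
            rw [sum_const, card_univ, Fintype.card_fin, nsmul_eq_mul]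
            push_cast
            ring
    have h2 : |∑ i, H (a i)| ≤ (n + 1) * (2 * b) := by
      calc _ ≤ ∑ i, |H (a i)| := abs_sum_le_sum_abs _ _
        _ ≤ ∑ _i : Fin (n + 1), 2 * b := sum_le_sum fun i _ => hHb _
        _ = (n + 1) * (2 * b) := by
            rw [sum_const, card_univ, Fintype.card_fin, nsmul_eq_mul]
            push_cast
            ring
    have h3 : |2 * m| ≤ 2 * b := by
      rw [abs_mul, abs_of_pos (by norm_num : (0 : ℚ) < 2)]
      exact mul_le_mul_of_nonneg_left (hmb (a 0)) (by norm_num)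
    have h4 : (14 : ℚ) * (n + 1) / β * δ = 14 * (n + 1) * η := by
      rw [hη]
      ring
    rw [h4]
    calc _ ≤ (n + 1) * (5 * η) + (n + 1) * (2 * b) + 2 * b :=
          (abs_add_le _ _).trans (add_le_add ((abs_add_le _ _).trans (add_le_add h1 h2)) h3)
      _ ≤ 14 * (n + 1) * η := by
          rw [hb]
          have hn0 : (0 : ℚ) ≤ n := Nat.cast_nonneg n
          have := mul_nonneg hn0 hη0
          nlinarith
  · intro a
    have h1 : ∑ i, G (a (i + 1)) (a (i + 1 + 1)) = ∑ i, G (a i) (a (i + 1)) :=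
      Equiv.sum_comp (Equiv.addRight (1 : Fin (n + 1))) (fun i => G (a i) (a (i + 1)))
    have h2 : ∑ i, H (a (i + 1)) = ∑ i, H (a i) :=
      Equiv.sum_comp (Equiv.addRight (1 : Fin (n + 1))) (fun i => H (a i))
    simp only
    rw [h1, h2]
  · intro g h hgh
    have : Nonempty S := ⟨g⟩
    have hg0 : 0 < C.pi g := C.pi_pos g
    simp only
    rw [Chain.in_split (lz C) (by omega) g h G H (2 * m)]
    have h1 := lx_vert_small hmix hn ψ H b (fun a => rfl) hHrv hψb hHb hgh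
    have h2 : |∑ i ∈ range n, ∑ x, ∑ y,
        (lz C ^ i) h x * lz C x y * (lz C ^ (n - 1 - i)) y g * G x y| ≤
        n * (2 * (γ * C.pi g * (5 * η))) := by
      refine (abs_sum_le_sum_abs _ _).trans ?_
      refine (sum_le_sum fun i hi => lx_corner_small hmix hn G (5 * η) hGb hrow hcol hgh
        (mem_range.1 hi)).trans ?_
      rw [sum_const, card_range, nsmul_eq_mul]
    have h3 : |((lz C ^ n) h g - C.pi g) * (G g h + 2 * m)| ≤ γ * C.pi g * (9 * η) := by
      rw [abs_mul]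
      have h4 := hmix.mix n (by omega) h g
      rw [if_neg hgh.symm, add_zero] at h4
      refine mul_le_mul h4 ?_ (abs_nonneg _) ((abs_nonneg _).trans h4)
      have h5 := hGb g h
      have h6 := hmb g
      rw [hb] at h6
      rw [abs_le] at h5 h6 ⊢
      constructor <;> linarith [h5.1, h5.2, h6.1, h6.2]
    rw [← hm] at h1
    set X := ∑ i ∈ range (n + 1), ∑ x, (lz C ^ i) h x * (lz C ^ (n - i)) x g * H x with hX
    set Y := ∑ i ∈ range n, ∑ x, ∑ y,
        (lz C ^ i) h x * lz C x y * (lz C ^ (n - 1 - i)) y g * G x y with hY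
    have hL2 : 2 * C.Z * lz C g h * C.pi g = C.Q g h := by
      rw [lz_ne C hgh, ← C.Q_eq g h]
      ring
    have h7 : 2 * C.Z * (lz C g h * (X + Y + (lz C ^ n) h g * (G g h + 2 * m))) - e g h =
        2 * C.Z * lz C g h * ((X - C.pi g * (ψ h + ψ (C.rv g) - 2 * m)) + Y +
          ((lz C ^ n) h g - C.pi g) * (G g h + 2 * m)) := by
      have h8 : e g h = C.Q g h * (G g h + (ψ h + ψ (C.rv g))) := by
        have := hQG g h
        linarith
      rw [h8, ← hL2]
      ring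
    have hZP : 0 ≤ 2 * C.Z * lz C g h :=
      mul_nonneg (mul_nonneg (by norm_num) (sum_nonneg fun a _ => (C.s_pos a).le))
        (lz_nonneg C g h)
    rw [h7, abs_mul, abs_of_nonneg hZP]
    have h9 : |(X - C.pi g * (ψ h + ψ (C.rv g) - 2 * m)) + Y +
          ((lz C ^ n) h g - C.pi g) * (G g h + 2 * m)| ≤ 40 * (n + 1) * γ * η * C.pi g := by
      calc _ ≤ (4 * (n : ℚ) + 8) * b * γ * C.pi g + n * (2 * (γ * C.pi g * (5 * η))) +
            γ * C.pi g * (9 * η) :=
            (abs_add_le _ _).trans (add_le_add ((abs_add_le _ _).trans (add_le_add h1 h2)) h3)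
        _ = (18 * (n : ℚ) + 25) * (γ * η * C.pi g) := by
            rw [hb]
            ring
        _ ≤ (40 * ((n : ℚ) + 1)) * (γ * η * C.pi g) := by
            refine mul_le_mul_of_nonneg_right ?_ (mul_nonneg (mul_nonneg hγ hη0) hg0.le)
            have hn0 : (0 : ℚ) ≤ n := Nat.cast_nonneg n
            linarith
        _ = 40 * (n + 1) * γ * η * C.pi g := by ring
    calc _ ≤ 2 * C.Z * lz C g h * (40 * (n + 1) * γ * η * C.pi g) :=
          mul_le_mul_of_nonneg_left h9 hZP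
      _ = 40 * (n + 1) * γ / β * δ * C.Q g h := by
          rw [← hL2, hη]
          ring

end Pool.Agent.Lib.MP_95bb8c_al.PX
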