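import Pool.Agent.Lib.MP_95bb8c_al.PX.Lazy
import Pool.Agent.Lib.MP_95bb8c_al.PX.LInverse
import Pool.Agent.Lib.MP_95bb8c_al.PX.LCollide
import Pool.Agent.Lib.MP_95bb8c_al.PS.TwoPoint
import Pool.Agent.Lib.MP_95bb8c_al.PS.Exact

set_option autoImplicit false
set_option linter.unusedSectionVars false

/-!
# Expanding Whitehead graphs: the exact law on simple closed lazy sequences (Y7)

As in `PS/Exact.lean`, for the lazy chain: the simple closed sequences which move at all carry the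
weights `Z / (n + 1) * cw`; the pairs `g, h` with `g ≠ h` are covered up to the relative error
`γ + (n + 1) ^ 2 (2 ε + γ)`, the approximate inverse (Y5) corrects the error up to the factor
`1 / 2`, iterate and use `exact_of_approx`.
-/

namespace Pool.Agent.Lib.MP_95bb8c_al.PX

open Finset Matrix PS

variable {S V : Type} [Fintype S] [DecidableEq S] [Fintype V] [DecidableEq V]

theorem y7_simple_rot (C : Chain S V) {n : ℕ} (a : Fin (n + 1) → S) :
    Simple C (fun i => a (i + 1)) ↔ Simple C a := by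
  constructor
  · intro h i j hi hj hij
    have := h (i - 1) (j - 1)
    simp only [sub_add_cancel] at this
    exact sub_left_injective (this hi hj hij)
  · intro h i j hi hj hij
    exact add_left_injective 1 (h (i + 1) (j + 1) hi hj hij)

theorem y7_moves_rot {n : ℕ} (a : Fin (n + 1) → S) :
    (∃ i, a (i + 1) ≠ a (i + 1 + 1)) ↔ ∃ i, a i ≠ a (i + 1) := by
  constructor
  · rintro ⟨i, hi⟩
    exact ⟨i + 1, hi⟩
  · rintro ⟨i, hi⟩
    exact ⟨i - 1, by simpa only [sub_add_cancel] using hi⟩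

/-- the base weight of a closed lazy sequence: zero if it is not simple or does not move -/
def y7w (C : Chain S V) {n : ℕ} (a : Fin (n + 1) → S) : ℚ :=
  if Simple C a ∧ ∃ i, a i ≠ a (i + 1) then C.Z / (n + 1) * cw (lz C) a else 0

/-- the coverage of the pair `g, h` by the weights `y7w * φ` -/
def y7cov (C : Chain S V) {n : ℕ} (φ : (Fin (n + 1) → S) → ℚ) (g h : S) : ℚ :=
  ∑ a, y7w C a * φ a * cnt C a g h

theorem y7_cov_symm (C : Chain S V) {n : ℕ} (φ : (Fin (n + 1) → S) → ℚ) (g h : S) :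
    y7cov C φ (C.rv h) (C.rv g) = y7cov C φ g h := by
  unfold y7cov
  exact sum_congr rfl fun a _ => by rw [C.p7_cnt_symm]

theorem y7_cov_row (C : Chain S V) {n : ℕ} (φ : (Fin (n + 1) → S) → ℚ) (g : S) :
    ∑ h, y7cov C φ (C.rv g) h = ∑ h, y7cov C φ g h := by
  unfold y7cov
  rw [sum_comm, sum_comm (γ := S)]
  refine sum_congr rfl fun a _ => ?_
  rw [← mul_sum, ← mul_sum, C.p7_cnt_row, C.p7_cnt_row, C.rv_rv, add_comm]

theorem y7_w_rot (C : Chain S V) {n : ℕ} (a : Fin (n + 1) → S) :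
    y7w C (fun i => a (i + 1)) = y7w C a := by
  unfold y7w
  rw [cw_rot]
  simp only [y7_simple_rot C a, y7_moves_rot a]

theorem y7_cw_nonneg (C : Chain S V) {n : ℕ} (a : Fin (n + 1) → S) : 0 ≤ cw (lz C) a :=
  prod_nonneg fun _ _ => lz_nonneg C _ _

theorem y7_w_nonneg [Nonempty S] (C : Chain S V) {n : ℕ} (a : Fin (n + 1) → S) : 0 ≤ y7w C a := by
  unfold y7w
  split_ifs
  · have := C.p7_Z_pos
    have := y7_cw_nonneg C a
    positivity
  · exact le_rfl

/-- the coverage by a rotation invariant density, at the place `0` -/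
theorem y7_cov_eq (C : Chain S V) {n : ℕ} (hn : 1 ≤ n) (φ : (Fin (n + 1) → S) → ℚ)
    (hφ : ∀ a, φ (fun i => a (i + 1)) = φ a) (g h : S) (hgh : g ≠ h) :
    y7cov C φ g h = 1 / 2 * (2 * C.Z * ∑ a : Fin (n + 1) → S, (if a 0 = g ∧ a 1 = h then
        (if Simple C a then cw (lz C) a * φ a else 0) else 0) +
      2 * C.Z * ∑ a : Fin (n + 1) → S, (if a 0 = C.rv h ∧ a 1 = C.rv g then
        (if Simple C a then cw (lz C) a * φ a else 0) else 0)) := by
  have hN : ((n : ℚ) + 1) ≠ 0 := by positivity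
  have hrv : C.rv h ≠ C.rv g := by
    intro h1
    have h2 := congrArg C.rv h1
    rw [C.rv_rv, C.rv_rv] at h2
    exact hgh h2.symm
  have hw : ∀ a : Fin (n + 1) → S, ∀ k, y7w C (fun i => a (i + k)) * φ (fun i => a (i + k)) =
      y7w C a * φ a := fun a k =>
    p7_rot (fun a => y7w C a * φ a) (fun a => by rw [y7_w_rot, hφ]) a k
  have hplace : ∀ (g h : S) (k : Fin (n + 1)),
      ∑ a : Fin (n + 1) → S, y7w C a * φ a * (if a k = g ∧ a (k + 1) = h then (1 : ℚ) else 0) =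
        ∑ a : Fin (n + 1) → S, y7w C a * φ a * (if a 0 = g ∧ a 1 = h then (1 : ℚ) else 0) := by
    intro g h k
    rw [← sum_rot (fun a : Fin (n + 1) → S => y7w C a * φ a *
      (if a 0 = g ∧ a 1 = h then (1 : ℚ) else 0)) k]
    refine sum_congr rfl fun a _ => ?_
    show _ = y7w C (fun i => a (i + k)) * φ (fun i => a (i + k)) *
      (if a (0 + k) = g ∧ a (1 + k) = h then (1 : ℚ) else 0)
    rw [hw, zero_add, add_comm 1 k]
  have hz : ∀ g h : S, g ≠ h → ∑ a : Fin (n + 1) → S, y7w C a * φ a *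
      (if a 0 = g ∧ a 1 = h then (1 : ℚ) else 0) = 1 / (2 * (n + 1)) *
      (2 * C.Z * ∑ a : Fin (n + 1) → S, (if a 0 = g ∧ a 1 = h then
        (if Simple C a then cw (lz C) a * φ a else 0) else 0)) := by
    intro g h hgh
    rw [mul_sum, mul_sum]
    refine sum_congr rfl fun a _ => ?_
    by_cases h1 : a 0 = g ∧ a 1 = h
    · have h2 : ∃ i, a i ≠ a (i + 1) := ⟨0, by rw [zero_add, h1.1, h1.2]; exact hgh⟩
      by_cases h3 : Simple C a
      · have e1 : y7w C a = C.Z / (n + 1) * cw (lz C) a := if_pos ⟨h3, h2⟩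
        rw [if_pos h1, if_pos h1, if_pos h3, e1]
        field_simp
      · have e1 : y7w C a = 0 := if_neg fun h4 => h3 h4.1
        rw [if_pos h1, if_pos h1, if_neg h3, e1]
        ring
    · rw [if_neg h1, if_neg h1]
      ring
  unfold y7cov cnt
  have e1 : ∀ a : Fin (n + 1) → S, y7w C a * φ a * ∑ i, ((if a i = g ∧ a (i + 1) = h then (1 : ℚ)
      else 0) + (if a i = C.rv h ∧ a (i + 1) = C.rv g then 1 else 0)) =
      ∑ i, (y7w C a * φ a * (if a i = g ∧ a (i + 1) = h then (1 : ℚ) else 0) +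
        y7w C a * φ a * (if a i = C.rv h ∧ a (i + 1) = C.rv g then (1 : ℚ) else 0)) := by
    intro a
    rw [mul_sum]
    exact sum_congr rfl fun i _ => by rw [mul_add]
  rw [sum_congr rfl fun a _ => e1 a, sum_comm]
  simp only [sum_add_distrib]
  rw [sum_congr rfl fun i _ => hplace g h i, sum_congr rfl fun i _ => hplace (C.rv h) (C.rv g) i,
    hz g h hgh, hz _ _ hrv]
  simp only [sum_const, card_univ, Fintype.card_fin, nsmul_eq_mul]
  push_cast
  field_simp

/-- the part of the not simple sequences -/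
theorem y7_nonsimple (C : Chain S V) (B : ℚ) (T : ℕ) (γ ε : ℚ) (hγ0 : 0 ≤ γ) (hγ1 : γ ≤ 1)
    (hmix : LMix C B T γ) (hε : 0 ≤ ε) (hstep : C.Step ε) (n : ℕ) (hn : 3 * T + 3 ≤ n)
    (φ : (Fin (n + 1) → S) → ℚ) (F : ℚ) (hF : ∀ a, |φ a| ≤ F) (hZ : 0 ≤ C.Z) (g h : S)
    (hgh : g ≠ h) :
    |2 * C.Z * ∑ a : Fin (n + 1) → S, (if a 0 = g ∧ a 1 = h then
        (if Simple C a then cw (lz C) a * φ a else 0) else 0) -
      2 * C.Z * ∑ a : Fin (n + 1) → S, (if a 0 = g ∧ a 1 = h then cw (lz C) a * φ a else 0)| ≤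
      F * ((n + 1) ^ 2 * (2 * ε + γ) * C.Q g h) := by
  have hc := lazy_collide C B T γ ε hγ0 hγ1 hmix hε hstep n hn g h hgh
  rw [← mul_sub, ← sum_sub_distrib, abs_mul, abs_of_nonneg (by positivity : 0 ≤ 2 * C.Z)]
  have h1 : |∑ a : Fin (n + 1) → S, ((if a 0 = g ∧ a 1 = h then
        (if Simple C a then cw (lz C) a * φ a else 0) else 0) -
      (if a 0 = g ∧ a 1 = h then cw (lz C) a * φ a else 0))| ≤
      ∑ a : Fin (n + 1) → S, F * (if a 0 = g ∧ a 1 = h ∧ ¬ Simple C a then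
        cw (lz C) a else 0) := by
    refine (abs_sum_le_sum_abs _ _).trans (sum_le_sum fun a _ => ?_)
    by_cases h2 : a 0 = g ∧ a 1 = h
    · by_cases h3 : Simple C a
      · have h5 : ¬ (a 0 = g ∧ a 1 = h ∧ ¬ Simple C a) := fun h6 => h6.2.2 h3
        rw [if_pos h2, if_pos h2, if_pos h3, if_neg h5]
        simp
      · have h4 : |φ a| * cw (lz C) a ≤ F * cw (lz C) a :=
          mul_le_mul_of_nonneg_right (hF a) (y7_cw_nonneg C a)
        have h5 : a 0 = g ∧ a 1 = h ∧ ¬ Simple C a := ⟨h2.1, h2.2, h3⟩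
        rw [if_pos h2, if_pos h2, if_neg h3, if_pos h5, zero_sub, abs_neg, abs_mul,
          abs_of_nonneg (y7_cw_nonneg C a), mul_comm]
        exact h4
    · have h5 : ¬ (a 0 = g ∧ a 1 = h ∧ ¬ Simple C a) := fun h6 => h2 ⟨h6.1, h6.2.1⟩
      rw [if_neg h2, if_neg h2, if_neg h5]
      simp
  rw [← mul_sum] at h1
  have hF0 : 0 ≤ F := (abs_nonneg _).trans (hF fun _ => g)
  calc 2 * C.Z * |_| ≤ 2 * C.Z * (F * ∑ a : Fin (n + 1) → S, (if a 0 = g ∧ a 1 = h ∧
        ¬ Simple C a then cw (lz C) a else 0)) :=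
        mul_le_mul_of_nonneg_left h1 (by positivity)
    _ = F * (2 * C.Z * ∑ a : Fin (n + 1) → S, (if a 0 = g ∧ a 1 = h ∧
        ¬ Simple C a then cw (lz C) a else 0)) := by ring
    _ ≤ F * ((n + 1) ^ 2 * (2 * ε + γ) * C.Q g h) := mul_le_mul_of_nonneg_left hc hF0

theorem y7_lzQ [Nonempty S] (C : Chain S V) (g h : S) (hgh : g ≠ h) :
    2 * C.Z * lz C g h * C.pi g = C.Q g h := by
  have h6 := C.Q_eq g h
  rw [lz_ne C hgh, ← h6]
  ring

/-- the coverage by the base weights -/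
theorem y7_base [Nonempty S] (C : Chain S V) (B : ℚ) (T : ℕ) (γ ε : ℚ) (hγ : 0 ≤ γ) (hγ1 : γ ≤ 1)
    (hmix : LMix C B T γ) (hε : 0 ≤ ε) (hstep : C.Step ε) (n : ℕ) (hn : 3 * T + 3 ≤ n) (g h : S)
    (hgh : g ≠ h) :
    |C.Q g h - y7cov C (n := n) (fun _ => 1) g h| ≤
      (γ + (n + 1) ^ 2 * (2 * ε + γ)) * C.Q g h := by
  have hZ := C.p7_Z_pos
  have key : ∀ g h : S, g ≠ h → |2 * C.Z * ∑ a : Fin (n + 1) → S, (if a 0 = g ∧ a 1 = h then
      (if Simple C a then cw (lz C) a * 1 else 0) else 0) -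
      C.Q g h| ≤ (γ + (n + 1) ^ 2 * (2 * ε + γ)) * C.Q g h := by
    intro g h hgh
    have h1 := y7_nonsimple C B T γ ε hγ hγ1 hmix hε hstep n hn (fun _ => 1) 1
      (fun _ => by simp) hZ.le g h hgh
    have h2 : |2 * C.Z * ∑ a : Fin (n + 1) → S, (if a 0 = g ∧ a 1 = h then cw (lz C) a * 1
        else 0) - C.Q g h| ≤ γ * C.Q g h := by
      have h3 := two_point (n := n) (lz C) g h (fun _ _ => 1) 1 1 (by
        show 1 ≤ ((1 : Fin (n + 1)) : ℕ)
        rw [Fin.val_one']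
        rw [Nat.mod_eq_of_lt (by omega)]) le_rfl
      have hv : ((1 : Fin (n + 1)) : ℕ) = 1 := by
        rw [Fin.val_one', Nat.mod_eq_of_lt (by omega)]
      rw [h3, hv]
      have h4 : ∑ x, ∑ y, (lz C ^ (1 - 1)) h x * (lz C ^ (1 - 1)) x y *
          (lz C ^ (n + 1 - 1)) y g * (1 : ℚ) = (lz C ^ n) h g := by
        simp [Matrix.one_apply]
      rw [h4]
      have h5 := hmix.mix n (by omega) h g
      rw [if_neg (Ne.symm hgh), add_zero] at h5
      have h6 := y7_lzQ C g h hgh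
      have h7 : 2 * C.Z * (lz C g h * (lz C ^ n) h g) - C.Q g h =
          2 * C.Z * lz C g h * ((lz C ^ n) h g - C.pi g) := by
        rw [← h6]; ring
      have h8 : 0 ≤ 2 * C.Z * lz C g h := mul_nonneg (by positivity) (lz_nonneg C g h)
      rw [h7, abs_mul, abs_of_nonneg h8]
      calc 2 * C.Z * lz C g h * |(lz C ^ n) h g - C.pi g| ≤
            2 * C.Z * lz C g h * (γ * C.pi g) := mul_le_mul_of_nonneg_left h5 h8
        _ = γ * C.Q g h := by rw [← h6]; ring
    calc _ = |(2 * C.Z * ∑ a : Fin (n + 1) → S, (if a 0 = g ∧ a 1 = h then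
          (if Simple C a then cw (lz C) a * 1 else 0) else 0) -
          2 * C.Z * ∑ a : Fin (n + 1) → S, (if a 0 = g ∧ a 1 = h then cw (lz C) a * 1
          else 0)) + (2 * C.Z * ∑ a : Fin (n + 1) → S, (if a 0 = g ∧ a 1 = h then
          cw (lz C) a * 1 else 0) - C.Q g h)| := by congr 1; ring
      _ ≤ _ := (abs_add_le _ _).trans (add_le_add h1 h2)
      _ = _ := by ring
  have hrv : C.rv h ≠ C.rv g := by
    intro h1
    have h2 := congrArg C.rv h1
    rw [C.rv_rv, C.rv_rv] at h2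
    exact hgh h2.symm
  rw [y7_cov_eq C (by omega) (fun _ => 1) (fun _ => rfl) g h hgh]
  have k1 := key g h hgh
  have k2 := key (C.rv h) (C.rv g) hrv
  rw [C.Q_rv] at k2
  rw [abs_le] at k1 k2 ⊢
  constructor <;> linarith [k1.1, k1.2, k2.1, k2.2]

/-- the numbers -/
theorem y7_num (n : ℕ) (hn : 3 ≤ n) (γ β ε : ℚ) (hγ : 0 ≤ γ) (hε : 0 ≤ ε) (hβ1 : β ≤ 1)
    (h2 : 56 * (n + 1) ^ 3 * (2 * ε + γ) ≤ β) : γ ≤ 1 ∧ 896 * (n + 1) * γ ≤ β := by
  have hn' : (4 : ℚ) ≤ n + 1 := by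
    have : (3 : ℚ) ≤ n := by exact_mod_cast hn
    linarith
  have h3 : 56 * ((n : ℚ) + 1) ^ 3 * γ ≤ β := by
    have : 0 ≤ 56 * ((n : ℚ) + 1) ^ 3 * (2 * ε) := by positivity
    linarith
  have h4 : 896 * ((n : ℚ) + 1) * γ ≤ 56 * ((n : ℚ) + 1) ^ 3 * γ := by
    have h5 : (16 : ℚ) ≤ ((n : ℚ) + 1) ^ 2 := by nlinarith
    have h6 : 0 ≤ 56 * ((n : ℚ) + 1) * γ := by positivity
    have h7 := mul_le_mul_of_nonneg_left h5 h6
    calc 896 * ((n : ℚ) + 1) * γ = 56 * ((n : ℚ) + 1) * γ * 16 := by ring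
      _ ≤ _ := h7
      _ = _ := by ring
  refine ⟨?_, h4.trans h3⟩
  have h5 : γ ≤ 896 * ((n : ℚ) + 1) * γ := by
    have : (1 : ℚ) ≤ 896 * ((n : ℚ) + 1) := by linarith
    calc γ = 1 * γ := (one_mul γ).symm
      _ ≤ _ := mul_le_mul_of_nonneg_right this hγ
  linarith

/-- one step of the iteration -/
theorem y7_step [Nonempty S] (C : Chain S V) (B : ℚ) (T : ℕ) (γ β ε : ℚ) (hγ : 0 ≤ γ)
    (hmix : LMix C B T γ) (hβ : 0 < β) (hβ1 : β ≤ 1) (hov : C.Over β) (hε : 0 ≤ ε)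
    (hstep : C.Step ε) (n : ℕ) (hn : 3 * T + 3 ≤ n)
    (h2 : 56 * (n + 1) ^ 3 * (2 * ε + γ) ≤ β) (e : S → S → ℚ) (δ : ℚ) (hδ : 0 ≤ δ)
    (he : C.Err e δ) :
    ∃ φ : (Fin (n + 1) → S) → ℚ, (∀ a, |φ a| ≤ 14 * (n + 1) / β * δ) ∧
      (∀ a, φ (fun i => a (i + 1)) = φ a) ∧
      ∀ g h, g ≠ h → |y7cov C φ g h - e g h| ≤ 1 / 2 * δ * C.Q g h := by
  have hN : (0 : ℚ) < n + 1 := by positivity
  have hZ := C.p7_Z_pos
  obtain ⟨hγ1, h1⟩ := y7_num n (by omega) γ β ε hγ hε hβ1 h2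
  obtain ⟨φ, hφ, hrot, hφe⟩ := lazy_inverse C B T γ β hγ hmix hβ hβ1 hov n (by omega) e δ hδ he
  refine ⟨φ, hφ, hrot, fun g h hgh => ?_⟩
  have hA : 40 * (n + 1) * γ / β ≤ 1 / 4 := by
    rw [div_le_iff₀ hβ]
    have : 0 ≤ (n + 1) * γ := by positivity
    linarith
  have hB : 14 * (n + 1) / β * ((n + 1) ^ 2 * (2 * ε + γ)) ≤ 1 / 4 := by
    have : 14 * ((n : ℚ) + 1) / β * ((n + 1) ^ 2 * (2 * ε + γ)) =
        14 * (n + 1) ^ 3 * (2 * ε + γ) / β := by
      field_simp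
    rw [this, div_le_iff₀ hβ]
    linarith
  have key : ∀ g h : S, g ≠ h → |2 * C.Z * ∑ a : Fin (n + 1) → S, (if a 0 = g ∧ a 1 = h then
      (if Simple C a then cw (lz C) a * φ a else 0) else 0) -
      e g h| ≤ 1 / 2 * δ * C.Q g h := by
    intro g h hgh
    have k1 := y7_nonsimple C B T γ ε hγ hγ1 hmix hε hstep n hn φ _ hφ hZ.le g h hgh
    have k2 := hφe g h hgh
    have hq := C.Q_nonneg g h
    have k3 : 40 * (n + 1) * γ / β * δ * C.Q g h ≤ 1 / 4 * (δ * C.Q g h) := by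
      rw [mul_assoc]
      exact mul_le_mul_of_nonneg_right hA (mul_nonneg hδ hq)
    have k4 : 14 * (n + 1) / β * δ * ((n + 1) ^ 2 * (2 * ε + γ) * C.Q g h) ≤
        1 / 4 * (δ * C.Q g h) := by
      calc 14 * (n + 1) / β * δ * ((n + 1) ^ 2 * (2 * ε + γ) * C.Q g h) =
          14 * (n + 1) / β * ((n + 1) ^ 2 * (2 * ε + γ)) * (δ * C.Q g h) := by ring
        _ ≤ _ := mul_le_mul_of_nonneg_right hB (mul_nonneg hδ hq)
    calc _ = |(2 * C.Z * ∑ a : Fin (n + 1) → S, (if a 0 = g ∧ a 1 = h then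
          (if Simple C a then cw (lz C) a * φ a else 0) else 0) -
          2 * C.Z * ∑ a : Fin (n + 1) → S, (if a 0 = g ∧ a 1 = h then cw (lz C) a * φ a
          else 0)) + (2 * C.Z * ∑ a : Fin (n + 1) → S, (if a 0 = g ∧ a 1 = h then
          cw (lz C) a * φ a else 0) - e g h)| := by congr 1; ring
      _ ≤ _ := (abs_add_le _ _).trans (add_le_add k1 k2)
      _ ≤ _ := by linarith
  have hrv : C.rv h ≠ C.rv g := by
    intro h1
    have h2 := congrArg C.rv h1
    rw [C.rv_rv, C.rv_rv] at h2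
    exact hgh h2.symm
  rw [y7_cov_eq C (by omega) φ hrot g h hgh]
  have k1 := key g h hgh
  have k2 := key (C.rv h) (C.rv g) hrv
  rw [C.Q_rv, he.1 g h] at k2
  rw [abs_le] at k1 k2 ⊢
  constructor <;> linarith [k1.1, k1.2, k2.1, k2.2]

theorem y7_Q_self (C : Chain S V) (a : S) : C.Q a a = 0 := by
  by_contra h
  exact C.loopless a ((C.Q_ne a a).1 h).1

/-- the error of a density is admissible -/
theorem y7_err (C : Chain S V) {n : ℕ} (φ : (Fin (n + 1) → S) → ℚ) (δ : ℚ)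
    (h : ∀ g h, g ≠ h → |C.Q g h - y7cov C φ g h| ≤ δ * C.Q g h) :
    C.Err (fun g h => if g = h then 0 else C.Q g h - y7cov C φ g h) δ := by
  have hinj : ∀ a b, C.rv b = C.rv a ↔ a = b := by
    intro a b
    constructor
    · intro h1
      have h2 := congrArg C.rv h1
      rw [C.rv_rv, C.rv_rv] at h2
      exact h2.symm
    · rintro rfl
      rfl
  refine ⟨fun a b => ?_, fun a => ?_, fun a b => ?_⟩
  · show (if C.rv b = C.rv a then (0 : ℚ) else C.Q (C.rv b) (C.rv a) -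
      y7cov C φ (C.rv b) (C.rv a)) = if a = b then 0 else C.Q a b - y7cov C φ a b
    rw [C.Q_rv, y7_cov_symm]
    simp only [hinj]
  · have e1 : ∀ a : S, ∑ b, (if a = b then (0 : ℚ) else C.Q a b - y7cov C φ a b) =
        C.s a - ∑ b, y7cov C φ a b + y7cov C φ a a := by
      intro a
      have e2 : ∀ b : S, (if a = b then (0 : ℚ) else C.Q a b - y7cov C φ a b) =
          C.Q a b - y7cov C φ a b + (if a = b then y7cov C φ a b else 0) := by
        intro b
        split_ifs with h1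
        · subst h1
          rw [y7_Q_self]
          ring
        · ring
      rw [sum_congr rfl fun b _ => e2 b, sum_add_distrib, sum_sub_distrib, C.row]
      simp
    show ∑ b, (if C.rv a = b then (0 : ℚ) else C.Q (C.rv a) b - y7cov C φ (C.rv a) b) =
      ∑ b, (if a = b then (0 : ℚ) else C.Q a b - y7cov C φ a b)
    rw [e1, e1, C.s_rv, y7_cov_row, y7_cov_symm]
  · show |if a = b then (0 : ℚ) else C.Q a b - y7cov C φ a b| ≤ δ * C.Q a b
    split_ifs with h1
    · subst h1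
      rw [y7_Q_self]
      simp
    · exact h a b h1

theorem y7_cov_add (C : Chain S V) {n : ℕ} (φ ψ : (Fin (n + 1) → S) → ℚ) (g h : S) :
    y7cov C (fun a => φ a + ψ a) g h = y7cov C φ g h + y7cov C ψ g h := by
  unfold y7cov
  rw [← sum_add_distrib]
  exact sum_congr rfl fun a _ => by ring

/-- the iteration -/
theorem y7_iter [Nonempty S] (C : Chain S V) (B : ℚ) (T : ℕ) (γ β ε : ℚ) (hγ : 0 ≤ γ)
    (hmix : LMix C B T γ) (hβ : 0 < β) (hβ1 : β ≤ 1) (hov : C.Over β) (hε : 0 ≤ ε)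
    (hstep : C.Step ε) (n : ℕ) (hn : 3 * T + 3 ≤ n)
    (h2 : 56 * (n + 1) ^ 3 * (2 * ε + γ) ≤ β) (k : ℕ) :
    ∃ φ : (Fin (n + 1) → S) → ℚ,
      (∀ a, |φ a - 1| ≤
        28 * (n + 1) / β * (γ + (n + 1) ^ 2 * (2 * ε + γ)) * (1 - (1 / 2) ^ k)) ∧
      ∀ g h, g ≠ h → |C.Q g h - y7cov C φ g h| ≤
        (1 / 2) ^ k * (γ + (n + 1) ^ 2 * (2 * ε + γ)) * C.Q g h := by
  have hN : (0 : ℚ) < n + 1 := by positivity
  obtain ⟨hγ1, h1⟩ := y7_num n (by omega) γ β ε hγ hε hβ1 h2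
  set δ : ℚ := γ + (n + 1) ^ 2 * (2 * ε + γ) with hδ
  have hδ0 : 0 ≤ δ := by positivity
  induction k with
  | zero =>
    refine ⟨fun _ => 1, fun a => by simp, fun g h hgh => ?_⟩
    rw [pow_zero, one_mul]
    exact y7_base C B T γ ε hγ hγ1 hmix hε hstep n hn g h hgh
  | succ k ih =>
    obtain ⟨φ, hφ, hφc⟩ := ih
    obtain ⟨ψ, hψ, hrot, hψe⟩ := y7_step C B T γ β ε hγ hmix hβ hβ1 hov hε hstep n hn h2 _
      ((1 / 2) ^ k * δ) (by positivity) (y7_err C φ _ hφc)
    refine ⟨fun a => φ a + ψ a, fun a => ?_, fun g h hgh => ?_⟩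
    · have e1 : φ a + ψ a - 1 = (φ a - 1) + ψ a := by ring
      rw [e1]
      refine (abs_add_le _ _).trans ((add_le_add (hφ a) (hψ a)).trans (le_of_eq ?_))
      rw [pow_succ]
      ring
    · rw [y7_cov_add]
      have e3 := hψe g h hgh
      rw [if_neg hgh] at e3
      have e2 : C.Q g h - (y7cov C φ g h + y7cov C ψ g h) =
          -(y7cov C ψ g h - (C.Q g h - y7cov C φ g h)) := by ring
      rw [e2, abs_neg]
      refine e3.trans (le_of_eq ?_)
      rw [pow_succ]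
      ring

theorem lazy_exact [Nonempty S] (C : Chain S V) (B : ℚ) (T : ℕ) (γ β ε : ℚ) (hγ : 0 ≤ γ)
    (hmix : LMix C B T γ) (hβ : 0 < β) (hβ1 : β ≤ 1) (hov : C.Over β) (hε : 0 ≤ ε)
    (hstep : C.Step ε) (n : ℕ) (hn : 3 * T + 3 ≤ n)
    (h2 : 56 * (n + 1) ^ 3 * (2 * ε + γ) ≤ β) :
    ∃ W : (Fin (n + 1) → S) → ℚ, (∀ a, 0 ≤ W a) ∧
      (∀ a, W a ≠ 0 → Simple C a ∧ (∃ i, a i ≠ a (i + 1)) ∧
        ∀ i, a i = a (i + 1) ∨ C.Q (a i) (a (i + 1)) ≠ 0) ∧
      ∀ g h, C.Q g h ≠ 0 → ∑ a, W a * cnt C a g h = C.Q g h := by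
  classical
  have hN : (0 : ℚ) < n + 1 := by positivity
  have hZ := C.p7_Z_pos
  obtain ⟨hγ1, h1⟩ := y7_num n (by omega) γ β ε hγ hε hβ1 h2
  set δ : ℚ := γ + (n + 1) ^ 2 * (2 * ε + γ) with hδ
  have hδ0 : 0 ≤ δ := by positivity
  have hsmall : 28 * (n + 1) / β * δ ≤ 1 := by
    have e1 : 28 * ((n : ℚ) + 1) / β * δ =
        (28 * (n + 1) * γ + 28 * (n + 1) ^ 3 * (2 * ε + γ)) / β := by
      rw [hδ]; field_simp
    rw [e1, div_le_one hβ]
    have : 0 ≤ ((n : ℚ) + 1) * γ := by positivity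
    linarith
  -- the good sequences
  let Good : (Fin (n + 1) → S) → Prop := fun a => Simple C a ∧ (∃ i, a i ≠ a (i + 1)) ∧
        ∀ i, a i = a (i + 1) ∨ C.Q (a i) (a (i + 1)) ≠ 0
  have hbad : ∀ a, ¬ Good a → y7w C a = 0 := by
    intro a ha
    unfold y7w
    split_ifs with h3
    · have h4 : ∃ i, a i ≠ a (i + 1) ∧ C.Q (a i) (a (i + 1)) = 0 := by
        by_contra h5
        push Not at h5
        refine ha ⟨h3.1, h3.2, fun i => ?_⟩
        by_cases h6 : a i = a (i + 1)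
        · exact Or.inl h6
        · exact Or.inr (h5 i h6)
      obtain ⟨i, hi, hi0⟩ := h4
      have h5 : lz C (a i) (a (i + 1)) = 0 := by
        rw [lz_ne C hi]
        show C.Q (a i) (a (i + 1)) / C.s (a i) / 2 = 0
        rw [hi0, zero_div, zero_div]
      have h6 : cw (lz C) a = 0 := prod_eq_zero (mem_univ i) h5
      rw [h6, mul_zero]
    · rfl
  let A : S × S → (Fin (n + 1) → S) → ℚ := fun p a =>
    if p.1 ≠ p.2 ∧ Good a then cnt C a p.1 p.2 else 0
  obtain ⟨μ, hμ0, hμ⟩ := OE.exact_of_approx A (fun p => if p.1 ≠ p.2 then C.Q p.1 p.2 else 0)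
    (∑ a : Fin (n + 1) → S, 2 * y7w C a) (by
      intro η hη
      obtain ⟨k, hk⟩ : ∃ k : ℕ, (1 / 2 : ℚ) ^ k * (δ * C.Z) < η := by
        obtain ⟨k, hk⟩ := exists_pow_lt_of_lt_one (show (0 : ℚ) < η / (δ * C.Z + 1) by positivity)
          (show (1 / 2 : ℚ) < 1 by norm_num)
        refine ⟨k, ?_⟩
        rw [lt_div_iff₀ (by positivity)] at hk
        have : (0 : ℚ) < (1 / 2) ^ k := by positivity
        linarith
      obtain ⟨φ, hφ, hφc⟩ := y7_iter C B T γ β ε hγ hmix hβ hβ1 hov hε hstep n hn h2 k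
      have hb : ∀ a, |φ a - 1| ≤ 1 := by
        intro a
        refine (hφ a).trans ?_
        have h3 : (0 : ℚ) < (1 / 2) ^ k := by positivity
        have h4 : (0 : ℚ) ≤ 28 * (n + 1) / β * δ := by positivity
        have h5 : 28 * (n + 1) / β * δ * (1 - (1 / 2) ^ k) ≤ 28 * (n + 1) / β * δ * 1 :=
          mul_le_mul_of_nonneg_left (by linarith) h4
        linarith
      have hb1 : ∀ a, 0 ≤ φ a := fun a => by linarith [(abs_le.1 (hb a)).1]
      have hb2 : ∀ a, φ a ≤ 2 := fun a => by linarith [(abs_le.1 (hb a)).2]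
      refine ⟨fun a => y7w C a * φ a, fun a => mul_nonneg (y7_w_nonneg C a) (hb1 a), ?_, ?_⟩
      · refine sum_le_sum fun a _ => ?_
        have := mul_le_mul_of_nonneg_left (hb2 a) (y7_w_nonneg C a)
        linarith
      · rintro ⟨g, h⟩
        by_cases hgh : g = h
        · have e0 : ∀ a : Fin (n + 1) → S, A (g, h) a = 0 := fun a =>
            if_neg fun h3 => h3.1 hgh
          have e1 : ¬ ((g, h).1 ≠ (g, h).2) := fun h3 => h3 hgh
          rw [if_neg e1]
          simp only [e0, zero_mul, sum_const_zero, sub_zero, abs_zero]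
          exact hη.le
        · have e0 : (g, h).1 ≠ (g, h).2 := hgh
          rw [if_pos e0]
          have e1 : ∑ a, A (g, h) a * (y7w C a * φ a) = y7cov C φ g h := by
            unfold y7cov
            refine sum_congr rfl fun a _ => ?_
            by_cases ha : Good a
            · have e3 : A (g, h) a = cnt C a g h := if_pos ⟨e0, ha⟩
              rw [e3]; ring
            · have e3 : A (g, h) a = 0 := if_neg fun h4 => ha h4.2
              rw [e3, hbad a ha]; ring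
          rw [e1]
          have e2 := hφc g h hgh
          rw [abs_sub_comm] at e2
          refine e2.trans ?_
          have e3 : C.Q g h ≤ C.Z := by
            have e4 : C.Q g h ≤ C.s g := by
              rw [← C.row g]
              exact single_le_sum (f := fun b => C.Q g b) (fun b _ => C.Q_nonneg g b) (mem_univ h)
            have e5 : C.s g ≤ C.Z :=
              single_le_sum (f := fun b => C.s b) (fun b _ => (C.s_pos b).le) (mem_univ g)
            exact e4.trans e5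
          have e4 : (1 / 2 : ℚ) ^ k * δ * C.Q g h ≤ (1 / 2 : ℚ) ^ k * δ * C.Z :=
            mul_le_mul_of_nonneg_left e3 (by positivity)
          have e5 : (1 / 2 : ℚ) ^ k * δ * C.Z = (1 / 2 : ℚ) ^ k * (δ * C.Z) := by ring
          linarith)
  refine ⟨fun a => if Good a then μ a else 0, fun a => ?_, fun a ha => ?_, fun g h hQ => ?_⟩
  · show 0 ≤ if Good a then μ a else 0
    split_ifs
    · exact hμ0 a
    · exact le_rfl
  · by_contra hg
    exact ha (if_neg hg)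
  · have hgh : g ≠ h := by
      rintro rfl
      exact hQ (y7_Q_self C g)
    have e0 : (g, h).1 ≠ (g, h).2 := hgh
    have := hμ (g, h)
    rw [if_pos e0] at this
    rw [← this]
    refine sum_congr rfl fun a _ => ?_
    by_cases ha : Good a
    · have e3 : A (g, h) a = cnt C a g h := if_pos ⟨e0, ha⟩
      show (if Good a then μ a else 0) * cnt C a g h = A (g, h) a * μ a
      rw [e3, if_pos ha]; ring
    · have e3 : A (g, h) a = 0 := if_neg fun h4 => ha h4.2
      show (if Good a then μ a else 0) * cnt C a g h = A (g, h) a * μ a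
      rw [e3, if_neg ha]; ring

end Pool.Agent.Lib.MP_95bb8c_al.PX
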