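import Pool.Agent.Lib.MP_95bb8c_al.PX.Defs

set_option autoImplicit false
set_option linter.unusedSectionVars false

/-!
# The lazy chain on the darts: basic facts
-/

namespace Pool.Agent.Lib.MP_95bb8c_al.PX

open Finset Matrix PS

variable {S V : Type} [Fintype S] [DecidableEq S] [DecidableEq V]

private theorem P_self (C : Chain S V) (a : S) : C.P a a = 0 := by
  have h : C.Q a a = 0 := by
    by_contra h
    exact C.loopless a ((C.Q_ne a a).1 h).1
  show C.Q a a / C.s a = 0
  rw [h, zero_div]

theorem lz_nonneg (C : Chain S V) (a b : S) : 0 ≤ lz C a b := by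
  unfold lz
  have h := C.P_nonneg a b
  split_ifs
  · linarith
  · linarith

theorem lz_ne (C : Chain S V) {a b : S} (h : a ≠ b) : lz C a b = C.P a b / 2 := by
  unfold lz
  rw [if_neg h, zero_add]

theorem lz_self (C : Chain S V) (a : S) : lz C a a = 1 / 2 := by
  unfold lz
  rw [if_pos rfl, P_self, zero_div, add_zero]

theorem lz_eq (C : Chain S V) : lz C = (1 / 2 : ℚ) • (1 + C.P) := by
  ext a b
  rw [Matrix.smul_apply, Matrix.add_apply, Matrix.one_apply]
  unfold lz
  by_cases h : a = b
  · rw [if_pos h, if_pos h, smul_eq_mul]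
    ring
  · rw [if_neg h, if_neg h, smul_eq_mul]
    ring

theorem lz_row (C : Chain S V) (a : S) : ∑ b, lz C a b = 1 := by
  unfold lz
  rw [sum_add_distrib, sum_ite_eq univ a (fun _ => (1 : ℚ) / 2), if_pos (mem_univ a), ← sum_div,
    C.P_row a]
  norm_num

private theorem lzpow_succ (C : Chain S V) (t : ℕ) (a b : S) :
    (lz C ^ (t + 1)) a b = (lz C ^ t) a b / 2 + (lz C ^ t * C.P) a b / 2 := by
  have h : lz C ^ (t + 1) = (1 / 2 : ℚ) • (lz C ^ t + lz C ^ t * C.P) := by
    calc lz C ^ (t + 1) = lz C ^ t * lz C := pow_succ _ _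
      _ = lz C ^ t * ((1 / 2 : ℚ) • (1 + C.P)) := congrArg (lz C ^ t * ·) (lz_eq C)
      _ = (1 / 2 : ℚ) • (lz C ^ t + lz C ^ t * C.P) := by
        rw [Matrix.mul_smul, Matrix.mul_add, Matrix.mul_one]
  rw [h, Matrix.smul_apply, Matrix.add_apply, smul_eq_mul]
  ring

theorem lzpow_nonneg (C : Chain S V) (t : ℕ) (a b : S) : 0 ≤ (lz C ^ t) a b := by
  induction t generalizing b with
  | zero =>
    rw [pow_zero, Matrix.one_apply]
    split_ifs
    · exact zero_le_one
    · exact le_rfl
  | succ t ih =>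
    rw [pow_succ, Matrix.mul_apply]
    exact sum_nonneg fun c _ => mul_nonneg (ih c) (lz_nonneg C c b)

theorem lzpow_row (C : Chain S V) (t : ℕ) (a : S) : ∑ b, (lz C ^ t) a b = 1 := by
  induction t with
  | zero =>
    simp only [pow_zero, Matrix.one_apply]
    rw [sum_ite_eq univ a (fun _ => (1 : ℚ)), if_pos (mem_univ a)]
  | succ t ih =>
    simp only [pow_succ, Matrix.mul_apply]
    rw [sum_comm]
    simp only [← mul_sum, lz_row C, mul_one]
    exact ih

private theorem pi_lz (C : Chain S V) (b : S) : ∑ a, C.pi a * lz C a b = C.pi b := by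
  unfold lz
  simp only [mul_add, sum_add_distrib, mul_ite, mul_zero]
  rw [sum_ite_eq' univ b (fun a => C.pi a * (1 / 2)), if_pos (mem_univ b)]
  have h : ∑ a, C.pi a * (C.P a b / 2) = (∑ a, C.pi a * C.P a b) / 2 := by
    rw [sum_div]
    exact sum_congr rfl fun a _ => by ring
  rw [h, C.pi_P b]
  ring

theorem pi_lzpow (C : Chain S V) (t : ℕ) (b : S) : ∑ a, C.pi a * (lz C ^ t) a b = C.pi b := by
  induction t generalizing b with
  | zero =>
    simp only [pow_zero, Matrix.one_apply, mul_ite, mul_one, mul_zero]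
    rw [sum_ite_eq' univ b C.pi, if_pos (mem_univ b)]
  | succ t ih =>
    simp only [pow_succ, Matrix.mul_apply, mul_sum]
    rw [sum_comm]
    conv_rhs => rw [← pi_lz C b]
    refine sum_congr rfl fun c _ => ?_
    rw [← ih c, sum_mul]
    exact sum_congr rfl fun a _ => (mul_assoc _ _ _).symm

private theorem lz_rev_one (C : Chain S V) (a b : S) :
    C.pi a * lz C a b = C.pi b * lz C (C.rv b) (C.rv a) := by
  have h := C.rev_one a b
  unfold lz
  by_cases e : a = b
  · subst e
    rw [if_pos rfl, if_pos rfl]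
    linarith
  · have e' : ¬ C.rv b = C.rv a := fun e' => e (by rw [← C.rv_rv a, ← e', C.rv_rv b])
    rw [if_neg e, if_neg e']
    linarith

theorem lz_rev (C : Chain S V) (t : ℕ) (a b : S) :
    C.pi a * (lz C ^ t) a b = C.pi b * (lz C ^ t) (C.rv b) (C.rv a) := by
  induction t generalizing b with
  | zero =>
    rw [pow_zero, Matrix.one_apply, Matrix.one_apply]
    by_cases h : a = b
    · rw [if_pos h, if_pos (by rw [h]), h]
    · have h' : ¬ C.rv b = C.rv a := fun e => h (by rw [← C.rv_rv a, ← e, C.rv_rv b])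
      rw [if_neg h, if_neg h', mul_zero, mul_zero]
  | succ t ih =>
    rw [pow_succ, Matrix.mul_apply, ← pow_succ, pow_succ', Matrix.mul_apply, mul_sum, mul_sum,
      ← C.sum_rv (fun c => C.pi b * (lz C (C.rv b) c * (lz C ^ t) c (C.rv a)))]
    refine sum_congr rfl fun c _ => ?_
    rw [← mul_assoc, ih c, ← mul_assoc, ← lz_rev_one C c b]
    ring

theorem lz_comm (C : Chain S V) (t : ℕ) : C.P * lz C ^ t = lz C ^ t * C.P := by
  have h : Commute C.P (lz C) := by
    rw [lz_eq]
    exact ((Commute.one_right C.P).add_right (Commute.refl C.P)).smul_right _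
  exact (h.pow_right t).eq

/-- densities: after a real step -/
theorem Plz_le (C : Chain S V) {B : ℚ} (hB : ∀ x y, C.P x y ≤ B * C.pi y) (t : ℕ) (x y : S) :
    (C.P * lz C ^ t) x y ≤ B * C.pi y := by
  rw [lz_comm, Matrix.mul_apply]
  calc ∑ z, (lz C ^ t) x z * C.P z y ≤ ∑ z, (lz C ^ t) x z * (B * C.pi y) :=
        sum_le_sum fun z _ => mul_le_mul_of_nonneg_left (hB z y) (lzpow_nonneg C t x z)
    _ = B * C.pi y := by rw [← sum_mul, lzpow_row, one_mul]

/-- densities: between different darts -/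
theorem lzpow_le (C : Chain S V) {B : ℚ} (hB : ∀ x y, C.P x y ≤ B * C.pi y) (t : ℕ) {x y : S}
    (h : x ≠ y) : (lz C ^ t) x y ≤ B * C.pi y := by
  induction t with
  | zero =>
    rw [pow_zero, Matrix.one_apply, if_neg h]
    exact le_trans (C.P_nonneg x y) (hB x y)
  | succ t ih =>
    rw [lzpow_succ, ← lz_comm]
    have h2 := Plz_le C hB t x y
    linarith

/-- the part which never moved -/
theorem lzpow_self (C : Chain S V) (t : ℕ) (x y : S) :
    (if x = y then (1 / 2 : ℚ) ^ t else 0) ≤ (lz C ^ t) x y := by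
  induction t with
  | zero =>
    rw [pow_zero, pow_zero, Matrix.one_apply]
  | succ t ih =>
    rw [lzpow_succ]
    have h2 : 0 ≤ (lz C ^ t * C.P) x y := by
      rw [Matrix.mul_apply]
      exact sum_nonneg fun z _ => mul_nonneg (lzpow_nonneg C t x z) (C.P_nonneg z y)
    have h3 : (if x = y then (1 / 2 : ℚ) ^ (t + 1) else 0) =
        (if x = y then (1 / 2 : ℚ) ^ t else 0) / 2 := by
      split_ifs
      · rw [pow_succ]
        ring
      · norm_num
    rw [h3]
    linarith

end Pool.Agent.Lib.MP_95bb8c_al.PX
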