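import Mathlib

set_option autoImplicit false

/-!
# Expanding Whitehead graphs: the number of lazy steps
-/

namespace Pool.Agent.Lib.MP_95bb8c_al.PX

/-- The choice of the number of lazy steps. -/
theorem px_num {n D M : ℕ} (hn : 1 < n) (c : ℚ) (hc0 : 0 < c) (hc1 : c ≤ 1)
    (h : 10 ^ 20 * Real.log (n / c) ^ 3 * M ≤ (c : ℝ) ^ 11 * D) :
    ∃ T : ℕ, 200000 * (T + 2 : ℚ) ^ 3 * (256 * n / c * (1 - c ^ 3 / 640) ^ T) ≤ c ∧
      200000 * (T + 2 : ℚ) ^ 3 * M ≤ c ^ 2 * D := by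
  set t : ℝ := (c : ℝ) with ht
  have ht0 : 0 < t := by rw [ht]; exact_mod_cast hc0
  have ht1 : t ≤ 1 := by rw [ht]; exact_mod_cast hc1
  have hn2 : (2 : ℝ) ≤ n := by exact_mod_cast hn
  set x : ℝ := n / t with hx
  have hxt : x * t = n := by rw [hx]; field_simp
  have hx2 : 2 ≤ x := by
    rw [hx, le_div_iff₀ ht0]
    nlinarith
  have hx0 : 0 < x := by linarith
  set L : ℝ := Real.log x with hL
  have hL2 : 0.6931471803 < L := by
    have h1 := Real.log_two_gt_d9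
    have h2 : Real.log 2 ≤ L := Real.log_le_log two_pos hx2
    linarith
  have hLx : L ≤ x := by
    have := Real.log_le_sub_one_of_pos hx0
    linarith
  have hL0 : 0 < L := by linarith
  have ht3 : 0 < t ^ 3 := by positivity
  have ht31 : t ^ 3 ≤ 1 := pow_le_one₀ ht0.le ht1
  -- the number of steps
  set T : ℕ := ⌈64000 * L / t ^ 3⌉₊ with hT
  have hT1 : 64000 * L / t ^ 3 ≤ T := Nat.le_ceil _
  have hT2 : (T : ℝ) < 64000 * L / t ^ 3 + 1 := Nat.ceil_lt_add_one (by positivity)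
  have hT3 : (T : ℝ) * t ^ 3 ≤ 64000 * L + t ^ 3 := by
    have h1 : (T : ℝ) * t ^ 3 ≤ (64000 * L / t ^ 3 + 1) * t ^ 3 :=
      mul_le_mul_of_nonneg_right hT2.le ht3.le
    have h2 : (64000 * L / t ^ 3 + 1) * t ^ 3 = 64000 * L + t ^ 3 := by field_simp
    linarith
  have hT4 : ((T : ℝ) + 2) * t ^ 3 ≤ 64005 * L := by nlinarith
  have hcube : (((T : ℝ) + 2) * t ^ 3) ^ 3 ≤ (64005 * L) ^ 3 :=
    pow_le_pow_left₀ (by positivity) hT4 3
  refine ⟨T, ?_, ?_⟩
  · -- the geometric factor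
    have h1 : (1 - t ^ 3 / 640) ^ T ≤ (x ^ 100)⁻¹ := by
      have h2 : 1 - t ^ 3 / 640 ≤ Real.exp (-(t ^ 3 / 640)) := by
        have := Real.add_one_le_exp (-(t ^ 3 / 640))
        linarith
      have h3 : (1 - t ^ 3 / 640) ^ T ≤ Real.exp (-(t ^ 3 / 640)) ^ T :=
        pow_le_pow_left₀ (by linarith) h2 T
      have h4 : Real.exp (-(t ^ 3 / 640)) ^ T = Real.exp (-(t ^ 3 * T / 640)) := by
        rw [← Real.exp_nat_mul]
        congr 1
        ring
      have h5 : Real.exp (-(t ^ 3 * T / 640)) ≤ Real.exp (-(100 * L)) := by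
        rw [Real.exp_le_exp]
        have h6 : 64000 * L / t ^ 3 * t ^ 3 ≤ T * t ^ 3 := mul_le_mul_of_nonneg_right hT1 ht3.le
        have h7 : 64000 * L / t ^ 3 * t ^ 3 = 64000 * L := by field_simp
        linarith
      have h6 : Real.exp (-(100 * L)) = (x ^ 100)⁻¹ := by
        rw [Real.exp_neg, inv_inj]
        have h7 : (100 : ℝ) * L = ((100 : ℕ) : ℝ) * L := by norm_num
        rw [h7, Real.exp_nat_mul, hL, Real.exp_log hx0]
      linarith [h3, h4.le, h5, h6.le]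
    have hreal : 200000 * ((T : ℝ) + 2) ^ 3 * (256 * n / t * (1 - t ^ 3 / 640) ^ T) ≤ t := by
      have h2 : 200000 * ((T : ℝ) + 2) ^ 3 * (256 * n / t * (1 - t ^ 3 / 640) ^ T) ≤
          200000 * ((T : ℝ) + 2) ^ 3 * (256 * n / t * (x ^ 100)⁻¹) :=
        mul_le_mul_of_nonneg_left (mul_le_mul_of_nonneg_left h1 (by positivity)) (by positivity)
      refine h2.trans ?_
      have h3 : 200000 * ((T : ℝ) + 2) ^ 3 * (256 * n / t * (x ^ 100)⁻¹) =
          51200000 * ((T : ℝ) + 2) ^ 3 * x / x ^ 100 := by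
        rw [hx]
        ring
      rw [h3, div_le_iff₀ (by positivity)]
      -- multiply by `t ^ 9`
      have h4 : 51200000 * ((T : ℝ) + 2) ^ 3 * x * t ^ 9 ≤ t * x ^ 100 * t ^ 9 := by
        have h5 : 51200000 * ((T : ℝ) + 2) ^ 3 * x * t ^ 9 =
            51200000 * ((((T : ℝ) + 2) * t ^ 3) ^ 3) * x := by ring
        have h6 : 51200000 * ((((T : ℝ) + 2) * t ^ 3) ^ 3) * x ≤
            51200000 * (64005 * x) ^ 3 * x := by
          have h7 : (64005 * L) ^ 3 ≤ (64005 * x) ^ 3 :=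
            pow_le_pow_left₀ (by positivity) (by linarith) 3
          have h8 := hcube.trans h7
          nlinarith
        have h7 : t * x ^ 100 * t ^ 9 = (x * t) ^ 10 * (x ^ 4 * x ^ 86) := by ring
        have h8 : (2 : ℝ) ^ 10 ≤ (x * t) ^ 10 := by
          rw [hxt]
          exact pow_le_pow_left₀ (by norm_num) hn2 10
        have h9 : (2 : ℝ) ^ 86 ≤ x ^ 86 := pow_le_pow_left₀ (by norm_num) hx2 86
        have h10 : 51200000 * (64005 : ℝ) ^ 3 ≤ 2 ^ 10 * 2 ^ 86 := by norm_num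
        have h11 : (2 : ℝ) ^ 10 * 2 ^ 86 ≤ (x * t) ^ 10 * x ^ 86 :=
          mul_le_mul h8 h9 (by positivity) (by positivity)
        have h12 : 51200000 * (64005 * x) ^ 3 * x = 51200000 * (64005 : ℝ) ^ 3 * x ^ 4 := by ring
        have h13 : 51200000 * (64005 : ℝ) ^ 3 * x ^ 4 ≤ ((x * t) ^ 10 * x ^ 86) * x ^ 4 :=
          mul_le_mul_of_nonneg_right (h10.trans h11) (by positivity)
        rw [h5, h7]
        refine h6.trans ?_
        rw [h12]
        refine h13.trans (le_of_eq ?_)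
        ring
      exact le_of_mul_le_mul_right h4 (by positivity)
    have h2 : ((200000 * (T + 2 : ℚ) ^ 3 * (256 * n / c * (1 - c ^ 3 / 640) ^ T) : ℚ) : ℝ) ≤
        (c : ℝ) := by
      push_cast
      exact hreal
    exact_mod_cast h2
  · have hreal : 200000 * ((T : ℝ) + 2) ^ 3 * M ≤ t ^ 2 * D := by
      have h2 : 200000 * ((T : ℝ) + 2) ^ 3 * M * t ^ 9 ≤ t ^ 2 * D * t ^ 9 := by
        have h3 : 200000 * ((T : ℝ) + 2) ^ 3 * M * t ^ 9 =
            200000 * M * (((T : ℝ) + 2) * t ^ 3) ^ 3 := by ring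
        have h4 : 200000 * (M : ℝ) * (((T : ℝ) + 2) * t ^ 3) ^ 3 ≤
            200000 * M * (64005 * L) ^ 3 :=
          mul_le_mul_of_nonneg_left hcube (by positivity)
        have h5 : 200000 * (M : ℝ) * (64005 * L) ^ 3 ≤ 10 ^ 20 * L ^ 3 * M := by
          have h6 : 0 ≤ (M : ℝ) * L ^ 3 := by positivity
          nlinarith
        have h7 : t ^ 2 * D * t ^ 9 = t ^ 11 * D := by ring
        rw [h3, h7]
        exact h4.trans (h5.trans h)
      exact le_of_mul_le_mul_right h2 (by positivity)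
    have h2 : (((200000 * (T + 2 : ℚ) ^ 3 * M : ℚ)) : ℝ) ≤ ((c ^ 2 * D : ℚ) : ℝ) := by
      push_cast
      exact hreal
    exact_mod_cast h2

end Pool.Agent.Lib.MP_95bb8c_al.PX
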