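import Pool.Agent.Lib.MP_95bb8c_al.PX.Final
import Pool.Agent.Lib.MP_95bb8c_al.PX.LogNum

set_option autoImplicit false
set_option linter.unusedSectionVars false

/-!
# Expanding Whitehead graphs: the logarithmic form

The expansion is a real number and `D` only an upper bound for the numbers of occurrences.
-/

namespace Pool.Agent.Lib.MP_95bb8c_al.PX

open Finset PS

variable {n : ℕ}

/-- The tiling conjecture for lists with an expanding Whitehead graph of large degree. -/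
theorem expand_log (hn : 1 < n) {U : List (List (Letter n))} (hU : CycRed U) (hne : U ≠ [])
    (D M : ℕ) (hD : ∀ a, occ U a ≤ D) (hM : ∀ u v : Letter n, u ≠ v → GW.mult U u v ≤ M)
    (c : ℝ) (hc : 0 < c)
    (hexp : ∀ T : Finset (Letter n), T.card ≤ n →
      c * D * T.card ≤ ((cut (src U) (tgt U) T).card : ℝ))
    (h : 10 ^ 20 * Real.log (n / c) ^ 3 * M ≤ c ^ 11 * D) :
    GW.Polygonal U := by
  classical
  -- a position
  obtain ⟨p₀⟩ : Nonempty (Pos U) := by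
    have h3 : 0 < U.length := List.length_pos_of_ne_nil hne
    have h4 : 0 < (U.get ⟨0, h3⟩).length :=
      List.length_pos_of_ne_nil (hU.1 _ (List.get_mem _ _))
    exact ⟨⟨⟨0, h3⟩, ⟨0, h4⟩⟩⟩
  -- the largest number of occurrences
  obtain ⟨a₁, -, ha₁⟩ := Finset.exists_max_image (univ : Finset (Fin n)) (fun a => occ U a)
    ⟨p₀.letter.1, Finset.mem_univ _⟩
  obtain ⟨D₀, hD₀⟩ : ∃ D₀ : ℕ, D₀ = occ U a₁ := ⟨_, rfl⟩
  have hmax : ∀ a, occ U a ≤ D₀ := by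
    intro a
    rw [hD₀]
    exact ha₁ a (Finset.mem_univ _)
  have hD₀1 : 1 ≤ D₀ := by
    refine le_trans ?_ (hmax p₀.letter.1)
    rw [occ_eq]
    exact Finset.card_pos.2 ⟨p₀, by rw [Finset.mem_filter]; exact ⟨Finset.mem_univ _, rfl⟩⟩
  have hD₀D : D₀ ≤ D := by rw [hD₀]; exact hD a₁
  have hD₀q : (1 : ℝ) ≤ D₀ := by exact_mod_cast hD₀1
  have hD₀0 : (0 : ℝ) < D₀ := by linarith
  have hD₀Q : (0 : ℚ) < D₀ := by exact_mod_cast hD₀1
  have hD₀Dq : (D₀ : ℝ) ≤ D := by exact_mod_cast hD₀D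
  -- the expansion
  obtain ⟨v₀, hv₀⟩ : ∃ v₀ : Letter n, v₀ = p₀.letter := ⟨_, rfl⟩
  obtain ⟨𝒯, h𝒯⟩ : ∃ 𝒯 : Finset (Finset (Letter n)),
      𝒯 = univ.filter fun T : Finset (Letter n) => T.card ≤ n ∧ T ≠ ∅ := ⟨_, rfl⟩
  have hmem : ∀ T, T ∈ 𝒯 ↔ T.card ≤ n ∧ T ≠ ∅ := by
    intro T
    rw [h𝒯, Finset.mem_filter]
    exact ⟨fun h => h.2, fun h => ⟨Finset.mem_univ _, h⟩⟩
  have hv₀m : ({v₀} : Finset (Letter n)) ∈ 𝒯 := by
    rw [hmem, Finset.card_singleton]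
    exact ⟨hn.le, Finset.singleton_ne_empty _⟩
  obtain ⟨T₀, hT₀, hmin⟩ := Finset.exists_min_image 𝒯
    (fun T => ((cut (src U) (tgt U) T).card : ℚ) / (D₀ * T.card)) ⟨_, hv₀m⟩
  obtain ⟨c₀, hc₀⟩ : ∃ c₀ : ℚ, c₀ = ((cut (src U) (tgt U) T₀).card : ℚ) / (D₀ * T₀.card) :=
    ⟨_, rfl⟩
  rw [hmem] at hT₀
  have hcard : ∀ T : Finset (Letter n), T ≠ ∅ → (0 : ℚ) < T.card := by
    intro T hT
    exact_mod_cast Finset.card_pos.2 (Finset.nonempty_iff_ne_empty.2 hT)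
  have hexp₀ : Expands U D₀ c₀ := by
    intro T hT
    by_cases hT0 : T = ∅
    · subst hT0
      simp
    · have h1 := hmin T ((hmem T).2 ⟨hT, hT0⟩)
      rw [← hc₀, le_div_iff₀ (mul_pos hD₀Q (hcard T hT0))] at h1
      linarith
  have hc₀le : c₀ ≤ 1 := by
    have h1 := hmin _ hv₀m
    rw [← hc₀] at h1
    refine h1.trans ?_
    rw [Finset.card_singleton, Nat.cast_one, mul_one, div_le_one hD₀Q]
    have h2 : (cut (src U) (tgt U) {v₀}).card = occ U v₀.1 := dg_eq hU v₀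
    rw [h2]
    exact_mod_cast hmax v₀.1
  -- comparison of the parameters
  have hq1 : (1 : ℝ) ≤ D / D₀ := (one_le_div hD₀0).2 hD₀Dq
  have hcc : c * (D / D₀) ≤ (c₀ : ℝ) := by
    have h1 := hexp T₀ hT₀.1
    have h2 : (0 : ℝ) < T₀.card := by exact_mod_cast hcard T₀ hT₀.2
    have h3 : (c₀ : ℝ) = ((cut (src U) (tgt U) T₀).card : ℝ) / (D₀ * T₀.card) := by
      rw [hc₀]
      push_cast
      rfl
    rw [h3, le_div_iff₀ (mul_pos hD₀0 h2)]
    have h4 : c * ((D : ℝ) / D₀) * (D₀ * T₀.card) = c * D * T₀.card := by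
      field_simp
    rw [h4]
    exact h1
  have hcle : c ≤ (c₀ : ℝ) := by
    refine le_trans ?_ hcc
    nlinarith
  have hc₀pos : (0 : ℝ) < c₀ := lt_of_lt_of_le hc hcle
  have hc₀pos' : 0 < c₀ := by exact_mod_cast hc₀pos
  have hc₀leR : (c₀ : ℝ) ≤ 1 := by exact_mod_cast hc₀le
  have hn1 : (1 : ℝ) ≤ n := by exact_mod_cast hn.le
  have hlog0 : 0 ≤ Real.log (n / c₀) := by
    apply Real.log_nonneg
    rw [le_div_iff₀ hc₀pos]
    linarith
  have hlogle : Real.log (n / c₀) ≤ Real.log (n / c) := by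
    apply Real.log_le_log (by positivity)
    exact div_le_div_of_nonneg_left (by linarith) hc hcle
  have hlast : 10 ^ 20 * Real.log (n / c₀) ^ 3 * M ≤ (c₀ : ℝ) ^ 11 * D₀ := by
    have h1 : 10 ^ 20 * Real.log (n / c₀) ^ 3 * M ≤ 10 ^ 20 * Real.log (n / c) ^ 3 * M := by
      apply mul_le_mul_of_nonneg_right _ (Nat.cast_nonneg _)
      apply mul_le_mul_of_nonneg_left _ (by norm_num)
      exact pow_le_pow_left₀ hlog0 hlogle 3
    have h2 : c ^ 11 * D ≤ (c₀ : ℝ) ^ 11 * D₀ := by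
      have h3 : (c * (D / D₀)) ^ 11 ≤ (c₀ : ℝ) ^ 11 := pow_le_pow_left₀ (by positivity) hcc 11
      have h4 : (c * ((D : ℝ) / D₀)) ^ 11 * D₀ ≤ (c₀ : ℝ) ^ 11 * D₀ :=
        mul_le_mul_of_nonneg_right h3 hD₀0.le
      refine le_trans ?_ h4
      have h5 : (c * ((D : ℝ) / D₀)) ^ 11 * D₀ = c ^ 11 * (((D : ℝ) / D₀) ^ 10 * D) := by
        field_simp
      rw [h5]
      apply mul_le_mul_of_nonneg_left _ (by positivity)
      have h6 : (1 : ℝ) ≤ ((D : ℝ) / D₀) ^ 10 := one_le_pow₀ hq1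
      nlinarith
    linarith
  obtain ⟨T, h1, h2⟩ := px_num hn c₀ hc₀pos' hc₀le hlast
  exact expand hn hU hne D₀ M hmax ⟨a₁, hD₀.symm⟩ hM c₀ hc₀pos' hexp₀ T h1 h2

end Pool.Agent.Lib.MP_95bb8c_al.PX
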