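import Pool.Agent.Lib.MP_95bb8c_al.PX.UDefs
import Pool.Agent.Lib.MP_95bb8c_al.PS.Bounds
import Pool.Agent.Lib.MP_95bb8c_al.GW.Kappa

set_option autoImplicit false
set_option linter.unusedSectionVars false

/-!
# Nearly uniform weights: overlap, step and one-step bounds
-/

namespace Pool.Agent.Lib.MP_95bb8c_al.PX

open Finset Matrix PS

variable {V E : Type} [Fintype V] [DecidableEq V] [Fintype E] [DecidableEq E]

theorem u4_hd_mem {s t : E → V} (hl : ∀ e, s e ≠ t e) (a : E × Bool) :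
    a.1 ∈ cut s t {GW.hd s t a} := by
  rw [p10_mem_cut_single hl]
  obtain ⟨e, b⟩ := a
  cases b
  · left; rfl
  · right; rfl

theorem u4_dg_pos {s t : E → V} (hl : ∀ e, s e ≠ t e) (a : E × Bool) :
    (0 : ℚ) < dg s t (GW.hd s t a) := by
  have h1 : 0 < (cut s t {GW.hd s t a}).card := card_pos.2 ⟨a.1, u4_hd_mem hl a⟩
  have h2 : 0 < dg s t (GW.hd s t a) := h1
  exact_mod_cast h2

theorem u4_Q_le {s t : E → V} (hl : ∀ e, s e ≠ t e) (lam : ℚ) (hlam : 0 < lam)
    (κ : V → E → E → ℚ) (μ : ℚ) (hun : Unif s t lam κ μ)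
    (C : Chain (E × Bool) V)
    (hQ : ∀ a b, C.Q a b = if GW.hd s t a = GW.tl s t b ∧ GW.tl s t a ≠ GW.hd s t b then
      lam + κ (GW.hd s t a) a.1 b.1 else 0) (a b : E × Bool) :
    C.Q a b ≤ 11 / 10 / dg s t (GW.hd s t a) := by
  have hd := u4_dg_pos hl a
  rw [le_div_iff₀ hd, hQ]
  split_ifs
  · exact hun.up _ _ _
  · rw [zero_mul]
    norm_num

theorem over_unif {s t : E → V} (hl : ∀ e, s e ≠ t e) (lam : ℚ) (hlam : 0 < lam)
    (κ : V → E → E → ℚ) (μ : ℚ) (hun : Unif s t lam κ μ)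
    (C : Chain (E × Bool) V) (hrv : C.rv = GW.rvd) (htl : C.tl = GW.tl s t)
    (hQ : ∀ a b, C.Q a b = if GW.hd s t a = GW.tl s t b ∧ GW.tl s t a ≠ GW.hd s t b then
      lam + κ (GW.hd s t a) a.1 b.1 else 0) (hs1 : ∀ a, C.s a ≤ 1) :
    C.Over (1 / 2) := by
  intro a b hab
  rw [htl, hrv, p10_tl_rvd, p10_tl_rvd] at hab
  set v := GW.hd s t a with hv
  have hd : (0 : ℚ) < dg s t v := u4_dg_pos hl a
  let F : E → Finset E := fun e => (cut s t {v}).filter fun f =>
    9 / 10 ≤ (lam + κ v e f) * dg s t v ∧ ∀ u, ¬ (e ∈ GW.J s t u v ∧ f ∈ GW.J s t u v)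
  have hFa : (1 - 2 * μ) * dg s t v ≤ ((F a.1).card : ℚ) := hun.low v a.1 (u4_hd_mem hl a)
  have hFb : (1 - 2 * μ) * dg s t v ≤ ((F b.1).card : ℚ) := by
    have h1 := u4_hd_mem hl b
    rw [← hab] at h1
    exact hun.low v b.1 h1
  have hFsub : ∀ e, F e ⊆ cut s t {v} := fun e => filter_subset _ _
  have hint : (1 - 4 * μ) * dg s t v ≤ (((F a.1) ∩ (F b.1)).card : ℚ) := by
    have h1 : ((F a.1) ∩ (F b.1)).card + ((F a.1) ∪ (F b.1)).card =
        (F a.1).card + (F b.1).card := by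
      rw [add_comm]
      exact card_union_add_card_inter _ _
    have h2 : ((F a.1) ∪ (F b.1)).card ≤ dg s t v :=
      card_le_card (union_subset (hFsub _) (hFsub _))
    have h3 : (((F a.1) ∩ (F b.1)).card : ℚ) + (((F a.1) ∪ (F b.1)).card : ℚ) =
        ((F a.1).card : ℚ) + ((F b.1).card : ℚ) := by exact_mod_cast h1
    have h4 : ((((F a.1) ∪ (F b.1)).card : ℕ) : ℚ) ≤ dg s t v := by exact_mod_cast h2
    linarith
  have hmin : ∀ e ∈ (F a.1) ∩ (F b.1), 9 / 10 / (dg s t v : ℚ) ≤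
      min (C.P a (GW.outD s v e)) (C.P b (GW.outD s v e)) := by
    intro e he
    rw [mem_inter] at he
    have key : ∀ c : E × Bool, GW.hd s t c = v → e ∈ F c.1 →
        9 / 10 / (dg s t v : ℚ) ≤ C.P c (GW.outD s v e) := by
      intro c hc hF
      have hF' := (mem_filter.1 hF)
      have hcut := hF'.1
      have htl' := p10_tl_outD hl hcut
      have hne : GW.tl s t c ≠ GW.hd s t (GW.outD s v e) := by
        intro h
        have h1 : GW.tl s t c ≠ v := by
          rw [← hc]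
          exact p10_tl_ne_hd hl c
        refine hF'.2.2 (GW.tl s t c) ⟨p10_mem_J_of_dart h1 rfl hc, ?_⟩
        rw [GW.J_comm]
        exact p10_mem_J_of_dart h1.symm htl' h.symm
      have h2 : C.Q c (GW.outD s v e) = lam + κ (GW.hd s t c) c.1 (GW.outD s v e).1 := by
        rw [hQ, if_pos ⟨hc.trans htl'.symm, hne⟩]
      have h3 : 9 / 10 / (dg s t v : ℚ) ≤ C.Q c (GW.outD s v e) := by
        rw [h2, hc, div_le_iff₀ hd]
        exact hF'.2.1
      calc 9 / 10 / (dg s t v : ℚ) ≤ C.Q c (GW.outD s v e) := h3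
        _ ≤ C.Q c (GW.outD s v e) / C.s c := by
          rw [le_div_iff₀ (C.s_pos c)]
          exact mul_le_of_le_one_right (C.Q_nonneg _ _) (hs1 c)
    exact le_min (key a hv.symm he.1) (key b hab.symm he.2)
  have hμ := hun.mu_le
  calc (1 : ℚ) / 2 ≤ ((1 - 4 * μ) * dg s t v) * (9 / 10 / dg s t v) := by
        have h5 : ((1 - 4 * μ) * dg s t v) * (9 / 10 / dg s t v) = (1 - 4 * μ) * (9 / 10) := by
          field_simp
        rw [h5]
        linarith
    _ ≤ (((F a.1) ∩ (F b.1)).card : ℚ) * (9 / 10 / dg s t v) :=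
        mul_le_mul_of_nonneg_right hint (by positivity)
    _ = ∑ _e ∈ (F a.1) ∩ (F b.1), 9 / 10 / (dg s t v : ℚ) := by
        rw [sum_const, nsmul_eq_mul]
    _ ≤ ∑ e ∈ (F a.1) ∩ (F b.1), min (C.P a (GW.outD s v e)) (C.P b (GW.outD s v e)) :=
        sum_le_sum hmin
    _ = ∑ x ∈ ((F a.1) ∩ (F b.1)).image (GW.outD s v), min (C.P a x) (C.P b x) := by
        rw [sum_image]
        intro x _ y _ h
        exact p10_outD_injective s v h
    _ ≤ ∑ x, min (C.P a x) (C.P b x) :=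
      sum_le_sum_of_subset_of_nonneg (subset_univ _)
        fun x _ _ => le_min (C.P_nonneg a x) (C.P_nonneg b x)

theorem step_unif {s t : E → V} (hl : ∀ e, s e ≠ t e) (lam : ℚ) (hlam : 0 < lam)
    (κ : V → E → E → ℚ) (μ : ℚ) (hun : Unif s t lam κ μ)
    (C : Chain (E × Bool) V) (hrv : C.rv = GW.rvd) (htl : C.tl = GW.tl s t)
    (hQ : ∀ a b, C.Q a b = if GW.hd s t a = GW.tl s t b ∧ GW.tl s t a ≠ GW.hd s t b then
      lam + κ (GW.hd s t a) a.1 b.1 else 0) (hs : ∀ a, 1 / 2 ≤ C.s a) :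
    C.Step (3 * μ) := by
  intro x v
  set w := GW.hd s t x with hw
  have hd : (0 : ℚ) < dg s t w := u4_dg_pos hl x
  have hB : (0 : ℚ) ≤ 11 / 5 / dg s t w := by positivity
  have h1 : ∀ b, (if C.tl (C.rv b) = v then C.P x b else 0) ≤
      if GW.tl s t b = w ∧ GW.hd s t b = v then 11 / 5 / (dg s t w : ℚ) else 0 := by
    intro b
    rw [htl, hrv, p10_tl_rvd]
    by_cases hb : GW.hd s t b = v
    · rw [if_pos hb]
      by_cases hc : GW.tl s t b = w
      · rw [if_pos ⟨hc, hb⟩]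
        refine (p10_P_le_two hs x b).trans ?_
        have h2 := u4_Q_le hl lam hlam κ μ hun C hQ x b
        rw [← hw] at h2
        calc 2 * C.Q x b ≤ 2 * (11 / 10 / dg s t w) := by linarith
          _ = 11 / 5 / dg s t w := by ring
      · rw [if_neg fun h => hc h.1]
        have h2 : C.Q x b = 0 := by
          rw [hQ, if_neg fun h => hc h.1.symm]
        change C.Q x b / C.s x ≤ 0
        rw [h2, zero_div]
    · rw [if_neg hb, if_neg fun h => hb h.2]
  calc ∑ b, (if C.tl (C.rv b) = v then C.P x b else 0)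
      ≤ ∑ b, (if GW.tl s t b = w ∧ GW.hd s t b = v then 11 / 5 / (dg s t w : ℚ) else 0) :=
        sum_le_sum fun b _ => h1 b
    _ = ((univ.filter fun b : E × Bool => GW.tl s t b = w ∧
          GW.hd s t b = v).card : ℚ) * (11 / 5 / (dg s t w : ℚ)) := by
        rw [← sum_filter, sum_const, nsmul_eq_mul]
    _ ≤ (μ * dg s t w) * (11 / 5 / (dg s t w : ℚ)) := by
        refine mul_le_mul_of_nonneg_right ?_ hB
        have h3 : (((univ.filter fun b : E × Bool => GW.tl s t b = w ∧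
            GW.hd s t b = v).card : ℕ) : ℚ) ≤ ((GW.J s t w v).card : ℚ) := by
          exact_mod_cast p10_card_darts_le hl w v
        refine h3.trans ?_
        by_cases hvw : v = w
        · have h4 : GW.J s t w v = ∅ := by
            rw [Finset.eq_empty_iff_forall_notMem]
            intro e he
            unfold GW.J at he
            rw [Finset.mem_filter] at he
            exact he.2.1 hvw.symm
          rw [h4, card_empty, Nat.cast_zero]
          exact mul_nonneg hun.mu_nonneg hd.le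
        · rw [GW.J_comm]
          exact hun.mult v w hvw
    _ = 11 / 5 * μ := by field_simp
    _ ≤ 3 * μ := by linarith [hun.mu_nonneg]

theorem top_unif {s t : E → V} (hl : ∀ e, s e ≠ t e) (lam : ℚ) (hlam : 0 < lam)
    (κ : V → E → E → ℚ) (μ : ℚ) (hun : Unif s t lam κ μ)
    (C : Chain (E × Bool) V) (_hrv : C.rv = GW.rvd) (_htl : C.tl = GW.tl s t)
    (hQ : ∀ a b, C.Q a b = if GW.hd s t a = GW.tl s t b ∧ GW.tl s t a ≠ GW.hd s t b then
      lam + κ (GW.hd s t a) a.1 b.1 else 0) (hs : ∀ a, 1 / 2 ≤ C.s a) (hs1 : ∀ a, C.s a ≤ 1)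
    (B : ℚ) (hB : ∀ v, 0 < dg s t v → 10 * (Fintype.card E : ℚ) ≤ B * dg s t v)
    (x y : E × Bool) :
    C.P x y ≤ B * C.pi y := by
  have hd : (0 : ℚ) < dg s t (GW.hd s t x) := u4_dg_pos hl x
  have hd' : 0 < dg s t (GW.hd s t x) := by exact_mod_cast hd
  have hBd := hB _ hd'
  have hE : (0 : ℚ) < Fintype.card E := by
    have : 0 < Fintype.card E := Fintype.card_pos_iff.2 ⟨x.1⟩
    exact_mod_cast this
  have hB0 : 0 < B := by
    by_contra h
    have h1 : B * dg s t (GW.hd s t x) ≤ 0 :=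
      mul_nonpos_of_nonpos_of_nonneg (not_lt.1 h) hd.le
    linarith
  have h1 := u4_Q_le hl lam hlam κ μ hun C hQ x y
  have hZ0 : 0 < C.Z := C.Z_pos x
  have hZ : C.Z ≤ 2 * Fintype.card E := by
    calc C.Z ≤ ∑ _c : E × Bool, (1 : ℚ) := sum_le_sum fun c _ => hs1 c
      _ = 2 * Fintype.card E := by
        rw [sum_const, card_univ, Fintype.card_prod, Fintype.card_bool, nsmul_eq_mul, mul_one]
        push_cast
        ring
  have h2 : 1 / 2 / C.Z ≤ C.pi y := by
    change _ ≤ C.s y / C.Z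
    exact div_le_div_of_nonneg_right (hs y) hZ0.le
  have h3 : (1 : ℚ) / (4 * Fintype.card E) ≤ C.pi y := by
    refine le_trans ?_ h2
    rw [div_le_div_iff₀ (by positivity) hZ0]
    linarith
  calc C.P x y ≤ 2 * C.Q x y := p10_P_le_two hs x y
    _ ≤ 2 * (11 / 10 / dg s t (GW.hd s t x)) := by linarith
    _ ≤ B * (1 / (4 * Fintype.card E)) := by
        rw [mul_one_div, le_div_iff₀ (by positivity)]
        have h4 : 2 * (11 / 10 / (dg s t (GW.hd s t x) : ℚ)) * (4 * Fintype.card E) =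
            (44 / 5 * Fintype.card E) / dg s t (GW.hd s t x) := by
          field_simp
          ring
        rw [h4, div_le_iff₀ hd]
        linarith
    _ ≤ B * C.pi y := mul_le_mul_of_nonneg_left h3 hB0.le

end Pool.Agent.Lib.MP_95bb8c_al.PX
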