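import Pool.Agent.Lib.MP_95bb8c_al.PX.UDefs
import Pool.Agent.Lib.MP_95bb8c_al.PX.Forms
import Pool.Agent.Lib.MP_95bb8c_al.PX.Contract
import Pool.Agent.Lib.MP_95bb8c_al.PS.Bounds
import Pool.Agent.Lib.MP_95bb8c_al.PX.CheegerVol

set_option autoImplicit false
set_option linter.unusedSectionVars false

/-!
# The lazy chain of a graph with large conductance contracts the functions of mean zero
-/

namespace Pool.Agent.Lib.MP_95bb8c_al.PX

open Finset Matrix PS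

variable {V E : Type} [Fintype V] [DecidableEq V] [Fintype E] [DecidableEq E]

/-- the dart of an edge which arrives -/
theorem u5_hd_inD {s t : E → V} (hl : ∀ e, s e ≠ t e) {v : V} {f : E} (hf : f ∈ cut s t {v}) :
    GW.hd s t (GW.inD t v f) = v := by
  rw [p10_mem_cut_single hl] at hf
  unfold GW.inD GW.hd
  by_cases h : t f = v
  · simp [h]
  · simp only [h, decide_false, Bool.false_eq_true, if_false]
    exact hf.resolve_right h

theorem u5_inD_injective (t : E → V) (v : V) : Function.Injective (GW.inD t v) :=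
  fun _ _ h => congrArg Prod.fst h

/-- an edge of a dart joins its end points -/
theorem u5_mem_J {s t : E → V} (hl : ∀ e, s e ≠ t e) (a : E × Bool) :
    a.1 ∈ GW.J s t (GW.tl s t a) (GW.hd s t a) := by
  unfold GW.J
  rw [mem_filter]
  refine ⟨mem_univ _, p10_tl_ne_hd hl a, ?_⟩
  obtain ⟨e, b⟩ := a
  cases b
  · right
    simp [GW.tl, GW.hd]
  · left
    simp [GW.tl, GW.hd]

theorem u5_J_comm {s t : E → V} (u v : V) : GW.J s t u v = GW.J s t v u := by
  unfold GW.J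
  ext e
  simp only [mem_filter, mem_univ, true_and]
  constructor
  · rintro ⟨h1, h2⟩
    exact ⟨fun h => h1 h.symm, h2.symm⟩
  · rintro ⟨h1, h2⟩
    exact ⟨fun h => h1 h.symm, h2.symm⟩

theorem u5_mem_cut {s t : E → V} (hl : ∀ e, s e ≠ t e) (b : E × Bool) :
    b.1 ∈ cut s t {GW.tl s t b} := by
  rw [p10_mem_cut_single hl]
  obtain ⟨e, x⟩ := b
  cases x
  · right; simp [GW.tl]
  · left; simp [GW.tl]

/-- a large entry -/
theorem u5_Q {s t : E → V} (hl : ∀ e, s e ≠ t e) (lam : ℚ)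
    (κ : V → E → E → ℚ) (μ : ℚ) (hun : Unif s t lam κ μ)
    (C : Chain (E × Bool) V)
    (hQ : ∀ a b, C.Q a b = if GW.hd s t a = GW.tl s t b ∧ GW.tl s t a ≠ GW.hd s t b then
      lam + κ (GW.hd s t a) a.1 b.1 else 0) (b : E × Bool) (v : V) (hb : GW.tl s t b = v) (f : E)
    (hf : f ∈ cut s t {v}) (h1 : 9 / 10 ≤ (lam + κ v b.1 f) * dg s t v)
    (h2 : ∀ u, ¬ (b.1 ∈ GW.J s t u v ∧ f ∈ GW.J s t u v)) :
    9 / 10 ≤ C.Q (GW.inD t v f) b * dg s t v := by
  have h3 := u5_hd_inD hl hf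
  have h4 : GW.tl s t (GW.inD t v f) ≠ GW.hd s t b := by
    intro h5
    have h6 := u5_mem_J hl (GW.inD t v f)
    rw [h5, h3] at h6
    have h7 := u5_mem_J hl b
    rw [hb, u5_J_comm] at h7
    exact h2 _ ⟨h7, h6⟩
  rw [hQ, if_pos ⟨h3.trans hb.symm, h4⟩, h3]
  have h5 : (GW.inD t v f).1 = f := rfl
  rw [h5, hun.sym v f b.1]
  exact h1

/-- two darts with the same tail have many common predecessors -/
theorem u5_pair {s t : E → V} (hl : ∀ e, s e ≠ t e) (lam : ℚ)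
    (κ : V → E → E → ℚ) (μ : ℚ) (hun : Unif s t lam κ μ)
    (C : Chain (E × Bool) V)
    (hQ : ∀ a b, C.Q a b = if GW.hd s t a = GW.tl s t b ∧ GW.tl s t a ≠ GW.hd s t b then
      lam + κ (GW.hd s t a) a.1 b.1 else 0) (hs1 : ∀ a, C.s a ≤ 1) (b b' : E × Bool)
    (h : GW.tl s t b = GW.tl s t b') :
    4 / 5 ≤ dg s t (GW.tl s t b) * C.Z * ∑ a, C.pi a * (C.P a b * C.P a b') := by
  obtain ⟨v, hv⟩ : ∃ v, v = GW.tl s t b := ⟨_, rfl⟩
  have hv' : GW.tl s t b' = v := by rw [hv, h]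
  rw [← hv]
  have he := u5_mem_cut hl b
  have he' := u5_mem_cut hl b'
  rw [← hv] at he
  rw [hv'] at he'
  obtain ⟨d, hd⟩ : ∃ d : ℚ, d = dg s t v := ⟨_, rfl⟩
  have hd0 : 0 < d := by
    rw [hd]
    unfold dg
    exact_mod_cast card_pos.2 ⟨_, he⟩
  have hZ : 0 < C.Z := C.Z_pos b
  obtain ⟨G, hG⟩ : ∃ G : Finset E, G = (cut s t {v}).filter fun f =>
    9 / 10 ≤ (lam + κ v b.1 f) * dg s t v ∧
      ∀ u, ¬ (b.1 ∈ GW.J s t u v ∧ f ∈ GW.J s t u v) := ⟨_, rfl⟩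
  obtain ⟨G', hG'⟩ : ∃ G' : Finset E, G' = (cut s t {v}).filter fun f =>
    9 / 10 ≤ (lam + κ v b'.1 f) * dg s t v ∧
      ∀ u, ¬ (b'.1 ∈ GW.J s t u v ∧ f ∈ GW.J s t u v) := ⟨_, rfl⟩
  have h1 : (1 - 2 * μ) * d ≤ (G.card : ℚ) := by
    rw [hG, hd]
    exact hun.low v b.1 he
  have h2 : (1 - 2 * μ) * d ≤ (G'.card : ℚ) := by
    rw [hG', hd]
    exact hun.low v b'.1 he'
  have h3 : (G.card : ℚ) + G'.card ≤ (G ∩ G').card + d := by
    have h4 := card_union_add_card_inter G G'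
    have h5 : (G ∪ G').card ≤ (cut s t {v}).card := by
      apply card_le_card
      apply union_subset
      · rw [hG]; exact filter_subset _ _
      · rw [hG']; exact filter_subset _ _
    have h6 : G.card + G'.card ≤ (G ∩ G').card + (cut s t {v}).card := by omega
    rw [hd]
    unfold dg
    exact_mod_cast h6
  have hmu := hun.mu_le
  have hcard : (996 / 1000 : ℚ) * d ≤ ((G ∩ G').card : ℚ) := by nlinarith
  have hterm : ∀ f ∈ G ∩ G', 81 / 100 / (d ^ 2 * C.Z) ≤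
      C.pi (GW.inD t v f) * (C.P (GW.inD t v f) b * C.P (GW.inD t v f) b') := by
    intro f hf
    rw [mem_inter, hG, hG', mem_filter, mem_filter] at hf
    obtain ⟨⟨hf1, hf2, hf3⟩, -, hf4, hf5⟩ := hf
    have h5 := u5_Q hl lam κ μ hun C hQ b v hv.symm f hf1 hf2 hf3
    have h6 := u5_Q hl lam κ μ hun C hQ b' v hv' f hf1 hf4 hf5
    obtain ⟨a, ha⟩ : ∃ a, a = GW.inD t v f := ⟨_, rfl⟩
    rw [← ha] at h5 h6 ⊢
    rw [← hd] at h5 h6
    have h7 : C.Q a b' ≤ C.P a b' := by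
      unfold Chain.P
      rw [le_div_iff₀ (C.s_pos a)]
      exact mul_le_of_le_one_right (C.Q_nonneg _ _) (hs1 a)
    have h8 : C.Q a b / C.Z * C.Q a b' ≤ C.pi a * (C.P a b * C.P a b') := by
      rw [← mul_assoc, C.pi_mul_P a b]
      exact mul_le_mul_of_nonneg_left h7 (div_nonneg (C.Q_nonneg _ _) hZ.le)
    refine le_trans ?_ h8
    have h9 : (81 / 100 : ℚ) ≤ (C.Q a b * d) * (C.Q a b' * d) := by
      have := mul_le_mul h5 h6 (by norm_num) (le_trans (by norm_num) h5)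
      linarith
    rw [div_mul_eq_mul_div, div_le_div_iff₀ (by positivity) hZ]
    have h10 : C.Q a b * C.Q a b' * (d ^ 2 * C.Z) = (C.Q a b * d) * (C.Q a b' * d) * C.Z := by ring
    rw [h10]
    exact mul_le_mul_of_nonneg_right h9 hZ.le
  have hsum : ((G ∩ G').card : ℚ) * (81 / 100 / (d ^ 2 * C.Z)) ≤
      ∑ a, C.pi a * (C.P a b * C.P a b') := by
    calc ((G ∩ G').card : ℚ) * (81 / 100 / (d ^ 2 * C.Z))
        = ∑ _f ∈ G ∩ G', 81 / 100 / (d ^ 2 * C.Z) := by rw [sum_const, nsmul_eq_mul]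
      _ ≤ ∑ f ∈ G ∩ G', C.pi (GW.inD t v f) *
          (C.P (GW.inD t v f) b * C.P (GW.inD t v f) b') := sum_le_sum hterm
      _ = ∑ a ∈ (G ∩ G').image (GW.inD t v), C.pi a * (C.P a b * C.P a b') := by
          rw [sum_image]
          intro x _ y _ h
          exact u5_inD_injective t v h
      _ ≤ _ := sum_le_sum_of_subset_of_nonneg (subset_univ _) fun a _ _ =>
          mul_nonneg (C.pi_pos a).le (mul_nonneg (C.P_nonneg _ _) (C.P_nonneg _ _))
  rw [← hd]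
  calc (4 / 5 : ℚ) ≤ 996 / 1000 * (81 / 100) := by norm_num
    _ = d * C.Z * (996 / 1000 * d * (81 / 100 / (d ^ 2 * C.Z))) := by
        field_simp
    _ ≤ d * C.Z * (((G ∩ G').card : ℚ) * (81 / 100 / (d ^ 2 * C.Z))) := by
        refine mul_le_mul_of_nonneg_left ?_ (by positivity)
        exact mul_le_mul_of_nonneg_right hcard (by positivity)
    _ ≤ _ := mul_le_mul_of_nonneg_left hsum (by positivity)

/-- the gap of the graph in terms of the chain -/
theorem u5_gap {s t : E → V} (hl : ∀ e, s e ≠ t e) (C : Chain (E × Bool) V) (hrv : C.rv = GW.rvd)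
    (htl : C.tl = GW.tl s t) (hs : ∀ a, 1 / 2 ≤ C.s a) (hs1 : ∀ a, C.s a ≤ 1)
    (c : ℚ) (hc : 0 ≤ c)
    (hcut : ∀ T : Finset V,
      c * min (∑ v ∈ T, (dg s t v : ℚ)) (∑ v ∈ Tᶜ, (dg s t v : ℚ)) ≤ ((cut s t T).card : ℚ))
    (φ : V → ℚ) (h0 : ∑ a, C.pi a * φ (C.tl a) = 0) :
    c ^ 2 / 2 * ∑ a, C.pi a * φ (C.tl a) ^ 2 ≤
      ∑ a, C.pi a * (φ (C.tl a) - φ (C.tl (C.rv a))) ^ 2 := by
  rcases isEmpty_or_nonempty (E × Bool) with hE | ⟨⟨a₀⟩⟩
  · simp
  have hZ : 0 < C.Z := C.Z_pos a₀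
  obtain ⟨r, hr⟩ := cheeger_vol hl c hc hcut φ
  have h1 : ∑ a, C.pi a * φ (C.tl a) ^ 2 ≤ ∑ a, C.pi a * (φ (C.tl a) - r) ^ 2 := by
    have h2 : ∑ a, C.pi a * (φ (C.tl a) - r) ^ 2 = ∑ a, C.pi a * φ (C.tl a) ^ 2 -
        2 * r * (∑ a, C.pi a * φ (C.tl a)) + r ^ 2 * ∑ a, C.pi a := by
      rw [mul_sum, mul_sum, ← sum_sub_distrib, ← sum_add_distrib]
      exact sum_congr rfl fun a _ => by ring
    have h3 : 0 ≤ ∑ a, C.pi a := sum_nonneg fun a _ => (C.pi_pos a).le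
    rw [h2, h0]
    nlinarith [mul_nonneg (sq_nonneg r) h3]
  have h2 : ∑ a, C.pi a * (φ (C.tl a) - r) ^ 2 ≤
      (1 / C.Z) * ∑ v, (dg s t v : ℚ) * (φ v - r) ^ 2 := by
    calc ∑ a, C.pi a * (φ (C.tl a) - r) ^ 2 ≤ ∑ a, 1 / C.Z * (φ (GW.tl s t a) - r) ^ 2 := by
          refine sum_le_sum fun a _ => ?_
          rw [htl]
          refine mul_le_mul_of_nonneg_right ?_ (sq_nonneg _)
          unfold Chain.pi
          exact div_le_div_of_nonneg_right (hs1 a) hZ.le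
      _ = 1 / C.Z * ∑ v, (dg s t v : ℚ) * (φ v - r) ^ 2 := by
          rw [← mul_sum, y2_tails hl fun v => (φ v - r) ^ 2]
          rfl
  have h3 : (1 / C.Z) * ∑ e, (φ (s e) - φ (t e)) ^ 2 ≤
      ∑ a, C.pi a * (φ (C.tl a) - φ (C.tl (C.rv a))) ^ 2 := by
    calc (1 / C.Z) * ∑ e, (φ (s e) - φ (t e)) ^ 2 =
        ∑ a : E × Bool, 1 / 2 / C.Z * (φ (s a.1) - φ (t a.1)) ^ 2 := by
          rw [Fintype.sum_prod_type, mul_sum]
          refine sum_congr rfl fun e _ => ?_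
          rw [Fintype.sum_bool]
          ring
      _ ≤ _ := by
          refine sum_le_sum fun a _ => ?_
          have h4 : (φ (C.tl a) - φ (C.tl (C.rv a))) ^ 2 = (φ (s a.1) - φ (t a.1)) ^ 2 := by
            rw [htl, hrv, p9_tl_rvd]
            obtain ⟨e, b⟩ := a
            cases b
            · simp only [GW.tl, GW.hd, Bool.false_eq_true, if_false]
              ring
            · simp only [GW.tl, GW.hd, if_true]
          rw [h4]
          refine mul_le_mul_of_nonneg_right ?_ (sq_nonneg _)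
          unfold Chain.pi
          exact div_le_div_of_nonneg_right (hs a) hZ.le
  calc c ^ 2 / 2 * ∑ a, C.pi a * φ (C.tl a) ^ 2
      ≤ c ^ 2 / 2 * ((1 / C.Z) * ∑ v, (dg s t v : ℚ) * (φ v - r) ^ 2) :=
        mul_le_mul_of_nonneg_left (h1.trans h2) (by positivity)
    _ = (1 / C.Z) * ((c ^ 2 * ∑ v, (dg s t v : ℚ) * (φ v - r) ^ 2) / 2) := by ring
    _ ≤ (1 / C.Z) * ∑ e, (φ (s e) - φ (t e)) ^ 2 := by
        refine mul_le_mul_of_nonneg_left ?_ (by positivity)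
        linarith
    _ ≤ _ := h3

/-- **The contraction**, for arbitrary degrees. -/
theorem contraction_unif {s t : E → V} (hl : ∀ e, s e ≠ t e) (lam : ℚ) (_hlam : 0 < lam)
    (κ : V → E → E → ℚ) (μ : ℚ) (hun : Unif s t lam κ μ)
    (C : Chain (E × Bool) V) (hrv : C.rv = GW.rvd) (htl : C.tl = GW.tl s t)
    (hQ : ∀ a b, C.Q a b = if GW.hd s t a = GW.tl s t b ∧ GW.tl s t a ≠ GW.hd s t b then
      lam + κ (GW.hd s t a) a.1 b.1 else 0) (hs : ∀ a, 1 / 2 ≤ C.s a) (hs1 : ∀ a, C.s a ≤ 1)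
    (c : ℚ) (hc : 0 < c) (hc1 : c ≤ 1)
    (hcut : ∀ T : Finset V,
      c * min (∑ v ∈ T, (dg s t v : ℚ)) (∑ v ∈ Tᶜ, (dg s t v : ℚ)) ≤ ((cut s t T).card : ℚ)) :
    Contr C (1 - c ^ 2 / 416) := by
  intro f hf
  rcases isEmpty_or_nonempty (E × Bool) with hE | ⟨⟨a₀⟩⟩
  · unfold nrm
    simp
  have hZ : 0 < C.Z := C.Z_pos a₀
  have hpi : ∀ a, C.pi a ≤ 1 / C.Z := fun a => by
    unfold Chain.pi
    exact div_le_div_of_nonneg_right (hs1 a) hZ.le
  have hpi2 : ∀ a, 1 / 2 / C.Z ≤ C.pi a := fun a => by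
    unfold Chain.pi
    exact div_le_div_of_nonneg_right (hs a) hZ.le
  have hpiV : ∀ v, (dg s t v : ℚ) / 2 / C.Z ≤ piV C v := by
    intro v
    calc (dg s t v : ℚ) / 2 / C.Z = ((cut s t {v}).card : ℚ) * (1 / 2 / C.Z) := by
          unfold dg
          ring
      _ = ∑ a : E × Bool, (if GW.tl s t a = v then (1 : ℚ) else 0) * (1 / 2 / C.Z) := by
          rw [← sum_mul, y2_card hl v]
      _ ≤ piV C v := by
          unfold piV
          refine sum_le_sum fun a _ => ?_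
          rw [htl]
          split_ifs
          · rw [one_mul]
            exact hpi2 a
          · rw [zero_mul]
  have hM : ∀ b b', C.tl b = C.tl b' →
      2 / 5 * C.pi b * C.pi b' ≤ piV C (C.tl b) * ∑ a, C.pi a * (C.P a b * C.P a b') := by
    intro b b' hbb
    have hbb' : GW.tl s t b = GW.tl s t b' := by
      have := hbb
      rw [htl] at this
      exact this
    have h1 := u5_pair hl lam κ μ hun C hQ hs1 b b' hbb'
    have h2 := hpiV (GW.tl s t b)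
    have h5 : 0 ≤ ∑ a, C.pi a * (C.P a b * C.P a b') := sum_nonneg fun a _ =>
      mul_nonneg (C.pi_pos a).le (mul_nonneg (C.P_nonneg _ _) (C.P_nonneg _ _))
    rw [htl]
    calc 2 / 5 * C.pi b * C.pi b' ≤ 2 / 5 * (1 / C.Z) * (1 / C.Z) :=
          mul_le_mul (mul_le_mul_of_nonneg_left (hpi b) (by norm_num)) (hpi b') (C.pi_pos b').le
            (by positivity)
      _ = 4 / 5 * (1 / (2 * C.Z ^ 2)) := by
          field_simp
          ring
      _ ≤ (dg s t (GW.tl s t b) * C.Z * ∑ a, C.pi a * (C.P a b * C.P a b')) *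
            (1 / (2 * C.Z ^ 2)) := mul_le_mul_of_nonneg_right h1 (by positivity)
      _ = (dg s t (GW.tl s t b) : ℚ) / 2 / C.Z * ∑ a, C.pi a * (C.P a b * C.P a b') := by
          field_simp
      _ ≤ _ := mul_le_mul_of_nonneg_right h2 h5
  have hc2 : c ^ 2 ≤ 1 := pow_le_one₀ hc.le hc1
  have hmain := y2_contr C (2 / 5) (c ^ 2 / 4) (by norm_num) (by norm_num) (by linarith) hM
    (fun φ h0 => by
      have h1 := u5_gap hl C hrv htl hs hs1 c hc.le hcut φ h0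
      linarith) f hf
  unfold nrm
  simp only [y2_lz]
  refine hmain.trans ?_
  refine mul_le_mul_of_nonneg_right ?_
    (sum_nonneg fun a _ => mul_nonneg (C.pi_pos a).le (sq_nonneg _))
  nlinarith [sq_nonneg (c ^ 2 / 416), sq_nonneg c]

end Pool.Agent.Lib.MP_95bb8c_al.PX
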