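import Pool.Agent.Lib.MP_95bb8c_al.PX.Defs
import Pool.Agent.Lib.MP_95bb8c_al.GW.Defs

set_option autoImplicit false
set_option linter.unusedSectionVars false

/-!
# Expanding Whitehead graphs with arbitrary degrees: definitions
-/

namespace Pool.Agent.Lib.MP_95bb8c_al.PX

open Finset

variable {V E : Type} [Fintype V] [DecidableEq V] [Fintype E] [DecidableEq E]

/-- The degree of a vertex. -/
def dg (s t : E → V) (v : V) : ℕ := (cut s t {v}).card

/-- The weights `lam + κ` are nearly uniform at every vertex. -/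
structure Unif (s t : E → V) (lam : ℚ) (κ : V → E → E → ℚ) (μ : ℚ) : Prop where
  nonneg : ∀ v e f, 0 ≤ κ v e f
  mu_nonneg : 0 ≤ μ
  mu_le : μ ≤ 1 / 1000
  mult : ∀ u v, u ≠ v → ((GW.J s t u v).card : ℚ) ≤ μ * dg s t v
  up : ∀ v e f, (lam + κ v e f) * dg s t v ≤ 11 / 10
  low : ∀ v, ∀ e ∈ cut s t {v}, (1 - 2 * μ) * dg s t v ≤
    (((cut s t {v}).filter fun f => 9 / 10 ≤ (lam + κ v e f) * dg s t v ∧
      ∀ u, ¬ (e ∈ GW.J s t u v ∧ f ∈ GW.J s t u v)).card : ℚ)
  sym : ∀ v e f, κ v e f = κ v f e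

end Pool.Agent.Lib.MP_95bb8c_al.PX
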