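import Pool.Agent.Lib.MP_95bb8c_al.PX.KappaUnif
import Pool.Agent.Lib.MP_95bb8c_al.PX.UBounds
import Pool.Agent.Lib.MP_95bb8c_al.PX.UContract
import Pool.Agent.Lib.MP_95bb8c_al.PX.LMixing
import Pool.Agent.Lib.MP_95bb8c_al.PX.LGraphLaw
import Pool.Agent.Lib.MP_95bb8c_al.PS.TheChain
import Pool.Agent.Lib.MP_95bb8c_al.GW.Three

set_option autoImplicit false
set_option linter.unusedSectionVars false

/-!
# Expanding Whitehead graphs with arbitrary degrees: the final theorem, explicit form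
-/

namespace Pool.Agent.Lib.MP_95bb8c_al.PX

open Finset Matrix PS

variable {n : ℕ}

/-- From a list of cycles with the prescribed numbers to polygonality. -/
private theorem u6_polygonal {U : List (List (Letter n))} (hU : CycRed U)
    (κ : Letter n → Pos U → Pos U → ℚ) (hκ0 : ∀ v e f, 0 ≤ κ v e f)
    (hκc : ∀ v, ∀ e ∈ star U v, ∀ f ∈ star U v,
        κ (bar v) (conMap U v e) (conMap U v f) = κ v e f)
    (lam : ℚ) (hlam : 0 < lam) (L : List (Finset (Pos U))) (N : ℕ) (hN : 0 < N)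
    (hL1 : ∀ C ∈ L, IsCycle (src U) (tgt U) C)
    (hL2 : ∀ v, ∀ e ∈ cut (src U) (tgt U) {v}, ∀ f ∈ cut (src U) (tgt U) {v},
        ((L.countP fun C => e ∈ C ∧ f ∈ C : ℕ) : ℚ) =
          N * (if e = f then 1 else lam + κ v e f))
    {u v w : Letter n} (huw : u ≠ w) {e f : Pos U} (he : e ∈ GW.J (src U) (tgt U) u v)
    (hf : f ∈ GW.J (src U) (tgt U) v w) : GW.Polygonal U := by
  have hl := no_loop hU
  refine ⟨L, hL1, ?_, ?_⟩
  · have he1 := GW.oth_of_mem_J hl he
    have hf' := hf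
    rw [GW.J_comm] at hf'
    have hf1 := GW.oth_of_mem_J hl hf'
    have hne : e ≠ f := by
      intro hef
      rw [hef] at he1
      exact huw (he1.2.symm.trans hf1.2)
    have h1 := hL2 _ e he1.1 f hf1.1
    rw [if_neg hne] at h1
    have h2 : (0 : ℚ) < ((L.countP fun C => e ∈ C ∧ f ∈ C : ℕ) : ℚ) := by
      rw [h1]
      refine mul_pos (by exact_mod_cast hN) ?_
      have := hκ0 v e f
      linarith
    have h3 : 0 < (L.countP fun C => e ∈ C ∧ f ∈ C) := by exact_mod_cast h2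
    obtain ⟨C, hC, hC2⟩ := List.countP_pos_iff.1 h3
    have hC3 : e ∈ C ∧ f ∈ C := by simpa using hC2
    exact ⟨C, hC, GW.three_le hl (hL1 C hC) huw he hf hC3.1 hC3.2⟩
  · intro v e he f hf
    have he' := conMap_mem hU v e he
    have hf' := conMap_mem hU v f hf
    have h1 := hL2 v e he f hf
    have h2 := hL2 (bar v) _ he' _ hf'
    have h3 : ((L.countP fun C => e ∈ C ∧ f ∈ C : ℕ) : ℚ) =
        ((L.countP fun C => conMap U v e ∈ C ∧ conMap U v f ∈ C : ℕ) : ℚ) := by
      rw [h1, h2]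
      by_cases hef : e = f
      · rw [if_pos hef, if_pos (by rw [hef])]
      · rw [if_neg hef, if_neg (fun h => hef (conMap_inj hU v e he f hf h)), hκc v e he f hf]
    exact_mod_cast h3

/-- `T` lazy steps. The constants: `D` = largest number of occurrences, `lam = 1 / (16 D)`,
`ρ a = 1 - lam (occ a - 1)`, `B = 10 L`, `ε = 3 μ`, `β = 1 / 2`, `η = 1 - c ^ 2 / 416`,
`γ = 40 L η ^ T`, `N = 3 T + 4`. -/
theorem expand_unif (hn : 1 < n) {U : List (List (Letter n))} (hU : CycRed U) (hne : U ≠ [])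
    (c μ L : ℚ) (hc : 0 < c)
    (hμ : ∀ u v : Letter n, u ≠ v → (GW.mult U u v : ℚ) ≤ μ * occ U v.1)
    (hL : ∀ a, 0 < occ U a → (Fintype.card (Pos U) : ℚ) ≤ L * occ U a)
    (hcut : ∀ T : Finset (Letter n), c * min (∑ v ∈ T, (occ U v.1 : ℚ))
      (∑ v ∈ Tᶜ, (occ U v.1 : ℚ)) ≤ ((cut (src U) (tgt U) T).card : ℚ)) (T : ℕ)
    (h1 : 40000 * (T + 2 : ℚ) ^ 3 * (40 * L * (1 - c ^ 2 / 416) ^ T) ≤ 1)
    (h2 : 40000 * (T + 2 : ℚ) ^ 3 * μ ≤ 1) :
    GW.Polygonal U := by
  classical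
  have hl := no_loop hU
  have hTq : (0 : ℚ) ≤ T := Nat.cast_nonneg _
  -- a position exists
  obtain ⟨p₀⟩ : Nonempty (Pos U) := by
    have h3 : 0 < U.length := List.length_pos_of_ne_nil hne
    have h4 : 0 < (U.get ⟨0, h3⟩).length :=
      List.length_pos_of_ne_nil (hU.1 _ (List.get_mem _ _))
    exact ⟨⟨⟨0, h3⟩, ⟨0, h4⟩⟩⟩
  have : Nonempty (Pos U × Bool) := ⟨(p₀, true)⟩
  have hdeg : ∀ v : Letter n, (star U v).card = occ U v.1 := fun v => dg_eq hU v
  have hdg : ∀ v : Letter n, dg (src U) (tgt U) v = occ U v.1 := fun v => hdeg v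
  -- a vertex of positive degree
  obtain ⟨v, hv⟩ : ∃ v : Letter n, v = src U p₀ := ⟨_, rfl⟩
  have hpv : p₀ ∈ star U v := by
    unfold star
    rw [mem_star hl]
    exact Or.inl hv.symm
  have hocc : 0 < occ U v.1 := by
    rw [← hdeg]
    exact Finset.card_pos.2 ⟨p₀, hpv⟩
  have hoccq : (0 : ℚ) < occ U v.1 := by exact_mod_cast hocc
  -- the size of `μ`
  have hT3 : (8 : ℚ) ≤ ((T : ℚ) + 2) ^ 3 := by
    calc (8 : ℚ) = 2 ^ 3 := by norm_num
      _ ≤ ((T : ℚ) + 2) ^ 3 := pow_le_pow_left₀ (by norm_num) (by linarith) 3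
  have hμ0 : 0 ≤ μ := by
    have h3 := hμ (tgt U p₀) v (by rw [hv]; exact (hl p₀).symm)
    have h4 : (0 : ℚ) ≤ (GW.mult U (tgt U p₀) v : ℚ) := Nat.cast_nonneg _
    by_contra hcon
    push Not at hcon
    have h5 : μ * occ U v.1 < 0 := mul_neg_of_neg_of_pos hcon hoccq
    linarith
  have hμ1 : μ ≤ 1 / 1000 := by
    have h3 : 40000 * (8 : ℚ) * μ ≤ 40000 * ((T : ℚ) + 2) ^ 3 * μ :=
      mul_le_mul_of_nonneg_right (mul_le_mul_of_nonneg_left hT3 (by norm_num)) hμ0
    linarith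
  -- `c` is at most one
  have hc1 : c ≤ 1 := by
    have h3 := hcut {v}
    have h4 : (occ U v.1 : ℚ) ≤ ∑ w ∈ ({v} : Finset (Letter n))ᶜ, (occ U w.1 : ℚ) := by
      have h5 : bar v ∈ ({v} : Finset (Letter n))ᶜ := by
        rw [Finset.mem_compl, Finset.mem_singleton]
        intro h6
        have h7 := congrArg Prod.snd h6
        simp [bar] at h7
      have h6 := Finset.single_le_sum (f := fun w : Letter n => (occ U w.1 : ℚ))
        (fun w _ => Nat.cast_nonneg _) h5
      exact h6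
    rw [Finset.sum_singleton, min_eq_left h4] at h3
    have h5 : ((cut (src U) (tgt U) {v}).card : ℚ) = occ U v.1 := by
      exact_mod_cast hdg v
    rw [h5] at h3
    by_contra hcon
    push Not at hcon
    have h6 : 1 * (occ U v.1 : ℚ) < c * occ U v.1 := mul_lt_mul_of_pos_right hcon hoccq
    linarith
  -- `L` is at least one
  have hcardocc : ∀ a : Fin n, occ U a ≤ Fintype.card (Pos U) := by
    intro a
    have h3 := hdeg (a, true)
    rw [← h3]
    exact Finset.card_le_univ _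
  have hL1 : 1 ≤ L := by
    have h3 := hL v.1 hocc
    have h4 : (occ U v.1 : ℚ) ≤ Fintype.card (Pos U) := by exact_mod_cast hcardocc v.1
    by_contra hcon
    push Not at hcon
    have h6 : L * (occ U v.1 : ℚ) < 1 * occ U v.1 := mul_lt_mul_of_pos_right hcon hoccq
    linarith
  -- the largest degree
  obtain ⟨D, hD, hD1⟩ : ∃ D : ℕ, (∀ a, occ U a ≤ D) ∧ 1 ≤ D :=
    ⟨Fintype.card (Pos U), hcardocc, le_trans hocc (hcardocc v.1)⟩
  have hDq : (1 : ℚ) ≤ D := by exact_mod_cast hD1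
  have hDq' : ∀ a, (occ U a : ℚ) ≤ D := fun a => by exact_mod_cast hD a
  obtain ⟨lam, hlamdef⟩ : ∃ lam : ℚ, lam = 1 / (16 * D) := ⟨_, rfl⟩
  have hlam0 : 0 < lam := by rw [hlamdef]; positivity
  have hlamD : lam * D = 1 / 16 := by rw [hlamdef]; field_simp
  have hlamocc : ∀ a, lam * occ U a ≤ 1 / 16 := by
    intro a
    rw [← hlamD]
    exact mul_le_mul_of_nonneg_left (hDq' a) hlam0.le
  have hlam16 : lam ≤ 1 / 16 := by
    rw [← hlamD]
    exact le_mul_of_one_le_right hlam0.le hDq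
  let ρ : Fin n → ℚ := fun a => 1 - lam * ((occ U a : ℚ) - 1)
  have hρdef : ∀ a, ρ a = 1 - lam * ((occ U a : ℚ) - 1) := fun _ => rfl
  have hρlow : ∀ a, 15 / 16 ≤ ρ a := by
    intro a
    rw [hρdef]
    have h3 := hlamocc a
    have h4 : lam * ((occ U a : ℚ) - 1) = lam * occ U a - lam := by ring
    linarith
  have hρ1 : ∀ a, 0 < occ U a → ρ a ≤ 1 := by
    intro a ha
    rw [hρdef]
    have h3 : (1 : ℚ) ≤ occ U a := by exact_mod_cast ha
    have h4 : 0 ≤ lam * ((occ U a : ℚ) - 1) := mul_nonneg hlam0.le (by linarith)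
    linarith
  obtain ⟨κ, hκ0, hκs, hκp, hκr, hκc, hκu, hκl⟩ := exists_kappa_unif hU ρ
    (fun a => by have := hρlow a; linarith) μ hμ0 hμ1 hμ
  -- the weights are nearly uniform
  have hun : Unif (src U) (tgt U) lam κ μ := by
    refine ⟨hκ0, hμ0, hμ1, ?_, ?_, ?_, hκs⟩
    · intro u w huw
      rw [hdg]
      exact hμ u w huw
    · intro w e f
      rw [hdg, add_mul]
      rcases Nat.eq_zero_or_pos (occ U w.1) with h0 | h0
      · rw [h0]
        norm_num
      · have h3 := hκu w e f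
        have h4 := hρ1 w.1 h0
        have h5 := hlamocc w.1
        linarith
    · intro w e he
      have h3 := hκl w e he
      rw [hdg]
      refine h3.trans ?_
      have h4 : ((star U w).filter fun f => 49 / 50 * ρ w.1 ≤ κ w e f * occ U w.1) ⊆
          ((cut (src U) (tgt U) {w}).filter fun f =>
            9 / 10 ≤ (lam + κ w e f) * (occ U w.1 : ℚ) ∧
            ∀ u, ¬ (e ∈ GW.J (src U) (tgt U) u w ∧ f ∈ GW.J (src U) (tgt U) u w)) := by
        intro f hf
        rw [Finset.mem_filter] at hf ⊢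
        refine ⟨hf.1, ?_, ?_⟩
        · have h5 := hρlow w.1
          have h6 : 0 ≤ lam * (occ U w.1 : ℚ) := mul_nonneg hlam0.le (Nat.cast_nonneg _)
          rw [add_mul]
          linarith [hf.2]
        · rintro u ⟨h5, h6⟩
          have h7 := hκp u w e h5 f h6
          have h8 := hf.2
          rw [h7, zero_mul] at h8
          have h9 := hρlow w.1
          linarith
      exact_mod_cast Finset.card_le_card h4
  have hrow : ∀ v, ∀ e ∈ cut (src U) (tgt U) {v},
      ∑ f ∈ (cut (src U) (tgt U) {v}).erase e, (lam + κ v e f) = 1 := by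
    intro v e he
    have h3 : κ v e e = 0 := by
      have h4 := (GW.mem_J_oth hl he).2
      rw [GW.J_comm] at h4
      exact hκp _ v e h4 e h4
    have h4 := hκr v e he
    unfold star at h4
    rw [Finset.sum_add_distrib, Finset.sum_const, Finset.card_erase_of_mem he, nsmul_eq_mul]
    have h5 : ∑ f ∈ (cut (src U) (tgt U) {v}).erase e, κ v e f = ρ v.1 := by
      rw [← h4, ← Finset.add_sum_erase _ _ he, h3, zero_add]
    have h6 : 1 ≤ (cut (src U) (tgt U) {v}).card := Finset.card_pos.2 ⟨e, he⟩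
    rw [h5, Nat.cast_sub h6, Nat.cast_one]
    have h7 : (((cut (src U) (tgt U) {v}).card : ℕ) : ℚ) = occ U v.1 := by
      exact_mod_cast hdg v
    rw [h7, hρdef]
    ring
  have hmJ : ∀ u v, 2 * lam * (GW.J (src U) (tgt U) u v).card ≤ 1 := by
    intro u w
    have h3 : ((GW.J (src U) (tgt U) u w).card : ℚ) ≤ D := by
      have h4 : (GW.J (src U) (tgt U) u w).card ≤ occ U w.1 := by
        rw [← hdeg]
        exact Finset.card_le_card fun e he => (GW.oth_of_mem_J hl he).1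
      exact_mod_cast h4.trans (hD w.1)
    have h4 : 2 * lam * (GW.J (src U) (tgt U) u w).card ≤ 2 * lam * D :=
      mul_le_mul_of_nonneg_left h3 (by linarith)
    linarith
  -- the chain
  obtain ⟨C, hrv, htl, hQ, hs⟩ := exists_chain hl lam hlam0 κ hκ0 hκs hκp hrow hmJ
  have hover : C.Over (1 / 2) :=
    over_unif hl lam hlam0 κ μ hun C hrv htl hQ (fun a => (hs a).2)
  have hstep : C.Step (3 * μ) :=
    step_unif hl lam hlam0 κ μ hun C hrv htl hQ (fun a => (hs a).1)
  have hmax : ∀ a b, C.P a b ≤ 10 * L * C.pi b := by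
    intro a b
    refine top_unif hl lam hlam0 κ μ hun C hrv htl hQ (fun a => (hs a).1) (fun a => (hs a).2)
      (10 * L) ?_ a b
    intro w hw
    rw [hdg] at hw ⊢
    have h3 := hL w.1 hw
    linarith
  have hcontr : Contr C (1 - c ^ 2 / 416) := by
    refine contraction_unif hl lam hlam0 κ μ hun C hrv htl hQ (fun a => (hs a).1)
      (fun a => (hs a).2) c hc hc1 ?_
    intro T'
    have h3 := hcut T'
    simp only [hdg]
    exact h3
  have hc2 : c ^ 2 ≤ 1 := pow_le_one₀ hc.le hc1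
  have hc2' : 0 ≤ c ^ 2 := by positivity
  have hmix : LMix C (10 * L) T (40 * L * (1 - c ^ 2 / 416) ^ T) :=
    lazy_mix C (1 - c ^ 2 / 416) (10 * L) _ (by linarith) (by linarith) hcontr (by linarith)
      hmax T (le_of_eq (by ring))
  have hη0 : 0 ≤ (1 - c ^ 2 / 416) ^ T := pow_nonneg (by linarith) T
  have hγ0 : 0 ≤ 40 * L * (1 - c ^ 2 / 416) ^ T := by positivity
  -- the numbers
  have hN : ((3 * T + 3 : ℕ) : ℚ) + 1 ≤ 3 * (T + 2) := by
    push_cast
    linarith
  have hN0 : (0 : ℚ) ≤ ((3 * T + 3 : ℕ) : ℚ) + 1 := by positivity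
  obtain ⟨γ, hγ⟩ : ∃ γ : ℚ, γ = 40 * L * (1 - c ^ 2 / 416) ^ T := ⟨_, rfl⟩
  rw [← hγ] at hmix hγ0 h1
  obtain ⟨W, N, hN1, hW1, hW2⟩ := lazy_graph_list hl lam hlam0 κ hκ0 hκs hκp hrow C hrv htl hQ
    (10 * L) T γ (1 / 2) (3 * μ) hγ0 hmix (by norm_num) (by norm_num) hover (by positivity)
    hstep (3 * T + 3) le_rfl
    (by
      have h3 : 56 * (((3 * T + 3 : ℕ) : ℚ) + 1) ^ 3 * (2 * (3 * μ) + γ) ≤
          56 * (3 * ((T : ℚ) + 2)) ^ 3 * (2 * (3 * μ) + γ) :=
        mul_le_mul_of_nonneg_right (mul_le_mul_of_nonneg_left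
          (pow_le_pow_left₀ hN0 hN 3) (by norm_num)) (by positivity)
      refine le_trans h3 ?_
      have h4 : 56 * (3 * ((T : ℚ) + 2)) ^ 3 * (2 * (3 * μ) + γ) =
          9072 * (((T : ℚ) + 2) ^ 3 * μ) + 1512 * (((T : ℚ) + 2) ^ 3 * γ) := by
        ring
      have h5 : 40000 * (((T : ℚ) + 2) ^ 3 * μ) ≤ 1 := by
        rw [← mul_assoc]
        exact h2
      have h6 : 40000 * (((T : ℚ) + 2) ^ 3 * γ) ≤ 1 := by
        rw [← mul_assoc]
        exact h1
      rw [h4]
      linarith)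
  -- a vertex with two different neighbours
  have hej := GW.mem_J_oth hl hpv
  obtain ⟨f, hf, hfne⟩ : ∃ f ∈ star U v, GW.oth (src U) (tgt U) v f ≠
      GW.oth (src U) (tgt U) v p₀ := by
    by_contra hcon
    push Not at hcon
    have h3 : star U v ⊆ GW.J (src U) (tgt U) v (GW.oth (src U) (tgt U) v p₀) := by
      intro f hf
      have h4 := (GW.mem_J_oth hl hf).2
      rw [hcon f hf] at h4
      exact h4
    have h4 : (occ U v.1 : ℚ) ≤ ((GW.J (src U) (tgt U) v
        (GW.oth (src U) (tgt U) v p₀)).card : ℚ) := by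
      rw [← hdeg]
      exact_mod_cast Finset.card_le_card h3
    rw [GW.J_comm] at h4
    have h5 : GW.oth (src U) (tgt U) v p₀ ≠ v := by
      intro h6
      have h7 := hej.2
      rw [h6] at h7
      unfold GW.J at h7
      rw [Finset.mem_filter] at h7
      exact h7.2.1 rfl
    have h6 := hμ _ v h5
    have h7 : (occ U v.1 : ℚ) ≤ μ * occ U v.1 := h4.trans h6
    have h8 : μ * (occ U v.1 : ℚ) ≤ 1 / 1000 * occ U v.1 :=
      mul_le_mul_of_nonneg_right hμ1 hoccq.le
    linarith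
  have hfj := (GW.mem_J_oth hl hf).2
  have hej' := hej.2
  rw [GW.J_comm] at hej'
  exact u6_polygonal hU κ hκ0 hκc lam hlam0 W N hN1 hW1 hW2 (fun h => hfne h.symm) hej' hfj

end Pool.Agent.Lib.MP_95bb8c_al.PX
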