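import Mathlib

set_option autoImplicit false

/-!
# Expanding Whitehead graphs, arbitrary degrees: the number of lazy steps
-/

namespace Pool.Agent.Lib.MP_95bb8c_al.PX

/-- The choice of the number of lazy steps. -/
theorem ulog_num (c L μ : ℚ) (hc0 : 0 < c) (hc1 : c ≤ 1) (hL1 : 1 ≤ L) (hμ : 0 ≤ μ)
    (h : 10 ^ 18 * Real.log (2 * L / c) ^ 3 * μ ≤ (c : ℝ) ^ 6) :
    ∃ T : ℕ, 40000 * (T + 2 : ℚ) ^ 3 * (40 * L * (1 - c ^ 2 / 416) ^ T) ≤ 1 ∧
      40000 * (T + 2 : ℚ) ^ 3 * μ ≤ 1 := by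
  set t : ℝ := (c : ℝ) with ht
  set l : ℝ := (L : ℝ) with hl
  set m : ℝ := (μ : ℝ) with hm
  have ht0 : 0 < t := by rw [ht]; exact_mod_cast hc0
  have ht1 : t ≤ 1 := by rw [ht]; exact_mod_cast hc1
  have hl1 : 1 ≤ l := by rw [hl]; exact_mod_cast hL1
  have hm0 : 0 ≤ m := by rw [hm]; exact_mod_cast hμ
  set x : ℝ := 2 * l / t with hx
  have hxt : x * t = 2 * l := by rw [hx]; field_simp
  have hx2 : 2 ≤ x := by
    rw [hx, le_div_iff₀ ht0]
    nlinarith
  have hx0 : 0 < x := by linarith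
  set w : ℝ := Real.log x with hw
  have hw2 : 0.6931471803 < w := by
    have h1 := Real.log_two_gt_d9
    have h2 : Real.log 2 ≤ w := Real.log_le_log two_pos hx2
    linarith
  have hwx : w ≤ x := by
    have := Real.log_le_sub_one_of_pos hx0
    linarith
  have hw0 : 0 < w := by linarith
  have ht3 : 0 < t ^ 2 := by positivity
  have ht31 : t ^ 2 ≤ 1 := pow_le_one₀ ht0.le ht1
  -- the number of steps
  set T : ℕ := ⌈29120 * w / t ^ 2⌉₊ with hT
  have hT1 : 29120 * w / t ^ 2 ≤ T := Nat.le_ceil _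
  have hT2 : (T : ℝ) < 29120 * w / t ^ 2 + 1 := Nat.ceil_lt_add_one (by positivity)
  have hT3 : (T : ℝ) * t ^ 2 ≤ 29120 * w + t ^ 2 := by
    have h1 : (T : ℝ) * t ^ 2 ≤ (29120 * w / t ^ 2 + 1) * t ^ 2 :=
      mul_le_mul_of_nonneg_right hT2.le ht3.le
    have h2 : (29120 * w / t ^ 2 + 1) * t ^ 2 = 29120 * w + t ^ 2 := by field_simp
    linarith
  have hT4 : ((T : ℝ) + 2) * t ^ 2 ≤ 29125 * w := by nlinarith
  have hcube : (((T : ℝ) + 2) * t ^ 2) ^ 3 ≤ (29125 * w) ^ 3 :=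
    pow_le_pow_left₀ (by positivity) hT4 3
  refine ⟨T, ?_, ?_⟩
  · -- the geometric factor
    have h1 : (1 - t ^ 2 / 416) ^ T ≤ (x ^ 70)⁻¹ := by
      have h2 : 1 - t ^ 2 / 416 ≤ Real.exp (-(t ^ 2 / 416)) := by
        have := Real.add_one_le_exp (-(t ^ 2 / 416))
        linarith
      have h3 : (1 - t ^ 2 / 416) ^ T ≤ Real.exp (-(t ^ 2 / 416)) ^ T :=
        pow_le_pow_left₀ (by linarith) h2 T
      have h4 : Real.exp (-(t ^ 2 / 416)) ^ T = Real.exp (-(t ^ 2 * T / 416)) := by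
        rw [← Real.exp_nat_mul]
        congr 1
        ring
      have h5 : Real.exp (-(t ^ 2 * T / 416)) ≤ Real.exp (-(70 * w)) := by
        rw [Real.exp_le_exp]
        have h6 : 29120 * w / t ^ 2 * t ^ 2 ≤ T * t ^ 2 := mul_le_mul_of_nonneg_right hT1 ht3.le
        have h7 : 29120 * w / t ^ 2 * t ^ 2 = 29120 * w := by field_simp
        linarith
      have h6 : Real.exp (-(70 * w)) = (x ^ 70)⁻¹ := by
        rw [Real.exp_neg, inv_inj]
        have h7 : (70 : ℝ) * w = ((70 : ℕ) : ℝ) * w := by norm_num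
        rw [h7, Real.exp_nat_mul, hw, Real.exp_log hx0]
      linarith [h3, h4.le, h5, h6.le]
    have hreal : 40000 * ((T : ℝ) + 2) ^ 3 * (40 * l * (1 - t ^ 2 / 416) ^ T) ≤ 1 := by
      have h2 : 40000 * ((T : ℝ) + 2) ^ 3 * (40 * l * (1 - t ^ 2 / 416) ^ T) ≤
          40000 * ((T : ℝ) + 2) ^ 3 * (40 * l * (x ^ 70)⁻¹) :=
        mul_le_mul_of_nonneg_left (mul_le_mul_of_nonneg_left h1 (by positivity)) (by positivity)
      refine h2.trans ?_
      have h3 : 40000 * ((T : ℝ) + 2) ^ 3 * (40 * l * (x ^ 70)⁻¹) =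
          1600000 * ((T : ℝ) + 2) ^ 3 * l / x ^ 70 := by
        ring
      rw [h3, div_le_iff₀ (by positivity), one_mul]
      -- multiply by `t ^ 6`
      have h4 : 1600000 * ((T : ℝ) + 2) ^ 3 * l * t ^ 6 ≤ x ^ 70 * t ^ 6 := by
        have h5 : 1600000 * ((T : ℝ) + 2) ^ 3 * l * t ^ 6 =
            1600000 * ((((T : ℝ) + 2) * t ^ 2) ^ 3) * l := by ring
        have h6 : 1600000 * ((((T : ℝ) + 2) * t ^ 2) ^ 3) * l ≤
            1600000 * (29125 * x) ^ 3 * l := by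
          have h7 : (29125 * w) ^ 3 ≤ (29125 * x) ^ 3 :=
            pow_le_pow_left₀ (by positivity) (by linarith) 3
          have h8 := hcube.trans h7
          have h9 : 1600000 * ((((T : ℝ) + 2) * t ^ 2) ^ 3) ≤ 1600000 * (29125 * x) ^ 3 := by
            linarith
          exact mul_le_mul_of_nonneg_right h9 (by linarith)
        -- `x ^ 70 t ^ 6 = (2 l) ^ 6 x ^ 64 ≥ 64 l x ^ 64`
        have h7 : x ^ 70 * t ^ 6 = (x * t) ^ 6 * x ^ 64 := by ring
        have h8 : 64 * l ≤ (x * t) ^ 6 := by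
          rw [hxt]
          have h9 : l ≤ l ^ 6 := le_self_pow₀ hl1 (by norm_num)
          have h10 : (2 * l) ^ 6 = 64 * l ^ 6 := by ring
          linarith
        have h9 : (2 : ℝ) ^ 61 ≤ x ^ 61 := pow_le_pow_left₀ (by norm_num) hx2 61
        have h10 : 1600000 * (29125 : ℝ) ^ 3 ≤ 64 * 2 ^ 61 := by norm_num
        have h12 : 1600000 * (29125 * x) ^ 3 * l = 1600000 * (29125 : ℝ) ^ 3 * (x ^ 3 * l) := by
          ring
        have h13 : 1600000 * (29125 : ℝ) ^ 3 * (x ^ 3 * l) ≤ 64 * x ^ 61 * (x ^ 3 * l) := by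
          apply mul_le_mul_of_nonneg_right _ (by positivity)
          linarith
        have h14 : 64 * x ^ 61 * (x ^ 3 * l) = 64 * l * x ^ 64 := by ring
        rw [h5, h7]
        refine h6.trans ?_
        rw [h12]
        refine h13.trans ?_
        rw [h14]
        exact mul_le_mul_of_nonneg_right h8 (by positivity)
      exact le_of_mul_le_mul_right h4 (by positivity)
    have h2 : ((40000 * (T + 2 : ℚ) ^ 3 * (40 * L * (1 - c ^ 2 / 416) ^ T) : ℚ) : ℝ) ≤
        ((1 : ℚ) : ℝ) := by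
      push_cast
      exact hreal
    exact_mod_cast h2
  · have hreal : 40000 * ((T : ℝ) + 2) ^ 3 * m ≤ 1 := by
      have h2 : 40000 * ((T : ℝ) + 2) ^ 3 * m * t ^ 6 ≤ 1 * t ^ 6 := by
        have h3 : 40000 * ((T : ℝ) + 2) ^ 3 * m * t ^ 6 =
            40000 * m * (((T : ℝ) + 2) * t ^ 2) ^ 3 := by ring
        have h4 : 40000 * m * (((T : ℝ) + 2) * t ^ 2) ^ 3 ≤ 40000 * m * (29125 * w) ^ 3 :=
          mul_le_mul_of_nonneg_left hcube (by positivity)
        have h5 : 40000 * m * (29125 * w) ^ 3 ≤ 10 ^ 18 * w ^ 3 * m := by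
          have h6 : 0 ≤ m * w ^ 3 := by positivity
          nlinarith
        rw [h3, one_mul]
        exact h4.trans (h5.trans h)
      exact le_of_mul_le_mul_right h2 (by positivity)
    have h2 : ((40000 * (T + 2 : ℚ) ^ 3 * μ : ℚ) : ℝ) ≤ ((1 : ℚ) : ℝ) := by
      push_cast
      exact hreal
    exact_mod_cast h2

end Pool.Agent.Lib.MP_95bb8c_al.PX
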