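import Pool.Agent.Lib.MP_95bb8c_al.PX.UFinal
import Pool.Agent.Lib.MP_95bb8c_al.PX.ULogNum

set_option autoImplicit false
set_option linter.unusedSectionVars false

/-!
# Expanding Whitehead graphs, arbitrary degrees: the logarithmic form
-/

namespace Pool.Agent.Lib.MP_95bb8c_al.PX

open Finset PS

variable {n : ℕ}

/-- The tiling conjecture for lists whose Whitehead graph is an expander with arbitrary degrees
and small multiplicities, logarithmic form. -/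
theorem expand_unif_log (hn : 1 < n) {U : List (List (Letter n))} (hU : CycRed U) (hne : U ≠ [])
    (c δ : ℝ) (hc : 0 < c) (hδ : 0 < δ) (hδ1 : ∀ a, 0 < occ U a → δ ≤ (occ U a : ℝ))
    (hcut : ∀ T : Finset (Letter n), c * min (∑ v ∈ T, (occ U v.1 : ℝ))
      (∑ v ∈ Tᶜ, (occ U v.1 : ℝ)) ≤ ((cut (src U) (tgt U) T).card : ℝ))
    (h : ∀ u v : Letter n, u ≠ v →
      10 ^ 18 * Real.log (2 * Fintype.card (Pos U) / (c * δ)) ^ 3 * GW.mult U u v ≤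
        c ^ 6 * occ U v.1) :
    GW.Polygonal U := by
  classical
  -- a position
  obtain ⟨p₀⟩ : Nonempty (Pos U) := by
    have h3 : 0 < U.length := List.length_pos_of_ne_nil hne
    have h4 : 0 < (U.get ⟨0, h3⟩).length :=
      List.length_pos_of_ne_nil (hU.1 _ (List.get_mem _ _))
    exact ⟨⟨⟨0, h3⟩, ⟨0, h4⟩⟩⟩
  obtain ⟨v₀, hv₀⟩ : ∃ v₀ : Letter n, v₀ = p₀.letter := ⟨_, rfl⟩
  have ho₀ : 0 < occ U v₀.1 := by
    rw [occ_eq, hv₀]
    exact Finset.card_pos.2 ⟨p₀, by rw [Finset.mem_filter]; exact ⟨Finset.mem_univ _, rfl⟩⟩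
  obtain ⟨v₁, hv₁, hv₁ne⟩ : ∃ v₁ : Letter n, v₁.1 = v₀.1 ∧ v₁ ≠ v₀ := by
    refine ⟨(v₀.1, !v₀.2), rfl, fun h => ?_⟩
    have h1 : (!v₀.2) = v₀.2 := congrArg Prod.snd h
    revert h1
    cases v₀.2 <;> simp
  have hoE : ∀ a, occ U a ≤ Fintype.card (Pos U) := by
    intro a
    rw [occ_eq]
    exact Finset.card_le_univ _
  -- volumes
  obtain ⟨vol, hvol⟩ : ∃ vol : Finset (Letter n) → ℕ, ∀ T, vol T = ∑ v ∈ T, occ U v.1 :=
    ⟨_, fun _ => rfl⟩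
  have hvolR : ∀ T : Finset (Letter n), (∑ v ∈ T, (occ U v.1 : ℝ)) = (vol T : ℝ) := by
    intro T
    rw [hvol, Nat.cast_sum]
  have hvolQ : ∀ T : Finset (Letter n), (∑ v ∈ T, (occ U v.1 : ℚ)) = (vol T : ℚ) := by
    intro T
    rw [hvol, Nat.cast_sum]
  obtain ⟨m, hm⟩ : ∃ m : Finset (Letter n) → ℕ, ∀ T, m T = min (vol T) (vol Tᶜ) :=
    ⟨_, fun _ => rfl⟩
  have hcutR : ∀ T : Finset (Letter n), c * (m T : ℝ) ≤ ((cut (src U) (tgt U) T).card : ℝ) := by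
    intro T
    have h1 := hcut T
    rw [hvolR, hvolR, ← Nat.cast_min, ← hm] at h1
    exact h1
  have hm₀ : m {v₀} = occ U v₀.1 := by
    have h1 : vol {v₀} = occ U v₀.1 := by rw [hvol, Finset.sum_singleton]
    have h2 : occ U v₀.1 ≤ vol {v₀}ᶜ := by
      rw [hvol, ← hv₁]
      refine Finset.single_le_sum (f := fun v : Letter n => occ U v.1) (fun _ _ => Nat.zero_le _) ?_
      rw [Finset.mem_compl, Finset.mem_singleton]
      exact hv₁ne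
    rw [hm, h1]
    exact min_eq_left h2
  -- the conductance
  obtain ⟨𝒯, h𝒯⟩ : ∃ 𝒯 : Finset (Finset (Letter n)),
      𝒯 = univ.filter fun T : Finset (Letter n) => 0 < m T := ⟨_, rfl⟩
  have hmem : ∀ T, T ∈ 𝒯 ↔ 0 < m T := by
    intro T
    rw [h𝒯, Finset.mem_filter]
    exact ⟨fun h => h.2, fun h => ⟨Finset.mem_univ _, h⟩⟩
  have hv₀m : ({v₀} : Finset (Letter n)) ∈ 𝒯 := by
    rw [hmem, hm₀]
    exact ho₀
  obtain ⟨T₀, hT₀, hmin⟩ := Finset.exists_min_image 𝒯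
    (fun T => ((cut (src U) (tgt U) T).card : ℚ) / m T) ⟨_, hv₀m⟩
  obtain ⟨c₀, hc₀⟩ : ∃ c₀ : ℚ, c₀ = ((cut (src U) (tgt U) T₀).card : ℚ) / m T₀ := ⟨_, rfl⟩
  rw [hmem] at hT₀
  have hcut₀ : ∀ T : Finset (Letter n), c₀ * min (∑ v ∈ T, (occ U v.1 : ℚ))
      (∑ v ∈ Tᶜ, (occ U v.1 : ℚ)) ≤ ((cut (src U) (tgt U) T).card : ℚ) := by
    intro T
    rw [hvolQ, hvolQ, ← Nat.cast_min, ← hm]
    by_cases hT0 : 0 < m T
    · have h1 := hmin T ((hmem T).2 hT0)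
      have h2 : (0 : ℚ) < m T := by exact_mod_cast hT0
      rw [← hc₀, le_div_iff₀ h2] at h1
      exact h1
    · have h1 : m T = 0 := by omega
      rw [h1, Nat.cast_zero, mul_zero]
      exact Nat.cast_nonneg _
  have hc₀le : c₀ ≤ 1 := by
    have h1 := hmin _ hv₀m
    have h2 : (cut (src U) (tgt U) {v₀}).card = occ U v₀.1 := dg_eq hU v₀
    have h3 : (0 : ℚ) < occ U v₀.1 := by exact_mod_cast ho₀
    rw [← hc₀, hm₀, h2, div_self h3.ne'] at h1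
    exact h1
  have hcc : c ≤ (c₀ : ℝ) := by
    have h1 := hcutR T₀
    have h2 : (0 : ℝ) < m T₀ := by exact_mod_cast hT₀
    have h3 : (c₀ : ℝ) = ((cut (src U) (tgt U) T₀).card : ℝ) / m T₀ := by
      rw [hc₀]
      push_cast
      rfl
    rw [h3, le_div_iff₀ h2]
    exact h1
  have hc₀pos : (0 : ℝ) < c₀ := lt_of_lt_of_le hc hcc
  have hc₀pos' : 0 < c₀ := by exact_mod_cast hc₀pos
  have hc₀leR : (c₀ : ℝ) ≤ 1 := by exact_mod_cast hc₀le
  -- the smallest number of occurrences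
  obtain ⟨a₁, ha₁, hamin⟩ := Finset.exists_min_image
    ((univ : Finset (Fin n)).filter fun a => 0 < occ U a) (fun a => occ U a)
    ⟨v₀.1, by rw [Finset.mem_filter]; exact ⟨Finset.mem_univ _, ho₀⟩⟩
  rw [Finset.mem_filter] at ha₁
  obtain ⟨d₀, hd₀⟩ : ∃ d₀ : ℕ, d₀ = occ U a₁ := ⟨_, rfl⟩
  have hd₀1 : 0 < d₀ := by rw [hd₀]; exact ha₁.2
  have hd₀Q : (0 : ℚ) < d₀ := by exact_mod_cast hd₀1
  have hd₀R : (0 : ℝ) < d₀ := by exact_mod_cast hd₀1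
  have hdmin : ∀ a, 0 < occ U a → d₀ ≤ occ U a := by
    intro a ha
    rw [hd₀]
    exact hamin a (by rw [Finset.mem_filter]; exact ⟨Finset.mem_univ _, ha⟩)
  have hδd : δ ≤ d₀ := by
    rw [hd₀]
    exact hδ1 a₁ ha₁.2
  have hdE : d₀ ≤ Fintype.card (Pos U) := by
    rw [hd₀]
    exact hoE a₁
  have hdEQ : (d₀ : ℚ) ≤ Fintype.card (Pos U) := by exact_mod_cast hdE
  have hdER : (d₀ : ℝ) ≤ Fintype.card (Pos U) := by exact_mod_cast hdE
  obtain ⟨L, hLdef⟩ : ∃ L : ℚ, L = (Fintype.card (Pos U) : ℚ) / d₀ := ⟨_, rfl⟩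
  have hL1 : 1 ≤ L := by
    rw [hLdef, one_le_div hd₀Q]
    exact hdEQ
  have hL : ∀ a, 0 < occ U a → (Fintype.card (Pos U) : ℚ) ≤ L * occ U a := by
    intro a ha
    have h1 : (Fintype.card (Pos U) : ℚ) = L * d₀ := by
      rw [hLdef, div_mul_cancel₀ _ hd₀Q.ne']
    have h2 : (d₀ : ℚ) ≤ occ U a := by exact_mod_cast hdmin a ha
    calc (Fintype.card (Pos U) : ℚ) = L * d₀ := h1
      _ ≤ L * occ U a := mul_le_mul_of_nonneg_left h2 (by linarith)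
  -- the logarithm
  obtain ⟨w, hw⟩ : ∃ w : ℝ, w = Real.log (2 * Fintype.card (Pos U) / (c * δ)) := ⟨_, rfl⟩
  obtain ⟨w₀, hw₀⟩ : ∃ w₀ : ℝ, w₀ = Real.log (2 * L / c₀) := ⟨_, rfl⟩
  rw [← hw] at h
  have hxeq : 2 * (L : ℝ) / c₀ = 2 * Fintype.card (Pos U) / (c₀ * d₀) := by
    rw [hLdef]
    push_cast
    field_simp
  have hcd : c * δ ≤ (c₀ : ℝ) * d₀ := mul_le_mul hcc hδd hδ.le hc₀pos.le
  have hx1 : (2 : ℝ) ≤ 2 * L / c₀ := by
    rw [le_div_iff₀ hc₀pos]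
    have h1 : (1 : ℝ) ≤ L := by exact_mod_cast hL1
    nlinarith
  have hw₀0 : 0 < w₀ := by
    rw [hw₀]
    exact Real.log_pos (by linarith)
  have hww : w₀ ≤ w := by
    rw [hw₀, hw, hxeq]
    have h1 : (0 : ℝ) < Fintype.card (Pos U) := lt_of_lt_of_le hd₀R hdER
    apply Real.log_le_log (by positivity)
    exact div_le_div_of_nonneg_left (by positivity) (by positivity) hcd
  have hw0 : 0 < w := lt_of_lt_of_le hw₀0 hww
  -- the multiplicities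
  obtain ⟨x₁, hx₁, hxmax⟩ := Finset.exists_max_image
    ((univ : Finset (Letter n × Letter n)).filter fun x => x.1 ≠ x.2 ∧ 0 < occ U x.2.1)
    (fun x => (GW.mult U x.1 x.2 : ℚ) / occ U x.2.1)
    ⟨(v₁, v₀), by rw [Finset.mem_filter]; exact ⟨Finset.mem_univ _, hv₁ne, ho₀⟩⟩
  rw [Finset.mem_filter] at hx₁
  obtain ⟨-, hxne, hxo⟩ := hx₁
  have hxoQ : (0 : ℚ) < occ U x₁.2.1 := by exact_mod_cast hxo
  have hxoR : (0 : ℝ) < occ U x₁.2.1 := by exact_mod_cast hxo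
  obtain ⟨μ, hμdef⟩ : ∃ μ : ℚ, μ = (GW.mult U x₁.1 x₁.2 : ℚ) / occ U x₁.2.1 := ⟨_, rfl⟩
  have hμ0 : 0 ≤ μ := by
    rw [hμdef]
    positivity
  have hμ : ∀ u v : Letter n, u ≠ v → (GW.mult U u v : ℚ) ≤ μ * occ U v.1 := by
    intro u v huv
    by_cases hv : 0 < occ U v.1
    · have h1 := hxmax (u, v) (by rw [Finset.mem_filter]; exact ⟨Finset.mem_univ _, huv, hv⟩)
      have h2 : (0 : ℚ) < occ U v.1 := by exact_mod_cast hv
      rw [← hμdef, div_le_iff₀ h2] at h1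
      exact h1
    · have h1 : occ U v.1 = 0 := by omega
      have h2 := h u v huv
      rw [h1, Nat.cast_zero, mul_zero] at h2
      have h3 : (0 : ℝ) < 10 ^ 18 * w ^ 3 := by positivity
      have h4 : (GW.mult U u v : ℝ) ≤ 0 := by
        by_contra hcon
        rw [not_le] at hcon
        have := mul_pos h3 hcon
        linarith
      have h5 : GW.mult U u v = 0 := by
        have : (GW.mult U u v : ℝ) = 0 := le_antisymm h4 (Nat.cast_nonneg _)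
        exact_mod_cast this
      rw [h5, h1]
      simp
  have hlast : 10 ^ 18 * Real.log (2 * L / c₀) ^ 3 * μ ≤ (c₀ : ℝ) ^ 6 := by
    rw [← hw₀]
    have h1 := h x₁.1 x₁.2 hxne
    have h2 : (μ : ℝ) * occ U x₁.2.1 = GW.mult U x₁.1 x₁.2 := by
      rw [hμdef]
      push_cast
      rw [div_mul_cancel₀ _ hxoR.ne']
    have h3 : 10 ^ 18 * w ^ 3 * (μ : ℝ) ≤ c ^ 6 := by
      rw [← h2] at h1
      have h4 : 10 ^ 18 * w ^ 3 * (μ : ℝ) * occ U x₁.2.1 ≤ c ^ 6 * occ U x₁.2.1 := by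
        linarith
      exact le_of_mul_le_mul_right h4 hxoR
    have hμR : (0 : ℝ) ≤ μ := by exact_mod_cast hμ0
    have h5 : 10 ^ 18 * w₀ ^ 3 * (μ : ℝ) ≤ 10 ^ 18 * w ^ 3 * μ := by
      apply mul_le_mul_of_nonneg_right _ hμR
      apply mul_le_mul_of_nonneg_left _ (by norm_num)
      exact pow_le_pow_left₀ hw₀0.le hww 3
    have h6 : c ^ 6 ≤ (c₀ : ℝ) ^ 6 := pow_le_pow_left₀ hc.le hcc 6
    linarith
  obtain ⟨T, h1, h2⟩ := ulog_num c₀ L μ hc₀pos' hc₀le hL1 hμ0 hlast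
  exact expand_unif hn hU hne c₀ μ L hc₀pos' hμ hL hcut₀ T h1 h2

end Pool.Agent.Lib.MP_95bb8c_al.PX
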